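import Mathlib

/-!
# Project QT (MP_78106d_an): definitions

Quasidiagonal and amenable traces on unital C*-algebras, faces of the trace space, the algebra
`D(A)` of continuous functions `f : [0,1] -> M_2(A)` with `f(0)` scalar and `f(1)` diagonal.
-/

open scoped Matrix Kronecker ComplexOrder Matrix.Norms.L2Operator
open Filter Topology

namespace QT

universe u

/-- Complete positivity of a linear map between unital *-algebras: every matrix amplification maps
`M* M` to an element of the form `N* N`. (For C*-algebras the elements `M* M` are exactly the positive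
elements of the matrix algebra.) -/
def IsCP {A B : Type*} [Ring A] [StarRing A] [Algebra ℂ A] [Ring B] [StarRing B] [Algebra ℂ B]
    (φ : A →ₗ[ℂ] B) : Prop :=
  ∀ (m : ℕ) (M : Matrix (Fin m) (Fin m) A), ∃ N : Matrix (Fin m) (Fin m) B,
    (Mᴴ * M).map φ = Nᴴ * N

/-- The normalised trace of a square complex matrix. -/
noncomputable def ntr {ι : Type*} [Fintype ι] (x : Matrix ι ι ℂ) : ℂ :=
  x.trace / (Fintype.card ι : ℂ)

/-- The 2-norm `tr(x* x)^(1/2)` with respect to the normalised trace. -/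
noncomputable def norm2 {ι : Type*} [Fintype ι] (x : Matrix ι ι ℂ) : ℝ :=
  Real.sqrt (ntr (xᴴ * x)).re

/-- A tracial state on a unital C*-algebra. -/
structure TracialState (A : Type u) [CStarAlgebra A] where
  toFun : A →ₗ[ℂ] ℂ
  pos : ∀ a, 0 ≤ toFun (star a * a)
  map_one : toFun 1 = 1
  comm : ∀ a b, toFun (a * b) = toFun (b * a)

/-- A trace is faithful if `τ(a* a) = 0` implies `a = 0`. -/
def TracialState.Faithful {A : Type u} [CStarAlgebra A] (τ : TracialState A) : Prop :=
  ∀ a, τ.toFun (star a * a) = 0 → a = 0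

/-- A trace is amenable if there are unital completely positive maps `φ_n : A -> M_{k(n)}` which are
asymptotically multiplicative in 2-norm and with `tr ∘ φ_n -> τ`. -/
def TracialState.IsAmenable {A : Type u} [CStarAlgebra A] (τ : TracialState A) : Prop :=
  ∃ (k : ℕ → ℕ) (φ : ∀ n, A →ₗ[ℂ] Matrix (Fin (k n)) (Fin (k n)) ℂ),
    (∀ n, 0 < k n) ∧ (∀ n, IsCP (φ n)) ∧ (∀ n, φ n 1 = 1) ∧
    (∀ a b, Tendsto (fun n => norm2 (φ n (a * b) - φ n a * φ n b)) atTop (𝓝 0)) ∧
    (∀ a, Tendsto (fun n => ntr (φ n a)) atTop (𝓝 (τ.toFun a)))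

/-- A trace is quasidiagonal if there are unital completely positive maps `φ_n : A -> M_{k(n)}` which are
asymptotically multiplicative in operator norm and with `tr ∘ φ_n -> τ`. -/
def TracialState.IsQD {A : Type u} [CStarAlgebra A] (τ : TracialState A) : Prop :=
  ∃ (k : ℕ → ℕ) (φ : ∀ n, A →ₗ[ℂ] Matrix (Fin (k n)) (Fin (k n)) ℂ),
    (∀ n, 0 < k n) ∧ (∀ n, IsCP (φ n)) ∧ (∀ n, φ n 1 = 1) ∧
    (∀ a b, Tendsto (fun n => ‖φ n (a * b) - φ n a * φ n b‖) atTop (𝓝 0)) ∧
    (∀ a, Tendsto (fun n => ntr (φ n a)) atTop (𝓝 (τ.toFun a)))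

/-- The convex combination `t τ₁ + (1-t) τ₂` of two tracial states. -/
noncomputable def TracialState.mix {A : Type u} [CStarAlgebra A] (τ₁ τ₂ : TracialState A) (t : ℝ)
    (h0 : 0 ≤ t) (h1 : t ≤ 1) : TracialState A where
  toFun := (t : ℂ) • τ₁.toFun + ((1 - t : ℝ) : ℂ) • τ₂.toFun
  pos a := by
    have h1' : (0 : ℂ) ≤ ((1 - t : ℝ) : ℂ) := by exact_mod_cast sub_nonneg.2 h1
    have h0' : (0 : ℂ) ≤ (t : ℂ) := by exact_mod_cast h0
    simp only [LinearMap.add_apply, LinearMap.smul_apply, smul_eq_mul]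
    exact add_nonneg (mul_nonneg h0' (τ₁.pos a)) (mul_nonneg h1' (τ₂.pos a))
  map_one := by
    simp only [LinearMap.add_apply, LinearMap.smul_apply, smul_eq_mul, τ₁.map_one, τ₂.map_one]
    push_cast; ring
  comm a b := by
    simp only [LinearMap.add_apply, LinearMap.smul_apply, τ₁.comm a b, τ₂.comm a b]

/-- A set of tracial states is a face of the trace space if it is convex and contains the ends of every
open segment (in the trace space) that it meets. -/
def IsFace {A : Type u} [CStarAlgebra A] (F : Set (TracialState A)) : Prop :=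
  (∀ τ₁ ∈ F, ∀ τ₂ ∈ F, ∀ (t : ℝ) (h0 : 0 ≤ t) (h1 : t ≤ 1), τ₁.mix τ₂ t h0 h1 ∈ F) ∧
  (∀ (τ₁ τ₂ : TracialState A) (t : ℝ) (h0 : 0 < t) (h1 : t < 1),
    τ₁.mix τ₂ t h0.le h1.le ∈ F → τ₁ ∈ F ∧ τ₂ ∈ F)

/-- Nuclear embeddability (for C*-algebras this is exactness, by Kirchberg; every nuclear algebra has
this property): there is an embedding `ι` into a unital C*-algebra `B` which is a point-norm limit of
maps factoring through matrix algebras by unital completely positive maps. -/
def NuclearlyEmbeddable (A : Type u) [CStarAlgebra A] : Prop :=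
  ∃ (B : Type u) (_ : CStarAlgebra B) (ι : A →⋆ₐ[ℂ] B), Function.Injective ι ∧
    ∀ (F : Finset A) (ε : ℝ), 0 < ε → ∃ (d : ℕ) (R : A →ₗ[ℂ] Matrix (Fin d) (Fin d) ℂ)
      (S : Matrix (Fin d) (Fin d) ℂ →ₗ[ℂ] B), IsCP R ∧ IsCP S ∧ R 1 = 1 ∧ S 1 = 1 ∧
      ∀ a ∈ F, ‖S (R a) - ι a‖ ≤ ε

section algebraD

variable (A : Type u) [CStarAlgebra A] [PartialOrder A] [StarOrderedRing A]

/-- The C*-algebra of 2 x 2 matrices over `A`. -/
abbrev M2 := CStarMatrix (Fin 2) (Fin 2) A

/-- The *-subalgebra `D(A)` of `C([0,1], M_2(A))` of all `f` with `f(0)` scalar and `f(1)` diagonal. -/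
def D : StarSubalgebra ℂ C(unitInterval, M2 A) where
  carrier := {f | (∃ z : ℂ, f 0 = algebraMap ℂ (M2 A) z) ∧ f 1 0 1 = 0 ∧ f 1 1 0 = 0}
  mul_mem' := by
    rintro f g ⟨⟨z, hz⟩, h1, h2⟩ ⟨⟨w, hw⟩, h3, h4⟩
    refine ⟨⟨z * w, ?_⟩, ?_, ?_⟩
    · simp [hz, hw]
    · simp [CStarMatrix.mul_apply, Fin.sum_univ_two, h1, h3]
    · simp [CStarMatrix.mul_apply, Fin.sum_univ_two, h2, h4]
  add_mem' := by
    rintro f g ⟨⟨z, hz⟩, h1, h2⟩ ⟨⟨w, hw⟩, h3, h4⟩
    refine ⟨⟨z + w, ?_⟩, ?_, ?_⟩
    · simp [hz, hw]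
    · simp [h1, h3]
    · simp [h2, h4]
  algebraMap_mem' := by
    intro z
    refine ⟨⟨z, rfl⟩, ?_, ?_⟩
    · simp [Algebra.algebraMap_eq_smul_one]
    · simp [Algebra.algebraMap_eq_smul_one]
  star_mem' := by
    rintro f ⟨⟨z, hz⟩, h1, h2⟩
    refine ⟨⟨star z, ?_⟩, ?_, ?_⟩
    · rw [ContinuousMap.star_apply, hz, algebraMap_star_comm]
    · simp [CStarMatrix.star_apply, h2]
    · simp [CStarMatrix.star_apply, h1]

theorem continuous_entry (i j : Fin 2) : Continuous fun x : M2 A => x i j := by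
  refine Metric.continuous_iff.2 fun b ε hε => ⟨ε, hε, fun a ha => ?_⟩
  rw [dist_eq_norm] at ha ⊢
  have h := CStarMatrix.norm_entry_le_norm (M := a - b) (i := i) (j := j)
  simp only [CStarMatrix.sub_apply] at h
  exact lt_of_le_of_lt h ha

instance isClosed_D : IsClosed (D A : Set C(unitInterval, M2 A)) := by
  have h1 : IsClosed {f : C(unitInterval, M2 A) | f 0 ∈ Set.range (algebraMap ℂ (M2 A))} := by
    refine IsClosed.preimage (continuous_eval_const (0 : unitInterval)) ?_
    have : Set.range (algebraMap ℂ (M2 A)) = (Submodule.span ℂ {(1 : M2 A)} : Set (M2 A)) := by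
      ext x
      simp [Submodule.mem_span_singleton, Algebra.algebraMap_eq_smul_one]
    rw [this]
    exact Submodule.closed_of_finiteDimensional _
  have h2 : IsClosed {f : C(unitInterval, M2 A) | f 1 0 1 = 0} :=
    isClosed_eq ((continuous_entry A 0 1).comp
      (continuous_eval_const (1 : unitInterval))) continuous_const
  have h3 : IsClosed {f : C(unitInterval, M2 A) | f 1 1 0 = 0} :=
    isClosed_eq ((continuous_entry A 1 0).comp
      (continuous_eval_const (1 : unitInterval))) continuous_const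
  have h := h1.inter (h2.inter h3)
  convert h using 1
  ext f
  constructor
  · rintro ⟨⟨z, hz⟩, h1, h2⟩
    exact ⟨⟨z, hz.symm⟩, h1, h2⟩
  · rintro ⟨⟨z, hz⟩, h1, h2⟩
    exact ⟨⟨z, hz.symm⟩, h1, h2⟩

variable {A}

/-- For `i = 0, 1` the trace `σ_i(f) = τ(f(1)_{ii})` on `D(A)`. -/
noncomputable def sig (τ : TracialState A) (i : Fin 2) : TracialState (D A) where
  toFun :=
    { toFun := fun f => τ.toFun ((f : C(unitInterval, M2 A)) 1 i i)
      map_add' := fun f g => by simp
      map_smul' := fun c f => by simp }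
  pos f := by
    obtain ⟨f, ⟨z, hz⟩, h1, h2⟩ := f
    fin_cases i
    · simpa [CStarMatrix.mul_apply, Fin.sum_univ_two, CStarMatrix.star_apply, h1, h2] using
        τ.pos (f 1 0 0)
    · simpa [CStarMatrix.mul_apply, Fin.sum_univ_two, CStarMatrix.star_apply, h1, h2] using
        τ.pos (f 1 1 1)
  map_one := by
    simp [τ.map_one]
  comm f g := by
    obtain ⟨f, ⟨z, hz⟩, h1, h2⟩ := f
    obtain ⟨g, ⟨w, hw⟩, h3, h4⟩ := g
    fin_cases i
    · simpa [CStarMatrix.mul_apply, Fin.sum_univ_two, h1, h2, h3, h4] using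
        τ.comm (f 1 0 0) (g 1 0 0)
    · simpa [CStarMatrix.mul_apply, Fin.sum_univ_two, h1, h2, h3, h4] using
        τ.comm (f 1 1 1) (g 1 1 1)

end algebraD

/-- THE THEOREM: if `A` is a separable exact (nuclearly embeddable) unital C*-algebra with a faithful
amenable trace `τ` and the quasidiagonal traces on the single separable C*-algebra `D(A)` form a face,
then `τ` is quasidiagonal. -/
def MainStatement : Prop :=
  ∀ (A : Type u) [CStarAlgebra A] [PartialOrder A] [StarOrderedRing A]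
    [TopologicalSpace.SeparableSpace A] (_ : NuclearlyEmbeddable A) (τ : TracialState A)
    (_ : τ.Faithful) (_ : τ.IsAmenable)
    (_ : IsFace {σ : TracialState (D A) | σ.IsQD}), τ.IsQD

end QT
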