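import Mathlib
import Pool.Agent.Helper58.QT.Defs

/-!
# QT-02 CPBasics: elementary facts on completely positive maps (definition `IsCP`)

* `isCP_iff`: for values in `Matrix ι ι ℂ` the condition says that the flattened block matrix
  (indices `Fin m × ι`) is positive semidefinite. (An element `X` of `Matrix (Fin m) (Fin m) (Matrix ι ι ℂ)` is
  `Nᴴ * N` iff its flattening is `≥ 0`: flattening is a *-isomorphism onto `Matrix (Fin m × ι) (Fin m × ι) ℂ`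
  (`Matrix.compRingEquiv` or by hand), and `Matrix.posSemidef_iff_eq_conjTranspose_mul_self`.)
* `isCP_quad`: equivalently `∑ p q, ⟨φ(M_p* M_q) v_q, v_p⟩ ≥ 0` for every row `a : Fin m → A` and all vectors `v p`.
  (Every `Mᴴ * M` is the sum over the rows `k` of `M` of the matrices `(star (M k p) * M k q)_{pq}`.)
* sums, compositions, `a ↦ Wᴴ φ(a) W`, `a ↦ φ(a) ⊗ 1`, *-homomorphisms, multiples by a positive matrix of a positive
  functional: all immediate from `isCP_iff` / `isCP_quad` / the definition.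
* `isCP_star`: `m = 2`, `M = !![1, a; 0, 0]`: `Mᴴ M = !![1, a; a*, a* a]` and `Nᴴ N` is self-adjoint.
* `isCP_norm_sq`: `!![φ 1, φ a; φ(a)*, φ(a* a)] ≥ 0` gives `‖φ a‖ ^ 2 ≤ ‖φ 1‖ * ‖φ (a* a)‖` (for a positive block matrix
  `|⟨φ(a) v, w⟩|² ≤ ⟨φ(a* a) v, v⟩ ⟨φ(1) w, w⟩`, Cauchy-Schwarz for a positive form).
* `isCP_norm_le`: `‖a‖² - a* a ≥ 0` in a C*-algebra, so `φ(a* a) ≤ ‖a‖² φ(1)`, and `‖φ(a* a)‖ ≤ ‖a‖² ‖φ 1‖`.
-/

open scoped Matrix Kronecker ComplexOrder Matrix.Norms.L2Operator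
open Filter Topology

namespace QT

universe u


variable {A : Type u} [CStarAlgebra A] {ι : Type*} [Fintype ι] [DecidableEq ι]


private theorem psd_of_nonneg {n : Type*} [Fintype n] [DecidableEq n] (X : Matrix n n ℂ)
    (h : ∀ x : n → ℂ, 0 ≤ star x ⬝ᵥ (X *ᵥ x)) : X.PosSemidef := by
  rw [← Matrix.isPositive_toEuclideanLin_iff, LinearMap.isPositive_iff_complex]
  intro x
  have h1 : inner ℂ (Matrix.toEuclideanLin X x) x = star (star x.ofLp ⬝ᵥ (X *ᵥ x.ofLp)) := by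
    rw [EuclideanSpace.inner_eq_star_dotProduct, ← Matrix.star_dotProduct_star, star_star,
      dotProduct_comm]
    rfl
  have h2 := h x.ofLp
  have h3 : inner ℂ (Matrix.toEuclideanLin X x) x = star x.ofLp ⬝ᵥ (X *ᵥ x.ofLp) := by
    rw [h1]
    exact Complex.conj_eq_iff_im.2 ((Complex.nonneg_iff.1 h2).2).symm
  rw [h3]
  obtain ⟨h4, h5⟩ := Complex.nonneg_iff.1 h2
  refine ⟨?_, h4⟩
  apply Complex.ext
  · simp
  · simpa using h5

theorem isCP_iff (φ : A →ₗ[ℂ] Matrix ι ι ℂ) : IsCP φ ↔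
    ∀ (m : ℕ) (M : Matrix (Fin m) (Fin m) A),
      (Matrix.of fun p q : Fin m × ι => φ ((Mᴴ * M) p.1 q.1) p.2 q.2).PosSemidef := by
  constructor
  · intro h m M
    obtain ⟨N, hN⟩ := h m M
    have h1 : (Matrix.of fun p q : Fin m × ι => φ ((Mᴴ * M) p.1 q.1) p.2 q.2) =
        (Matrix.of fun p q : Fin m × ι => N p.1 q.1 p.2 q.2)ᴴ *
          (Matrix.of fun p q : Fin m × ι => N p.1 q.1 p.2 q.2) := by
      ext ⟨p, i⟩ ⟨q, j⟩
      have h2 := congrFun (congrFun (congrFun (congrFun hN p) q) i) j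
      rw [Matrix.map_apply] at h2
      rw [Matrix.of_apply, h2, Matrix.mul_apply, Matrix.mul_apply, Fintype.sum_prod_type,
        Matrix.sum_apply]
      refine Finset.sum_congr rfl fun r _ => ?_
      rw [Matrix.mul_apply]
      rfl
    rw [h1]
    exact Matrix.posSemidef_conjTranspose_mul_self _
  · intro h m M
    obtain ⟨C, hC⟩ : ∃ C : Matrix (Fin m × ι) (Fin m × ι) ℂ,
        (Matrix.of fun p q : Fin m × ι => φ ((Mᴴ * M) p.1 q.1) p.2 q.2) = Cᴴ * C := by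
      open scoped MatrixOrder in
      obtain ⟨C, hC⟩ := CStarAlgebra.nonneg_iff_eq_star_mul_self.mp (h m M).nonneg
      exact ⟨C, hC⟩
    refine ⟨Matrix.of fun a b => Matrix.of fun i j => C (a, i) (b, j), ?_⟩
    ext p q i j
    have h2 : φ ((Mᴴ * M) p q) i j = (Cᴴ * C) (p, i) (q, j) := congrFun (congrFun hC (p, i)) (q, j)
    rw [Matrix.mul_apply (M := Cᴴ), Fintype.sum_prod_type] at h2
    rw [Matrix.map_apply, h2, Matrix.mul_apply, Matrix.sum_apply]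
    refine Finset.sum_congr rfl fun r _ => ?_
    rw [Matrix.mul_apply]
    rfl

omit [DecidableEq ι] in
private theorem quad_expand (φ : A →ₗ[ℂ] Matrix ι ι ℂ) (m : ℕ) (Y : Matrix (Fin m) (Fin m) A)
    (x : Fin m × ι → ℂ) :
    star x ⬝ᵥ ((Matrix.of fun p q : Fin m × ι => φ (Y p.1 q.1) p.2 q.2) *ᵥ x) =
      ∑ p, ∑ q, star (fun i => x (p, i)) ⬝ᵥ (φ (Y p q)).mulVec (fun i => x (q, i)) := by
  simp only [dotProduct, Matrix.mulVec, Fintype.sum_prod_type, Finset.mul_sum, Matrix.of_apply,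
    Pi.star_apply]
  refine Finset.sum_congr rfl fun p _ => ?_
  rw [Finset.sum_comm]

theorem isCP_quad (φ : A →ₗ[ℂ] Matrix ι ι ℂ) : IsCP φ ↔
    ∀ (m : ℕ) (a : Fin m → A) (v : Fin m → ι → ℂ),
      0 ≤ ∑ p, ∑ q, star (v p) ⬝ᵥ (φ (star (a p) * a q)).mulVec (v q) := by
  rw [isCP_iff]
  constructor
  · intro h m a v
    rcases m with _ | m
    · simp
    have h1 := (h (m + 1) (Matrix.of fun i j => if i = 0 then a j else 0)).dotProduct_mulVec_nonneg
      (fun p => v p.1 p.2)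
    rw [quad_expand φ (m + 1) _ (fun p => v p.1 p.2)] at h1
    refine le_of_le_of_eq h1 ?_
    refine Finset.sum_congr rfl fun p _ => Finset.sum_congr rfl fun q _ => ?_
    have h2 : ((Matrix.of fun i j : Fin (m + 1) => if i = 0 then a j else 0)ᴴ *
        (Matrix.of fun i j : Fin (m + 1) => if i = 0 then a j else 0)) p q = star (a p) * a q := by
      rw [Matrix.mul_apply, Finset.sum_eq_single 0]
      · simp
      · intro b _ hb
        simp [hb]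
      · simp
    rw [h2]
  · intro h m M
    apply psd_of_nonneg
    intro x
    rw [quad_expand φ m _ x]
    have h1 : ∀ p q, star (fun i => x (p, i)) ⬝ᵥ (φ ((Mᴴ * M) p q)).mulVec (fun i => x (q, i)) =
        ∑ k, star (fun i => x (p, i)) ⬝ᵥ (φ (star (M k p) * M k q)).mulVec (fun i => x (q, i)) := by
      intro p q
      rw [Matrix.mul_apply, map_sum, Matrix.sum_mulVec, dotProduct_sum]
      rfl
    have h2 : (∑ p, ∑ q, star (fun i => x (p, i)) ⬝ᵥ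
        (φ ((Mᴴ * M) p q)).mulVec (fun i => x (q, i))) =
        ∑ k, ∑ p, ∑ q, star (fun i => x (p, i)) ⬝ᵥ
          (φ (star (M k p) * M k q)).mulVec (fun i => x (q, i)) := by
      simp only [h1]
      rw [Finset.sum_comm]
      conv_rhs => rw [Finset.sum_comm]
      rw [Finset.sum_comm]
      refine Finset.sum_congr rfl fun p _ => ?_
      rw [Finset.sum_comm]
    rw [h2]
    exact Finset.sum_nonneg fun k _ => h m (fun p => M k p) (fun p i => x (p, i))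

theorem isCP_comp {B C : Type*} [Ring B] [StarRing B] [Algebra ℂ B] [Ring C] [StarRing C]
    [Algebra ℂ C] {φ : A →ₗ[ℂ] B} {ψ : B →ₗ[ℂ] C} (hφ : IsCP φ) (hψ : IsCP ψ) :
    IsCP (ψ ∘ₗ φ) := by
  intro m M
  obtain ⟨N, hN⟩ := hφ m M
  obtain ⟨P, hP⟩ := hψ m N
  refine ⟨P, ?_⟩
  rw [← hP, ← hN]
  ext i j
  rfl

theorem isCP_hom {B C : Type*} [Ring B] [StarRing B] [Algebra ℂ B] [Ring C] [StarRing C]
    [Algebra ℂ C] (φ : B →⋆ₐ[ℂ] C) : IsCP (φ : B →ₗ[ℂ] C) := by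
  intro m M
  refine ⟨M.map φ, ?_⟩
  ext i j
  simp only [Matrix.map_apply, Matrix.mul_apply, Matrix.conjTranspose_apply]
  rw [map_sum]
  refine Finset.sum_congr rfl fun k _ => ?_
  have h1 : φ (star (M k i) * M k j) = star (φ (M k i)) * φ (M k j) := by
    rw [map_mul, map_star]
  exact h1

theorem isCP_add {φ ψ : A →ₗ[ℂ] Matrix ι ι ℂ} (hφ : IsCP φ) (hψ : IsCP ψ) : IsCP (φ + ψ) := by
  rw [isCP_quad] at hφ hψ ⊢
  intro m a v
  refine le_of_le_of_eq (add_nonneg (hφ m a v) (hψ m a v)) ?_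
  rw [← Finset.sum_add_distrib]
  refine Finset.sum_congr rfl fun p _ => ?_
  rw [← Finset.sum_add_distrib]
  refine Finset.sum_congr rfl fun q _ => ?_
  rw [← dotProduct_add, ← Matrix.add_mulVec]
  rfl

/-- compression by a rectangular matrix -/
theorem isCP_conj {κ : Type*} [Fintype κ] [DecidableEq κ] {φ : A →ₗ[ℂ] Matrix ι ι ℂ} (hφ : IsCP φ)
    (W : Matrix ι κ ℂ) (ψ : A →ₗ[ℂ] Matrix κ κ ℂ) (hψ : ∀ a, ψ a = Wᴴ * φ a * W) : IsCP ψ := by
  rw [isCP_quad] at hφ ⊢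
  intro m a v
  refine le_of_le_of_eq (hφ m a fun p => W *ᵥ v p) ?_
  refine Finset.sum_congr rfl fun p _ => Finset.sum_congr rfl fun q _ => ?_
  rw [hψ, ← Matrix.mulVec_mulVec, ← Matrix.mulVec_mulVec, Matrix.star_mulVec,
    ← Matrix.dotProduct_mulVec]

/-- amplification -/
theorem isCP_kron {κ : Type*} [Fintype κ] [DecidableEq κ] {φ : A →ₗ[ℂ] Matrix ι ι ℂ} (hφ : IsCP φ)
    (ψ : A →ₗ[ℂ] Matrix (ι × κ) (ι × κ) ℂ)
    (hψ : ∀ a, ψ a = (φ a) ⊗ₖ (1 : Matrix κ κ ℂ)) : IsCP ψ := by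
  rw [isCP_quad] at hφ ⊢
  intro m a v
  have h1 : ∀ p q, star (v p) ⬝ᵥ (ψ (star (a p) * a q)).mulVec (v q) =
      ∑ k, star (fun i => v p (i, k)) ⬝ᵥ (φ (star (a p) * a q)).mulVec (fun i => v q (i, k)) := by
    intro p q
    rw [hψ]
    simp only [dotProduct, Matrix.mulVec, Fintype.sum_prod_type, Finset.mul_sum, Pi.star_apply,
      Matrix.kroneckerMap_apply, Matrix.one_apply]
    rw [Finset.sum_comm]
    refine Finset.sum_congr rfl fun k _ => Finset.sum_congr rfl fun i _ =>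
      Finset.sum_congr rfl fun j _ => ?_
    rw [Finset.sum_eq_single k]
    · simp
    · intro b _ hb
      simp [hb.symm]
    · simp
  have h2 : (∑ p, ∑ q, star (v p) ⬝ᵥ (ψ (star (a p) * a q)).mulVec (v q)) =
      ∑ k, ∑ p, ∑ q, star (fun i => v p (i, k)) ⬝ᵥ
        (φ (star (a p) * a q)).mulVec (fun i => v q (i, k)) := by
    simp only [h1]
    conv_rhs => rw [Finset.sum_comm]
    refine Finset.sum_congr rfl fun p _ => ?_
    rw [Finset.sum_comm]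
  rw [h2]
  exact Finset.sum_nonneg fun k _ => hφ m a (fun p i => v p (i, k))

/-- a positive functional times a positive matrix -/
theorem isCP_rankone (f : A →ₗ[ℂ] ℂ) (hf : ∀ a, 0 ≤ f (star a * a)) {P : Matrix ι ι ℂ}
    (hP : P.PosSemidef) (ψ : A →ₗ[ℂ] Matrix ι ι ℂ) (hψ : ∀ a, ψ a = f a • P) : IsCP ψ := by
  obtain ⟨C, hC⟩ : ∃ C : Matrix ι ι ℂ, P = Cᴴ * C := by
    open scoped MatrixOrder in
    obtain ⟨C, hC⟩ := CStarAlgebra.nonneg_iff_eq_star_mul_self.mp hP.nonneg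
    exact ⟨C, hC⟩
  rw [isCP_quad]
  intro m a v
  have h1 : ∀ p q, star (v p) ⬝ᵥ (ψ (star (a p) * a q)).mulVec (v q) =
      ∑ r, f (star ((C *ᵥ v p) r • a p) * ((C *ᵥ v q) r • a q)) := by
    intro p q
    rw [hψ, Matrix.smul_mulVec, dotProduct_smul, hC, ← Matrix.mulVec_mulVec,
      Matrix.dotProduct_mulVec, ← Matrix.star_mulVec, dotProduct, smul_eq_mul, Finset.mul_sum]
    refine Finset.sum_congr rfl fun r _ => ?_
    rw [star_smul, smul_mul_smul_comm, map_smul, smul_eq_mul, Pi.star_apply]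
    ring
  have h2 : (∑ p, ∑ q, star (v p) ⬝ᵥ (ψ (star (a p) * a q)).mulVec (v q)) =
      ∑ r, f (star (∑ p, (C *ᵥ v p) r • a p) * (∑ q, (C *ᵥ v q) r • a q)) := by
    simp only [h1]
    have h3 : ∀ r, f (star (∑ p, (C *ᵥ v p) r • a p) * (∑ q, (C *ᵥ v q) r • a q)) =
        ∑ p, ∑ q, f (star ((C *ᵥ v p) r • a p) * ((C *ᵥ v q) r • a q)) := by
      intro r
      rw [star_sum, Finset.sum_mul_sum, map_sum]
      refine Finset.sum_congr rfl fun p _ => ?_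
      rw [map_sum]
    simp only [h3]
    conv_rhs => rw [Finset.sum_comm]
    refine Finset.sum_congr rfl fun p _ => ?_
    rw [Finset.sum_comm]
  rw [h2]
  exact Finset.sum_nonneg fun r _ => hf _

theorem isCP_star {φ : A →ₗ[ℂ] Matrix ι ι ℂ} (hφ : IsCP φ) (a : A) : φ (star a) = (φ a)ᴴ := by
  rw [isCP_iff] at hφ
  have h := (hφ 2 !![1, a; 0, 0]).isHermitian
  ext i j
  have h1 := congrFun (congrFun h ((1 : Fin 2), i)) ((0 : Fin 2), j)
  simp only [Matrix.conjTranspose_apply, Matrix.of_apply, Matrix.mul_apply, Fin.sum_univ_two] at h1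
  simp only [Matrix.cons_val', Matrix.cons_val_zero, Matrix.cons_val_one, Matrix.cons_val_fin_one,
    star_one, one_mul, mul_one, star_zero, mul_zero, add_zero] at h1
  rw [Matrix.conjTranspose_apply]
  exact h1.symm

theorem isCP_posSemidef {φ : A →ₗ[ℂ] Matrix ι ι ℂ} (hφ : IsCP φ) (a : A) :
    (φ (star a * a)).PosSemidef := by
  rw [isCP_iff] at hφ
  have h := (hφ 1 (Matrix.of fun _ _ => a)).submatrix (fun i : ι => ((0 : Fin 1), i))
  convert h using 1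
  ext i j
  simp [Matrix.mul_apply]

private theorem norm_quad_le (X : Matrix ι ι ℂ) (v w : ι → ℂ) :
    ‖star w ⬝ᵥ (X *ᵥ v)‖ ≤ ‖X‖ * ‖(WithLp.toLp 2 v : EuclideanSpace ℂ ι)‖ *
      ‖(WithLp.toLp 2 w : EuclideanSpace ℂ ι)‖ := by
  have h1 : star w ⬝ᵥ (X *ᵥ v) = inner ℂ (WithLp.toLp 2 w : EuclideanSpace ℂ ι)
      (WithLp.toLp 2 (X *ᵥ v) : EuclideanSpace ℂ ι) := by
    rw [EuclideanSpace.inner_eq_star_dotProduct, dotProduct_comm]
  rw [h1]
  refine (norm_inner_le_norm _ _).trans ?_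
  rw [mul_comm]
  refine mul_le_mul_of_nonneg_right ?_ (norm_nonneg _)
  exact Matrix.l2_opNorm_mulVec X (WithLp.toLp 2 v : EuclideanSpace ℂ ι)

omit [DecidableEq ι] in
private theorem quad_self (u : ι → ℂ) :
    star u ⬝ᵥ u = ((‖(WithLp.toLp 2 u : EuclideanSpace ℂ ι)‖ ^ 2 : ℝ) : ℂ) := by
  have h1 : star u ⬝ᵥ u = inner ℂ (WithLp.toLp 2 u : EuclideanSpace ℂ ι)
      (WithLp.toLp 2 u : EuclideanSpace ℂ ι) := by
    rw [EuclideanSpace.inner_eq_star_dotProduct, dotProduct_comm]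
  rw [h1, inner_self_eq_norm_sq_to_K]
  push_cast
  rfl

private theorem l2_le {X : Matrix ι ι ℂ} {c : ℝ} (hc : 0 ≤ c)
    (h : ∀ v : ι → ℂ, ‖(WithLp.toLp 2 (X *ᵥ v) : EuclideanSpace ℂ ι)‖ ≤
      c * ‖(WithLp.toLp 2 v : EuclideanSpace ℂ ι)‖) : ‖X‖ ≤ c := by
  rw [Matrix.l2_opNorm_def]
  refine ContinuousLinearMap.opNorm_le_bound _ hc fun x => ?_
  exact h x.ofLp

theorem isCP_norm_sq {φ : A →ₗ[ℂ] Matrix ι ι ℂ} (hφ : IsCP φ) (a : A) :
    ‖φ a‖ ^ 2 ≤ ‖φ 1‖ * ‖φ (star a * a)‖ := by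
  have hq := (isCP_quad φ).1 hφ
  have hstar := isCP_star hφ a
  have key : ∀ v : ι → ℂ, ‖(WithLp.toLp 2 (φ a *ᵥ v) : EuclideanSpace ℂ ι)‖ ^ 2 ≤
      (‖φ 1‖ * ‖φ (star a * a)‖) * ‖(WithLp.toLp 2 v : EuclideanSpace ℂ ι)‖ ^ 2 := by
    intro v
    set U : ℝ := ‖(WithLp.toLp 2 (φ a *ᵥ v) : EuclideanSpace ℂ ι)‖ ^ 2 with hU
    set V : ℝ := ‖(WithLp.toLp 2 v : EuclideanSpace ℂ ι)‖ ^ 2 with hV
    have hU0 : 0 ≤ U := sq_nonneg _
    have hV0 : 0 ≤ V := sq_nonneg _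
    have h1 : ∀ t : ℝ, 0 ≤ (‖φ (star a * a)‖ * V) * (t * t) + (2 * U) * t + ‖φ 1‖ * U := by
      intro t
      have h2 := hq 2 ![1, a] ![φ a *ᵥ v, (t : ℂ) • v]
      simp only [Fin.sum_univ_two, Matrix.cons_val_zero, Matrix.cons_val_one, star_one, one_mul,
        mul_one] at h2
      rw [Matrix.mulVec_smul, Matrix.mulVec_smul, star_smul, dotProduct_smul, smul_dotProduct,
        smul_dotProduct, dotProduct_smul, quad_self (φ a *ᵥ v), hstar,
        Matrix.dotProduct_mulVec (star v) (φ a)ᴴ, ← Matrix.star_mulVec,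
        quad_self (φ a *ᵥ v)] at h2
      have h3 := (Complex.nonneg_iff.1 h2).1
      have h4 := (Complex.re_le_norm _).trans (norm_quad_le (φ 1) (φ a *ᵥ v) (φ a *ᵥ v))
      have h5 := (Complex.re_le_norm _).trans (norm_quad_le (φ (star a * a)) v v)
      have h6 : (star (t : ℂ) • (t : ℂ) • (star v ⬝ᵥ φ (star a * a) *ᵥ v)).re =
          t * t * (star v ⬝ᵥ φ (star a * a) *ᵥ v).re := by
        simp [mul_assoc]
      have h7 : ((t : ℂ) • ((‖(WithLp.toLp 2 (φ a *ᵥ v) : EuclideanSpace ℂ ι)‖ ^ 2 : ℝ) : ℂ)).re =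
          t * U := by
        rw [smul_eq_mul, ← Complex.ofReal_mul, Complex.ofReal_re]
      have h8 : (star (t : ℂ) • ((‖(WithLp.toLp 2 (φ a *ᵥ v) : EuclideanSpace ℂ ι)‖ ^ 2 : ℝ) :
          ℂ)).re = t * U := by
        rw [smul_eq_mul, RCLike.star_def, Complex.conj_ofReal, ← Complex.ofReal_mul,
          Complex.ofReal_re]
      rw [Complex.add_re, Complex.add_re, Complex.add_re, h6, h7, h8] at h3
      have h9 : t * t * (star v ⬝ᵥ φ (star a * a) *ᵥ v).re ≤ t * t * (‖φ (star a * a)‖ * V) := by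
        refine mul_le_mul_of_nonneg_left (h5.trans (le_of_eq ?_)) (mul_self_nonneg t)
        rw [hV]; ring
      have h10 : (star (φ a *ᵥ v) ⬝ᵥ φ 1 *ᵥ φ a *ᵥ v).re ≤ ‖φ 1‖ * U := by
        refine h4.trans (le_of_eq ?_)
        rw [hU]; ring
      nlinarith [h3, h9, h10]
    have h2 := discrim_le_zero h1
    unfold discrim at h2
    by_contra hcon
    rw [not_le] at hcon
    have hUpos : 0 < U := lt_of_le_of_lt (by positivity) hcon
    nlinarith [mul_pos hUpos (sub_pos.2 hcon)]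
  have h3 : ‖φ a‖ ≤ Real.sqrt (‖φ 1‖ * ‖φ (star a * a)‖) := by
    refine l2_le (Real.sqrt_nonneg _) fun v => ?_
    refine abs_le_of_sq_le_sq' ?_ (by positivity) |>.2
    rw [mul_pow, Real.sq_sqrt (by positivity)]
    exact key v
  calc ‖φ a‖ ^ 2 ≤ Real.sqrt (‖φ 1‖ * ‖φ (star a * a)‖) ^ 2 := by gcongr
    _ = _ := Real.sq_sqrt (by positivity)

private theorem norm_le_of_psd {X Y : Matrix ι ι ℂ} (hX : X.PosSemidef)
    (h : ∀ v : ι → ℂ, star v ⬝ᵥ (X *ᵥ v) ≤ star v ⬝ᵥ (Y *ᵥ v)) : ‖X‖ ≤ ‖Y‖ := by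
  obtain ⟨C, rfl⟩ : ∃ C : Matrix ι ι ℂ, X = Cᴴ * C := by
    open scoped MatrixOrder in
    obtain ⟨C, hC⟩ := CStarAlgebra.nonneg_iff_eq_star_mul_self.mp hX.nonneg
    exact ⟨C, hC⟩
  rw [Matrix.l2_opNorm_conjTranspose_mul_self]
  have h3 : ‖C‖ ≤ Real.sqrt ‖Y‖ := by
    refine l2_le (Real.sqrt_nonneg _) fun v => ?_
    refine abs_le_of_sq_le_sq' ?_ (by positivity) |>.2
    rw [mul_pow, Real.sq_sqrt (by positivity)]
    have h1 := h v
    rw [← Matrix.mulVec_mulVec, Matrix.dotProduct_mulVec, ← Matrix.star_mulVec,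
      quad_self (C *ᵥ v)] at h1
    have h2 := (Complex.le_def.1 h1).1
    rw [Complex.ofReal_re] at h2
    refine h2.trans ((Complex.re_le_norm _).trans ((norm_quad_le Y v v).trans (le_of_eq ?_)))
    ring
  calc ‖C‖ * ‖C‖ ≤ Real.sqrt ‖Y‖ * Real.sqrt ‖Y‖ := by gcongr
    _ = _ := Real.mul_self_sqrt (norm_nonneg _)

theorem isCP_norm_le {φ : A →ₗ[ℂ] Matrix ι ι ℂ} (hφ : IsCP φ) (a : A) :
    ‖φ a‖ ≤ ‖φ 1‖ * ‖a‖ := by
  have h1 : ‖φ (star a * a)‖ ≤ ‖a‖ ^ 2 * ‖φ 1‖ := by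
    have h2 : ∃ c : A, star c * c = algebraMap ℝ A (‖a‖ ^ 2) - star a * a := by
      let _ := CStarAlgebra.spectralOrder A
      let _ := CStarAlgebra.spectralOrderedRing A
      have h3 : star a * a ≤ algebraMap ℝ A ‖star a * a‖ :=
        IsSelfAdjoint.le_algebraMap_norm_self (IsSelfAdjoint.star_mul_self a)
      rw [CStarRing.norm_star_mul_self, ← pow_two] at h3
      obtain ⟨c, hc⟩ := CStarAlgebra.nonneg_iff_eq_star_mul_self.mp (sub_nonneg.2 h3)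
      exact ⟨c, hc.symm⟩
    obtain ⟨c, hc⟩ := h2
    have h4 : ‖φ (star a * a)‖ ≤ ‖((‖a‖ ^ 2 : ℝ) : ℂ) • φ 1‖ := by
      refine norm_le_of_psd (isCP_posSemidef hφ a) fun v => ?_
      have h5 := (isCP_posSemidef hφ c).dotProduct_mulVec_nonneg v
      rw [hc, map_sub] at h5
      have h6 : φ (algebraMap ℝ A (‖a‖ ^ 2)) = ((‖a‖ ^ 2 : ℝ) : ℂ) • φ 1 := by
        rw [← map_smul]
        congr 1
        rw [Algebra.algebraMap_eq_smul_one]
        exact (Complex.coe_smul (‖a‖ ^ 2) (1 : A)).symm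
      rw [h6, Matrix.sub_mulVec, dotProduct_sub] at h5
      exact sub_nonneg.1 h5
    refine h4.trans (le_of_eq ?_)
    rw [norm_smul, Complex.norm_real, Real.norm_of_nonneg (by positivity)]
  have h2 := isCP_norm_sq hφ a
  refine abs_le_of_sq_le_sq' ?_ (by positivity) |>.2
  calc ‖φ a‖ ^ 2 ≤ ‖φ 1‖ * ‖φ (star a * a)‖ := h2
    _ ≤ ‖φ 1‖ * (‖a‖ ^ 2 * ‖φ 1‖) := by gcongr
    _ = _ := by ring

end QT
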