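import Mathlib
import Pool.Agent.Helper58.QT.Defs

/-!
# QT-03 MatBasics: normalised trace, 2-norm, tensoring with 1, reindexing (elementary)

`‖x‖` is the L2 operator norm (also for rectangular matrices).
* `kron_one_norm`: `x ⊗ₖ 1` is, after reordering the indices, block diagonal with all blocks `x`
  (`‖(x ⊗ 1) v‖² = ∑ j ‖x v_j‖²`).
* `ntr_norm_le`: `|x i i| ≤ ‖x‖`.
* `ntr_rank`: `|tr x| ≤ rank(x) ‖x‖` (for instance singular value / orthonormal basis of the range: choose an isometry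
  `W` with `W Wᴴ x = x` and `card = rank x`, `tr x = tr (Wᴴ x W)`), so `‖ntr x‖ ≤ ‖x‖ rank(x) / card`.
* `norm2_le`: `norm2 x ≤ ‖x‖`; `norm2` is a seminorm (it is `card^(-1/2)` times the Frobenius norm).
-/

set_option linter.unusedSectionVars false

open scoped Matrix Kronecker ComplexOrder Matrix.Norms.L2Operator
open Filter Topology

namespace QT

universe u


variable {ι κ : Type*} [Fintype ι] [DecidableEq ι] [Fintype κ] [DecidableEq κ]

omit [DecidableEq ι] in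
private theorem sumsq_mulVec_le {ι' : Type*} [Fintype ι'] [DecidableEq ι'] (x : Matrix ι ι' ℂ)
    (v : ι' → ℂ) : ∑ i, ‖(x *ᵥ v) i‖ ^ 2 ≤ ‖x‖ ^ 2 * ∑ j, ‖v j‖ ^ 2 := by
  have h := Matrix.l2_opNorm_mulVec x (WithLp.toLp 2 v)
  have h2 := pow_le_pow_left₀ (norm_nonneg _) h 2
  rw [mul_pow, EuclideanSpace.norm_sq_eq, EuclideanSpace.norm_sq_eq] at h2
  exact h2

omit [DecidableEq ι] in
private theorem norm_le_of_sumsq {ι' : Type*} [Fintype ι'] [DecidableEq ι'] (y : Matrix ι ι' ℂ)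
    (c : ℝ) (hc : 0 ≤ c)
    (h : ∀ v : ι' → ℂ, ∑ i, ‖(y *ᵥ v) i‖ ^ 2 ≤ c ^ 2 * ∑ j, ‖v j‖ ^ 2) : ‖y‖ ≤ c := by
  rw [Matrix.l2_opNorm_def]
  refine ContinuousLinearMap.opNorm_le_bound _ hc (fun v => ?_)
  refine (sq_le_sq₀ (norm_nonneg _) (mul_nonneg hc (norm_nonneg _))).mp ?_
  rw [mul_pow, EuclideanSpace.norm_sq_eq, EuclideanSpace.norm_sq_eq]
  exact h (WithLp.ofLp v)

theorem kron_one_norm {ι' : Type*} [Fintype ι'] [DecidableEq ι'] (x : Matrix ι ι' ℂ) :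
    ‖x ⊗ₖ (1 : Matrix κ κ ℂ)‖ ≤ ‖x‖ := by
  apply norm_le_of_sumsq _ _ (norm_nonneg _)
  intro v
  have h1 : ∀ i : ι × κ, ((x ⊗ₖ (1 : Matrix κ κ ℂ)) *ᵥ v) i = (x *ᵥ (fun j => v (j, i.2))) i.1 := by
    intro i
    simp only [Matrix.mulVec, dotProduct, Fintype.sum_prod_type, Matrix.kroneckerMap_apply,
      Matrix.one_apply]
    apply Finset.sum_congr rfl
    intro j _
    rw [Finset.sum_eq_single i.2]
    · simp
    · intro b _ hb
      simp [Ne.symm hb]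
    · simp
  simp only [h1]
  rw [Fintype.sum_prod_type_right, Fintype.sum_prod_type_right, Finset.mul_sum]
  apply Finset.sum_le_sum
  intro k _
  exact sumsq_mulVec_le x (fun j => v (j, k))

theorem kron_one_mul {ι₁ ι₂ ι₃ : Type*} [Fintype ι₂] (x : Matrix ι₁ ι₂ ℂ) (y : Matrix ι₂ ι₃ ℂ) :
    (x * y) ⊗ₖ (1 : Matrix κ κ ℂ) =
      (x ⊗ₖ (1 : Matrix κ κ ℂ)) * (y ⊗ₖ (1 : Matrix κ κ ℂ)) := by
  rw [← Matrix.mul_kronecker_mul, one_mul]

theorem ntr_kron_one [Nonempty κ] (x : Matrix ι ι ℂ) : ntr (x ⊗ₖ (1 : Matrix κ κ ℂ)) = ntr x := by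
  unfold ntr
  rw [Matrix.trace_kronecker, Matrix.trace_one, Fintype.card_prod, Nat.cast_mul]
  have h : (Fintype.card κ : ℂ) ≠ 0 := by exact_mod_cast Fintype.card_ne_zero
  rw [mul_div_mul_right _ _ h]

theorem ntr_one [Nonempty ι] : ntr (1 : Matrix ι ι ℂ) = 1 := by
  unfold ntr
  rw [Matrix.trace_one]
  exact div_self (by exact_mod_cast Fintype.card_ne_zero)

theorem ntr_add (x y : Matrix ι ι ℂ) : ntr (x + y) = ntr x + ntr y := by
  unfold ntr
  rw [Matrix.trace_add, add_div]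

theorem ntr_sub (x y : Matrix ι ι ℂ) : ntr (x - y) = ntr x - ntr y := by
  unfold ntr
  rw [Matrix.trace_sub, sub_div]

theorem ntr_smul (c : ℂ) (x : Matrix ι ι ℂ) : ntr (c • x) = c * ntr x := by
  unfold ntr
  rw [Matrix.trace_smul, smul_eq_mul, mul_div_assoc]

theorem ntr_mul_comm (x y : Matrix ι ι ℂ) : ntr (x * y) = ntr (y * x) := by
  unfold ntr
  rw [Matrix.trace_mul_comm]

private theorem trace_rank (x : Matrix ι ι ℂ) : ‖x.trace‖ ≤ ‖x‖ * (x.rank : ℝ) := by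
  let T : EuclideanSpace ℂ ι →ₗ[ℂ] EuclideanSpace ℂ ι := Matrix.toEuclideanLin x
  let K : Submodule ℂ (EuclideanSpace ℂ ι) := LinearMap.range T
  have hrank : x.rank = Module.finrank ℂ K := by
    have := Matrix.rank_eq_finrank_range_toLin x (EuclideanSpace.basisFun ι ℂ).toBasis
      (EuclideanSpace.basisFun ι ℂ).toBasis
    rw [← Matrix.toEuclideanLin_eq_toLin_orthonormal] at this
    exact this
  have htr : x.trace = LinearMap.trace ℂ _ T := by
    show _ = LinearMap.trace ℂ _ (Matrix.toEuclideanLin x)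
    rw [Matrix.toEuclideanLin_eq_toLin_orthonormal, Matrix.trace_toLin_eq]
  have hT : T = K.subtype ∘ₗ T.rangeRestrict := by
    ext v
    simp [K]
  have htr2 : LinearMap.trace ℂ _ T = LinearMap.trace ℂ K (T.rangeRestrict ∘ₗ K.subtype) := by
    conv_lhs => rw [hT]
    exact LinearMap.trace_comp_comm' _ _
  rw [htr, htr2, LinearMap.trace_eq_sum_inner _ (stdOrthonormalBasis ℂ K)]
  refine (norm_sum_le _ _).trans ?_
  have hb : ∀ i ∈ (Finset.univ : Finset (Fin (Module.finrank ℂ K))),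
      ‖(inner ℂ (stdOrthonormalBasis ℂ K i)
        ((T.rangeRestrict ∘ₗ K.subtype) (stdOrthonormalBasis ℂ K i)) : ℂ)‖ ≤ ‖x‖ := by
    intro i _
    refine (norm_inner_le_norm (𝕜 := ℂ) (stdOrthonormalBasis ℂ K i)
      ((T.rangeRestrict ∘ₗ K.subtype) (stdOrthonormalBasis ℂ K i))).trans ?_
    rw [(stdOrthonormalBasis ℂ K).norm_eq_one, one_mul]
    have h1 : ‖(T.rangeRestrict ∘ₗ K.subtype) (stdOrthonormalBasis ℂ K i)‖ =
        ‖T ((stdOrthonormalBasis ℂ K i : K) : EuclideanSpace ℂ ι)‖ := rfl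
    rw [h1]
    have h2 := Matrix.l2_opNorm_mulVec x ((stdOrthonormalBasis ℂ K i : K) : EuclideanSpace ℂ ι)
    have h3 : ‖((stdOrthonormalBasis ℂ K i : K) : EuclideanSpace ℂ ι)‖ = 1 :=
      (stdOrthonormalBasis ℂ K).norm_eq_one i
    rw [h3, mul_one] at h2
    exact h2
  refine (Finset.sum_le_sum hb).trans ?_
  rw [Finset.sum_const, Finset.card_univ, Fintype.card_fin, nsmul_eq_mul, hrank, mul_comm]

theorem ntr_norm_le (x : Matrix ι ι ℂ) : ‖ntr x‖ ≤ ‖x‖ := by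
  unfold ntr
  rw [norm_div]
  have h0 : ‖(Fintype.card ι : ℂ)‖ = (Fintype.card ι : ℝ) := by simp
  rw [h0]
  apply div_le_of_le_mul₀ (Nat.cast_nonneg _) (norm_nonneg _)
  refine (trace_rank x).trans ?_
  apply mul_le_mul_of_nonneg_left _ (norm_nonneg _)
  exact_mod_cast Matrix.rank_le_card_width x

theorem ntr_rank (x : Matrix ι ι ℂ) :
    ‖ntr x‖ * (Fintype.card ι : ℝ) ≤ ‖x‖ * (x.rank : ℝ) := by
  by_cases h : Fintype.card ι = 0
  · rw [h]
    simp only [Nat.cast_zero, mul_zero]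
    positivity
  · unfold ntr
    rw [norm_div]
    have h0 : ‖(Fintype.card ι : ℂ)‖ = (Fintype.card ι : ℝ) := by simp
    have h1 : (Fintype.card ι : ℝ) ≠ 0 := by exact_mod_cast h
    rw [h0, div_mul_cancel₀ _ h1]
    exact trace_rank x

private theorem re_trace (x : Matrix ι ι ℂ) :
    (xᴴ * x).trace = ((∑ i, ∑ j, ‖x i j‖ ^ 2 : ℝ) : ℂ) := by
  simp only [Matrix.trace, Matrix.diag_apply, Matrix.mul_apply, Matrix.conjTranspose_apply]
  rw [Finset.sum_comm]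
  push_cast
  apply Finset.sum_congr rfl
  intro i _
  apply Finset.sum_congr rfl
  intro j _
  rw [RCLike.star_def, mul_comm, Complex.mul_conj, Complex.normSq_eq_norm_sq]
  push_cast
  rfl

private theorem norm2_eq (x : Matrix ι ι ℂ) :
    norm2 x = Real.sqrt ((∑ i, ∑ j, ‖x i j‖ ^ 2) / (Fintype.card ι : ℝ)) := by
  unfold norm2 ntr
  rw [re_trace]
  congr 1
  rw [← Complex.ofReal_natCast, ← Complex.ofReal_div, Complex.ofReal_re]

theorem norm2_le (x : Matrix ι ι ℂ) : norm2 x ≤ ‖x‖ := by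
  unfold norm2
  apply Real.sqrt_le_iff.2 ⟨norm_nonneg _, ?_⟩
  refine (Complex.re_le_norm _).trans ?_
  refine (ntr_norm_le _).trans ?_
  rw [Matrix.l2_opNorm_conjTranspose_mul_self, pow_two]

theorem norm2_sq (x : Matrix ι ι ℂ) : norm2 x ^ 2 * (Fintype.card ι : ℝ) = ∑ i, ∑ j, ‖x i j‖ ^ 2 := by
  rw [norm2_eq, Real.sq_sqrt (by positivity)]
  by_cases h : Fintype.card ι = 0
  · have : IsEmpty ι := Fintype.card_eq_zero_iff.1 h
    simp
  · exact div_mul_cancel₀ _ (by exact_mod_cast h)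

private theorem norm2_eq' (x : Matrix ι ι ℂ) :
    norm2 x = ‖(WithLp.toLp 2 (fun p : ι × ι => x p.1 p.2) : EuclideanSpace ℂ (ι × ι))‖ /
      Real.sqrt (Fintype.card ι : ℝ) := by
  rw [norm2_eq, Real.sqrt_div (by positivity), EuclideanSpace.norm_eq, Fintype.sum_prod_type]

theorem norm2_add_le (x y : Matrix ι ι ℂ) : norm2 (x + y) ≤ norm2 x + norm2 y := by
  rw [norm2_eq', norm2_eq', norm2_eq', ← add_div]
  apply div_le_div_of_nonneg_right _ (Real.sqrt_nonneg _)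
  have h : (WithLp.toLp 2 (fun p : ι × ι => (x + y) p.1 p.2) : EuclideanSpace ℂ (ι × ι)) =
      WithLp.toLp 2 (fun p : ι × ι => x p.1 p.2) + WithLp.toLp 2 (fun p : ι × ι => y p.1 p.2) := by
    ext p
    simp
  rw [h]
  exact norm_add_le _ _

theorem ntr_le_norm2 (x : Matrix ι ι ℂ) : ‖ntr x‖ ≤ norm2 x := by
  have hn : 0 ≤ norm2 x := Real.sqrt_nonneg _
  by_cases h : Fintype.card ι = 0
  · unfold ntr
    rw [h]
    simpa using hn
  have hc : (0 : ℝ) < (Fintype.card ι : ℝ) := by exact_mod_cast Nat.pos_of_ne_zero h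
  have h1 : ‖x.trace‖ ^ 2 ≤ (Fintype.card ι : ℝ) * ∑ i, ∑ j, ‖x i j‖ ^ 2 := by
    have h2 : ‖x.trace‖ ≤ ∑ i, ‖x i i‖ := norm_sum_le _ _
    have h3 : (∑ i, ‖x i i‖) ^ 2 ≤ (Fintype.card ι : ℝ) * ∑ i, ‖x i i‖ ^ 2 := by
      have := sq_sum_le_card_mul_sum_sq (s := (Finset.univ : Finset ι)) (f := fun i => ‖x i i‖)
      simpa using this
    have h4 : ∑ i, ‖x i i‖ ^ 2 ≤ ∑ i, ∑ j, ‖x i j‖ ^ 2 := Finset.sum_le_sum (fun i _ =>
      Finset.single_le_sum (f := fun j => ‖x i j‖ ^ 2) (fun j _ => by positivity)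
        (Finset.mem_univ i))
    calc ‖x.trace‖ ^ 2 ≤ (∑ i, ‖x i i‖) ^ 2 := pow_le_pow_left₀ (norm_nonneg _) h2 2
      _ ≤ (Fintype.card ι : ℝ) * ∑ i, ‖x i i‖ ^ 2 := h3
      _ ≤ _ := mul_le_mul_of_nonneg_left h4 hc.le
  have h5 : ‖ntr x‖ ^ 2 ≤ norm2 x ^ 2 := by
    have h6 := norm2_sq x
    have h7 : ‖ntr x‖ ^ 2 * (Fintype.card ι : ℝ) ^ 2 = ‖x.trace‖ ^ 2 := by
      unfold ntr
      rw [norm_div]
      have h0 : ‖(Fintype.card ι : ℂ)‖ = (Fintype.card ι : ℝ) := by simp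
      rw [h0, div_pow]
      exact div_mul_cancel₀ _ (pow_ne_zero 2 hc.ne')
    rw [← h6] at h1
    rw [← h7] at h1
    have h8 : ‖ntr x‖ ^ 2 * (Fintype.card ι : ℝ) ^ 2 ≤ norm2 x ^ 2 * (Fintype.card ι : ℝ) ^ 2 := by
      linarith
    exact le_of_mul_le_mul_right h8 (by positivity)
  exact (sq_le_sq₀ (norm_nonneg _) hn).1 h5

private theorem reindex_norm_le (e : ι ≃ κ) (x : Matrix ι ι ℂ) :
    ‖x.submatrix e.symm e.symm‖ ≤ ‖x‖ := by
  apply norm_le_of_sumsq _ _ (norm_nonneg _)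
  intro v
  have h1 : ∀ k : κ, ((x.submatrix e.symm e.symm) *ᵥ v) k = (x *ᵥ (v ∘ e)) (e.symm k) := by
    intro k
    simp only [Matrix.mulVec, dotProduct, Matrix.submatrix_apply, Function.comp]
    rw [← Equiv.sum_comp e]
    simp
  simp only [h1]
  rw [Equiv.sum_comp e.symm (fun i => ‖(x *ᵥ (v ∘ e)) i‖ ^ 2)]
  refine (sumsq_mulVec_le x (v ∘ e)).trans ?_
  apply le_of_eq
  congr 1
  exact Equiv.sum_comp e (fun k => ‖v k‖ ^ 2)

/-- reindexing does not change norm and normalised trace -/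
theorem reindex_norm (e : ι ≃ κ) (x : Matrix ι ι ℂ) : ‖x.submatrix e.symm e.symm‖ = ‖x‖ := by
  apply le_antisymm (reindex_norm_le e x)
  have h := reindex_norm_le e.symm (x.submatrix e.symm e.symm)
  rw [Matrix.submatrix_submatrix] at h
  simpa using h

theorem reindex_ntr (e : ι ≃ κ) (x : Matrix ι ι ℂ) : ntr (x.submatrix e.symm e.symm) = ntr x := by
  unfold ntr
  rw [Fintype.card_congr e]
  congr 1
  simp only [Matrix.trace, Matrix.diag_apply, Matrix.submatrix_apply]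
  exact Equiv.sum_comp e.symm (fun i => x i i)

theorem reindex_norm2 (e : ι ≃ κ) (x : Matrix ι ι ℂ) : norm2 (x.submatrix e.symm e.symm) = norm2 x := by
  rw [norm2_eq, norm2_eq, Fintype.card_congr e]
  congr 2
  simp only [Matrix.submatrix_apply]
  rw [Equiv.sum_comp e.symm (fun i => ∑ j, ‖x i (e.symm j)‖ ^ 2)]
  apply Finset.sum_congr rfl
  intro i _
  exact Equiv.sum_comp e.symm (fun j => ‖x i j‖ ^ 2)

end QT
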