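import Mathlib
import Pool.Agent.Helper58.QT.Defs
import Pool.Agent.Helper58.QT.CPBasics
import Pool.Agent.Helper58.QT.MatBasics

/-!
# QT-19 AmenM2: the trace on `M_2(A)` is amenable
`τ₂(x) = (τ(x_00) + τ(x_11))/2`: positive since `(x* x)_ii = ∑_k x_ki* x_ki`, tracial by `τ.comm`. The maps
`φ_n^{(2)} : M_2(A) → Matrix (Fin 2 × Fin (k n)) (Fin 2 × Fin (k n)) ℂ ≃ M_{2 k(n)}`, `φ^{(2)}(x)((i,p),(j,q)) = φ(x i j) p q`,
are unital, CP (a matrix over `M_2(A)` is a bigger matrix over `A`: `isCP_quad` for `a_p ∈ M_2(A)`: expand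
`(a_p* a_q)_ij = ∑_k (a_p)_ki* (a_q)_kj` and use `isCP_quad` of `φ` for each `k` with the `2m` elements `(a_p)_ki`),
`φ^{(2)}(xy) - φ^{(2)}(x) φ^{(2)}(y)` has blocks `∑_k (φ(x_ik y_kj) - φ(x_ik) φ(y_kj))`, so its 2-norm tends to 0
(`norm2_sq`: the square is half the sum of the squares of the blocks). Reindex by `finProdFinEquiv`.
-/

open scoped Matrix Kronecker ComplexOrder Matrix.Norms.L2Operator
open Filter Topology

namespace QT

universe u



private theorem quad_fintype {A : Type u} [CStarAlgebra A] {κ : Type*} [Fintype κ] [DecidableEq κ]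
    {φ : A →ₗ[ℂ] Matrix κ κ ℂ} (hφ : IsCP φ) {J : Type*} [Fintype J] (b : J → A)
    (v : J → κ → ℂ) : 0 ≤ ∑ p, ∑ q, star (v p) ⬝ᵥ (φ (star (b p) * b q)).mulVec (v q) := by
  have e := Fintype.equivFin J
  have h := (isCP_quad φ).1 hφ (Fintype.card J) (fun i => b (e.symm i)) (fun i => v (e.symm i))
  refine le_of_le_of_eq h ?_
  rw [← e.symm.sum_comp (fun p => ∑ q, star (v p) ⬝ᵥ (φ (star (b p) * b q)).mulVec (v q))]
  refine Finset.sum_congr rfl fun p _ => ?_
  exact e.symm.sum_comp (fun q => star (v (e.symm p)) ⬝ᵥ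
    (φ (star (b (e.symm p)) * b q)).mulVec (v q))

/-- the amplification to 2 x 2 matrices -/
private noncomputable def ext2 {A : Type u} [CStarAlgebra A] {κ : Type*}
    (φ : A →ₗ[ℂ] Matrix κ κ ℂ) : M2 A →ₗ[ℂ] Matrix (Fin 2 × κ) (Fin 2 × κ) ℂ where
  toFun x := Matrix.of fun p q => φ (x p.1 q.1) p.2 q.2
  map_add' x y := by
    ext p q
    simp
  map_smul' c x := by
    ext p q
    simp

private theorem ext2_apply {A : Type u} [CStarAlgebra A] {κ : Type*}
    (φ : A →ₗ[ℂ] Matrix κ κ ℂ) (x : M2 A) (p q : Fin 2 × κ) :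
    ext2 φ x p q = φ (x p.1 q.1) p.2 q.2 := rfl

private theorem ext2_cp {A : Type u} [CStarAlgebra A] [PartialOrder A] [StarOrderedRing A]
    {κ : Type*} [Fintype κ] [DecidableEq κ]
    {φ : A →ₗ[ℂ] Matrix κ κ ℂ} (hφ : IsCP φ) : IsCP (ext2 φ) := by
  rw [isCP_quad]
  intro m a v
  have h1 : ∀ p q, star (v p) ⬝ᵥ (ext2 φ (star (a p) * a q)).mulVec (v q) =
      ∑ k, ∑ i, ∑ j, star (fun r => v p (i, r)) ⬝ᵥ
        (φ (star (a p k i) * a q k j)).mulVec (fun r => v q (j, r)) := by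
    intro p q
    have h2 : star (v p) ⬝ᵥ (ext2 φ (star (a p) * a q)).mulVec (v q) =
        ∑ i, ∑ j, star (fun r => v p (i, r)) ⬝ᵥ
          (φ ((star (a p) * a q) i j)).mulVec (fun r => v q (j, r)) := by
      simp only [dotProduct, Matrix.mulVec, Fintype.sum_prod_type, Finset.mul_sum, Pi.star_apply,
        ext2_apply]
      refine Finset.sum_congr rfl fun i _ => ?_
      rw [Finset.sum_comm]
    have h3 : ∀ i j, star (fun r => v p (i, r)) ⬝ᵥ
          (φ ((star (a p) * a q) i j)).mulVec (fun r => v q (j, r)) =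
        ∑ k, star (fun r => v p (i, r)) ⬝ᵥ
        (φ (star (a p k i) * a q k j)).mulVec (fun r => v q (j, r)) := by
      intro i j
      rw [CStarMatrix.mul_apply, map_sum, Matrix.sum_mulVec, dotProduct_sum]
      rfl
    rw [h2]
    simp only [h3]
    rw [Finset.sum_comm]
    conv_rhs => rw [Finset.sum_comm]
    rw [Finset.sum_comm]
    refine Finset.sum_congr rfl fun i _ => ?_
    rw [Finset.sum_comm]
  have h4 : (∑ p, ∑ q, star (v p) ⬝ᵥ (ext2 φ (star (a p) * a q)).mulVec (v q)) =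
      ∑ k, ∑ P : Fin m × Fin 2, ∑ Q : Fin m × Fin 2, star (fun r => v P.1 (P.2, r)) ⬝ᵥ
        (φ (star (a P.1 k P.2) * a Q.1 k Q.2)).mulVec (fun r => v Q.1 (Q.2, r)) := by
    simp only [h1, Fintype.sum_prod_type]
    have h5 : ∀ p, (∑ q, ∑ k, ∑ i, ∑ j, star (fun r => v p (i, r)) ⬝ᵥ
        (φ (star (a p k i) * a q k j)).mulVec (fun r => v q (j, r))) =
        ∑ k, ∑ i, ∑ q, ∑ j, star (fun r => v p (i, r)) ⬝ᵥ
        (φ (star (a p k i) * a q k j)).mulVec (fun r => v q (j, r)) := by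
      intro p
      rw [Finset.sum_comm]
      refine Finset.sum_congr rfl fun k _ => ?_
      rw [Finset.sum_comm]
    simp only [h5]
    rw [Finset.sum_comm]
  rw [h4]
  exact Finset.sum_nonneg fun k _ => quad_fintype hφ (fun P : Fin m × Fin 2 => a P.1 k P.2)
    (fun P r => v P.1 (P.2, r))

/-- reindexing -/
private noncomputable def reidx {A : Type u} [AddCommMonoid A] [Module ℂ A] {ι κ : Type*}
    (e : ι ≃ κ) (φ : A →ₗ[ℂ] Matrix ι ι ℂ) : A →ₗ[ℂ] Matrix κ κ ℂ where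
  toFun x := (φ x).submatrix e.symm e.symm
  map_add' x y := by
    ext p q
    simp
  map_smul' c x := by
    ext p q
    simp

private theorem reidx_cp {A : Type u} [CStarAlgebra A] {ι κ : Type*} [Fintype ι] [DecidableEq ι]
    [Fintype κ] [DecidableEq κ] (e : ι ≃ κ) {φ : A →ₗ[ℂ] Matrix ι ι ℂ} (hφ : IsCP φ) :
    IsCP (reidx e φ) := by
  rw [isCP_quad] at hφ ⊢
  intro m a v
  refine le_of_le_of_eq (hφ m a (fun p => v p ∘ e)) ?_
  refine Finset.sum_congr rfl fun p _ => Finset.sum_congr rfl fun q _ => ?_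
  change _ = star (v p) ⬝ᵥ ((φ (star (a p) * a q)).submatrix e.symm e.symm).mulVec (v q)
  rw [Matrix.submatrix_mulVec_equiv, Equiv.symm_symm]
  simp only [dotProduct, Pi.star_apply, Function.comp_apply]
  rw [← e.sum_comp]
  simp

private theorem norm2_nonneg {ι : Type*} [Fintype ι] (x : Matrix ι ι ℂ) : 0 ≤ norm2 x :=
  Real.sqrt_nonneg _

private theorem norm2_blocks {κ : Type*} [Fintype κ] [DecidableEq κ] [Nonempty κ]
    (D : Matrix (Fin 2 × κ) (Fin 2 × κ) ℂ) (B : Fin 2 → Fin 2 → Matrix κ κ ℂ)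
    (h : ∀ i j p q, D (i, p) (j, q) = B i j p q) :
    norm2 D ≤ ∑ i, ∑ j, norm2 (B i j) := by
  have h1 := norm2_sq D
  have h2 : ∀ i j, norm2 (B i j) ^ 2 * (Fintype.card κ : ℝ) = ∑ p, ∑ q, ‖B i j p q‖ ^ 2 :=
    fun i j => norm2_sq (B i j)
  have hc : (0 : ℝ) < Fintype.card κ := by exact_mod_cast Fintype.card_pos
  have h3 : (∑ P, ∑ Q, ‖D P Q‖ ^ 2) = (∑ i, ∑ j, norm2 (B i j) ^ 2) * (Fintype.card κ : ℝ) := by
    rw [Finset.sum_mul]
    simp only [Finset.sum_mul, h2, Fintype.sum_prod_type, h]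
    refine Finset.sum_congr rfl fun i _ => ?_
    rw [Finset.sum_comm]
  rw [h3, Fintype.card_prod, Fintype.card_fin] at h1
  have h4 : norm2 D ^ 2 * 2 = ∑ i, ∑ j, norm2 (B i j) ^ 2 := by
    have : norm2 D ^ 2 * 2 * (Fintype.card κ : ℝ) =
        (∑ i, ∑ j, norm2 (B i j) ^ 2) * (Fintype.card κ : ℝ) := by
      rw [← h1]; push_cast; ring
    exact mul_right_cancel₀ hc.ne' this
  have h5 : ∀ i j, 0 ≤ norm2 (B i j) := fun i j => norm2_nonneg _
  refine abs_le_of_sq_le_sq' ?_ (Finset.sum_nonneg fun i _ => Finset.sum_nonneg fun j _ => h5 i j)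
    |>.2
  simp only [Fin.sum_univ_two] at h4 ⊢
  nlinarith [h5 0 0, h5 0 1, h5 1 0, h5 1 1, mul_nonneg (h5 0 0) (h5 0 1),
    mul_nonneg (h5 0 0) (h5 1 0), mul_nonneg (h5 0 0) (h5 1 1), mul_nonneg (h5 0 1) (h5 1 0),
    mul_nonneg (h5 0 1) (h5 1 1), mul_nonneg (h5 1 0) (h5 1 1), sq_nonneg (norm2 (B 0 0)),
    sq_nonneg (norm2 (B 0 1)), sq_nonneg (norm2 (B 1 0)), sq_nonneg (norm2 (B 1 1))]

theorem amen_M2 {A : Type u} [CStarAlgebra A] [PartialOrder A] [StarOrderedRing A]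
    (τ : TracialState A) (h : τ.IsAmenable) :
    ∃ τ₂ : TracialState (M2 A), (∀ x, τ₂.toFun x = (τ.toFun (x 0 0) + τ.toFun (x 1 1)) / 2) ∧
      τ₂.IsAmenable := by
  refine ⟨{ toFun := 
              { toFun := fun x => (τ.toFun (x 0 0) + τ.toFun (x 1 1)) / 2
                map_add' := ?_
                map_smul' := ?_ }
            pos := ?_
            map_one := ?_
            comm := ?_ }, fun x => rfl, ?_⟩
  · intro x y
    simp only [CStarMatrix.add_apply, map_add]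
    ring
  · intro c x
    simp only [CStarMatrix.smul_apply, map_smul, smul_eq_mul, RingHom.id_apply]
    ring
  · intro x
    have h1 : (0 : ℂ) ≤ τ.toFun ((star x * x) 0 0) + τ.toFun ((star x * x) 1 1) := by
      simp only [CStarMatrix.mul_apply, Fin.sum_univ_two, map_add]
      exact add_nonneg (add_nonneg (τ.pos (x 0 0)) (τ.pos (x 1 0)))
        (add_nonneg (τ.pos (x 0 1)) (τ.pos (x 1 1)))
    exact div_nonneg h1 (by norm_num)
  · have h1 : τ.toFun ((1 : M2 A) 0 0) + τ.toFun ((1 : M2 A) 1 1) = 2 := by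
      have e0 : (1 : M2 A) 0 0 = 1 := by simp
      have e1 : (1 : M2 A) 1 1 = 1 := by simp
      rw [e0, e1, τ.map_one]; norm_num
    change (τ.toFun ((1 : M2 A) 0 0) + τ.toFun ((1 : M2 A) 1 1)) / 2 = 1
    rw [h1]; norm_num
  · intro x y
    change (τ.toFun ((x * y) 0 0) + τ.toFun ((x * y) 1 1)) / 2 =
      (τ.toFun ((y * x) 0 0) + τ.toFun ((y * x) 1 1)) / 2
    simp only [CStarMatrix.mul_apply, Fin.sum_univ_two, map_add]
    rw [τ.comm (x 0 0), τ.comm (x 0 1), τ.comm (x 1 0), τ.comm (x 1 1)]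
    ring
  obtain ⟨k, φ, hk, hcp, h1, hmul, htr⟩ := h
  refine ⟨fun n => 2 * k n, fun n => reidx finProdFinEquiv (ext2 (φ n)), fun n => by
    have := hk n; positivity, fun n => reidx_cp _ (ext2_cp (hcp n)), fun n => ?_, fun x y => ?_,
    fun x => ?_⟩
  · change (ext2 (φ n) 1).submatrix _ _ = 1
    have h2 : ext2 (φ n) (1 : M2 A) = 1 := by
      ext ⟨i, p⟩ ⟨j, q⟩
      rw [ext2_apply, CStarMatrix.one_apply]
      by_cases hij : i = j
      · subst hij
        simp [h1 n, Matrix.one_apply]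
      · simp [hij]
    rw [h2, Matrix.submatrix_one_equiv]
  · have h3 : ∀ n, norm2 ((reidx finProdFinEquiv (ext2 (φ n))) (x * y) -
        (reidx finProdFinEquiv (ext2 (φ n))) x * (reidx finProdFinEquiv (ext2 (φ n))) y) =
        norm2 (ext2 (φ n) (x * y) - ext2 (φ n) x * ext2 (φ n) y) := by
      intro n
      rw [← reindex_norm2 finProdFinEquiv (ext2 (φ n) (x * y) - ext2 (φ n) x * ext2 (φ n) y),
        Matrix.submatrix_sub]
      change _ = norm2 ((ext2 (φ n) (x * y)).submatrix finProdFinEquiv.symm finProdFinEquiv.symm -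
        (ext2 (φ n) x * ext2 (φ n) y).submatrix finProdFinEquiv.symm finProdFinEquiv.symm)
      rw [← Matrix.submatrix_mul_equiv _ _ _ finProdFinEquiv.symm _]
      rfl
    simp only [h3]
    have h4 : ∀ n, norm2 (ext2 (φ n) (x * y) - ext2 (φ n) x * ext2 (φ n) y) ≤
        ∑ i, ∑ j, ∑ l, norm2 (φ n (x i l * y l j) - φ n (x i l) * φ n (y l j)) := by
      intro n
      have : Nonempty (Fin (k n)) := ⟨⟨0, hk n⟩⟩
      refine (norm2_blocks _ (fun i j => ∑ l, (φ n (x i l * y l j) - φ n (x i l) * φ n (y l j)))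
        ?_).trans ?_
      · intro i j p q
        rw [Matrix.sub_apply, ext2_apply, Matrix.mul_apply, Fintype.sum_prod_type,
          CStarMatrix.mul_apply, map_sum, Matrix.sum_apply, Matrix.sum_apply,
          ← Finset.sum_sub_distrib]
        refine Finset.sum_congr rfl fun l _ => ?_
        rw [Matrix.sub_apply, Matrix.mul_apply]
        rfl
      · refine Finset.sum_le_sum fun i _ => Finset.sum_le_sum fun j _ => ?_
        rw [Fin.sum_univ_two, Fin.sum_univ_two]
        exact norm2_add_le _ _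
    have h5 : Tendsto (fun n => ∑ i, ∑ j, ∑ l,
        norm2 (φ n (x i l * y l j) - φ n (x i l) * φ n (y l j))) atTop
        (𝓝 (∑ i : Fin 2, ∑ j : Fin 2, ∑ l : Fin 2, (0 : ℝ))) :=
      tendsto_finsetSum _ fun i _ => tendsto_finsetSum _ fun j _ =>
        tendsto_finsetSum _ fun l _ => hmul (x i l) (y l j)
    rw [Finset.sum_const_zero, Finset.sum_const_zero, Finset.sum_const_zero] at h5
    exact squeeze_zero (fun n => norm2_nonneg _) h4 h5
  · have h3 : ∀ n, ntr ((reidx finProdFinEquiv (ext2 (φ n))) x) =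
        (ntr (φ n (x 0 0)) + ntr (φ n (x 1 1))) / 2 := by
      intro n
      have h4 : ntr ((reidx finProdFinEquiv (ext2 (φ n))) x) = ntr (ext2 (φ n) x) :=
        reindex_ntr finProdFinEquiv (ext2 (φ n) x)
      rw [h4]
      simp only [ntr, Matrix.trace, Matrix.diag, Fintype.sum_prod_type, Fin.sum_univ_two,
        ext2_apply, Fintype.card_prod, Fintype.card_fin]
      have hk' : ((k n : ℕ) : ℂ) ≠ 0 := by exact_mod_cast (hk n).ne'
      push_cast
      field_simp
    simp only [h3]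
    exact ((htr (x 0 0)).add (htr (x 1 1))).div_const 2

end QT
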