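import Mathlib
import Pool.Agent.Helper58.QT.Defs
import Pool.Agent.Helper58.QT.CPBasics

/-!
# QT-12 Arveson: extension of completely positive maps with values in a matrix algebra
Let `n = κ`. In the C*-algebra `CStarMatrix κ κ B` (order on `A`, `B`: `letI := CStarAlgebra.spectralOrder _`) consider the
real vector space of self-adjoint elements, the cone of elements `≥ 0` and the subspace of matrices with entries in
`ι(A)`; on it the functional `s(ι(x_ij)) = ∑_ij Ξ(x_ij)_ij` (real on self-adjoint matrices by `isCP_star`). It is `≥ 0` on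
`≥ 0`: `ι ⊗ id : M_κ(A) → M_κ(B)` is an injective *-homomorphism, hence isometric and reflects positivity
(`x ≥ 0` iff `x` self-adjoint and `‖ ‖x‖ 1 - x ‖ ≤ ‖x‖`, or spectral permanence), and for `x = yᴴ y` `isCP_iff` with the vector
`⊕ e_i` gives `s(x) ≥ 0`. `riesz_extension` (dense: `‖y‖ 1 ± y ≥ 0`) extends `s` to a positive real functional, complexify.
Define `Ξ'(b)_ij = s'(b ⊗ e_ij)` (matrix with the single entry `b` at `(i,j)`). `Ξ'(ι a) = Ξ a`. CP by `isCP_quad`:
`∑_pq ⟨Ξ'(b_p* b_q) v_q, v_p⟩ = s'(y* y)` with `y = ` the matrix with first row (or any fixed row)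
`y_{0 j} = ∑_q b_q (v_q)_j`. (`κ` empty: trivial.)
-/

open scoped Matrix Kronecker ComplexOrder Matrix.Norms.L2Operator
open Filter Topology

namespace QT

universe u

private noncomputable def arvMap {A B : Type u} [CStarAlgebra A] [CStarAlgebra B]
    (ι : A →⋆ₐ[ℂ] B) (κ : Type) [Fintype κ] [DecidableEq κ] :
    CStarMatrix κ κ A →⋆ₐ[ℂ] CStarMatrix κ κ B where
  toFun M := M.map ι
  map_one' := by
    refine CStarMatrix.ext fun i j => ?_
    rw [CStarMatrix.map_apply, CStarMatrix.one_apply, CStarMatrix.one_apply]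
    split_ifs <;> simp
  map_mul' M N := by
    refine CStarMatrix.ext fun i j => ?_
    rw [CStarMatrix.map_apply, CStarMatrix.mul_apply, CStarMatrix.mul_apply, map_sum]
    simp [CStarMatrix.map_apply]
  map_zero' := by
    refine CStarMatrix.ext fun i j => ?_
    simp [CStarMatrix.map_apply, CStarMatrix.zero_apply]
  map_add' M N := by
    refine CStarMatrix.ext fun i j => ?_
    simp [CStarMatrix.map_apply, CStarMatrix.add_apply]
  commutes' r := by
    refine CStarMatrix.ext fun i j => ?_
    rw [CStarMatrix.map_apply, CStarMatrix.algebraMap_apply, CStarMatrix.algebraMap_apply]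
    split_ifs
    · exact AlgHomClass.commutes ι r
    · exact map_zero ι
  map_star' M := by
    refine CStarMatrix.ext fun i j => ?_
    simp [CStarMatrix.map_apply, CStarMatrix.star_apply, map_star]

private theorem arvMap_apply {A B : Type u} [CStarAlgebra A] [CStarAlgebra B]
    (ι : A →⋆ₐ[ℂ] B) (κ : Type) [Fintype κ] [DecidableEq κ] (M : CStarMatrix κ κ A) (i j : κ) :
    arvMap ι κ M i j = ι (M i j) := rfl

private theorem arvMap_inj {A B : Type u} [CStarAlgebra A] [CStarAlgebra B]
    (ι : A →⋆ₐ[ℂ] B) (hι : Function.Injective ι) (κ : Type) [Fintype κ] [DecidableEq κ] :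
    Function.Injective (arvMap ι κ) := by
  intro M N h
  refine CStarMatrix.ext fun i j => hι ?_
  rw [← arvMap_apply, ← arvMap_apply, h]

private theorem arv_nonneg {M N : Type*} [CStarAlgebra M] [PartialOrder M] [StarOrderedRing M]
    [CStarAlgebra N] [PartialOrder N] [StarOrderedRing N] (φ : M →⋆ₐ[ℂ] N)
    (hφ : Function.Injective φ) (x : M) (hx : IsSelfAdjoint x) (h : 0 ≤ φ x) : 0 ≤ x := by
  have hx' : IsSelfAdjoint (φ x) := hx.map φ
  rw [StarOrderedRing.nonneg_iff_spectrum_nonneg (R := ℝ) _ hx'] at h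
  rw [StarOrderedRing.nonneg_iff_spectrum_nonneg (R := ℝ) _ hx]
  rw [hx.map_spectrum_real φ hφ] at h
  exact h

private theorem arvMap_nonneg {A B : Type u} [CStarAlgebra A] [PartialOrder A] [StarOrderedRing A]
    [CStarAlgebra B] [PartialOrder B] [StarOrderedRing B]
    (ι : A →⋆ₐ[ℂ] B) (hι : Function.Injective ι) (κ : Type) [Fintype κ] [DecidableEq κ]
    (x : CStarMatrix κ κ A) (hx : IsSelfAdjoint x) (h : 0 ≤ arvMap ι κ x) : 0 ≤ x := by
  exact arv_nonneg (arvMap ι κ) (arvMap_inj ι hι κ) x hx h

/-- the functional on matrices over `A` -/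
private noncomputable def arvS {A : Type u} [CStarAlgebra A] {κ : Type} [Fintype κ] [DecidableEq κ]
    (Ξ : A →ₗ[ℂ] Matrix κ κ ℂ) : CStarMatrix κ κ A →ₗ[ℂ] ℂ where
  toFun x := ∑ i, ∑ j, Ξ (x i j) i j
  map_add' x y := by
    simp [CStarMatrix.add_apply, Finset.sum_add_distrib]
  map_smul' c x := by
    simp [CStarMatrix.smul_apply, Finset.mul_sum]

private theorem arvS_apply {A : Type u} [CStarAlgebra A] {κ : Type} [Fintype κ] [DecidableEq κ]
    (Ξ : A →ₗ[ℂ] Matrix κ κ ℂ) (x : CStarMatrix κ κ A) :
    arvS Ξ x = ∑ i, ∑ j, Ξ (x i j) i j := rfl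

private theorem arvS_star {A : Type u} [CStarAlgebra A] {κ : Type} [Fintype κ] [DecidableEq κ]
    {Ξ : A →ₗ[ℂ] Matrix κ κ ℂ} (hΞ : IsCP Ξ) (x : CStarMatrix κ κ A) :
    arvS Ξ (star x) = star (arvS Ξ x) := by
  rw [arvS_apply, arvS_apply, star_sum, Finset.sum_comm]
  refine Finset.sum_congr rfl fun i _ => ?_
  rw [star_sum]
  refine Finset.sum_congr rfl fun j _ => ?_
  rw [CStarMatrix.star_apply, isCP_star hΞ, Matrix.conjTranspose_apply]

private theorem arvS_sq {A : Type u} [CStarAlgebra A] {κ : Type} [Fintype κ] [DecidableEq κ]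
    {Ξ : A →ₗ[ℂ] Matrix κ κ ℂ} (hΞ : IsCP Ξ) (z : CStarMatrix κ κ A) :
    0 ≤ arvS Ξ (star z * z) := by
  have h1 : arvS Ξ (star z * z) = ∑ k, ∑ i, ∑ j, Ξ (star (z k i) * z k j) i j := by
    rw [arvS_apply]
    simp only [CStarMatrix.mul_apply, CStarMatrix.star_apply, map_sum, Matrix.sum_apply]
    calc ∑ i, ∑ j, ∑ k, Ξ (star (z k i) * z k j) i j
        = ∑ i, ∑ k, ∑ j, Ξ (star (z k i) * z k j) i j :=
          Finset.sum_congr rfl fun i _ => Finset.sum_comm
      _ = _ := Finset.sum_comm
  rw [h1]
  refine Finset.sum_nonneg fun k _ => ?_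
  have h2 := (isCP_quad Ξ).1 hΞ (Fintype.card κ) (fun p => z k ((Fintype.equivFin κ).symm p))
    (fun p => Pi.single ((Fintype.equivFin κ).symm p) 1)
  have h3 : ∑ p, ∑ q, star (Pi.single ((Fintype.equivFin κ).symm p) (1 : ℂ) : κ → ℂ) ⬝ᵥ
      (Ξ (star (z k ((Fintype.equivFin κ).symm p)) * z k ((Fintype.equivFin κ).symm q))).mulVec
        (Pi.single ((Fintype.equivFin κ).symm q) 1) =
      ∑ i, ∑ j, Ξ (star (z k i) * z k j) i j := by
    rw [← (Fintype.equivFin κ).symm.sum_comp]
    refine Finset.sum_congr rfl fun p _ => ?_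
    rw [← (Fintype.equivFin κ).symm.sum_comp]
    refine Finset.sum_congr rfl fun q _ => ?_
    simp [Pi.star_single]
  rw [← h3]
  exact h2

/-- extension of a positive functional -/
private theorem arv_ext {M N : Type*} [CStarAlgebra M] [PartialOrder M] [StarOrderedRing M]
    [CStarAlgebra N] [PartialOrder N] [StarOrderedRing N] (φ : M →⋆ₐ[ℂ] N)
    (hφ : Function.Injective φ) (s : M →ₗ[ℂ] ℂ) (hs : ∀ z, 0 ≤ s (star z * z))
    (hst : ∀ x, s (star x) = star (s x)) :
    ∃ G : N →ₗ[ℂ] ℂ, (∀ x, G (φ x) = s x) ∧ ∀ z, 0 ≤ G (star z * z) := by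
  let C : PointedCone ℝ N :=
    { carrier := {x | 0 ≤ x + star x}
      add_mem' := by
        intro a b ha hb
        have := add_nonneg ha hb
        show 0 ≤ a + b + star (a + b)
        rw [star_add]
        convert this using 1
        abel
      zero_mem' := by simp
      smul_mem' := by
        rintro ⟨c, hc⟩ x hx
        show 0 ≤ c • x + star (c • x)
        have h1 : c • x + star (c • x) = c • (x + star x) := by
          rw [smul_add, star_smul]
          simp
        rw [h1]
        exact smul_nonneg hc hx }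
  have hC : ∀ x, x ∈ C ↔ 0 ≤ x + star x := fun x => Iff.rfl
  let φR : M →ₗ[ℝ] N := ((φ : M →ₐ[ℂ] N).toLinearMap).restrictScalars ℝ
  have hφR : ∀ x, φR x = φ x := fun x => rfl
  have hinj : Function.Injective φR := hφ
  let f : N →ₗ.[ℝ] ℝ :=
    ⟨LinearMap.range φR, (Complex.reLm.comp (s.restrictScalars ℝ)).comp
      (LinearEquiv.ofInjective φR hinj).symm.toLinearMap⟩
  have hf : ∀ (m : M) (y : f.domain), (y : N) = φR m → f y = (s m).re := by
    intro m y h
    have h1 : (LinearEquiv.ofInjective φR hinj).symm y = m := by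
      rw [LinearEquiv.symm_apply_eq]
      exact Subtype.ext h
    show (s ((LinearEquiv.ofInjective φR hinj).symm y)).re = (s m).re
    rw [h1]
  obtain ⟨g, hg1, hg2⟩ := riesz_extension C f (by
    intro y hx
    obtain ⟨m, hm⟩ := y.2
    rw [hf m y hm.symm]
    rw [hC, ← hm] at hx
    have h1 : 0 ≤ φ (m + star m) := by
      rw [map_add, map_star]
      exact hx
    have h2 : 0 ≤ m + star m := arv_nonneg φ hφ _ (IsSelfAdjoint.add_star_self m) h1
    obtain ⟨z, hz⟩ := CStarAlgebra.nonneg_iff_eq_star_mul_self.1 h2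
    have h3 := hs z
    rw [← hz, map_add, hst] at h3
    have h4 := (Complex.le_def.1 h3).1
    simp at h4
    linarith) (by
    intro y
    have hy : IsSelfAdjoint (y + star y) := IsSelfAdjoint.add_star_self y
    refine ⟨⟨φR (algebraMap ℝ M (‖y + star y‖ / 2)), ⟨_, rfl⟩⟩, ?_⟩
    rw [hC]
    have h1 : φR (algebraMap ℝ M (‖y + star y‖ / 2)) = algebraMap ℝ N (‖y + star y‖ / 2) := by
      rw [hφR]
      rw [IsScalarTower.algebraMap_apply ℝ ℂ M, IsScalarTower.algebraMap_apply ℝ ℂ N]
      exact AlgHomClass.commutes φ _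
    have h2 : star (algebraMap ℝ N (‖y + star y‖ / 2)) = algebraMap ℝ N (‖y + star y‖ / 2) := by
      rw [← algebraMap_star_comm]
      simp
    have h3 := hy.neg_algebraMap_norm_le_self
    rw [star_add]
    simp only [h1, h2]
    have h4 : algebraMap ℝ N ‖y + star y‖ = algebraMap ℝ N (‖y + star y‖ / 2) +
        algebraMap ℝ N (‖y + star y‖ / 2) := by
      rw [← map_add, add_halves]
    rw [h4] at h3
    have h5 : algebraMap ℝ N (‖y + star y‖ / 2) + y +
        (algebraMap ℝ N (‖y + star y‖ / 2) + star y) =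
        (y + star y) - (-(algebraMap ℝ N (‖y + star y‖ / 2) +
        algebraMap ℝ N (‖y + star y‖ / 2))) := by abel
    rw [h5]
    exact sub_nonneg.2 h3)
  have hsk : ∀ x : N, star x = -x → g x = 0 := by
    intro x hx
    have h1 := hg2 x (by rw [hC, hx]; simp)
    have h2 := hg2 (-x) (by rw [hC, star_neg, hx]; simp)
    rw [map_neg] at h2
    linarith
  refine ⟨Module.Dual.extendRCLike g, ?_, ?_⟩
  · intro x
    rw [Module.Dual.extendRCLike_apply]
    have e1 : g (φ x) = (s x).re := by
      have := hg1 ⟨φR x, ⟨x, rfl⟩⟩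
      rw [hf x _ rfl] at this
      exact this
    have e2 : g (Complex.I • φ x) = -(s x).im := by
      have h6 := hg1 ⟨φR (Complex.I • x), ⟨_, rfl⟩⟩
      rw [hf (Complex.I • x) _ rfl] at h6
      have h7 : (s (Complex.I • x)).re = -(s x).im := by
        rw [map_smul, smul_eq_mul, Complex.I_mul_re]
      have h8 : g (φ (Complex.I • x)) = (s (Complex.I • x)).re := h6
      have h9 : φ (Complex.I • x) = Complex.I • φ x := map_smul φ _ _
      rw [← h7, ← h8, h9]
    have e3 : g ((RCLike.I : ℂ) • φ x) = -(s x).im := e2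
    rw [e1, e3]
    apply Complex.ext <;> simp
  · intro z
    rw [Module.Dual.extendRCLike_apply]
    have e1 : 0 ≤ g (star z * z) := by
      refine hg2 _ ?_
      rw [hC, star_mul, star_star]
      exact add_nonneg (star_mul_self_nonneg z) (star_mul_self_nonneg z)
    have e2 : g ((RCLike.I : ℂ) • (star z * z)) = 0 := by
      refine hsk _ ?_
      rw [star_smul, star_mul, star_star]
      simp
    rw [e2]
    simp only [RCLike.ofReal_zero, mul_zero, sub_zero]
    exact Complex.zero_le_real.2 e1

theorem extend_cp {A B : Type u} [CStarAlgebra A] [CStarAlgebra B] (ι : A →⋆ₐ[ℂ] B)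
    (hι : Function.Injective ι) {κ : Type} [Fintype κ] [DecidableEq κ]
    (Ξ : A →ₗ[ℂ] Matrix κ κ ℂ) (hΞ : IsCP Ξ) :
    ∃ Ξ' : B →ₗ[ℂ] Matrix κ κ ℂ, IsCP Ξ' ∧ ∀ a, Ξ' (ι a) = Ξ a := by
  rcases isEmpty_or_nonempty κ with hκ | ⟨⟨k₀⟩⟩
  · refine ⟨0, ?_, fun a => Subsingleton.elim _ _⟩
    rw [isCP_quad]
    intro m a v
    simp
  letI := CStarAlgebra.spectralOrder A
  haveI := CStarAlgebra.spectralOrderedRing A
  letI := CStarAlgebra.spectralOrder B
  haveI := CStarAlgebra.spectralOrderedRing B
  obtain ⟨G, hG1, hG2⟩ := arv_ext (arvMap ι κ) (arvMap_inj ι hι κ) (arvS Ξ) (arvS_sq hΞ)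
    (arvS_star hΞ)
  let sg : κ → κ → B →ₗ[ℂ] CStarMatrix κ κ B := fun i j =>
    { toFun := fun b => CStarMatrix.ofMatrix (Matrix.single i j b)
      map_add' := fun b c => by
        refine CStarMatrix.ext fun i' j' => ?_
        simp [Matrix.single_add]
      map_smul' := fun r b => by
        refine CStarMatrix.ext fun i' j' => ?_
        show Matrix.single i j (r • b) i' j' = r • Matrix.single i j b i' j'
        rw [← Matrix.smul_apply, Matrix.smul_single] }
  have hsg : ∀ i j b i' j', sg i j b i' j' = if i = i' ∧ j = j' then b else 0 := by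
    intro i j b i' j'
    show Matrix.single i j b i' j' = _
    rw [Matrix.single_apply]
  have hsum : ∀ {n : ℕ} (f : Fin n → CStarMatrix κ κ B) (i j : κ),
      (∑ p, f p) i j = ∑ p, f p i j := by
    intro n f i j
    exact Matrix.sum_apply i j Finset.univ f
  have hsum2 : ∀ (f : κ → CStarMatrix κ κ B) (i j : κ), (∑ p, f p) i j = ∑ p, f p i j := by
    intro f i j
    exact Matrix.sum_apply i j Finset.univ f
  let Ξ' : B →ₗ[ℂ] Matrix κ κ ℂ :=
    { toFun := fun b => Matrix.of fun i j => G (sg i j b)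
      map_add' := fun b c => by
        ext i j
        simp
      map_smul' := fun r b => by
        ext i j
        simp }
  have hΞ' : ∀ b i j, Ξ' b i j = G (sg i j b) := fun b i j => rfl
  refine ⟨Ξ', ?_, ?_⟩
  · rw [isCP_quad]
    intro m a v
    let y : CStarMatrix κ κ B := CStarMatrix.ofMatrix
      (Matrix.of fun i j => if i = k₀ then ∑ q, v q j • a q else 0)
    have h1 : star y * y = ∑ p, ∑ q, ∑ i, ∑ j, (star (v p i) * v q j) •
        sg i j (star (a p) * a q) := by
      refine CStarMatrix.ext fun i' j' => ?_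
      rw [hsum]
      simp only [hsum, hsum2, CStarMatrix.smul_apply, hsg]
      rw [CStarMatrix.mul_apply, Finset.sum_eq_single k₀]
      · have h3 : y k₀ i' = ∑ q, v q i' • a q := by
          show (if k₀ = k₀ then ∑ q, v q i' • a q else 0) = _
          rw [if_pos rfl]
        have h4 : y k₀ j' = ∑ q, v q j' • a q := by
          show (if k₀ = k₀ then ∑ q, v q j' • a q else 0) = _
          rw [if_pos rfl]
        rw [CStarMatrix.star_apply, h3, h4, star_sum, Finset.sum_mul]
        refine Finset.sum_congr rfl fun p _ => ?_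
        rw [Finset.mul_sum]
        refine Finset.sum_congr rfl fun q _ => ?_
        rw [Finset.sum_eq_single i', Finset.sum_eq_single j']
        · rw [if_pos ⟨rfl, rfl⟩, star_smul, smul_mul_smul_comm]
        · intro j _ hj
          rw [if_neg (fun h => hj h.2), smul_zero]
        · intro h
          exact absurd (Finset.mem_univ _) h
        · intro i _ hi
          refine Finset.sum_eq_zero fun j _ => ?_
          rw [if_neg (fun h => hi h.1), smul_zero]
        · intro h
          exact absurd (Finset.mem_univ _) h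
      · intro k _ hk
        have h3 : y k j' = 0 := by
          show (if k = k₀ then ∑ q, v q j' • a q else 0) = _
          rw [if_neg hk]
        rw [h3, mul_zero]
      · intro h
        exact absurd (Finset.mem_univ _) h
    have h2 := hG2 y
    rw [h1] at h2
    simp only [map_sum, map_smul] at h2
    convert h2 using 1
    refine Finset.sum_congr rfl fun p _ => Finset.sum_congr rfl fun q _ => ?_
    simp only [dotProduct, Matrix.mulVec, hΞ', Finset.mul_sum, Pi.star_apply, smul_eq_mul]
    refine Finset.sum_congr rfl fun i _ => Finset.sum_congr rfl fun j _ => ?_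
    ring
  · intro a
    ext i j
    rw [hΞ']
    have h3 : sg i j (ι a) = arvMap ι κ (CStarMatrix.ofMatrix (Matrix.single i j a)) := by
      refine CStarMatrix.ext fun i' j' => ?_
      rw [hsg, arvMap_apply]
      show _ = ι (Matrix.single i j a i' j')
      rw [Matrix.single_apply]
      split_ifs <;> simp
    rw [h3, hG1, arvS_apply]
    have h4 : ∀ i' j', (CStarMatrix.ofMatrix (Matrix.single i j a) : CStarMatrix κ κ A) i' j' =
        if i = i' ∧ j = j' then a else 0 := by
      intro i' j'
      show Matrix.single i j a i' j' = _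
      rw [Matrix.single_apply]
    simp only [h4]
    rw [Finset.sum_eq_single i, Finset.sum_eq_single j]
    · rw [if_pos ⟨rfl, rfl⟩]
    · intro j' _ hj
      rw [if_neg (fun h => hj h.2.symm), map_zero, Matrix.zero_apply]
    · intro h
      exact absurd (Finset.mem_univ _) h
    · intro i' _ hi
      refine Finset.sum_eq_zero fun j' _ => ?_
      rw [if_neg (fun h => hi h.1.symm), map_zero, Matrix.zero_apply]
    · intro h
      exact absurd (Finset.mem_univ _) h

end QT
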