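import Mathlib
import Pool.Agent.Helper58.QT.Defs
import Pool.Agent.Helper58.QT.CPBasics
import Pool.Agent.Helper58.QT.MatBasics

/-!
# QT-24 LocalSeq: the local form of quasidiagonality implies the sequence form (separable algebra)
Dense sequence `a_0, a_1, ...`; `F_n = {a_0..a_n}`, `ε = 1/(n+1)`. All maps are contractive (`isCP_norm_le`, `‖φ 1‖ ≤ 1`), `ntr` is
contractive, so the two convergences extend from the dense set to all elements.
-/

open scoped Matrix Kronecker ComplexOrder Matrix.Norms.L2Operator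
open Filter Topology

namespace QT

universe u


private theorem cp_contr {A : Type u} [CStarAlgebra A] {k : ℕ} (hk : 0 < k)
    (φ : A →ₗ[ℂ] Matrix (Fin k) (Fin k) ℂ) (hφ : IsCP φ) (h1 : φ 1 = 1) (a : A) :
    ‖φ a‖ ≤ ‖a‖ := by
  have : Nonempty (Fin k) := ⟨⟨0, hk⟩⟩
  have h := isCP_norm_le hφ a
  rwa [h1, CStarRing.norm_one, one_mul] at h

theorem qd_of_local {A : Type u} [CStarAlgebra A] [TopologicalSpace.SeparableSpace A]
    (τ : TracialState A)
    (h : ∀ (F : Finset A) (ε : ℝ), 0 < ε →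
      ∃ (k : ℕ) (φ : A →ₗ[ℂ] Matrix (Fin k) (Fin k) ℂ), 0 < k ∧ IsCP φ ∧ φ 1 = 1 ∧
        (∀ a ∈ F, ∀ b ∈ F, ‖φ (a * b) - φ a * φ b‖ ≤ ε) ∧
        ∀ a ∈ F, ‖ntr (φ a) - τ.toFun a‖ ≤ ε) : τ.IsQD := by
  classical
  -- the trace is contractive
  have hτ : ∀ a, ‖τ.toFun a‖ ≤ ‖a‖ := by
    intro a
    refine le_of_forall_pos_le_add fun ε hε => ?_
    obtain ⟨k, φ, hk, hcp, h1, -, h3⟩ := h {a} ε hε
    have h4 := h3 a (Finset.mem_singleton_self a)
    have h5 := (ntr_norm_le (φ a)).trans (cp_contr hk φ hcp h1 a)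
    have h6 : τ.toFun a = ntr (φ a) - (ntr (φ a) - τ.toFun a) := by ring
    rw [h6]
    exact (norm_sub_le _ _).trans (add_le_add h5 h4)
  set u : ℕ → A := TopologicalSpace.denseSeq A with hu
  have hd : DenseRange u := TopologicalSpace.denseRange_denseSeq A
  have happ : ∀ (a : A) (δ : ℝ), 0 < δ → ∃ i, ‖a - u i‖ ≤ δ := by
    intro a δ hδ
    obtain ⟨i, hi⟩ := hd.exists_dist_lt a hδ
    exact ⟨i, by rw [← dist_eq_norm]; exact hi.le⟩
  have hch : ∀ n : ℕ, ∃ (k : ℕ) (φ : A →ₗ[ℂ] Matrix (Fin k) (Fin k) ℂ), 0 < k ∧ IsCP φ ∧ φ 1 = 1 ∧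
        (∀ i ≤ n, ∀ j ≤ n, ‖φ (u i * u j) - φ (u i) * φ (u j)‖ ≤ 1 / ((n : ℝ) + 1)) ∧
        ∀ i ≤ n, ‖ntr (φ (u i)) - τ.toFun (u i)‖ ≤ 1 / ((n : ℝ) + 1) := by
    intro n
    obtain ⟨k, φ, hk, hcp, h1, h2, h3⟩ := h ((Finset.range (n + 1)).image u) (1 / ((n : ℝ) + 1))
      (by positivity)
    refine ⟨k, φ, hk, hcp, h1, fun i hi j hj => h2 _ ?_ _ ?_, fun i hi => h3 _ ?_⟩
    · exact Finset.mem_image_of_mem _ (Finset.mem_range.2 (by omega))
    · exact Finset.mem_image_of_mem _ (Finset.mem_range.2 (by omega))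
    · exact Finset.mem_image_of_mem _ (Finset.mem_range.2 (by omega))
  choose k φ hk hcp h1 h2 h3 using hch
  have hc : ∀ n a, ‖φ n a‖ ≤ ‖a‖ := fun n a => cp_contr (hk n) (φ n) (hcp n) (h1 n) a
  refine ⟨k, φ, hk, hcp, h1, fun a b => ?_, fun a => ?_⟩
  · rw [Metric.tendsto_atTop]
    intro ε hε
    set C : ℝ := ‖a‖ + ‖b‖ + 1 with hC
    have ha0 := norm_nonneg a
    have hb0 := norm_nonneg b
    have hC0 : 0 < C := by positivity
    set δ : ℝ := min 1 (ε / (2 * C + 2)) with hδ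
    have hδ0 : 0 < δ := lt_min one_pos (by positivity)
    have hδ1 : δ ≤ 1 := min_le_left _ _
    have hδ2 : δ * (2 * C + 2) ≤ ε := by
      have := min_le_right 1 (ε / (2 * C + 2))
      rwa [le_div_iff₀ (by positivity)] at this
    obtain ⟨i, hi⟩ := happ a δ hδ0
    obtain ⟨j, hj⟩ := happ b δ hδ0
    obtain ⟨m, hm⟩ := exists_nat_one_div_lt hδ0
    refine ⟨max m (max i j), fun n hn => ?_⟩
    have hmn : m ≤ n := (le_max_left _ _).trans hn
    have hin : i ≤ n := ((le_max_left _ _).trans (le_max_right _ _)).trans hn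
    have hjn : j ≤ n := ((le_max_right _ _).trans (le_max_right _ _)).trans hn
    have hn1 : 1 / ((n : ℝ) + 1) ≤ δ := by
      refine le_trans ?_ hm.le
      exact one_div_le_one_div_of_le (by positivity) (by exact_mod_cast Nat.succ_le_succ hmn)
    rw [Real.dist_0_eq_abs, abs_of_nonneg (norm_nonneg _)]
    have hui : ‖u i‖ ≤ ‖a‖ + 1 := by
      have h6 : u i = a - (a - u i) := by abel
      rw [h6]
      exact (norm_sub_le _ _).trans (add_le_add le_rfl (hi.trans hδ1))
    have huj : ‖u j‖ ≤ ‖b‖ + 1 := by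
      have h6 : u j = b - (b - u j) := by abel
      rw [h6]
      exact (norm_sub_le _ _).trans (add_le_add le_rfl (hj.trans hδ1))
    have e1 : ‖φ n (a * b) - φ n (u i * u j)‖ ≤ δ * C := by
      rw [← map_sub]
      refine (hc n _).trans ?_
      have h6 : a * b - u i * u j = (a - u i) * b + u i * (b - u j) := by noncomm_ring
      rw [h6]
      refine (norm_add_le _ _).trans ?_
      have e1 := (norm_mul_le (a - u i) b).trans (mul_le_mul_of_nonneg_right hi hb0)
      have e2 := (norm_mul_le (u i) (b - u j)).trans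
        (mul_le_mul hui hj (norm_nonneg _) (by positivity))
      rw [hC]
      nlinarith
    have e2 : ‖φ n (u i) * φ n (u j) - φ n a * φ n b‖ ≤ δ * C := by
      have h6 : φ n (u i) * φ n (u j) - φ n a * φ n b =
          (φ n (u i) - φ n a) * φ n (u j) + φ n a * (φ n (u j) - φ n b) := by noncomm_ring
      rw [h6]
      refine (norm_add_le _ _).trans ?_
      have e3 : ‖φ n (u i) - φ n a‖ ≤ δ := by
        rw [← map_sub, ← norm_neg, ← map_neg, neg_sub]
        exact (hc n _).trans hi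
      have e4 : ‖φ n (u j) - φ n b‖ ≤ δ := by
        rw [← map_sub, ← norm_neg, ← map_neg, neg_sub]
        exact (hc n _).trans hj
      have e5 := (norm_mul_le (φ n (u i) - φ n a) (φ n (u j))).trans
        (mul_le_mul e3 ((hc n _).trans huj) (norm_nonneg _) hδ0.le)
      have e6 := (norm_mul_le (φ n a) (φ n (u j) - φ n b)).trans
        (mul_le_mul (hc n a) e4 (norm_nonneg _) ha0)
      rw [hC]
      nlinarith
    have e3 := (h2 n i hin j hjn).trans hn1
    have h7 : φ n (a * b) - φ n a * φ n b = (φ n (a * b) - φ n (u i * u j)) +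
        (φ n (u i * u j) - φ n (u i) * φ n (u j)) + (φ n (u i) * φ n (u j) - φ n a * φ n b) := by
      abel
    rw [h7]
    have h8 := norm_add_le ((φ n (a * b) - φ n (u i * u j)) +
        (φ n (u i * u j) - φ n (u i) * φ n (u j))) (φ n (u i) * φ n (u j) - φ n a * φ n b)
    have h9 := norm_add_le (φ n (a * b) - φ n (u i * u j))
        (φ n (u i * u j) - φ n (u i) * φ n (u j))
    nlinarith
  · rw [Metric.tendsto_atTop]
    intro ε hε
    obtain ⟨i, hi⟩ := happ a (ε / 4) (by positivity)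
    obtain ⟨m, hm⟩ := exists_nat_one_div_lt (show (0 : ℝ) < ε / 4 by positivity)
    refine ⟨max m i, fun n hn => ?_⟩
    have hmn : m ≤ n := (le_max_left _ _).trans hn
    have hin : i ≤ n := (le_max_right _ _).trans hn
    have hn1 : 1 / ((n : ℝ) + 1) ≤ ε / 4 := by
      refine le_trans ?_ hm.le
      exact one_div_le_one_div_of_le (by positivity) (by exact_mod_cast Nat.succ_le_succ hmn)
    rw [dist_eq_norm]
    have h7 : ntr (φ n a) - τ.toFun a = ntr (φ n (a - u i)) +
        (ntr (φ n (u i)) - τ.toFun (u i)) - τ.toFun (a - u i) := by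
      rw [map_sub, map_sub, ntr_sub]
      ring
    rw [h7]
    have h8 := norm_sub_le (ntr (φ n (a - u i)) + (ntr (φ n (u i)) - τ.toFun (u i)))
      (τ.toFun (a - u i))
    have h9 := norm_add_le (ntr (φ n (a - u i))) (ntr (φ n (u i)) - τ.toFun (u i))
    have e1 := ((ntr_norm_le (φ n (a - u i))).trans (hc n _)).trans hi
    have e2 := (h3 n i hin).trans hn1
    have e3 := (hτ (a - u i)).trans hi
    linarith

end QT
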