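import Mathlib
import Pool.Agent.Helper58.QT.Defs
import Pool.Agent.Helper58.QT.LocalSeq

/-!
# QT-26 Closed: the quasidiagonal traces of a separable algebra are closed (pointwise limits)
-/

open scoped Matrix Kronecker ComplexOrder Matrix.Norms.L2Operator
open Filter Topology

namespace QT

universe u

theorem qd_closed {A : Type u} [CStarAlgebra A] [TopologicalSpace.SeparableSpace A]
    (τ : TracialState A)
    (h : ∀ (F : Finset A) (ε : ℝ), 0 < ε → ∃ σ : TracialState A, σ.IsQD ∧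
      ∀ a ∈ F, ‖σ.toFun a - τ.toFun a‖ ≤ ε) : τ.IsQD := by
  refine qd_of_local τ fun F ε hε => ?_
  obtain ⟨σ, ⟨k, φ, hk, hcp, h1, hmul, htr⟩, hσ⟩ := h F (ε / 2) (by linarith)
  have e1 : ∀ᶠ n in atTop, ∀ a ∈ F, ∀ b ∈ F, ‖φ n (a * b) - φ n a * φ n b‖ ≤ ε := by
    rw [Filter.eventually_all_finset]
    intro a ha
    rw [Filter.eventually_all_finset]
    intro b hb
    filter_upwards [(hmul a b).eventually (gt_mem_nhds hε)] with n hn
    exact hn.le
  have e2 : ∀ᶠ n in atTop, ∀ a ∈ F, ‖ntr (φ n a) - σ.toFun a‖ ≤ ε / 2 := by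
    rw [Filter.eventually_all_finset]
    intro a ha
    have h2 := tendsto_iff_norm_sub_tendsto_zero.1 (htr a)
    filter_upwards [h2.eventually (gt_mem_nhds (half_pos hε))] with n hn
    exact hn.le
  obtain ⟨n, hn1, hn2⟩ := (e1.and e2).exists
  refine ⟨k n, φ n, hk n, hcp n, h1 n, hn1, fun a ha => ?_⟩
  calc ‖ntr (φ n a) - τ.toFun a‖ = ‖(ntr (φ n a) - σ.toFun a) + (σ.toFun a - τ.toFun a)‖ := by
        congr 1; ring
    _ ≤ ‖ntr (φ n a) - σ.toFun a‖ + ‖σ.toFun a - τ.toFun a‖ := norm_add_le _ _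
    _ ≤ ε / 2 + ε / 2 := add_le_add (hn2 a ha) (hσ a ha)
    _ = ε := by ring

end QT
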