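import Mathlib
import Pool.Agent.Helper58.QT.Defs

/-!
# Project QT: the functions on `[0,1]` and the interface `Ends`

`Fn` is the ring (without unit) of continuous real functions on `[0,1]` vanishing at `0`.
-/

open scoped Matrix Kronecker ComplexOrder Matrix.Norms.L2Operator
open Filter Topology

namespace QT

/-- Continuous real functions on `[0,1]` vanishing at `0`. -/
def FnRing : NonUnitalSubring C(unitInterval, ℝ) where
  carrier := {f | f 0 = 0}
  mul_mem' := by intro f g hf hg; simp_all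
  add_mem' := by intro f g hf hg; simp_all
  zero_mem' := by simp
  neg_mem' := by intro f hf; simp_all

/-- Continuous real functions on `[0,1]` vanishing at `0`, as a type. -/
abbrev Fn := ↥FnRing

/-- `θ(t) = min 1 (8 t)`. -/
noncomputable def thF : Fn := ⟨⟨fun t => min 1 (8 * (t : ℝ)), by fun_prop⟩, by show (_ : ℝ) = 0; simp⟩

/-- square root of `θ`. -/
noncomputable def sqthF : Fn :=
  ⟨⟨fun t => Real.sqrt (min 1 (8 * (t : ℝ))), by fun_prop⟩, by show (_ : ℝ) = 0; simp⟩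

/-- `κ₁(t) = 0` on `[0,1/8]`, `= 1` on `[1/4,1]`. -/
noncomputable def k1F : Fn :=
  ⟨⟨fun t => max 0 (min 1 (8 * (t : ℝ) - 1)), by fun_prop⟩, by show (_ : ℝ) = 0; simp⟩

/-- `κ(t) = 0` on `[0,1/4]`, `= 1` on `[1/2,1]`. -/
noncomputable def kaF : Fn :=
  ⟨⟨fun t => max 0 (min 1 (4 * (t : ℝ) - 1)), by fun_prop⟩, by show (_ : ℝ) = 0; simp⟩

/-- `χ = sqrt (κ (1 - κ))`. -/
noncomputable def chF : Fn :=
  ⟨⟨fun t => Real.sqrt (max 0 (min 1 (4 * (t : ℝ) - 1)) * (1 - max 0 (min 1 (4 * (t : ℝ) - 1)))),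
    by fun_prop⟩, by show (_ : ℝ) = 0; simp⟩

/-- `ρ(t) = 0` on `[0,3/4]`, `ρ(1) = 1`. -/
noncomputable def rhF : Fn :=
  ⟨⟨fun t => max 0 (4 * (t : ℝ) - 3), by fun_prop⟩, by show (_ : ℝ) = 0; simp⟩

/-- The algebraic interface: two families of corners with open end in a *-algebra `Q`. In `D(A)`:
`al f a = f diag(a,0)`, `be f a = f U diag(a,0) U*`. -/
structure Ends (A Q : Type*) [Ring A] [StarRing A] [Algebra ℂ A] [Ring Q] [StarRing Q]
    [Algebra ℂ Q] where
  al : Fn → A →ₗ[ℂ] Q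
  be : Fn → A →ₗ[ℂ] Q
  al_mul : ∀ f g a b, al f a * al g b = al (f * g) (a * b)
  be_mul : ∀ f g a b, be f a * be g b = be (f * g) (a * b)
  al_star : ∀ f a, star (al f a) = al f (star a)
  be_star : ∀ f a, star (be f a) = be f (star a)
  al_add : ∀ f g a, al (f + g) a = al f a + al g a
  be_add : ∀ f g a, be (f + g) a = be f a + be g a
  al_eq_be : ∀ f : Fn, (∀ t : unitInterval, (3 / 4 : ℝ) ≤ t → (f : C(unitInterval, ℝ)) t = 0) →
    ∀ a, al f a = be f a

/-- `Ends A Q` for C*-algebras (all algebraic structure comes from the C*-algebra instances). -/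
abbrev EndsC (A Q : Type*) [CStarAlgebra A] [CStarAlgebra Q] := Ends A Q

/-- The properties of the two corners in `D(A)` which are used for `σ τ = σ_0`. -/
def EndsSpec {A Q : Type*} [CStarAlgebra A] [CStarAlgebra Q] (E : EndsC A Q)
    (σ : TracialState A → TracialState Q) : Prop :=
  (∀ (τ : TracialState A) (f : Fn) (a : A),
    (σ τ).toFun (E.al f a) = (((f : C(unitInterval, ℝ)) 1 : ℝ) : ℂ) * τ.toFun a) ∧
  (∀ (τ : TracialState A) (f : Fn) (a : A), (σ τ).toFun (E.be f a) = 0) ∧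
  (∃ b : Q, 1 - E.al thF 1 = star b * b) ∧ ‖E.be thF 1‖ ≤ 1

end QT
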