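import Mathlib
import Pool.Agent.Helper58.QT.Defs
import Pool.Agent.Helper58.QT.Fn

/-!
# QT-04 EndsD: the two families of corners in `D(A)`
Let `h = rhF` (so `h = 0` on `[0,3/4]`, `h(1) = 1`), `c(t) = cos (π/2 · h t)`, `s(t) = sin (π/2 · h t)`.
`al f a = (t ↦ f(t) • !![a, 0; 0, 0])`, `be f a = (t ↦ f(t) • !![c² a, c s a; c s a, s² a])`.
Both are in `D(A)`: at `t = 0` they vanish (`f 0 = 0`), at `t = 1`: `be f a (1) = f(1) !![0,0;0,a]` (`c(1) = 0`, `s(1) = 1`).
Multiplicativity of `be`: `!![c², cs; cs, s²]` is a projection (`c² + s² = 1`). `al f a = be f a` if `f = 0` on `[3/4,1]`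
because `h = 0` (so `c = 1, s = 0`) on `[0,3/4]`. The ring, star and algebra structure of `D A` in the statement is the one
coming from its `CStarAlgebra` instance (`EndsC`); it is definitionally the one of the star subalgebra (use `Subtype.ext`,
`show`, or first construct the data for `C(unitInterval, M2 A)`). `EndsSpec`: `σ_0(f) = τ(f(1)_00)`, so items 1, 2 are evaluation at `t = 1`.
Item 3: `b(t) = !![sqrt(1 - θ(t)), 0; 0, 1]` is in `D(A)` (`b(0) = 1`) and `1 - al θ 1 = star b * b` (`θ(0) = 0`).
Item 4: pointwise `θ(t)` times a projection, `0 ≤ θ ≤ 1` (norm of a projection `≤ 1` from the C*-identity).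
Continuity of `t ↦ g(t) • !![..]`: sums of products of scalar continuous functions with constants.
-/

open scoped Matrix Kronecker ComplexOrder Matrix.Norms.L2Operator
open Filter Topology

namespace QT

universe u


/-- a continuous family of real projections -/
private structure PF (P : unitInterval → Fin 2 → Fin 2 → ℝ) : Prop where
  cont : ∀ i j, Continuous fun t => P t i j
  sym : ∀ t i j, P t i j = P t j i
  idem : ∀ t i j, ∑ k, P t i k * P t k j = P t i j
  e01 : P 1 0 1 = 0
  e10 : P 1 1 0 = 0

private noncomputable def ent {A : Type u} [CStarAlgebra A] (P : unitInterval → Fin 2 → Fin 2 → ℝ)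
    (f : C(unitInterval, ℝ)) (a : A) (t : unitInterval) : M2 A :=
  CStarMatrix.ofMatrix (Matrix.of fun i j => ((f t * P t i j : ℝ) : ℂ) • a)

private theorem ent_apply {A : Type u} [CStarAlgebra A] (P : unitInterval → Fin 2 → Fin 2 → ℝ)
    (f : C(unitInterval, ℝ)) (a : A) (t : unitInterval) (i j : Fin 2) :
    ent P f a t i j = ((f t * P t i j : ℝ) : ℂ) • a := rfl

private theorem continuous_ent {A : Type u} [CStarAlgebra A]
    {P : unitInterval → Fin 2 → Fin 2 → ℝ} (hP : PF P) (f : C(unitInterval, ℝ)) (a : A) :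
    Continuous (ent P f a) := by
  refine continuous_pi fun i => continuous_pi fun j => ?_
  have h1 : Continuous fun t => ((f t * P t i j : ℝ) : ℂ) • a :=
    (Complex.continuous_ofReal.comp (f.continuous.mul (hP.cont i j))).smul continuous_const
  exact h1

section

variable {A : Type u} [CStarAlgebra A] [PartialOrder A] [StarOrderedRing A]

private noncomputable def crn {P : unitInterval → Fin 2 → Fin 2 → ℝ} (hP : PF P) (f : Fn) (a : A) :
    D A :=
  ⟨⟨ent P f a, continuous_ent hP f a⟩, by
    have hf : (f : C(unitInterval, ℝ)) 0 = 0 := f.2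
    refine ⟨⟨0, ?_⟩, ?_, ?_⟩
    · rw [map_zero (algebraMap ℂ (M2 A))]
      ext i j
      show ent P f a 0 i j = 0
      rw [ent_apply, hf, zero_mul, Complex.ofReal_zero, zero_smul]
    · show ent P f a 1 0 1 = 0
      rw [ent_apply, hP.e01, mul_zero, Complex.ofReal_zero, zero_smul]
    · show ent P f a 1 1 0 = 0
      rw [ent_apply, hP.e10, mul_zero, Complex.ofReal_zero, zero_smul]⟩

private theorem crn_apply {P : unitInterval → Fin 2 → Fin 2 → ℝ} (hP : PF P) (f : Fn) (a : A)
    (t : unitInterval) (i j : Fin 2) : (crn hP f a : C(unitInterval, M2 A)) t i j =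
      (((f : C(unitInterval, ℝ)) t * P t i j : ℝ) : ℂ) • a := rfl

private theorem D_ext {x y : D A} (h : ∀ t i j, (x : C(unitInterval, M2 A)) t i j =
    (y : C(unitInterval, M2 A)) t i j) : x = y := by
  apply Subtype.ext
  apply ContinuousMap.ext
  intro t
  ext i j
  exact h t i j

private noncomputable def crnL {P : unitInterval → Fin 2 → Fin 2 → ℝ} (hP : PF P) (f : Fn) :
    A →ₗ[ℂ] D A where
  toFun := crn hP f
  map_add' a b := by
    apply D_ext
    intro t i j
    show (crn hP f (a + b) : C(unitInterval, M2 A)) t i j =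
      (crn hP f a : C(unitInterval, M2 A)) t i j + (crn hP f b : C(unitInterval, M2 A)) t i j
    rw [crn_apply, crn_apply, crn_apply, smul_add]
  map_smul' c a := by
    apply D_ext
    intro t i j
    show (crn hP f (c • a) : C(unitInterval, M2 A)) t i j =
      c • (crn hP f a : C(unitInterval, M2 A)) t i j
    rw [crn_apply, crn_apply, smul_comm]

private theorem crn_mul {P : unitInterval → Fin 2 → Fin 2 → ℝ} (hP : PF P) (f g : Fn) (a b : A) :
    crnL hP f a * crnL hP g b = crnL hP (f * g) (a * b) := by
  apply D_ext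
  intro t i j
  show ∑ k, (crn hP f a : C(unitInterval, M2 A)) t i k * (crn hP g b : C(unitInterval, M2 A)) t k j =
    (crn hP (f * g) (a * b) : C(unitInterval, M2 A)) t i j
  simp only [crn_apply]
  have h1 : ((f * g : Fn) : C(unitInterval, ℝ)) t =
    (f : C(unitInterval, ℝ)) t * (g : C(unitInterval, ℝ)) t := rfl
  rw [h1, ← hP.idem t i j]
  simp only [smul_mul_smul_comm, ← Finset.sum_smul]
  congr 1
  push_cast
  rw [Finset.mul_sum]
  exact Finset.sum_congr rfl fun k _ => by ring

private theorem crn_star {P : unitInterval → Fin 2 → Fin 2 → ℝ} (hP : PF P) (f : Fn) (a : A) :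
    star (crnL hP f a) = crnL hP f (star a) := by
  apply D_ext
  intro t i j
  show star ((crn hP f a : C(unitInterval, M2 A)) t j i) =
    (crn hP f (star a) : C(unitInterval, M2 A)) t i j
  rw [crn_apply, crn_apply, star_smul, hP.sym t j i]
  congr 1
  exact Complex.conj_ofReal _

private theorem crn_add {P : unitInterval → Fin 2 → Fin 2 → ℝ} (hP : PF P) (f g : Fn) (a : A) :
    crnL hP (f + g) a = crnL hP f a + crnL hP g a := by
  apply D_ext
  intro t i j
  show (crn hP (f + g) a : C(unitInterval, M2 A)) t i j =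
      (crn hP f a : C(unitInterval, M2 A)) t i j + (crn hP g a : C(unitInterval, M2 A)) t i j
  rw [crn_apply, crn_apply, crn_apply, ← add_smul, ← Complex.ofReal_add, ← add_mul]
  rfl

end

private noncomputable def Pal (_ : unitInterval) (i j : Fin 2) : ℝ := if i = 0 ∧ j = 0 then 1 else 0

private theorem pf_al : PF Pal := by
  refine ⟨fun i j => continuous_const, ?_, ?_, ?_, ?_⟩
  · intro t i j
    unfold Pal
    simp only [and_comm]
  · intro t i j
    fin_cases i <;> fin_cases j <;> simp [Pal]
  · simp [Pal]
  · simp [Pal]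

private noncomputable def cs (t : unitInterval) : Fin 2 → ℝ :=
  ![Real.cos (Real.pi / 2 * (rhF : C(unitInterval, ℝ)) t),
    Real.sin (Real.pi / 2 * (rhF : C(unitInterval, ℝ)) t)]

private theorem cs_sq (t : unitInterval) : ∑ k, cs t k * cs t k = 1 := by
  rw [Fin.sum_univ_two]
  show Real.cos _ * Real.cos _ + Real.sin _ * Real.sin _ = 1
  have := Real.cos_sq_add_sin_sq (Real.pi / 2 * (rhF : C(unitInterval, ℝ)) t)
  linarith

private noncomputable def Pbe (t : unitInterval) (i j : Fin 2) : ℝ := cs t i * cs t j

private theorem rh_one : (rhF : C(unitInterval, ℝ)) 1 = 1 := by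
  show max 0 (4 * ((1 : unitInterval) : ℝ) - 3) = 1
  rw [Set.Icc.coe_one]
  norm_num

private theorem rh_lt {t : unitInterval} (ht : (t : ℝ) < 3 / 4) :
    (rhF : C(unitInterval, ℝ)) t = 0 := by
  show max 0 (4 * (t : ℝ) - 3) = 0
  exact max_eq_left (by linarith)

private theorem cs_one : cs 1 0 = 0 := by
  show Real.cos (Real.pi / 2 * (rhF : C(unitInterval, ℝ)) 1) = 0
  rw [rh_one, mul_one, Real.cos_pi_div_two]

private theorem pf_be : PF Pbe := by
  refine ⟨?_, ?_, ?_, ?_, ?_⟩
  · intro i j
    have h : ∀ i, Continuous fun t => cs t i := by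
      intro i
      have hr : Continuous fun t => (rhF : C(unitInterval, ℝ)) t := ContinuousMap.continuous _
      fin_cases i
      · exact Real.continuous_cos.comp (continuous_const.mul hr)
      · exact Real.continuous_sin.comp (continuous_const.mul hr)
    exact (h i).mul (h j)
  · intro t i j
    exact mul_comm _ _
  · intro t i j
    have h := cs_sq t
    unfold Pbe
    calc ∑ k, cs t i * cs t k * (cs t k * cs t j) = cs t i * cs t j * ∑ k, cs t k * cs t k := by
          rw [Finset.mul_sum]
          exact Finset.sum_congr rfl fun k _ => by ring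
      _ = cs t i * cs t j := by rw [h, mul_one]
  · unfold Pbe
    rw [cs_one, zero_mul]
  · unfold Pbe
    rw [cs_one, mul_zero]

theorem exists_endsD (A : Type u) [CStarAlgebra A] [PartialOrder A] [StarOrderedRing A] :
    ∃ E : EndsC A (D A), EndsSpec E (fun τ => sig τ 0) := by
  let E : EndsC A (D A) :=
    { al := crnL pf_al
      be := crnL pf_be
      al_mul := crn_mul pf_al
      be_mul := crn_mul pf_be
      al_star := crn_star pf_al
      be_star := crn_star pf_be
      al_add := crn_add pf_al
      be_add := crn_add pf_be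
      al_eq_be := by
        intro f hf a
        apply D_ext
        intro t i j
        show (crn pf_al f a : C(unitInterval, M2 A)) t i j =
          (crn pf_be f a : C(unitInterval, M2 A)) t i j
        rw [crn_apply, crn_apply]
        rcases lt_or_ge (t : ℝ) (3 / 4) with ht | ht
        · have h0 : cs t 0 = 1 := by
            show Real.cos (Real.pi / 2 * (rhF : C(unitInterval, ℝ)) t) = 1
            rw [rh_lt ht, mul_zero, Real.cos_zero]
          have h1 : cs t 1 = 0 := by
            show Real.sin (Real.pi / 2 * (rhF : C(unitInterval, ℝ)) t) = 0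
            rw [rh_lt ht, mul_zero, Real.sin_zero]
          have h2 : Pal t i j = Pbe t i j := by
            unfold Pal Pbe
            fin_cases i <;> fin_cases j <;> simp [h0, h1]
          rw [h2]
        · rw [hf t ht, zero_mul, zero_mul] }
  refine ⟨E, ?_, ?_, ?_, ?_⟩
  · intro τ f a
    show τ.toFun ((crn pf_al f a : C(unitInterval, M2 A)) 1 0 0) = _
    rw [crn_apply, map_smul, smul_eq_mul]
    have : Pal 1 0 0 = 1 := by simp [Pal]
    rw [this, mul_one]
  · intro τ f a
    show τ.toFun ((crn pf_be f a : C(unitInterval, M2 A)) 1 0 0) = _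
    rw [crn_apply]
    have : Pbe 1 0 0 = 0 := by
      unfold Pbe
      rw [cs_one, zero_mul]
    rw [this, mul_zero, Complex.ofReal_zero, zero_smul, map_zero]
  · let g : C(unitInterval, ℝ) := ⟨fun t => Real.sqrt (1 - min 1 (8 * (t : ℝ))), by fun_prop⟩
    let bf : unitInterval → M2 A := fun t =>
      CStarMatrix.ofMatrix (Matrix.diagonal fun i : Fin 2 =>
        if i = 0 then ((g t : ℝ) : ℂ) • (1 : A) else 1)
    have hbc : Continuous bf := by
      refine continuous_pi fun i => continuous_pi fun j => ?_
      show Continuous fun t => (Matrix.diagonal fun i : Fin 2 =>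
        if i = 0 then ((g t : ℝ) : ℂ) • (1 : A) else 1) i j
      by_cases hij : i = j
      · subst hij
        simp only [Matrix.diagonal_apply_eq]
        by_cases hi : i = 0
        · simp only [hi, if_true]
          exact (Complex.continuous_ofReal.comp g.continuous).smul continuous_const
        · simp only [hi, if_false]
          exact continuous_const
      · simp only [Matrix.diagonal_apply_ne _ hij]
        exact continuous_const
    have hb0 : g 0 = 1 := by
      show Real.sqrt (1 - min 1 (8 * ((0 : unitInterval) : ℝ))) = 1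
      rw [Set.Icc.coe_zero]
      norm_num
    let b : D A := ⟨⟨bf, hbc⟩, by
      refine ⟨⟨1, ?_⟩, ?_, ?_⟩
      · rw [map_one]
        ext i j
        show (Matrix.diagonal fun i : Fin 2 =>
          if i = 0 then ((g 0 : ℝ) : ℂ) • (1 : A) else 1) i j = (1 : Matrix (Fin 2) (Fin 2) A) i j
        rw [hb0]
        fin_cases i <;> fin_cases j <;> simp
      · rfl
      · rfl⟩
    refine ⟨b, ?_⟩
    apply D_ext
    intro t i j
    show (1 : Matrix (Fin 2) (Fin 2) A) i j - (crn pf_al thF (1 : A) : C(unitInterval, M2 A)) t i j =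
      ∑ k, star (bf t k i) * bf t k j
    have hg : g t * g t = 1 - (thF : C(unitInterval, ℝ)) t := by
      show Real.sqrt (1 - min 1 (8 * (t : ℝ))) * Real.sqrt (1 - min 1 (8 * (t : ℝ))) =
        1 - min 1 (8 * (t : ℝ))
      exact Real.mul_self_sqrt (sub_nonneg.2 (min_le_left _ _))
    rw [crn_apply, Fin.sum_univ_two]
    show _ = star ((Matrix.diagonal fun i : Fin 2 =>
        if i = 0 then ((g t : ℝ) : ℂ) • (1 : A) else 1) 0 i) * ((Matrix.diagonal fun i : Fin 2 =>
        if i = 0 then ((g t : ℝ) : ℂ) • (1 : A) else 1) 0 j) +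
      star ((Matrix.diagonal fun i : Fin 2 =>
        if i = 0 then ((g t : ℝ) : ℂ) • (1 : A) else 1) 1 i) * ((Matrix.diagonal fun i : Fin 2 =>
        if i = 0 then ((g t : ℝ) : ℂ) • (1 : A) else 1) 1 j)
    fin_cases i <;> fin_cases j <;> simp [Pal]
    rw [smul_smul, hg, sub_smul, one_smul]
  · show ‖(crn pf_be thF (1 : A) : C(unitInterval, M2 A))‖ ≤ 1
    rw [ContinuousMap.norm_le _ zero_le_one]
    intro t
    let one' : C(unitInterval, ℝ) := ContinuousMap.const _ 1
    set p : M2 A := ent Pbe one' (1 : A) t with hp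
    have h1 : (crn pf_be thF (1 : A) : C(unitInterval, M2 A)) t =
        (((thF : C(unitInterval, ℝ)) t : ℝ) : ℂ) • p := by
      ext i j
      show ((((thF : C(unitInterval, ℝ)) t * Pbe t i j : ℝ)) : ℂ) • (1 : A) =
        (((thF : C(unitInterval, ℝ)) t : ℝ) : ℂ) • ((((1 : ℝ) * Pbe t i j : ℝ) : ℂ) • (1 : A))
      rw [smul_smul, one_mul, Complex.ofReal_mul]
    have h2 : star p * p = p := by
      ext i j
      show ∑ k, star ((((1 : ℝ) * Pbe t k i : ℝ) : ℂ) • (1 : A)) *
        ((((1 : ℝ) * Pbe t k j : ℝ) : ℂ) • (1 : A)) = (((1 : ℝ) * Pbe t i j : ℝ) : ℂ) • (1 : A)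
      rw [← pf_be.idem t i j]
      simp only [star_smul, star_one, smul_mul_smul_comm, mul_one, ← Finset.sum_smul, one_mul]
      congr 1
      push_cast
      refine Finset.sum_congr rfl fun k _ => ?_
      rw [pf_be.sym t k i]
      congr 1
      exact Complex.conj_ofReal _
    have h3 : ‖p‖ * ‖p‖ = ‖p‖ := by
      rw [← CStarRing.norm_star_mul_self, h2]
    have h4 : ‖p‖ ≤ 1 := by
      rcases (norm_nonneg p).eq_or_lt with h | h
      · rw [← h]
        exact zero_le_one
      · have := mul_right_cancel₀ h.ne' (h3.trans (one_mul _).symm)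
        exact this.le
    have h5 : ‖(((thF : C(unitInterval, ℝ)) t : ℝ) : ℂ)‖ ≤ 1 := by
      rw [Complex.norm_real, Real.norm_eq_abs]
      show |min 1 (8 * (t : ℝ))| ≤ 1
      rw [abs_of_nonneg (le_min zero_le_one (by have := t.2.1; linarith))]
      exact min_le_left _ _
    rw [h1, norm_smul]
    exact mul_le_one₀ h5 (norm_nonneg _) h4

end QT
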