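import Mathlib
import Pool.Agent.Helper58.QT.Defs
import Pool.Agent.Helper58.QT.MatBasics

/-!
# QT-20 Chain: a filtration of `ℂ^k` making finitely many matrices block tridiagonal
Subspaces `U_0 ⊆ U_1 ⊆ ... ⊆ U_{L-1}` of `ι → ℂ` (Euclidean): `U_0` = sum of the spectral subspaces of `X_xᴴ X_x` for
eigenvalues `≥ δ²`, `x` in the finite family; its dimension is `≤ ∑_x norm2(X_x)² k / δ²` (Chebyshev) and
`‖X_x v‖ ≤ δ ‖v‖` for `v ⟂ U_0`. `U_{p+1} = U_p + ∑_i T_i U_p`: `dim U_{p+1} ≤ (1 + n) dim U_p`.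
`E_0 = P_{U_0}`, `E_p = P_{U_p} - P_{U_{p-1}}` for `1 ≤ p ≤ L-1`, `E_L = 1 - P_{U_{L-1}}` (for `L = 0`: `E_0 = 1`, excluded by `0 < L`).
`T_i U_p ⊆ U_{p+1}` gives `E_q T_i E_p = 0` for `q ≥ p + 2`, and the adjoint family (`hT`) gives it for `q + 2 ≤ p`.
`ntr(1 - E_L) k = dim U_{L-1} ≤ (1+n)^L dim U_0`.
-/

open scoped Matrix Kronecker ComplexOrder Matrix.Norms.L2Operator
open Filter Topology

namespace QT

universe u


section ChainAux

set_option linter.unusedSectionVars false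

variable {ι : Type} [Fintype ι] [DecidableEq ι]

/-- The orthogonal projection onto a subspace, as a matrix. -/
private noncomputable def PM (U : Submodule ℂ (EuclideanSpace ℂ ι)) : Matrix ι ι ℂ :=
  (Matrix.toEuclideanCLM (n := ι) (𝕜 := ℂ)).symm U.starProjection

private theorem toCLM_PM (U : Submodule ℂ (EuclideanSpace ℂ ι)) :
    Matrix.toEuclideanCLM (n := ι) (𝕜 := ℂ) (PM U) = U.starProjection := by
  unfold PM
  exact StarAlgEquiv.apply_symm_apply _ _

private theorem PM_star (U : Submodule ℂ (EuclideanSpace ℂ ι)) : (PM U)ᴴ = PM U := by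
  apply EquivLike.injective (Matrix.toEuclideanCLM (n := ι) (𝕜 := ℂ))
  rw [← Matrix.star_eq_conjTranspose, map_star, toCLM_PM]
  exact isSelfAdjoint_starProjection U

private theorem PM_mul_of_le {U V : Submodule ℂ (EuclideanSpace ℂ ι)} (h : U ≤ V) :
    PM V * PM U = PM U := by
  apply EquivLike.injective (Matrix.toEuclideanCLM (n := ι) (𝕜 := ℂ))
  rw [map_mul, toCLM_PM, toCLM_PM]
  refine ContinuousLinearMap.ext fun v => ?_
  rw [mul_apply_eq_comp]
  exact Submodule.starProjection_eq_self_iff.2 (h (Submodule.starProjection_apply_mem U v))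

private theorem PM_mul_of_le' {U V : Submodule ℂ (EuclideanSpace ℂ ι)} (h : U ≤ V) :
    PM U * PM V = PM U := by
  have h1 := congrArg Matrix.conjTranspose (PM_mul_of_le h)
  rwa [Matrix.conjTranspose_mul, PM_star, PM_star] at h1

private theorem PM_bot : PM (⊥ : Submodule ℂ (EuclideanSpace ℂ ι)) = 0 := by
  apply EquivLike.injective (Matrix.toEuclideanCLM (n := ι) (𝕜 := ℂ))
  rw [toCLM_PM, map_zero]
  refine ContinuousLinearMap.ext fun v => ?_
  exact (Submodule.mem_bot ℂ).1 (Submodule.starProjection_apply_mem ⊥ v)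

private theorem PM_top : PM (⊤ : Submodule ℂ (EuclideanSpace ℂ ι)) = 1 := by
  apply EquivLike.injective (Matrix.toEuclideanCLM (n := ι) (𝕜 := ℂ))
  rw [toCLM_PM, map_one]
  exact Submodule.starProjection_top'

private theorem PM_inter {U V : Submodule ℂ (EuclideanSpace ℂ ι)} (T : Matrix ι ι ℂ)
    (h : ∀ v ∈ U, Matrix.toEuclideanCLM (n := ι) (𝕜 := ℂ) T v ∈ V) :
    PM V * T * PM U = T * PM U := by
  apply EquivLike.injective (Matrix.toEuclideanCLM (n := ι) (𝕜 := ℂ))
  rw [map_mul, map_mul, map_mul, toCLM_PM, toCLM_PM]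
  refine ContinuousLinearMap.ext fun v => ?_
  rw [mul_apply_eq_comp, mul_apply_eq_comp, mul_apply_eq_comp]
  exact Submodule.starProjection_eq_self_iff.2 (h _ (Submodule.starProjection_apply_mem U v))

private theorem PM_norm (U : Submodule ℂ (EuclideanSpace ℂ ι)) : ‖PM U‖ ≤ 1 := by
  have h : ‖PM U‖ = ‖Matrix.toEuclideanCLM (n := ι) (𝕜 := ℂ) (PM U)‖ := rfl
  rw [h, toCLM_PM]
  exact Submodule.starProjection_norm_le U

private theorem PM_rank (U : Submodule ℂ (EuclideanSpace ℂ ι)) :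
    (PM U).rank = Module.finrank ℂ U := by
  have h1 : (PM U).rank = Module.finrank ℂ (LinearMap.range (Matrix.toEuclideanLin (PM U))) := by
    have := Matrix.rank_eq_finrank_range_toLin (PM U) (EuclideanSpace.basisFun ι ℂ).toBasis
      (EuclideanSpace.basisFun ι ℂ).toBasis
    rw [← Matrix.toEuclideanLin_eq_toLin_orthonormal] at this
    exact this
  rw [h1, ← Matrix.coe_toEuclideanCLM_eq_toEuclideanLin, toCLM_PM]
  have h2 : LinearMap.range (U.starProjection : EuclideanSpace ℂ ι →ₗ[ℂ] EuclideanSpace ℂ ι) = U :=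
    Submodule.range_starProjection U
  rw [h2]

private theorem norm_X_PM {U : Submodule ℂ (EuclideanSpace ℂ ι)} (X : Matrix ι ι ℂ) {δ : ℝ}
    (hδ : 0 ≤ δ) (h : ∀ v ∈ Uᗮ, ‖Matrix.toEuclideanCLM (n := ι) (𝕜 := ℂ) X v‖ ≤ δ * ‖v‖) :
    ‖X * (1 - PM U)‖ ≤ δ := by
  have h1 : ‖X * (1 - PM U)‖ =
      ‖Matrix.toEuclideanCLM (n := ι) (𝕜 := ℂ) (X * (1 - PM U))‖ := rfl
  rw [h1]
  refine ContinuousLinearMap.opNorm_le_bound _ hδ fun v => ?_
  rw [map_mul, map_sub, map_one, toCLM_PM, mul_apply_eq_comp]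
  have h2 : (1 - U.starProjection) v = Uᗮ.starProjection v := by
    rw [Submodule.starProjection_orthogonal']
  rw [h2]
  refine (h _ (Submodule.starProjection_apply_mem _ v)).trans ?_
  refine mul_le_mul_of_nonneg_left ?_ hδ
  refine (ContinuousLinearMap.le_opNorm _ v).trans ?_
  exact (mul_le_mul_of_nonneg_right (Submodule.starProjection_norm_le _) (norm_nonneg v)).trans
    (one_mul _).le

/-- The spectral subspace of `Xᴴ X` for large eigenvalues. -/
private theorem cheb (X : Matrix ι ι ℂ) {δ : ℝ} (hδ : 0 < δ) :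
    ∃ S : Submodule ℂ (EuclideanSpace ℂ ι),
      (Module.finrank ℂ S : ℝ) * δ ^ 2 ≤ norm2 X ^ 2 * (Fintype.card ι : ℝ) ∧
      ∀ v ∈ Sᗮ, ‖Matrix.toEuclideanCLM (n := ι) (𝕜 := ℂ) X v‖ ≤ δ * ‖v‖ := by
  classical
  have hH : (Xᴴ * X).IsHermitian := Matrix.isHermitian_conjTranspose_mul_self X
  have hpos : ∀ j, 0 ≤ hH.eigenvalues j :=
    (Matrix.posSemidef_conjTranspose_mul_self X).eigenvalues_nonneg
  let J : Finset ι := Finset.univ.filter fun j => δ ^ 2 ≤ hH.eigenvalues j
  refine ⟨Submodule.span ℂ ((J.image fun j => hH.eigenvectorBasis j : Finset _) : Set _),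
    ?_, fun v hv => ?_⟩
  · have h1 : Module.finrank ℂ (Submodule.span ℂ
        ((J.image fun j => hH.eigenvectorBasis j : Finset _) : Set (EuclideanSpace ℂ ι))) ≤
        J.card := (finrank_span_finset_le_card _).trans Finset.card_image_le
    have h2 : (J.card : ℝ) * δ ^ 2 ≤ ∑ j, hH.eigenvalues j := by
      calc (J.card : ℝ) * δ ^ 2 = ∑ _j ∈ J, δ ^ 2 := by rw [Finset.sum_const, nsmul_eq_mul]
        _ ≤ ∑ j ∈ J, hH.eigenvalues j :=
            Finset.sum_le_sum fun j hj => (Finset.mem_filter.1 hj).2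
        _ ≤ ∑ j, hH.eigenvalues j := Finset.sum_le_sum_of_subset_of_nonneg
            (Finset.filter_subset _ _) fun j _ _ => hpos j
    have h3 : ∑ j, hH.eigenvalues j = norm2 X ^ 2 * (Fintype.card ι : ℝ) := by
      have h4 : (ntr (Xᴴ * X)).re = (∑ j, hH.eigenvalues j) / (Fintype.card ι : ℝ) := by
        unfold ntr
        rw [hH.trace_eq_sum_eigenvalues]
        have h5 : (∑ i, ((hH.eigenvalues i : ℝ) : ℂ)) / (Fintype.card ι : ℂ) =
            (((∑ j, hH.eigenvalues j) / (Fintype.card ι : ℝ) : ℝ) : ℂ) := by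
          push_cast
          rfl
        exact (congrArg Complex.re h5).trans (Complex.ofReal_re _)
      unfold norm2
      rw [h4, Real.sq_sqrt (div_nonneg (Finset.sum_nonneg fun j _ => hpos j)
        (Nat.cast_nonneg _))]
      by_cases h : Fintype.card ι = 0
      · have : IsEmpty ι := Fintype.card_eq_zero_iff.1 h
        simp
      · exact (div_mul_cancel₀ _ (by exact_mod_cast h)).symm
    calc _ ≤ (J.card : ℝ) * δ ^ 2 :=
          mul_le_mul_of_nonneg_right (by exact_mod_cast h1) (by positivity)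
      _ ≤ _ := h2.trans h3.le
  · set e := Matrix.toEuclideanCLM (n := ι) (𝕜 := ℂ) with he
    have h1 : ‖e X v‖ ^ 2 = (inner ℂ v (e (Xᴴ * X) v) : ℂ).re := by
      have h2 : e (Xᴴ * X) v = ContinuousLinearMap.adjoint (e X) (e X v) := by
        rw [map_mul, mul_apply_eq_comp, ← Matrix.star_eq_conjTranspose, map_star]
        rfl
      rw [h2, ContinuousLinearMap.adjoint_inner_right]
      exact (inner_self_eq_norm_sq (𝕜 := ℂ) (e X v)).symm
    have hb : ∀ j, e (Xᴴ * X) (hH.eigenvectorBasis j) =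
        ((hH.eigenvalues j : ℝ) : ℂ) • hH.eigenvectorBasis j := by
      intro j
      have h3 := hH.mulVec_eigenvectorBasis j
      apply (WithLp.equiv 2 (ι → ℂ)).injective
      show (Xᴴ * X) *ᵥ (hH.eigenvectorBasis j).ofLp = _
      rw [h3]
      rfl
    have h5 : (inner ℂ v (e (Xᴴ * X) v) : ℂ) =
        ((∑ j, hH.eigenvalues j * ‖inner ℂ (hH.eigenvectorBasis j) v‖ ^ 2 : ℝ) : ℂ) := by
      have h6 : e (Xᴴ * X) v = ∑ j, inner ℂ (hH.eigenvectorBasis j) v •
          (((hH.eigenvalues j : ℝ) : ℂ) • hH.eigenvectorBasis j) := by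
        conv_lhs => rw [← hH.eigenvectorBasis.sum_repr' v]
        rw [map_sum]
        refine Finset.sum_congr rfl fun j _ => ?_
        rw [map_smul, hb]
      rw [h6, inner_sum, Complex.ofReal_sum]
      refine Finset.sum_congr rfl fun j _ => ?_
      rw [inner_smul_right, inner_smul_right]
      have h7 : (inner ℂ (hH.eigenvectorBasis j) v : ℂ) * inner ℂ v (hH.eigenvectorBasis j) =
          ((‖inner ℂ (hH.eigenvectorBasis j) v‖ ^ 2 : ℝ) : ℂ) := by
        rw [← inner_conj_symm v (hH.eigenvectorBasis j), Complex.mul_conj,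
          Complex.normSq_eq_norm_sq]
      rw [Complex.ofReal_mul, ← h7]
      ring
    have h8 : ‖e X v‖ ^ 2 ≤ (δ * ‖v‖) ^ 2 := by
      rw [h1, h5, Complex.ofReal_re, mul_pow, ← hH.eigenvectorBasis.sum_sq_norm_inner_right v,
        Finset.mul_sum]
      refine Finset.sum_le_sum fun j _ => ?_
      by_cases hj : δ ^ 2 ≤ hH.eigenvalues j
      · have h9 : (inner ℂ (hH.eigenvectorBasis j) v : ℂ) = 0 := by
          refine (Submodule.mem_orthogonal _ _).1 hv _ (Submodule.subset_span ?_)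
          exact Finset.mem_coe.2 (Finset.mem_image.2 ⟨j, Finset.mem_filter.2
            ⟨Finset.mem_univ _, hj⟩, rfl⟩)
        rw [h9]
        simp
      · exact mul_le_mul_of_nonneg_right (not_le.1 hj).le (by positivity)
    exact (pow_le_pow_iff_left₀ (norm_nonneg _) (mul_nonneg hδ.le (norm_nonneg _))
      two_ne_zero).1 h8

private theorem finrank_sup_le' (U V : Submodule ℂ (EuclideanSpace ℂ ι)) :
    Module.finrank ℂ (U ⊔ V : Submodule ℂ (EuclideanSpace ℂ ι)) ≤
      Module.finrank ℂ U + Module.finrank ℂ V :=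
  Submodule.finrank_add_le_finrank_add_finrank U V

private theorem finrank_finsup_le {κ : Type*} (s : Finset κ)
    (V : κ → Submodule ℂ (EuclideanSpace ℂ ι)) :
    Module.finrank ℂ (s.sup V : Submodule ℂ (EuclideanSpace ℂ ι)) ≤
      ∑ i ∈ s, Module.finrank ℂ (V i) := by
  classical
  induction s using Finset.induction_on with
  | empty => simp
  | insert a s ha ih =>
    rw [Finset.sup_insert, Finset.sum_insert ha]
    exact (finrank_sup_le' _ _).trans (Nat.add_le_add_left ih _)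

/-- One step of the filtration. -/
private noncomputable def stepU {n : ℕ} (T : Fin n → Matrix ι ι ℂ)
    (U : Submodule ℂ (EuclideanSpace ℂ ι)) : Submodule ℂ (EuclideanSpace ℂ ι) :=
  U ⊔ Finset.univ.sup fun i => U.map (Matrix.toEuclideanLin (T i))

private theorem le_stepU {n : ℕ} (T : Fin n → Matrix ι ι ℂ)
    (U : Submodule ℂ (EuclideanSpace ℂ ι)) : U ≤ stepU T U := le_sup_left

private theorem T_stepU {n : ℕ} (T : Fin n → Matrix ι ι ℂ)
    (U : Submodule ℂ (EuclideanSpace ℂ ι)) (i : Fin n) (v : EuclideanSpace ℂ ι) (hv : v ∈ U) :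
    Matrix.toEuclideanCLM (n := ι) (𝕜 := ℂ) (T i) v ∈ stepU T U := by
  have h1 : U.map (Matrix.toEuclideanLin (T i)) ≤
      Finset.univ.sup fun i => U.map (Matrix.toEuclideanLin (T i)) :=
    Finset.le_sup (f := fun i => U.map (Matrix.toEuclideanLin (T i))) (Finset.mem_univ i)
  exact (h1.trans le_sup_right) (Submodule.mem_map_of_mem hv)

private theorem finrank_stepU {n : ℕ} (T : Fin n → Matrix ι ι ℂ)
    (U : Submodule ℂ (EuclideanSpace ℂ ι)) :
    Module.finrank ℂ (stepU T U) ≤ (1 + n) * Module.finrank ℂ U := by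
  refine (finrank_sup_le' _ _).trans ?_
  refine (Nat.add_le_add_left (finrank_finsup_le _ _) _).trans ?_
  have h1 : ∑ i : Fin n, Module.finrank ℂ (U.map (Matrix.toEuclideanLin (T i))) ≤
      ∑ _i : Fin n, Module.finrank ℂ U :=
    Finset.sum_le_sum fun i _ => Submodule.finrank_map_le _ _
  rw [Finset.sum_const, Finset.card_univ, Fintype.card_fin, smul_eq_mul] at h1
  linarith

/-- The filtration, extended by `⊥` and `⊤`. -/
private noncomputable def VV {n : ℕ} (T : Fin n → Matrix ι ι ℂ)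
    (U : Submodule ℂ (EuclideanSpace ℂ ι)) (L p : ℕ) : Submodule ℂ (EuclideanSpace ℂ ι) :=
  if p = 0 then ⊥ else if p ≤ L then (stepU T)^[p - 1] U else ⊤

private theorem VV_le_succ {n : ℕ} (T : Fin n → Matrix ι ι ℂ)
    (U : Submodule ℂ (EuclideanSpace ℂ ι)) (L p : ℕ) : VV T U L p ≤ VV T U L (p + 1) := by
  unfold VV
  rcases Nat.eq_zero_or_pos p with h0 | h0
  · rw [if_pos h0]
    exact bot_le
  rw [if_neg h0.ne', if_neg (Nat.succ_ne_zero p)]
  by_cases h1 : p + 1 ≤ L
  · rw [if_pos (by omega), if_pos h1]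
    have h2 : p + 1 - 1 = (p - 1) + 1 := by omega
    rw [h2, Function.iterate_succ_apply']
    exact le_stepU _ _
  · rw [if_neg h1]
    exact le_top

private theorem VV_mono {n : ℕ} (T : Fin n → Matrix ι ι ℂ)
    (U : Submodule ℂ (EuclideanSpace ℂ ι)) (L : ℕ) : Monotone (VV T U L) :=
  monotone_nat_of_le_succ (VV_le_succ T U L)

private theorem VV_T {n : ℕ} (T : Fin n → Matrix ι ι ℂ)
    (U : Submodule ℂ (EuclideanSpace ℂ ι)) (L p : ℕ) (i : Fin n) (v : EuclideanSpace ℂ ι)
    (hv : v ∈ VV T U L (p + 1)) :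
    Matrix.toEuclideanCLM (n := ι) (𝕜 := ℂ) (T i) v ∈ VV T U L (p + 2) := by
  unfold VV at hv ⊢
  rw [if_neg (Nat.succ_ne_zero _)] at hv ⊢
  by_cases h1 : p + 2 ≤ L
  · rw [if_pos (by omega)] at hv
    rw [if_pos h1]
    have h2 : p + 2 - 1 = (p + 1 - 1) + 1 := by omega
    rw [h2, Function.iterate_succ_apply']
    exact T_stepU T _ i v hv
  · rw [if_neg h1]
    exact Submodule.mem_top

private theorem finrank_iter {n : ℕ} (T : Fin n → Matrix ι ι ℂ)
    (U : Submodule ℂ (EuclideanSpace ℂ ι)) (p : ℕ) :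
    Module.finrank ℂ ((stepU T)^[p] U : Submodule ℂ (EuclideanSpace ℂ ι)) ≤
      (1 + n) ^ p * Module.finrank ℂ U := by
  induction p with
  | zero =>
    rw [pow_zero, one_mul]
    exact le_rfl
  | succ p ih =>
    rw [Function.iterate_succ_apply']
    refine (finrank_stepU T _).trans ?_
    rw [pow_succ, mul_comm ((1 + n) ^ p) (1 + n), mul_assoc]
    exact Nat.mul_le_mul_left _ ih

/-- The projections. -/
private noncomputable def EP {n : ℕ} (T : Fin n → Matrix ι ι ℂ)
    (U : Submodule ℂ (EuclideanSpace ℂ ι)) (L p : ℕ) : Matrix ι ι ℂ :=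
  PM (VV T U L (p + 1)) - PM (VV T U L p)

private theorem EP_star {n : ℕ} (T : Fin n → Matrix ι ι ℂ)
    (U : Submodule ℂ (EuclideanSpace ℂ ι)) (L p : ℕ) : (EP T U L p)ᴴ = EP T U L p := by
  unfold EP
  rw [Matrix.conjTranspose_sub, PM_star, PM_star]

private theorem EP_idem {n : ℕ} (T : Fin n → Matrix ι ι ℂ)
    (U : Submodule ℂ (EuclideanSpace ℂ ι)) (L p : ℕ) : EP T U L p * EP T U L p = EP T U L p := by
  unfold EP
  have h := VV_le_succ T U L p
  rw [mul_sub, sub_mul, sub_mul, PM_mul_of_le le_rfl, PM_mul_of_le' h, PM_mul_of_le h,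
    PM_mul_of_le le_rfl]
  simp

private theorem EP_PM {n : ℕ} (T : Fin n → Matrix ι ι ℂ)
    (U : Submodule ℂ (EuclideanSpace ℂ ι)) (L : ℕ) {p q : ℕ} (h : q ≤ p) :
    EP T U L p * PM (VV T U L q) = 0 := by
  unfold EP
  rw [sub_mul, PM_mul_of_le (VV_mono T U L (h.trans (Nat.le_succ p))),
    PM_mul_of_le (VV_mono T U L h), sub_self]

private theorem PM_EP {n : ℕ} (T : Fin n → Matrix ι ι ℂ)
    (U : Submodule ℂ (EuclideanSpace ℂ ι)) (L q : ℕ) :
    PM (VV T U L (q + 1)) * EP T U L q = EP T U L q := by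
  unfold EP
  rw [mul_sub, PM_mul_of_le le_rfl, PM_mul_of_le (VV_le_succ T U L q)]

private theorem EP_zero {n : ℕ} (T : Fin n → Matrix ι ι ℂ)
    (U : Submodule ℂ (EuclideanSpace ℂ ι)) (L : ℕ) {p q : ℕ} (h : q < p) :
    EP T U L p * EP T U L q = 0 := by
  rw [← PM_EP T U L q, ← mul_assoc, EP_PM T U L h, zero_mul]

private theorem EP_T {n : ℕ} (T : Fin n → Matrix ι ι ℂ)
    (U : Submodule ℂ (EuclideanSpace ℂ ι)) (L : ℕ) {p q : ℕ} (h : q + 2 ≤ p) (i : Fin n) :
    EP T U L p * T i * EP T U L q = 0 := by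
  rw [← PM_EP T U L q, mul_assoc, ← mul_assoc (T i),
    ← PM_inter (T i) (VV_T T U L q i), mul_assoc (PM (VV T U L (q + 2))), mul_assoc, ← mul_assoc,
    EP_PM T U L h, zero_mul]

private theorem PM_ntr (U : Submodule ℂ (EuclideanSpace ℂ ι)) :
    (ntr (PM U)).re * (Fintype.card ι : ℝ) ≤ (Module.finrank ℂ U : ℝ) := by
  have h1 := ntr_rank (PM U)
  rw [PM_rank] at h1
  refine le_trans (mul_le_mul_of_nonneg_right (Complex.re_le_norm _) (Nat.cast_nonneg _)) ?_
  refine h1.trans ?_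
  exact (mul_le_mul_of_nonneg_right (PM_norm U) (Nat.cast_nonneg _)).trans (one_mul _).le

end ChainAux

theorem chain {ι : Type} [Fintype ι] [DecidableEq ι] {n m : ℕ} (T : Fin n → Matrix ι ι ℂ)
    (hT : ∀ i, ∃ j, T j = (T i)ᴴ) (X : Fin m → Matrix ι ι ℂ) (L : ℕ) (hL : 0 < L) (δ η : ℝ)
    (hδ : 0 < δ) (hX : ∀ x, norm2 (X x) ^ 2 ≤ η) :
    ∃ E : Fin (L + 1) → Matrix ι ι ℂ, (∀ p, (E p)ᴴ = E p) ∧ (∀ p, E p * E p = E p) ∧
      (∀ p q, p ≠ q → E p * E q = 0) ∧ ∑ p, E p = 1 ∧
      (∀ i (p q : Fin (L + 1)), (p : ℕ) + 2 ≤ q ∨ (q : ℕ) + 2 ≤ p → E p * T i * E q = 0) ∧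
      (∀ x, ‖X x * (1 - E 0)‖ ≤ δ) ∧
      (ntr (1 - E (Fin.last L))).re ≤ (1 + (n : ℝ)) ^ L * ((m : ℝ) * η / δ ^ 2) := by
  classical
  choose S hS1 hS2 using fun x : Fin m => cheb (X x) hδ
  let U : Submodule ℂ (EuclideanSpace ℂ ι) := Finset.univ.sup S
  have hV1 : VV T U L 1 = U := by
    unfold VV
    rw [if_neg one_ne_zero, if_pos (by omega)]
    rfl
  have hV0 : VV T U L 0 = ⊥ := by
    unfold VV
    rw [if_pos rfl]
  have hVL : VV T U L (L + 1) = ⊤ := by
    unfold VV
    rw [if_neg (Nat.succ_ne_zero _), if_neg (by omega)]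
  have hE0 : EP T U L 0 = PM U := by
    unfold EP
    rw [zero_add, hV1, hV0, PM_bot, sub_zero]
  refine ⟨fun p => EP T U L p, fun p => EP_star T U L p, fun p => EP_idem T U L p, ?_, ?_, ?_,
    ?_, ?_⟩
  · intro p q hpq
    rcases lt_or_gt_of_ne (fun h => hpq (Fin.ext h) : (p : ℕ) ≠ q) with h | h
    · have h1 := congrArg Matrix.conjTranspose (EP_zero T U L h)
      rwa [Matrix.conjTranspose_mul, EP_star, EP_star, Matrix.conjTranspose_zero] at h1
    · exact EP_zero T U L h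
  · have h1 := Fin.sum_univ_eq_sum_range (fun p => EP T U L p) (L + 1)
    rw [h1]
    have h2 : ∑ p ∈ Finset.range (L + 1), EP T U L p =
        PM (VV T U L (L + 1)) - PM (VV T U L 0) :=
      Finset.sum_range_sub (fun p => PM (VV T U L p)) (L + 1)
    rw [h2, hVL, hV0, PM_top, PM_bot, sub_zero]
  · intro i p q h
    rcases h with h | h
    · obtain ⟨j, hj⟩ := hT i
      have h1 := congrArg Matrix.conjTranspose (EP_T T U L h j)
      rw [Matrix.conjTranspose_mul, Matrix.conjTranspose_mul, EP_star, EP_star, hj,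
        Matrix.conjTranspose_conjTranspose, Matrix.conjTranspose_zero] at h1
      rw [mul_assoc]
      exact h1
    · exact EP_T T U L h i
  · intro x
    have h0 : ((0 : Fin (L + 1)) : ℕ) = 0 := rfl
    simp only [h0, hE0]
    refine norm_X_PM (X x) hδ.le fun v hv => hS2 x v ?_
    exact Submodule.orthogonal_le (Finset.le_sup (f := S) (Finset.mem_univ x)) hv
  · have h1 : (1 : Matrix ι ι ℂ) - EP T U L (Fin.last L : Fin (L + 1)) = PM (VV T U L L) := by
      have h2 : ((Fin.last L : Fin (L + 1)) : ℕ) = L := rfl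
      rw [h2]
      unfold EP
      rw [hVL, PM_top]
      abel
    have hVL' : VV T U L L = (stepU T)^[L - 1] U := by
      unfold VV
      rw [if_neg hL.ne', if_pos le_rfl]
    simp only [h1]
    have h3 := PM_ntr (VV T U L L)
    have h4 : Module.finrank ℂ (VV T U L L) ≤ (1 + n) ^ (L - 1) * Module.finrank ℂ U := by
      rw [hVL']
      exact finrank_iter T U (L - 1)
    have h5 : Module.finrank ℂ (VV T U L L) ≤ (1 + n) ^ L * Module.finrank ℂ U :=
      h4.trans (Nat.mul_le_mul_right _ (Nat.pow_le_pow_right (by omega) (Nat.sub_le _ _)))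
    have h6 : (Module.finrank ℂ U : ℝ) * δ ^ 2 ≤ (m : ℝ) * η * (Fintype.card ι : ℝ) := by
      have h7 : Module.finrank ℂ U ≤ ∑ x, Module.finrank ℂ (S x) := finrank_finsup_le _ _
      calc (Module.finrank ℂ U : ℝ) * δ ^ 2
          ≤ (∑ x, (Module.finrank ℂ (S x) : ℝ)) * δ ^ 2 :=
            mul_le_mul_of_nonneg_right (by exact_mod_cast h7) (by positivity)
        _ = ∑ x, (Module.finrank ℂ (S x) : ℝ) * δ ^ 2 := Finset.sum_mul _ _ _
        _ ≤ ∑ _x : Fin m, η * (Fintype.card ι : ℝ) := Finset.sum_le_sum fun x _ =>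
            (hS1 x).trans (mul_le_mul_of_nonneg_right (hX x) (Nat.cast_nonneg _))
        _ = _ := by rw [Finset.sum_const, Finset.card_univ, Fintype.card_fin, nsmul_eq_mul]; ring
    have hη : 0 ≤ (m : ℝ) * η := by
      rcases Nat.eq_zero_or_pos m with h | h
      · rw [h]; simp
      · exact mul_nonneg (Nat.cast_nonneg _) ((sq_nonneg _).trans (hX ⟨0, h⟩))
    by_cases hc : Fintype.card ι = 0
    · have h8 : ntr (PM (VV T U L L)) = 0 := by
        unfold ntr
        rw [hc]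
        simp
      rw [h8, Complex.zero_re]
      positivity
    · have hc' : (0 : ℝ) < (Fintype.card ι : ℝ) := by exact_mod_cast Nat.pos_of_ne_zero hc
      refine le_of_mul_le_mul_right ?_ hc'
      refine h3.trans ?_
      have h9 : (Module.finrank ℂ (VV T U L L) : ℝ) ≤ (1 + (n : ℝ)) ^ L * Module.finrank ℂ U := by
        exact_mod_cast h5
      refine h9.trans ?_
      rw [mul_assoc]
      refine mul_le_mul_of_nonneg_left ?_ (by positivity)
      rw [div_mul_eq_mul_div, le_div_iff₀ (by positivity)]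
      exact h6

end QT
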