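import Mathlib
import Pool.Agent.Helper58.QT.Defs
import Pool.Agent.Helper58.QT.MatBasics

/-!
# QT-21 CommBd: commutator of a slowly varying diagonal with a block tridiagonal matrix
`G = ∑_p g(p) E_p`. `T = ∑_{p,q} E_p T E_q` with `|p - q| ≤ 1`, so
`G T - T G = ∑_p (g(p+1) - g(p)) E_{p+1} T E_p + ∑_p (g(p) - g(p+1)) E_p T E_{p+1}`. Each of the two sums has orthogonal ranges and
orthogonal supports, so its norm is `≤ max_p |g(p+1) - g(p)| ‖T‖ ≤ ω ‖T‖`.
-/

open scoped Matrix Kronecker ComplexOrder Matrix.Norms.L2Operator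
open Filter Topology

namespace QT

universe u


/-- Pythagoras -/
private theorem pyth {κ H : Type*} [Fintype κ] [NormedAddCommGroup H] [InnerProductSpace ℂ H]
    (v : κ → H) (h : ∀ k l, k ≠ l → inner ℂ (v k) (v l) = 0) :
    ‖∑ k, v k‖ ^ 2 = ∑ k, ‖v k‖ ^ 2 := by
  classical
  have h1 : (inner ℂ (∑ k, v k) (∑ k, v k) : ℂ) = ∑ k, inner ℂ (v k) (v k) := by
    rw [sum_inner]
    refine Finset.sum_congr rfl fun k _ => ?_
    rw [inner_sum]
    exact Finset.sum_eq_single k (fun l _ hl => h k l (Ne.symm hl)) (by simp)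
  have h2 := congrArg Complex.re h1
  rw [Complex.re_sum] at h2
  have h3 : ∀ x : H, (inner ℂ x x : ℂ).re = ‖x‖ ^ 2 := fun x => by
    have := inner_self_eq_norm_sq (𝕜 := ℂ) x
    simpa using this
  simpa only [h3] using h2

private theorem sum_bound {ι κ : Type} [Fintype ι] [DecidableEq ι] [Fintype κ] {L : ℕ}
    (E : Fin (L + 1) → Matrix ι ι ℂ)
    (h1 : ∀ p, (E p)ᴴ = E p) (h2 : ∀ p, E p * E p = E p) (h3 : ∀ p q, p ≠ q → E p * E q = 0)
    (h4 : ∑ p, E p = 1) (T : Matrix ι ι ℂ) (a b : κ → Fin (L + 1)) (ha : Function.Injective a)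
    (hb : Function.Injective b) (c : κ → ℂ) (ω : ℝ) (h0 : 0 ≤ ω) (hc : ∀ k, ‖c k‖ ≤ ω) :
    ‖∑ k, c k • (E (a k) * T * E (b k))‖ ≤ ω * ‖T‖ := by
  classical
  set Φ := Matrix.toEuclideanCLM (n := ι) (𝕜 := ℂ) with hΦ
  have hadj : ∀ p x y, inner ℂ (Φ (E p) x) y = (inner ℂ x (Φ (E p) y) : ℂ) := by
    intro p x y
    have h5 : Φ (E p) = ContinuousLinearMap.adjoint (Φ (E p)) := by
      have h6 := map_star Φ (E p)
      rw [Matrix.star_eq_conjTranspose, h1] at h6
      exact h6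
    conv_lhs => rw [h5]
    exact ContinuousLinearMap.adjoint_inner_left _ _ _
  have hmul : ∀ p q x, p ≠ q → Φ (E p) (Φ (E q) x) = 0 := by
    intro p q x hpq
    have h5 : Φ (E p) (Φ (E q) x) = Φ (E p * E q) x := by
      rw [map_mul]
      rfl
    rw [h5, h3 p q hpq, map_zero]
    rfl
  have hsq : ∀ x, ∑ p, ‖Φ (E p) x‖ ^ 2 = ‖x‖ ^ 2 := by
    intro x
    rw [← pyth]
    · congr 2
      have h5 : ∑ p, Φ (E p) x = Φ (∑ p, E p) x := by
        rw [map_sum, ContinuousLinearMap.sum_apply]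
      rw [h5, h4, map_one]
      rfl
    · intro p q hpq
      rw [hadj, hmul p q x hpq, inner_zero_right]
  have hle : ∀ p x, ‖Φ (E p) x‖ ≤ ‖x‖ := by
    intro p x
    have h5 := Finset.single_le_sum (f := fun p => ‖Φ (E p) x‖ ^ 2)
      (fun _ _ => sq_nonneg _) (Finset.mem_univ p)
    rw [hsq] at h5
    exact (sq_le_sq₀ (norm_nonneg _) (norm_nonneg _)).1 h5
  rw [← Matrix.l2_opNorm_toEuclideanCLM]
  refine ContinuousLinearMap.opNorm_le_bound _ (by positivity) fun x => ?_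
  have hval : Φ (∑ k, c k • (E (a k) * T * E (b k))) x =
      ∑ k, c k • Φ (E (a k)) (Φ T (Φ (E (b k)) x)) := by
    rw [map_sum, ContinuousLinearMap.sum_apply]
    refine Finset.sum_congr rfl fun k _ => ?_
    rw [map_smul, map_mul, map_mul]
    rfl
  change ‖Φ (∑ k, c k • (E (a k) * T * E (b k))) x‖ ≤ _
  rw [hval]
  refine (sq_le_sq₀ (norm_nonneg _) (by positivity)).1 ?_
  rw [pyth]
  · calc ∑ k, ‖c k • Φ (E (a k)) (Φ T (Φ (E (b k)) x))‖ ^ 2
        ≤ ∑ k, (ω * ‖T‖) ^ 2 * ‖Φ (E (b k)) x‖ ^ 2 := by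
          refine Finset.sum_le_sum fun k _ => ?_
          rw [← mul_pow, norm_smul]
          refine pow_le_pow_left₀ (by positivity) ?_ 2
          have h5 : ‖Φ T (Φ (E (b k)) x)‖ ≤ ‖T‖ * ‖Φ (E (b k)) x‖ := by
            rw [← Matrix.l2_opNorm_toEuclideanCLM T]
            exact ContinuousLinearMap.le_opNorm _ _
          calc ‖c k‖ * ‖Φ (E (a k)) (Φ T (Φ (E (b k)) x))‖
              ≤ ω * (‖T‖ * ‖Φ (E (b k)) x‖) :=
                mul_le_mul (hc k) ((hle _ _).trans h5) (norm_nonneg _) h0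
            _ = ω * ‖T‖ * ‖Φ (E (b k)) x‖ := by ring
      _ = (ω * ‖T‖) ^ 2 * ∑ k, ‖Φ (E (b k)) x‖ ^ 2 := by rw [Finset.mul_sum]
      _ ≤ (ω * ‖T‖) ^ 2 * ‖x‖ ^ 2 := by
          refine mul_le_mul_of_nonneg_left ?_ (sq_nonneg _)
          rw [← hsq x]
          calc ∑ k, ‖Φ (E (b k)) x‖ ^ 2
              = ∑ p ∈ Finset.univ.image b, ‖Φ (E p) x‖ ^ 2 := by
                rw [Finset.sum_image (fun _ _ _ _ h => hb h)]
            _ ≤ ∑ p, ‖Φ (E p) x‖ ^ 2 :=
                Finset.sum_le_sum_of_subset_of_nonneg (Finset.subset_univ _)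
                  fun _ _ _ => sq_nonneg _
      _ = (ω * ‖T‖ * ‖x‖) ^ 2 := by ring
  · intro k l hkl
    rw [inner_smul_left, inner_smul_right, hadj, hmul _ _ _ (fun h => hkl (ha h)),
      inner_zero_right, mul_zero, mul_zero]

theorem comm_bound {ι : Type} [Fintype ι] [DecidableEq ι] {L : ℕ} (E : Fin (L + 1) → Matrix ι ι ℂ)
    (h1 : ∀ p, (E p)ᴴ = E p) (h2 : ∀ p, E p * E p = E p) (h3 : ∀ p q, p ≠ q → E p * E q = 0)
    (h4 : ∑ p, E p = 1) (T : Matrix ι ι ℂ)
    (hT : ∀ p q : Fin (L + 1), (p : ℕ) + 2 ≤ q ∨ (q : ℕ) + 2 ≤ p → E p * T * E q = 0)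
    (g : Fin (L + 1) → ℝ) (ω : ℝ) (hω : ∀ p q : Fin (L + 1), (q : ℕ) = p + 1 → |g q - g p| ≤ ω)
    (h0 : 0 ≤ ω) :
    ‖(∑ p, (g p : ℂ) • E p) * T - T * ∑ p, (g p : ℂ) • E p‖ ≤ 2 * ω * ‖T‖ := by
  set f : Fin (L + 1) → Fin (L + 1) → Matrix ι ι ℂ := fun p q =>
    ((g p : ℂ) - (g q : ℂ)) • (E p * T * E q) with hf
  have hGT : (∑ p, (g p : ℂ) • E p) * T - T * ∑ p, (g p : ℂ) • E p = ∑ p, ∑ q, f p q := by
    have e1 : (∑ p, (g p : ℂ) • E p) * T = ∑ p, ∑ q, (g p : ℂ) • (E p * T * E q) := by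
      calc (∑ p, (g p : ℂ) • E p) * T = (∑ p, (g p : ℂ) • E p) * T * ∑ q, E q := by
            rw [h4, mul_one]
        _ = _ := by
            rw [Finset.sum_mul, Finset.sum_mul]
            refine Finset.sum_congr rfl fun p _ => ?_
            rw [Finset.mul_sum]
            refine Finset.sum_congr rfl fun q _ => ?_
            rw [smul_mul_assoc, smul_mul_assoc]
    have e2 : T * ∑ q, (g q : ℂ) • E q = ∑ p, ∑ q, (g q : ℂ) • (E p * T * E q) := by
      calc T * ∑ q, (g q : ℂ) • E q = (∑ p, E p) * (T * ∑ q, (g q : ℂ) • E q) := by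
            rw [h4, one_mul]
        _ = _ := by
            rw [Finset.sum_mul]
            refine Finset.sum_congr rfl fun p _ => ?_
            rw [Finset.mul_sum, Finset.mul_sum]
            refine Finset.sum_congr rfl fun q _ => ?_
            rw [mul_smul_comm, mul_smul_comm, mul_assoc]
    rw [e1, e2, ← Finset.sum_sub_distrib]
    refine Finset.sum_congr rfl fun p _ => ?_
    rw [← Finset.sum_sub_distrib]
    refine Finset.sum_congr rfl fun q _ => ?_
    exact (sub_smul _ _ _).symm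
  have hsplit : ∀ p q : Fin (L + 1), f p q =
      (if (q : ℕ) = p + 1 then f p q else 0) + (if (p : ℕ) = q + 1 then f p q else 0) := by
    intro p q
    by_cases e1 : (q : ℕ) = p + 1
    · rw [if_pos e1, if_neg (by omega), add_zero]
    · rw [if_neg e1, zero_add]
      by_cases e2 : (p : ℕ) = q + 1
      · rw [if_pos e2]
      · rw [if_neg e2]
        by_cases e3 : p = q
        · rw [hf, e3]
          simp
        · have e4 : (p : ℕ) ≠ q := fun h => e3 (Fin.ext h)
          rw [hf]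
          change ((g p : ℂ) - (g q : ℂ)) • (E p * T * E q) = 0
          rw [hT p q (by omega), smul_zero]
  have hU : ∑ p : Fin (L + 1), ∑ q : Fin (L + 1), (if (q : ℕ) = p + 1 then f p q else 0) =
      ∑ k : Fin L, ((g k.castSucc : ℂ) - (g k.succ : ℂ)) •
        (E k.castSucc * T * E k.succ) := by
    rw [Fin.sum_univ_castSucc]
    have e1 : ∑ q : Fin (L + 1), (if (q : ℕ) = (Fin.last L : Fin (L + 1)) + 1 then
        f (Fin.last L) q else 0) = 0 := by
      refine Finset.sum_eq_zero fun q _ => ?_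
      rw [if_neg]
      have := q.2
      simp only [Fin.val_last]
      omega
    rw [e1, add_zero]
    refine Finset.sum_congr rfl fun k _ => ?_
    rw [Finset.sum_eq_single k.succ]
    · rw [if_pos (by simp)]
    · intro q _ hq
      rw [if_neg]
      intro h
      apply hq
      ext
      simpa using h
    · simp
  have hV : ∑ p : Fin (L + 1), ∑ q : Fin (L + 1), (if (p : ℕ) = q + 1 then f p q else 0) =
      ∑ k : Fin L, ((g k.succ : ℂ) - (g k.castSucc : ℂ)) •
        (E k.succ * T * E k.castSucc) := by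
    rw [Finset.sum_comm, Fin.sum_univ_castSucc]
    have e1 : ∑ p : Fin (L + 1), (if (p : ℕ) = (Fin.last L : Fin (L + 1)) + 1 then
        f p (Fin.last L) else 0) = 0 := by
      refine Finset.sum_eq_zero fun q _ => ?_
      rw [if_neg]
      have := q.2
      simp only [Fin.val_last]
      omega
    rw [e1, add_zero]
    refine Finset.sum_congr rfl fun k _ => ?_
    rw [Finset.sum_eq_single k.succ]
    · rw [if_pos (by simp)]
    · intro q _ hq
      rw [if_neg]
      intro h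
      apply hq
      ext
      simpa using h
    · simp
  have hall : ∑ p, ∑ q, f p q =
      ∑ k : Fin L, ((g k.castSucc : ℂ) - (g k.succ : ℂ)) • (E k.castSucc * T * E k.succ) +
      ∑ k : Fin L, ((g k.succ : ℂ) - (g k.castSucc : ℂ)) • (E k.succ * T * E k.castSucc) := by
    rw [← hU, ← hV, ← Finset.sum_add_distrib]
    refine Finset.sum_congr rfl fun p _ => ?_
    rw [← Finset.sum_add_distrib]
    exact Finset.sum_congr rfl fun q _ => hsplit p q
  have hg : ∀ k : Fin L, |g k.succ - g k.castSucc| ≤ ω := fun k => hω _ _ (by simp)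
  rw [hGT, hall]
  have hb1 := sum_bound E h1 h2 h3 h4 T (fun k : Fin L => k.castSucc) (fun k : Fin L => k.succ)
    (Fin.castSucc_injective L) (Fin.succ_injective L)
    (fun k => (g k.castSucc : ℂ) - (g k.succ : ℂ)) ω h0 (fun k => by
      rw [← Complex.ofReal_sub, Complex.norm_real, Real.norm_eq_abs, abs_sub_comm]
      exact hg k)
  have hb2 := sum_bound E h1 h2 h3 h4 T (fun k : Fin L => k.succ) (fun k : Fin L => k.castSucc)
    (Fin.succ_injective L) (Fin.castSucc_injective L)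
    (fun k => (g k.succ : ℂ) - (g k.castSucc : ℂ)) ω h0 (fun k => by
      rw [← Complex.ofReal_sub, Complex.norm_real, Real.norm_eq_abs]
      exact hg k)
  calc _ ≤ ω * ‖T‖ + ω * ‖T‖ := (norm_add_le _ _).trans (add_le_add hb1 hb2)
    _ = 2 * ω * ‖T‖ := by ring

end QT
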