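import Mathlib
import Pool.Agent.Helper58.QT.Defs
import Pool.Agent.Helper58.QT.MatBasics

/-!
# QT-22 Smooth: the smoothed map is almost multiplicative (pure C*-algebra inequality)
`(∑ C_m F_m C_m)(∑ C_m' G_m' C_m') = ∑_{|m-m'| ≤ 1} C_m F_m C_m C_m' G_m' C_m'` (`C_m C_m' = 0` otherwise; at most `3(M+1)` pairs).
For each pair move `C_m'` to the left of `F_m` and `C_m` to the right of `G_m'` (the `C`s commute, norms `≤ 1`): equals
`C_m C_m' F_m G_m' C_m C_m'` up to `2 e K`. Write `G_m' = G_m + (G_m' - G_m)`: for fixed `t = m' - m ∈ {-1,0,1}` the sum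
`∑_m y_m F_m (G_{m+t} - G_m) y_m`, `y_m = C_m C_{m+t}` self-adjoint, `∑ y_m² ≤ ∑ C_m² = 1`, has norm `≤ K ω` (`= 0` for `t = 0`).
The rest `∑_{m,m'} C_m C_m' F_m G_m C_m C_m'`: move `C_m'` through `F_m G_m` (error `2 e K` per pair) and sum over `m'`
(`∑ C_m'² = 1`): `∑_m C_m F_m G_m C_m`, which differs from `∑ C_m H_m C_m` by `(M+1) δ`.
Total: `2 K ω + 12 (M+1) e K + (M+1) δ`.
-/

open scoped Matrix Kronecker ComplexOrder Matrix.Norms.L2Operator
open Filter Topology

namespace QT

universe u


private lemma sm_cs {A : Type*} [CStarAlgebra A] [PartialOrder A] [StarOrderedRing A] {ι : Type*}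
    [Fintype ι] (a b : ι → A) : ‖∑ i, star (a i) * b i‖ ≤
      √‖∑ i, star (a i) * a i‖ * √‖∑ i, star (b i) * b i‖ := by
  have h := CStarModule.norm_inner_le (A := A) (WithCStarModule A (ι → A))
    (x := (WithCStarModule.equiv A (ι → A)).symm (fun i => star (b i)))
    (y := (WithCStarModule.equiv A (ι → A)).symm (fun i => star (a i)))
  rw [WithCStarModule.pi_inner, WithCStarModule.pi_norm, WithCStarModule.pi_norm] at h
  simp only [WithCStarModule.inner_def, WithCStarModule.equiv_symm_pi_apply, star_star] at h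
  rw [mul_comm]
  exact h

/-- compression by a contractive column does not increase the norm -/
private lemma sm_col {A : Type*} [CStarAlgebra A] {ι : Type*} [Fintype ι] (s : Finset ι)
    (a X : ι → A) (κ : ℝ) (hκ : 0 ≤ κ) (hX : ∀ i ∈ s, ‖X i‖ ≤ κ)
    (ha : ∑ i, star (a i) * a i = 1) : ‖∑ i ∈ s, star (a i) * X i * a i‖ ≤ κ := by
  classical
  let _ := CStarAlgebra.spectralOrder A
  let _ := CStarAlgebra.spectralOrderedRing A
  rcases subsingleton_or_nontrivial A with hsub | hnt
  · rw [Subsingleton.elim (∑ i ∈ s, star (a i) * X i * a i) 0, norm_zero]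
    exact hκ
  have h1 : ∀ t : Finset ι, ‖∑ i ∈ t, star (a i) * a i‖ ≤ 1 := by
    intro t
    have h2 : ∑ i ∈ t, star (a i) * a i ≤ 1 := by
      rw [← ha]
      exact Finset.sum_le_sum_of_subset_of_nonneg (Finset.subset_univ t)
        fun i _ _ => star_mul_self_nonneg (a i)
    have h3 : 0 ≤ ∑ i ∈ t, star (a i) * a i :=
      Finset.sum_nonneg fun i _ => star_mul_self_nonneg (a i)
    calc ‖∑ i ∈ t, star (a i) * a i‖ ≤ ‖(1 : A)‖ := CStarAlgebra.norm_le_norm_of_nonneg_of_le h3 h2
      _ = 1 := CStarRing.norm_one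
  let a' : ι → A := fun i => if i ∈ s then a i else 0
  let b' : ι → A := fun i => if i ∈ s then X i * a i else 0
  have hsum : ∑ i ∈ s, star (a i) * X i * a i = ∑ i, star (a' i) * b' i := by
    rw [← Finset.sum_filter_add_sum_filter_not Finset.univ (· ∈ s)]
    have e2 : ∑ i with i ∉ s, star (a' i) * b' i = 0 := by
      refine Finset.sum_eq_zero fun i hi => ?_
      have : i ∉ s := (Finset.mem_filter.mp hi).2
      simp only [a', b', if_neg this, star_zero, zero_mul]
    rw [e2, add_zero, Finset.filter_mem_eq_inter, Finset.univ_inter]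
    refine Finset.sum_congr rfl fun i hi => ?_
    simp only [a', b', if_pos hi, mul_assoc]
  have hA : ‖∑ i, star (a' i) * a' i‖ ≤ 1 := by
    have : ∑ i, star (a' i) * a' i = ∑ i ∈ s, star (a i) * a i := by
      rw [← Finset.sum_filter_add_sum_filter_not Finset.univ (· ∈ s)]
      have e2 : ∑ i with i ∉ s, star (a' i) * a' i = 0 := by
        refine Finset.sum_eq_zero fun i hi => ?_
        have : i ∉ s := (Finset.mem_filter.mp hi).2
        simp only [a', if_neg this, star_zero, zero_mul]
      rw [e2, add_zero, Finset.filter_mem_eq_inter, Finset.univ_inter]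
      refine Finset.sum_congr rfl fun i hi => ?_
      simp only [a', if_pos hi]
    rw [this]
    exact h1 s
  have hB : ‖∑ i, star (b' i) * b' i‖ ≤ κ ^ 2 := by
    have : ∑ i, star (b' i) * b' i = ∑ i ∈ s, star (X i * a i) * (X i * a i) := by
      rw [← Finset.sum_filter_add_sum_filter_not Finset.univ (· ∈ s)]
      have e2 : ∑ i with i ∉ s, star (b' i) * b' i = 0 := by
        refine Finset.sum_eq_zero fun i hi => ?_
        have : i ∉ s := (Finset.mem_filter.mp hi).2
        simp only [b', if_neg this, star_zero, zero_mul]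
      rw [e2, add_zero, Finset.filter_mem_eq_inter, Finset.univ_inter]
      refine Finset.sum_congr rfl fun i hi => ?_
      simp only [b', if_pos hi]
    rw [this]
    have hle : ∑ i ∈ s, star (X i * a i) * (X i * a i) ≤
        ∑ i ∈ s, star (a i) * (algebraMap ℝ A (κ ^ 2)) * a i := by
      refine Finset.sum_le_sum fun i hi => ?_
      have e1 : star (X i * a i) * (X i * a i) = star (a i) * (star (X i) * X i) * a i := by
        rw [star_mul]; simp only [mul_assoc]
      rw [e1]
      refine star_left_conjugate_le_conjugate ?_ (a i)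
      refine (CStarAlgebra.star_mul_le_algebraMap_norm_sq (a := X i)).trans ?_
      refine algebraMap_mono A ?_
      exact pow_le_pow_left₀ (norm_nonneg _) (hX i hi) 2
    have h0 : 0 ≤ ∑ i ∈ s, star (X i * a i) * (X i * a i) :=
      Finset.sum_nonneg fun i _ => star_mul_self_nonneg _
    refine (CStarAlgebra.norm_le_norm_of_nonneg_of_le h0 hle).trans ?_
    have e3 : ∑ i ∈ s, star (a i) * (algebraMap ℝ A (κ ^ 2)) * a i =
        (κ ^ 2) • ∑ i ∈ s, star (a i) * a i := by
      rw [Finset.smul_sum]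
      refine Finset.sum_congr rfl fun i _ => ?_
      rw [Algebra.algebraMap_eq_smul_one, mul_smul_comm, mul_one, smul_mul_assoc]
    rw [e3, norm_smul, Real.norm_of_nonneg (sq_nonneg κ)]
    calc κ ^ 2 * ‖∑ i ∈ s, star (a i) * a i‖ ≤ κ ^ 2 * 1 :=
          mul_le_mul_of_nonneg_left (h1 s) (sq_nonneg κ)
      _ = κ ^ 2 := mul_one _
  rw [hsum]
  refine (sm_cs a' b').trans ?_
  calc √‖∑ i, star (a' i) * a' i‖ * √‖∑ i, star (b' i) * b' i‖ ≤ √1 * √(κ ^ 2) :=
        mul_le_mul (Real.sqrt_le_sqrt hA) (Real.sqrt_le_sqrt hB) (Real.sqrt_nonneg _)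
          (Real.sqrt_nonneg _)
    _ = κ := by rw [Real.sqrt_one, one_mul, Real.sqrt_sq hκ]

theorem smooth {R : Type*} [CStarAlgebra R] {M : ℕ} (C F G H : Fin (M + 1) → R) (K e ω δ : ℝ)
    (hC : ∀ m, star (C m) = C m) (hCn : ∀ m, ‖C m‖ ≤ 1) (hcc : ∀ m m', C m * C m' = C m' * C m)
    (hsum : ∑ m, C m * C m = 1)
    (hfar : ∀ m m' : Fin (M + 1), (m : ℕ) + 2 ≤ m' → C m * C m' = 0)
    (hF : ∀ m, ‖F m‖ ≤ K) (hG : ∀ m, ‖G m‖ ≤ K) (hK : 0 ≤ K) (he : 0 ≤ e) (hω0 : 0 ≤ ω)
    (hCF : ∀ m m', ‖C m * F m' - F m' * C m‖ ≤ e) (hCG : ∀ m m', ‖C m * G m' - G m' * C m‖ ≤ e)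
    (hω : ∀ m m' : Fin (M + 1), (m' : ℕ) = m + 1 → ‖G m' - G m‖ ≤ ω)
    (hδ : ∀ m, ‖C m * (F m * G m - H m)‖ ≤ δ) :
    ‖(∑ m, C m * F m * C m) * (∑ m, C m * G m * C m) - ∑ m, C m * H m * C m‖
      ≤ 2 * K * ω + 12 * (M + 1) * e * K + (M + 1) * δ := by
  classical
  -- products of norms
  have n1 : ∀ m m', ‖C m * C m'‖ ≤ 1 := fun m m' =>
    (norm_mul_le _ _).trans (mul_le_one₀ (hCn m) (norm_nonneg _) (hCn m'))
  have hzero : ∀ m m' : Fin (M + 1), ¬ ((m : ℕ) ≤ m' + 1 ∧ (m' : ℕ) ≤ m + 1) → C m * C m' = 0 := by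
    intro m m' h
    rcases Nat.lt_or_ge ((m : ℕ) + 1) m' with h1 | h1
    · exact hfar m m' (by omega)
    · rw [hcc]
      exact hfar m' m (by omega)
  let T : Fin (M + 1) → Fin (M + 1) → R := fun m m' => C m * F m * C m * (C m' * G m' * C m')
  let V : Fin (M + 1) → Fin (M + 1) → R := fun m m' => C m * C m' * (F m * G m) * (C m * C m')
  let W : Fin (M + 1) → Fin (M + 1) → R := fun m m' =>
    C m * C m' * (F m * (G m' - G m)) * (C m * C m')
  let V' : Fin (M + 1) → Fin (M + 1) → R := fun m m' =>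
    C m * (F m * G m) * C m * (C m' * C m')
  -- the decomposition
  have hdec : (∑ m, C m * F m * C m) * (∑ m, C m * G m * C m) - ∑ m, C m * H m * C m =
      ∑ m, ∑ m', (T m m' - (V m m' + W m m')) + ∑ m, ∑ m', W m m' +
        ∑ m, ∑ m', (V m m' - V' m m') + ∑ m, C m * (F m * G m - H m) * C m := by
    have e1 : (∑ m, C m * F m * C m) * (∑ m, C m * G m * C m) = ∑ m, ∑ m', T m m' := by
      rw [Finset.sum_mul_sum]
    have e2 : ∑ m, ∑ m', V' m m' = ∑ m, C m * (F m * G m) * C m := by
      refine Finset.sum_congr rfl fun m _ => ?_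
      simp only [V']
      rw [← Finset.mul_sum, hsum, mul_one]
    have e3 : ∑ m, C m * (F m * G m - H m) * C m =
        ∑ m, C m * (F m * G m) * C m - ∑ m, C m * H m * C m := by
      rw [← Finset.sum_sub_distrib]
      refine Finset.sum_congr rfl fun m _ => ?_
      rw [mul_sub, sub_mul]
    rw [e1, e3, ← e2]
    simp only [Finset.sum_sub_distrib, Finset.sum_add_distrib]
    abel
  -- pointwise bounds
  have hnearsum : ∀ (Z : Fin (M + 1) → Fin (M + 1) → R) (c : ℝ), 0 ≤ c →
      (∀ m m', ‖Z m m'‖ ≤ c) →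
      (∀ m m' : Fin (M + 1), ¬ ((m : ℕ) ≤ m' + 1 ∧ (m' : ℕ) ≤ m + 1) → Z m m' = 0) →
      ‖∑ m, ∑ m', Z m m'‖ ≤ 3 * (M + 1) * c := by
    intro Z c hc hZ hZ0
    have h1 : ∀ m : Fin (M + 1), ‖∑ m', Z m m'‖ ≤ 3 * c := by
      intro m
      have h2 : ∑ m', Z m m' =
          ∑ m' ∈ Finset.univ.filter (fun m' : Fin (M + 1) => (m : ℕ) ≤ (m' : ℕ) + 1 ∧ (m' : ℕ) ≤ (m : ℕ) + 1), Z m m' := by
        rw [Finset.sum_filter]
        refine Finset.sum_congr rfl fun m' _ => ?_
        split_ifs with hh
        · rfl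
        · exact hZ0 m m' hh
      rw [h2]
      refine (norm_sum_le _ _).trans ?_
      refine (Finset.sum_le_card_nsmul _ _ c fun m' _ => hZ m m').trans ?_
      rw [nsmul_eq_mul]
      refine mul_le_mul_of_nonneg_right ?_ hc
      have hcard : (Finset.univ.filter fun m' : Fin (M + 1) =>
          (m : ℕ) ≤ (m' : ℕ) + 1 ∧ (m' : ℕ) ≤ (m : ℕ) + 1).card ≤ 3 := by
        rw [← Finset.card_map Fin.valEmbedding]
        calc _ ≤ (Finset.Icc ((m : ℕ) - 1) ((m : ℕ) + 1)).card := by
              refine Finset.card_le_card fun x hx => ?_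
              rw [Finset.mem_map] at hx
              obtain ⟨m', hm', rfl⟩ := hx
              have := (Finset.mem_filter.mp hm').2
              rw [Finset.mem_Icc]
              simp only [Fin.valEmbedding_apply]
              omega
          _ ≤ 3 := by rw [Nat.card_Icc]; omega
      exact_mod_cast hcard
    refine (norm_sum_le _ _).trans ?_
    refine (Finset.sum_le_card_nsmul _ _ (3 * c) fun m _ => h1 m).trans ?_
    rw [nsmul_eq_mul, Finset.card_univ, Fintype.card_fin]
    push_cast
    nlinarith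
  have hTU : ∀ m m', ‖T m m' - (V m m' + W m m')‖ ≤ 2 * e * K := by
    intro m m'
    have e1 : T m m' - (V m m' + W m m') =
        C m * (F m * C m' - C m' * F m) * (C m * (G m' * C m')) +
          C m * C m' * F m * (C m * G m' - G m' * C m) * C m' := by
      have a1 : C m * F m * C m * (C m' * G m' * C m') =
          C m * F m * C m' * C m * (G m' * C m') := by
        calc C m * F m * C m * (C m' * G m' * C m') =
            C m * F m * (C m * C m') * (G m' * C m') := by simp only [mul_assoc]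
          _ = _ := by rw [hcc m m']; simp only [mul_assoc]
      simp only [T, V, W]
      rw [a1]
      noncomm_ring
    rw [e1]
    refine (norm_add_le _ _).trans ?_
    have b1 : ‖C m * (F m * C m' - C m' * F m) * (C m * (G m' * C m'))‖ ≤ e * K := by
      have c1 : ‖C m * (F m * C m' - C m' * F m)‖ ≤ e := by
        refine (norm_mul_le _ _).trans ?_
        rw [norm_sub_rev]
        calc ‖C m‖ * ‖C m' * F m - F m * C m'‖ ≤ 1 * e :=
              mul_le_mul (hCn m) (hCF m' m) (norm_nonneg _) zero_le_one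
          _ = e := one_mul e
      have c2 : ‖C m * (G m' * C m')‖ ≤ K := by
        refine (norm_mul_le _ _).trans ?_
        calc ‖C m‖ * ‖G m' * C m'‖ ≤ 1 * (K * 1) := by
              refine mul_le_mul (hCn m) ?_ (norm_nonneg _) zero_le_one
              exact (norm_mul_le _ _).trans (mul_le_mul (hG m') (hCn m') (norm_nonneg _) hK)
          _ = K := by ring
      exact (norm_mul_le _ _).trans (mul_le_mul c1 c2 (norm_nonneg _) he)
    have b2 : ‖C m * C m' * F m * (C m * G m' - G m' * C m) * C m'‖ ≤ e * K := by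
      have c1 : ‖C m * C m' * F m‖ ≤ K := by
        refine (norm_mul_le _ _).trans ?_
        calc ‖C m * C m'‖ * ‖F m‖ ≤ 1 * K :=
              mul_le_mul (n1 m m') (hF m) (norm_nonneg _) zero_le_one
          _ = K := one_mul K
      have c2 : ‖C m * C m' * F m * (C m * G m' - G m' * C m)‖ ≤ K * e :=
        (norm_mul_le _ _).trans (mul_le_mul c1 (hCG m m') (norm_nonneg _) hK)
      refine (norm_mul_le _ _).trans ?_
      calc ‖C m * C m' * F m * (C m * G m' - G m' * C m)‖ * ‖C m'‖ ≤ (K * e) * 1 :=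
            mul_le_mul c2 (hCn m') (norm_nonneg _) (mul_nonneg hK he)
        _ = e * K := by ring
    linarith
  have hVV : ∀ m m', ‖V m m' - V' m m'‖ ≤ 2 * e * K := by
    intro m m'
    have e1 : V m m' - V' m m' =
        C m * (C m' * F m - F m * C m') * (G m * (C m * C m')) +
          C m * F m * (C m' * G m - G m * C m') * (C m * C m') := by
      have a1 : C m * (F m * G m) * C m * (C m' * C m') =
          C m * (F m * G m) * C m' * (C m * C m') := by
        calc C m * (F m * G m) * C m * (C m' * C m') =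
            C m * (F m * G m) * (C m * C m') * C m' := by simp only [mul_assoc]
          _ = C m * (F m * G m) * (C m' * C m) * C m' := by rw [hcc m m']
          _ = _ := by simp only [mul_assoc]
      simp only [V, V']
      rw [a1]
      noncomm_ring
    rw [e1]
    refine (norm_add_le _ _).trans ?_
    have b1 : ‖C m * (C m' * F m - F m * C m') * (G m * (C m * C m'))‖ ≤ e * K := by
      have c1 : ‖C m * (C m' * F m - F m * C m')‖ ≤ e := by
        refine (norm_mul_le _ _).trans ?_
        calc ‖C m‖ * ‖C m' * F m - F m * C m'‖ ≤ 1 * e :=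
              mul_le_mul (hCn m) (hCF m' m) (norm_nonneg _) zero_le_one
          _ = e := one_mul e
      have c2 : ‖G m * (C m * C m')‖ ≤ K := by
        refine (norm_mul_le _ _).trans ?_
        calc ‖G m‖ * ‖C m * C m'‖ ≤ K * 1 :=
              mul_le_mul (hG m) (n1 m m') (norm_nonneg _) hK
          _ = K := mul_one K
      exact (norm_mul_le _ _).trans (mul_le_mul c1 c2 (norm_nonneg _) he)
    have b2 : ‖C m * F m * (C m' * G m - G m * C m') * (C m * C m')‖ ≤ e * K := by
      have c1 : ‖C m * F m‖ ≤ K := by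
        refine (norm_mul_le _ _).trans ?_
        calc ‖C m‖ * ‖F m‖ ≤ 1 * K :=
              mul_le_mul (hCn m) (hF m) (norm_nonneg _) zero_le_one
          _ = K := one_mul K
      have c2 : ‖C m * F m * (C m' * G m - G m * C m')‖ ≤ K * e :=
        (norm_mul_le _ _).trans (mul_le_mul c1 (hCG m' m) (norm_nonneg _) hK)
      refine (norm_mul_le _ _).trans ?_
      calc ‖C m * F m * (C m' * G m - G m * C m')‖ * ‖C m * C m'‖ ≤ (K * e) * 1 :=
            mul_le_mul c2 (n1 m m') (norm_nonneg _) (mul_nonneg hK he)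
        _ = e * K := by ring
    linarith
  have hB1 : ‖∑ m, ∑ m', (T m m' - (V m m' + W m m'))‖ ≤ 3 * (M + 1) * (2 * e * K) := by
    refine hnearsum _ _ (by positivity) hTU ?_
    intro m m' hn
    have h0 := hzero m m' hn
    simp only [T, V, W]
    rw [show C m * F m * C m * (C m' * G m' * C m') =
      C m * F m * (C m * C m') * (G m' * C m') by simp only [mul_assoc], h0]
    simp
  have hB3 : ‖∑ m, ∑ m', (V m m' - V' m m')‖ ≤ 3 * (M + 1) * (2 * e * K) := by
    refine hnearsum _ _ (by positivity) hVV ?_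
    intro m m' hn
    have h0 := hzero m m' hn
    simp only [V, V']
    rw [show C m * (F m * G m) * C m * (C m' * C m') =
      C m * (F m * G m) * (C m * C m') * C m' by simp only [mul_assoc], h0]
    simp
  have hB4 : ‖∑ m, C m * (F m * G m - H m) * C m‖ ≤ (M + 1) * δ := by
    have h1 : ∀ m, ‖C m * (F m * G m - H m) * C m‖ ≤ δ := by
      intro m
      have hδ0 : 0 ≤ δ := (norm_nonneg _).trans (hδ m)
      refine (norm_mul_le _ _).trans ?_
      calc ‖C m * (F m * G m - H m)‖ * ‖C m‖ ≤ δ * 1 :=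
            mul_le_mul (hδ m) (hCn m) (norm_nonneg _) hδ0
        _ = δ := mul_one δ
    refine (norm_sum_le _ _).trans ?_
    refine (Finset.sum_le_card_nsmul _ _ δ fun m _ => h1 m).trans ?_
    rw [nsmul_eq_mul, Finset.card_univ, Fintype.card_fin]
    push_cast
    exact le_refl _
  -- the two off-diagonal sums
  have hcol : ∀ (s : Finset (Fin (M + 1) × Fin (M + 1))),
      (∀ p ∈ s, ‖G p.2 - G p.1‖ ≤ ω) → ‖∑ p ∈ s, W p.1 p.2‖ ≤ K * ω := by
    intro s hs
    have ha : ∑ p : Fin (M + 1) × Fin (M + 1), star (C p.1 * C p.2) * (C p.1 * C p.2) = 1 := by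
      rw [Fintype.sum_prod_type_right]
      have h1 : ∀ m' : Fin (M + 1), ∑ m, star (C m * C m') * (C m * C m') = C m' * C m' := by
        intro m'
        have h2 : ∀ m, star (C m * C m') * (C m * C m') = C m' * (C m * C m) * C m' := by
          intro m
          rw [star_mul, hC, hC]
          simp only [mul_assoc]
        simp only [h2]
        rw [← Finset.sum_mul, ← Finset.mul_sum, hsum, mul_one]
      simp only [h1]
      exact hsum
    have h := sm_col s (fun p => C p.1 * C p.2) (fun p => F p.1 * (G p.2 - G p.1)) (K * ω)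
      (mul_nonneg hK hω0)
      (fun p hp => (norm_mul_le _ _).trans (mul_le_mul (hF p.1) (hs p hp) (norm_nonneg _) hK)) ha
    have e1 : ∑ p ∈ s, W p.1 p.2 =
        ∑ p ∈ s, star (C p.1 * C p.2) * (F p.1 * (G p.2 - G p.1)) * (C p.1 * C p.2) := by
      refine Finset.sum_congr rfl fun p _ => ?_
      rw [star_mul, hC, hC, hcc p.2 p.1]
    rw [e1]
    exact h
  have hB2 : ‖∑ m, ∑ m', W m m'‖ ≤ 2 * K * ω := by
    rw [← Fintype.sum_prod_type']
    have hsplit : ∑ p : Fin (M + 1) × Fin (M + 1), W p.1 p.2 =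
        ∑ p with ((p : Fin (M + 1) × Fin (M + 1)).2 : ℕ) = p.1 + 1, W p.1 p.2 +
        ∑ p with ((p : Fin (M + 1) × Fin (M + 1)).1 : ℕ) = p.2 + 1, W p.1 p.2 := by
      rw [Finset.sum_filter, Finset.sum_filter, ← Finset.sum_add_distrib]
      refine Finset.sum_congr rfl fun p _ => ?_
      obtain ⟨m, m'⟩ := p
      dsimp only
      by_cases h1 : (m' : ℕ) = m + 1
      · rw [if_pos h1, if_neg (by omega), add_zero]
      · rw [if_neg h1, zero_add]
        by_cases h2 : (m : ℕ) = m' + 1
        · rw [if_pos h2]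
        · rw [if_neg h2]
          by_cases h3 : m = m'
          · subst h3
            simp only [W, sub_self, mul_zero, zero_mul]
          · have h4 : (m : ℕ) ≠ m' := fun h => h3 (Fin.ext h)
            have h0 := hzero m m' (by omega)
            simp only [W, h0, mul_zero, zero_mul]
    rw [hsplit]
    refine (norm_add_le _ _).trans ?_
    have g1 := hcol (Finset.univ.filter fun p : Fin (M + 1) × Fin (M + 1) => (p.2 : ℕ) = p.1 + 1)
      (fun p hp => hω p.1 p.2 (Finset.mem_filter.mp hp).2)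
    have g2 := hcol (Finset.univ.filter fun p : Fin (M + 1) × Fin (M + 1) => (p.1 : ℕ) = p.2 + 1)
      (fun p hp => by rw [norm_sub_rev]; exact hω p.2 p.1 (Finset.mem_filter.mp hp).2)
    linarith
  rw [hdec]
  refine (norm_add_le _ _).trans ?_
  refine (add_le_add_left ((norm_add_le _ _).trans (add_le_add_left (norm_add_le _ _) _)) _).trans ?_
  linarith

end QT
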