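import Mathlib
import Pool.Agent.Helper58.QT.Defs
import Pool.Agent.Helper58.QT.CPBasics
import Pool.Agent.Helper58.QT.MatBasics
import Pool.Agent.Helper58.QT.Chain
import Pool.Agent.Helper58.QT.CommBd
import Pool.Agent.Helper58.QT.Smooth

/-!
# QT-23 ConeLocal: Gabe's theorem for cones, by hand, local form
Let `K ≥ 1` bound the norms of all `f ∈ G`. Choose `M ≥ 1` with `‖f(s) - f(t)‖ ≤ ω` for `|s-t| ≤ 1/M`, `f ∈ G` (`ω = ε/(20 K)`).
`c_m(x) = sqrt (max 0 (1 - |M x - m|))`, `m = 0..M`: continuous, `∑ c_m² = 1` on `[0,1]`, `c_m c_m' = 0` for `|m - m'| ≥ 2`. Choose `L`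
with `|c_m(x) - c_m(y)| ≤ e₀` for `|x-y| ≤ 1/L` (`e₀ = ε/(100 (M+1) K²)`). `S` = all `f(m/M)` and their stars, `f ∈ G ∪ {products}`
(finite), closed under star. `δ = ε/(10 (M+1))`, `η` so small that `(1 + |S|)^L |S|² η/δ² ≤ ε/(10 K)`. By amenability take `n` with
`norm2(φ(ab) - φ(a)φ(b))² ≤ η` for `a, b ∈ S` and `|ntr φ(b) - τ(b)| ≤ ε/10`. `chain` with `T = φ(S)`, `X = ` the STARS of the defects
(we need `‖(1 - E_0) defect‖ ≤ δ`; the family of defects is closed under star up to order, so both sides are fine).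
`C_m = ∑_p c_m(p/L) E_p`; `C_m E_0 = c_m(0) E_0 = 0` for `m ≥ 1`. `Φ(f) = ∑_m C_m φ(f(m/M)) C_m`: CP (`isCP_conj`, evaluations are
*-homs, `isCP_add`), `Φ 1 = ∑ C_m² = 1`. `smooth` with `F_m = φ(f(m/M))`, `G_m = φ(g(m/M))`, `H_m = φ((fg)(m/M))`: commutators by
`comm_bound` (`≤ 2 e₀ K`), `hδ`: `m ≥ 1`: `C_m = C_m (1 - E_0)`; `m = 0`: `f(0), g(0)` scalars, defect `0`.
Trace: `ntr(C_m F_m C_m) = ntr(C_m² F_m)`; `∑_m`: `E_L` part is `ntr(E_L φ(f(1)))` (`c_M(1) = 1`, other `c_m(1) = 0`), the rest has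
`|ntr((1 - E_L) ...)| ≤` small: use `|ntr(P x)| ≤ ‖x‖ ntr(P)` for a projection `P`, summed over the at most 2 values `m` with
`c_m(p/L) ≠ 0` (or crudely `(M+1) K ntr(1 - E_L)`: choose `η` accordingly). So `|ntr Φ(f) - τ(f(1))| ≤ ε`.
-/

open scoped Matrix Kronecker ComplexOrder Matrix.Norms.L2Operator
open Filter Topology

namespace QT

universe u

namespace ConeAux

section hat
open Finset

/-- square root of the hat function -/
noncomputable def hatc (M : ℕ) (m : ℕ) (x : ℝ) : ℝ := Real.sqrt (max 0 (1 - |(M : ℝ) * x - m|))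

theorem hatc_nonneg (M m : ℕ) (x : ℝ) : 0 ≤ hatc M m x := Real.sqrt_nonneg _

theorem hatc_sq (M m : ℕ) (x : ℝ) : hatc M m x * hatc M m x = max 0 (1 - |(M : ℝ) * x - m|) :=
  Real.mul_self_sqrt (le_max_left _ _)

theorem hat_second (t : ℝ) : max 0 (1 - |t|) = (|t - 1| + |t + 1| - 2 * |t|) / 2 := by
  rcases le_total 0 (1 - |t|) with h | h
  · rw [max_eq_right h]
    have h1 : |t| ≤ 1 := by linarith
    rw [abs_le] at h1
    rw [abs_of_nonpos (by linarith : t - 1 ≤ 0), abs_of_nonneg (by linarith : 0 ≤ t + 1)]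
    ring
  · rw [max_eq_left h]
    have h1 : 1 ≤ |t| := by linarith
    rcases le_total 0 t with h2 | h2
    · rw [abs_of_nonneg h2] at h1 ⊢
      rw [abs_of_nonneg (by linarith : 0 ≤ t - 1), abs_of_nonneg (by linarith : 0 ≤ t + 1)]
      ring
    · rw [abs_of_nonpos h2] at h1 ⊢
      rw [abs_of_nonpos (by linarith : t - 1 ≤ 0), abs_of_nonpos (by linarith : t + 1 ≤ 0)]
      ring

theorem hat_sum_aux (y : ℝ) (M : ℕ) :
    ∑ m ∈ range (M + 1), max 0 (1 - |y - (m : ℝ)|) =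
      (|y - M - 1| - |y - M| + |y + 1| - |y|) / 2 := by
  induction M with
  | zero =>
    simp only [zero_add, range_one, sum_singleton, Nat.cast_zero, sub_zero]
    rw [hat_second]
    ring
  | succ M ih =>
    rw [sum_range_succ, ih, hat_second]
    push_cast
    have h1 : y - ((M : ℝ) + 1) - 1 = y - (M : ℝ) - 1 - 1 := by ring
    have h2 : y - ((M : ℝ) + 1) + 1 = y - M := by ring
    have h3 : y - ((M : ℝ) + 1) = y - M - 1 := by ring
    rw [h2, h3]
    ring

theorem hatc_sum (M : ℕ) (x : ℝ) (h0 : 0 ≤ x) (h1 : x ≤ 1) :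
    ∑ m : Fin (M + 1), hatc M m x * hatc M m x = 1 := by
  simp only [hatc_sq]
  rw [Fin.sum_univ_eq_sum_range (fun m => max 0 (1 - |(M : ℝ) * x - (m : ℝ)|)) (M + 1),
    hat_sum_aux]
  have hM : (0 : ℝ) ≤ M := Nat.cast_nonneg M
  have h2 : 0 ≤ (M : ℝ) * x := mul_nonneg hM h0
  have h3 : (M : ℝ) * x ≤ M := by nlinarith
  rw [abs_of_nonpos (by linarith : (M : ℝ) * x - M - 1 ≤ 0),
    abs_of_nonpos (by linarith : (M : ℝ) * x - M ≤ 0), abs_of_nonneg (by linarith),
    abs_of_nonneg h2]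
  ring

theorem hatc_far (M m m' : ℕ) (h : m + 2 ≤ m') (x : ℝ) : hatc M m x * hatc M m' x = 0 := by
  have h' : (m : ℝ) + 2 ≤ m' := by exact_mod_cast h
  rcases le_total 1 |(M : ℝ) * x - m| with h1 | h1
  · have : hatc M m x = 0 := by
      unfold hatc
      rw [max_eq_left (by linarith), Real.sqrt_zero]
    rw [this, zero_mul]
  · have h2 : 1 ≤ |(M : ℝ) * x - m'| := by
      rw [abs_le] at h1
      rw [le_abs]
      right
      linarith
    have : hatc M m' x = 0 := by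
      unfold hatc
      rw [max_eq_left (by linarith), Real.sqrt_zero]
    rw [this, mul_zero]

theorem hatc_le_one (M m : ℕ) (x : ℝ) : hatc M m x ≤ 1 := by
  unfold hatc
  rw [Real.sqrt_le_one]
  refine max_le zero_le_one ?_
  linarith [abs_nonneg ((M : ℝ) * x - m)]

theorem sqrt_sub_sqrt (a b : ℝ) (ha : 0 ≤ a) (hb : 0 ≤ b) :
    |Real.sqrt a - Real.sqrt b| ≤ Real.sqrt |a - b| := by
  apply Real.le_sqrt_of_sq_le
  rw [sq_abs]
  have h1 : a - b = (Real.sqrt a - Real.sqrt b) * (Real.sqrt a + Real.sqrt b) := by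
    have e1 := Real.mul_self_sqrt ha
    have e2 := Real.mul_self_sqrt hb
    linear_combination -e1 + e2
  rw [h1, abs_mul, abs_of_nonneg (add_nonneg (Real.sqrt_nonneg a) (Real.sqrt_nonneg b))]
  have h2 : |Real.sqrt a - Real.sqrt b| ≤ Real.sqrt a + Real.sqrt b := by
    rw [abs_le]
    constructor <;> linarith [Real.sqrt_nonneg a, Real.sqrt_nonneg b]
  calc (Real.sqrt a - Real.sqrt b) ^ 2 = |Real.sqrt a - Real.sqrt b| * |Real.sqrt a - Real.sqrt b| := by
        rw [← sq_abs, sq]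
    _ ≤ _ := mul_le_mul_of_nonneg_left h2 (abs_nonneg _)

theorem hatc_lip (M m : ℕ) (x y : ℝ) : |hatc M m x - hatc M m y| ≤ Real.sqrt (M * |x - y|) := by
  unfold hatc
  refine (sqrt_sub_sqrt _ _ (le_max_left _ _) (le_max_left _ _)).trans (Real.sqrt_le_sqrt ?_)
  rw [max_comm (0 : ℝ), max_comm (0 : ℝ)]
  refine (abs_max_sub_max_le_abs (1 - |(M : ℝ) * x - m|) (1 - |(M : ℝ) * y - m|) 0).trans ?_
  have h1 : 1 - |(M : ℝ) * x - m| - (1 - |(M : ℝ) * y - m|) =
      |(M : ℝ) * y - m| - |(M : ℝ) * x - m| := by ring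
  rw [h1]
  refine (abs_abs_sub_abs_le_abs_sub _ _).trans ?_
  have h2 : (M : ℝ) * y - m - ((M : ℝ) * x - m) = M * (y - x) := by ring
  rw [h2, abs_mul, abs_of_nonneg (Nat.cast_nonneg M), abs_sub_comm]

theorem hatc_zero (M m : ℕ) (hm : 0 < m) : hatc M m 0 = 0 := by
  unfold hatc
  have : (1 : ℝ) ≤ m := by exact_mod_cast hm
  rw [mul_zero, zero_sub, abs_neg, abs_of_nonneg (by linarith), max_eq_left (by linarith),
    Real.sqrt_zero]

theorem hatc_one_lt (M m : ℕ) (hm : m < M) : hatc M m 1 = 0 := by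
  unfold hatc
  have : (m : ℝ) + 1 ≤ M := by exact_mod_cast hm
  rw [mul_one, abs_of_nonneg (by linarith), max_eq_left (by linarith), Real.sqrt_zero]

theorem hatc_one_self (M : ℕ) : hatc M M 1 = 1 := by
  unfold hatc
  simp

end hat

section proj

variable {ι : Type} [Fintype ι] [DecidableEq ι] {L : ℕ} (E : Fin (L + 1) → Matrix ι ι ℂ)

/-- diagonal combination of the projections -/
noncomputable def dcomb (g : Fin (L + 1) → ℝ) : Matrix ι ι ℂ := ∑ p, (g p : ℂ) • E p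

variable {E}

theorem dcomb_star (h1 : ∀ p, (E p)ᴴ = E p) (g : Fin (L + 1) → ℝ) : (dcomb E g)ᴴ = dcomb E g := by
  unfold dcomb
  rw [Matrix.conjTranspose_sum]
  refine Finset.sum_congr rfl fun p _ => ?_
  rw [Matrix.conjTranspose_smul, h1]
  simp

theorem dcomb_mul (h2 : ∀ p, E p * E p = E p) (h3 : ∀ p q, p ≠ q → E p * E q = 0)
    (g h : Fin (L + 1) → ℝ) : dcomb E g * dcomb E h = dcomb E (fun p => g p * h p) := by
  unfold dcomb
  rw [Finset.sum_mul]
  refine Finset.sum_congr rfl fun p _ => ?_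
  rw [Finset.mul_sum, Finset.sum_eq_single p]
  · rw [smul_mul_smul_comm, h2]
    push_cast
    rfl
  · intro q _ hq
    rw [smul_mul_smul_comm, h3 p q hq.symm, smul_zero]
  · intro h; exact absurd (Finset.mem_univ p) h

theorem dcomb_mul_E (h2 : ∀ p, E p * E p = E p) (h3 : ∀ p q, p ≠ q → E p * E q = 0)
    (g : Fin (L + 1) → ℝ) (q : Fin (L + 1)) : dcomb E g * E q = (g q : ℂ) • E q := by
  unfold dcomb
  rw [Finset.sum_mul, Finset.sum_eq_single q]
  · rw [smul_mul_assoc, h2]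
  · intro p _ hp
    rw [smul_mul_assoc, h3 p q hp, smul_zero]
  · intro h; exact absurd (Finset.mem_univ q) h

theorem dcomb_sum {κ : Type*} (s : Finset κ) (g : κ → Fin (L + 1) → ℝ) :
    ∑ m ∈ s, dcomb E (g m) = dcomb E (fun p => ∑ m ∈ s, g m p) := by
  unfold dcomb
  rw [Finset.sum_comm]
  refine Finset.sum_congr rfl fun p _ => ?_
  push_cast
  rw [Finset.sum_smul]

theorem dcomb_one (h4 : ∑ p, E p = 1) : dcomb E (fun _ => 1) = 1 := by
  unfold dcomb
  simp [h4]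

theorem dcomb_zero : dcomb E (fun _ => 0) = 0 := by
  unfold dcomb
  simp

end proj

theorem norm_one_le' {ι : Type} [Fintype ι] [DecidableEq ι] : ‖(1 : Matrix ι ι ℂ)‖ ≤ 1 := by
  rcases isEmpty_or_nonempty ι with h | h
  · have : (1 : Matrix ι ι ℂ) = 0 := by ext i; exact h.elim i
    rw [this, norm_zero]
    exact zero_le_one
  · have h1 : ‖(star (1 : Matrix ι ι ℂ)) * 1‖ = ‖(1 : Matrix ι ι ℂ)‖ * ‖(1 : Matrix ι ι ℂ)‖ :=
      CStarRing.norm_star_mul_self
    rw [star_one, mul_one] at h1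
    nlinarith [norm_nonneg (1 : Matrix ι ι ℂ)]


/-- `|tr (Q Y)| ≤ ‖Y‖ tr Q` for a projection `Q` -/
theorem ntr_proj_mul {ι : Type} [Fintype ι] [DecidableEq ι] (Q Y : Matrix ι ι ℂ) (h1 : Qᴴ = Q)
    (h2 : Q * Q = Q) : ‖ntr (Q * Y)‖ ≤ ‖Y‖ * (ntr Q).re := by
  have hcol : ∀ i, ∑ j, ‖Q j i‖ ^ 2 = (Q i i).re := by
    intro i
    have h3 : Q i i = ∑ j, ((‖Q j i‖ ^ 2 : ℝ) : ℂ) := by
      conv_lhs => rw [← h2]
      rw [Matrix.mul_apply]
      refine Finset.sum_congr rfl fun j _ => ?_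
      have h4 : Q i j = star (Q j i) := by
        conv_lhs => rw [← h1]
        rfl
      rw [h4, Complex.star_def, Complex.conj_mul']
      push_cast
      rfl
    rw [h3, ← Complex.ofReal_sum, Complex.ofReal_re]
  have hentry : ∀ i, ‖(Q * Y * Q) i i‖ ≤ ‖Y‖ * (Q i i).re := by
    intro i
    let w : EuclideanSpace ℂ ι := WithLp.toLp 2 (fun j => Q j i)
    have hw : ‖w‖ ^ 2 = (Q i i).re := by
      rw [EuclideanSpace.norm_sq_eq]
      exact hcol i
    have h3 : (Q * Y * Q) i i = inner ℂ w (WithLp.toLp 2 (Y *ᵥ w.ofLp) : EuclideanSpace ℂ ι) := by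
      rw [EuclideanSpace.inner_eq_star_dotProduct]
      rw [Matrix.mul_assoc, Matrix.mul_apply]
      unfold dotProduct
      refine Finset.sum_congr rfl fun j _ => ?_
      have h4 : Q i j = star (Q j i) := by
        conv_lhs => rw [← h1]
        rfl
      rw [h4, mul_comm]
      rfl
    rw [h3]
    refine (norm_inner_le_norm _ _).trans ?_
    have h5 : ‖(WithLp.toLp 2 (Y *ᵥ w.ofLp) : EuclideanSpace ℂ ι)‖ ≤ ‖Y‖ * ‖w‖ :=
      Matrix.l2_opNorm_mulVec Y w
    calc ‖w‖ * _ ≤ ‖w‖ * (‖Y‖ * ‖w‖) := mul_le_mul_of_nonneg_left h5 (norm_nonneg _)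
      _ = ‖Y‖ * ‖w‖ ^ 2 := by ring
      _ = _ := by rw [hw]
  have htr : Matrix.trace (Q * Y) = Matrix.trace (Q * Y * Q) := by
    rw [Matrix.trace_mul_comm (Q * Y) Q, ← Matrix.mul_assoc, h2]
  unfold ntr
  rw [htr, norm_div, Complex.norm_natCast]
  have h6 : (Matrix.trace Q / (Fintype.card ι : ℂ)).re =
      (Matrix.trace Q).re / (Fintype.card ι : ℝ) := by
    rw [Complex.div_natCast_re]
  rw [h6, ← mul_div_assoc]
  refine div_le_div_of_nonneg_right ?_ (Nat.cast_nonneg _)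
  unfold Matrix.trace
  rw [Complex.re_sum, Finset.mul_sum]
  refine (norm_sum_le _ _).trans (Finset.sum_le_sum fun i _ => ?_)
  exact hentry i
theorem norm_le_one_of_sum {R : Type*} [CStarAlgebra R] {M : ℕ}
    (C : Fin (M + 1) → R) (hC : ∀ m, star (C m) = C m) (hsum : ∑ m, C m * C m = 1)
    (m : Fin (M + 1)) : ‖C m‖ ≤ 1 := by
  let := CStarAlgebra.spectralOrder R
  let := CStarAlgebra.spectralOrderedRing R
  have h0 : ∀ m, 0 ≤ C m * C m := fun m => by
    have := star_mul_self_nonneg (C m)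
    rwa [hC] at this
  have h1 : C m * C m ≤ 1 := by
    rw [← hsum]
    exact Finset.single_le_sum (fun m _ => h0 m) (Finset.mem_univ m)
  have h2 := CStarAlgebra.norm_le_norm_of_nonneg_of_le (h0 m) h1
  have h3 : ‖star (C m) * C m‖ = ‖C m‖ * ‖C m‖ := CStarRing.norm_star_mul_self
  rw [hC] at h3
  have h4 : ‖(1 : R)‖ ≤ 1 := by
    have h5 : ‖(star (1 : R)) * 1‖ = ‖(1 : R)‖ * ‖(1 : R)‖ := CStarRing.norm_star_mul_self
    rw [star_one, mul_one] at h5
    nlinarith [norm_nonneg (1 : R)]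
  have h6 : ‖C m‖ * ‖C m‖ ≤ 1 := by rw [← h3]; exact h2.trans h4
  nlinarith [norm_nonneg (C m)]


/-- the point `m / M` of the unit interval -/
noncomputable def tp (M : ℕ) (m : Fin (M + 1)) : unitInterval :=
  ⟨(m : ℝ) / M, div_nonneg (Nat.cast_nonneg _) (Nat.cast_nonneg _),
    div_le_one_of_le₀ (by exact_mod_cast Nat.lt_succ_iff.mp m.2) (Nat.cast_nonneg _)⟩

theorem tp_zero (M : ℕ) : tp M 0 = 0 := by
  apply Subtype.ext
  simp [tp]

theorem tp_last (M : ℕ) (hM : 0 < M) : tp M (Fin.last M) = 1 := by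
  apply Subtype.ext
  have : (M : ℝ) ≠ 0 := by positivity
  simp [tp, this]

section cpmap

variable {B : Type u} [CStarAlgebra B] {k : ℕ} (φ : B →ₗ[ℂ] Matrix (Fin k) (Fin k) ℂ) {M : ℕ}
  (C : Fin (M + 1) → Matrix (Fin k) (Fin k) ℂ)

/-- evaluation at a point -/
def evS (t : unitInterval) : C(unitInterval, B) →⋆ₐ[ℂ] B where
  toFun f := f t
  map_one' := rfl
  map_mul' _ _ := rfl
  map_zero' := rfl
  map_add' _ _ := rfl
  commutes' _ := rfl
  map_star' _ := rfl

/-- one summand of the smoothed map -/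
noncomputable def PhiT (m : Fin (M + 1)) :
    C(unitInterval, B) →ₗ[ℂ] Matrix (Fin k) (Fin k) ℂ where
  toFun f := C m * φ (f (tp M m)) * C m
  map_add' f g := by simp [mul_add, add_mul]
  map_smul' c f := by simp

theorem PhiT_cp (hφ : IsCP φ) (hC : ∀ m, (C m)ᴴ = C m) (m : Fin (M + 1)) :
    IsCP (PhiT φ C m) := by
  have h0 := isCP_hom (evS (B := B) (tp M m))
  have h1 : IsCP (φ ∘ₗ ((evS (B := B) (tp M m) : C(unitInterval, B) →⋆ₐ[ℂ] B) :
      C(unitInterval, B) →ₗ[ℂ] B)) := isCP_comp (A := C(unitInterval, B)) h0 hφ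
  refine isCP_conj h1 (C m) _ fun f => ?_
  rw [hC]
  rfl

theorem isCP_zero' : IsCP (0 : C(unitInterval, B) →ₗ[ℂ] Matrix (Fin k) (Fin k) ℂ) := by
  intro m N
  refine ⟨0, ?_⟩
  ext i j
  simp

theorem sum_cp {s : Finset (Fin (M + 1))}
    (T : Fin (M + 1) → (C(unitInterval, B) →ₗ[ℂ] Matrix (Fin k) (Fin k) ℂ))
    (hT : ∀ m, IsCP (T m)) : IsCP (∑ m ∈ s, T m) := by
  classical
  induction s using Finset.induction_on with
  | empty => rw [Finset.sum_empty]; exact isCP_zero'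
  | insert a s ha ih => rw [Finset.sum_insert ha]; exact isCP_add (hT a) ih

theorem Phi_apply (f : C(unitInterval, B)) :
    (∑ m, PhiT φ C m) f = ∑ m, C m * φ (f (tp M m)) * C m := by
  rw [LinearMap.sum_apply]
  rfl

end cpmap

theorem cone_core {B : Type u} [CStarAlgebra B] {k : ℕ} (φ : B →ₗ[ℂ] Matrix (Fin k) (Fin k) ℂ)
    (hφ : IsCP φ) (hφ1 : φ 1 = 1) (G : Finset C(unitInterval, B))
    (hG : ∀ f ∈ G, ∃ z : ℂ, f 0 = algebraMap ℂ B z) (K : ℝ) (hK : 1 ≤ K) (hGK : ∀ f ∈ G, ‖f‖ ≤ K)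
    (M : ℕ) (hM : 0 < M) (ω : ℝ) (hω0 : 0 ≤ ω)
    (hω : ∀ f ∈ G, ∀ s t : unitInterval, |(s : ℝ) - t| ≤ 1 / M → ‖f s - f t‖ ≤ ω)
    (L : ℕ) (hL : 0 < L) (e₀ : ℝ) (he : Real.sqrt (M * (1 / L)) ≤ e₀) (δ η : ℝ) (hδ : 0 < δ)
    (hη : ∀ f ∈ G, ∀ g ∈ G, ∀ m : Fin (M + 1),
      norm2 (φ (star (g (tp M m)) * star (f (tp M m))) -
        φ (star (g (tp M m))) * φ (star (f (tp M m)))) ^ 2 ≤ η) :
    ∃ Φ : C(unitInterval, B) →ₗ[ℂ] Matrix (Fin k) (Fin k) ℂ, IsCP Φ ∧ Φ 1 = 1 ∧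
      (∀ f ∈ G, ∀ g ∈ G, ‖Φ (f * g) - Φ f * Φ g‖ ≤
        2 * K * ω + 12 * (M + 1) * (2 * e₀ * K) * K + (M + 1) * δ) ∧
      ∀ f ∈ G, ‖ntr (Φ f) - ntr (φ (f 1))‖ ≤ (M + 2) * K *
        ((1 + (Fintype.card (G × Fin (M + 1) × Bool) : ℝ)) ^ L *
          ((Fintype.card (G × G × Fin (M + 1)) : ℝ) * η / δ ^ 2)) := by
  classical
  have he0 : 0 ≤ e₀ := (Real.sqrt_nonneg _).trans he
  -- norms
  have hφn : ∀ b : B, ‖φ b‖ ≤ ‖b‖ := by
    intro b
    have h1 := isCP_norm_le hφ b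
    rw [hφ1] at h1
    have h2 := norm_one_le' (ι := Fin k)
    nlinarith [norm_nonneg b]
  have hev : ∀ f ∈ G, ∀ t, ‖φ (f t)‖ ≤ K := fun f hf t =>
    (hφn _).trans ((ContinuousMap.norm_coe_le_norm f t).trans (hGK f hf))
  -- the chain
  let IT := G × Fin (M + 1) × Bool
  let IX := G × G × Fin (M + 1)
  let T' : IT → Matrix (Fin k) (Fin k) ℂ := fun i =>
    if i.2.2 then φ (star ((i.1 : C(unitInterval, B)) (tp M i.2.1)))
    else φ ((i.1 : C(unitInterval, B)) (tp M i.2.1))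
  let X' : IX → Matrix (Fin k) (Fin k) ℂ := fun i =>
    φ (star ((i.2.1 : C(unitInterval, B)) (tp M i.2.2)) *
      star ((i.1 : C(unitInterval, B)) (tp M i.2.2))) -
    φ (star ((i.2.1 : C(unitInterval, B)) (tp M i.2.2))) *
      φ (star ((i.1 : C(unitInterval, B)) (tp M i.2.2)))
  let eT : IT ≃ Fin (Fintype.card IT) := Fintype.equivFin IT
  let eX : IX ≃ Fin (Fintype.card IX) := Fintype.equivFin IX
  obtain ⟨E, h1, h2, h3, h4, h5, h6, h7⟩ := chain (fun i => T' (eT.symm i)) (by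
      intro i
      refine ⟨eT ((eT.symm i).1, (eT.symm i).2.1, !(eT.symm i).2.2), ?_⟩
      simp only [Equiv.symm_apply_apply, T']
      cases hb : (eT.symm i).2.2
      · simp only [Bool.not_false, if_true, Bool.false_eq_true, if_false]
        exact isCP_star hφ _
      · simp only [Bool.not_true, Bool.false_eq_true, if_false, if_true]
        rw [isCP_star hφ, Matrix.conjTranspose_conjTranspose])
    (fun i => X' (eX.symm i)) L hL δ η hδ (by
      intro x
      exact hη _ (eX.symm x).1.2 _ (eX.symm x).2.1.2 _)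
  have hT5 : ∀ f ∈ G, ∀ m (p q : Fin (L + 1)), (p : ℕ) + 2 ≤ q ∨ (q : ℕ) + 2 ≤ p →
      E p * φ (f (tp M m)) * E q = 0 := by
    intro f hf m p q hpq
    have := h5 (eT (⟨f, hf⟩, m, false)) p q hpq
    simpa [T'] using this
  have hX6 : ∀ f (hf : f ∈ G) g (hg : g ∈ G), ∀ m : Fin (M + 1),
      ‖(φ (star (g (tp M m)) * star (f (tp M m))) -
        φ (star (g (tp M m))) * φ (star (f (tp M m)))) * (1 - E 0)‖ ≤ δ := by
    intro f hf g hg m
    have := h6 (eX (⟨f, hf⟩, ⟨g, hg⟩, m))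
    simpa [X'] using this
  -- the partition of unity
  let gg : Fin (M + 1) → Fin (L + 1) → ℝ := fun m p => hatc M m ((p : ℝ) / L)
  let C : Fin (M + 1) → Matrix (Fin k) (Fin k) ℂ := fun m => dcomb E (gg m)
  have hLr : (0 : ℝ) < L := by exact_mod_cast hL
  have hpt : ∀ p : Fin (L + 1), (0 : ℝ) ≤ (p : ℝ) / L ∧ (p : ℝ) / L ≤ 1 := by
    intro p
    refine ⟨by positivity, ?_⟩
    rw [div_le_one hLr]
    exact_mod_cast Nat.lt_succ_iff.mp p.2
  have hCs : ∀ m, (C m)ᴴ = C m := fun m => dcomb_star h1 _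
  have hCC : ∀ m m', C m * C m' = dcomb E (fun p => gg m p * gg m' p) := fun m m' =>
    dcomb_mul h2 h3 _ _
  have hcc : ∀ m m', C m * C m' = C m' * C m := by
    intro m m'
    rw [hCC, hCC]
    congr 1
    funext p
    ring
  have hsum : ∑ m, C m * C m = 1 := by
    simp only [hCC]
    rw [dcomb_sum, ← dcomb_one h4]
    congr 1
    funext p
    exact hatc_sum M _ (hpt p).1 (hpt p).2
  have hfar : ∀ m m' : Fin (M + 1), (m : ℕ) + 2 ≤ m' → C m * C m' = 0 := by
    intro m m' hm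
    rw [hCC, ← dcomb_zero (E := E)]
    congr 1
    funext p
    exact hatc_far M m m' hm _
  have hCn : ∀ m, ‖C m‖ ≤ 1 := fun m => norm_le_one_of_sum C hCs hsum m
  have hcomm : ∀ m, ∀ f ∈ G, ∀ m', ‖C m * φ (f (tp M m')) - φ (f (tp M m')) * C m‖ ≤
      2 * e₀ * K := by
    intro m f hf m'
    have h8 := comm_bound E h1 h2 h3 h4 (φ (f (tp M m'))) (hT5 f hf m') (gg m) e₀ (by
      intro p q hpq
      refine (hatc_lip M m _ _).trans (le_trans (Real.sqrt_le_sqrt ?_) he)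
      refine mul_le_mul_of_nonneg_left ?_ (Nat.cast_nonneg M)
      rw [← sub_div, hpq, abs_div, abs_of_pos hLr]
      push_cast
      rw [add_sub_cancel_left, abs_one]) he0
    refine h8.trans ?_
    have h9 := hev f hf (tp M m')
    have h10 : 0 ≤ 2 * e₀ := by linarith
    exact mul_le_mul_of_nonneg_left h9 h10
  have hCE0 : ∀ m : Fin (M + 1), m ≠ 0 → C m * E 0 = 0 := by
    intro m hm
    have h8 := dcomb_mul_E h2 h3 (gg m) 0
    have h9 : gg m 0 = 0 := by
      have : 0 < (m : ℕ) := Nat.pos_of_ne_zero fun h => hm (Fin.ext h)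
      show hatc M m (((0 : Fin (L + 1)) : ℕ) / L : ℝ) = 0
      rw [Fin.val_zero, Nat.cast_zero, zero_div]
      exact hatc_zero M m this
    show dcomb E (gg m) * E 0 = 0
    rw [h8, h9]
    simp
  have hdef : ∀ f ∈ G, ∀ g ∈ G, ∀ m : Fin (M + 1),
      ‖C m * (φ (f (tp M m)) * φ (g (tp M m)) - φ (f (tp M m) * g (tp M m)))‖ ≤ δ := by
    intro f hf g hg m
    by_cases hm : m = 0
    · subst hm
      obtain ⟨z, hz⟩ := hG f hf
      obtain ⟨w, hw⟩ := hG g hg
      have h8 : φ (f (tp M 0)) * φ (g (tp M 0)) - φ (f (tp M 0) * g (tp M 0)) = 0 := by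
        rw [tp_zero, hz, hw, ← map_mul (algebraMap ℂ B)]
        simp only [Algebra.algebraMap_eq_smul_one, map_smul, hφ1]
        rw [smul_mul_smul_comm, mul_one, sub_self]
      rw [h8, mul_zero, norm_zero]
      exact hδ.le
    · set D := φ (f (tp M m)) * φ (g (tp M m)) - φ (f (tp M m) * g (tp M m)) with hD
      have h8 : Dᴴ = -(φ (star (g (tp M m)) * star (f (tp M m))) -
          φ (star (g (tp M m))) * φ (star (f (tp M m)))) := by
        rw [hD, Matrix.conjTranspose_sub, Matrix.conjTranspose_mul, ← isCP_star hφ,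
          ← isCP_star hφ, ← isCP_star hφ, star_mul]
        abel
      have h9 : C m = C m * (1 - E 0) := by
        rw [mul_sub, mul_one, hCE0 m hm, sub_zero]
      have h10 : C m = (1 - E 0) * C m := by
        have := congrArg Matrix.conjTranspose h9
        rwa [Matrix.conjTranspose_mul, hCs, Matrix.conjTranspose_sub, Matrix.conjTranspose_one,
          h1] at this
      have h11 : (C m * D)ᴴ = -((φ (star (g (tp M m)) * star (f (tp M m))) -
          φ (star (g (tp M m))) * φ (star (f (tp M m)))) * (1 - E 0)) * C m := by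
        rw [Matrix.conjTranspose_mul, hCs, h8]
        conv_lhs => rw [h10]
        noncomm_ring
      rw [← Matrix.l2_opNorm_conjTranspose (C m * D), h11]
      refine (norm_mul_le _ _).trans ?_
      rw [norm_neg]
      have h12 := hX6 f hf g hg m
      have h13 := hCn m
      calc _ ≤ δ * 1 := mul_le_mul h12 h13 (norm_nonneg _) hδ.le
        _ = δ := mul_one δ
  refine ⟨∑ m, PhiT φ C m, sum_cp _ fun m => PhiT_cp φ C hφ hCs m, ?_, ?_, ?_⟩
  · rw [Phi_apply]
    simp only [ContinuousMap.one_apply, hφ1, mul_one]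
    exact hsum
  · intro f hf g hg
    rw [Phi_apply, Phi_apply, Phi_apply, norm_sub_rev]
    simp only [ContinuousMap.mul_apply]
    exact smooth C (fun m => φ (f (tp M m))) (fun m => φ (g (tp M m)))
      (fun m => φ (f (tp M m) * g (tp M m))) K (2 * e₀ * K) ω δ hCs hCn hcc hsum hfar
      (fun m => hev f hf _) (fun m => hev g hg _) (by linarith) (by positivity) hω0
      (fun m m' => hcomm m f hf m') (fun m m' => hcomm m g hg m')
      (by
        intro m m' hmm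
        rw [← map_sub]
        refine (hφn _).trans (hω g hg _ _ ?_)
        show |((m' : ℕ) : ℝ) / M - ((m : ℕ) : ℝ) / M| ≤ 1 / M
        rw [hmm, ← sub_div, abs_div]
        push_cast
        rw [add_sub_cancel_left, abs_one, abs_of_nonneg (Nat.cast_nonneg M)])
      (fun m => hdef f hf g hg m)
  · intro f hf
    rw [Phi_apply]
    set P := E (Fin.last L) with hP
    set Q := 1 - P with hQ
    have hQ1 : Qᴴ = Q := by
      rw [hQ, Matrix.conjTranspose_sub, Matrix.conjTranspose_one, hP, h1]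
    have hQ2 : Q * Q = Q := by
      rw [hQ, mul_sub, mul_one, sub_mul, one_mul, hP, h2, sub_self, sub_zero]
    have hκ : 0 ≤ (ntr Q).re := by
      by_contra h
      push Not at h
      have h8 := ntr_proj_mul Q 1 hQ1 hQ2
      rw [mul_one] at h8
      have h9 : ‖ntr Q‖ ≤ 0 := h8.trans (mul_nonpos_of_nonneg_of_nonpos (norm_nonneg _) h.le)
      have h10 : ntr Q = 0 := norm_le_zero_iff.mp h9
      rw [h10] at h
      simp at h
    have hκ' : (ntr Q).re ≤ (1 + (Fintype.card (G × Fin (M + 1) × Bool) : ℝ)) ^ L *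
          ((Fintype.card (G × G × Fin (M + 1)) : ℝ) * η / δ ^ 2) := h7
    set F : Fin (M + 1) → Matrix (Fin k) (Fin k) ℂ := fun m => φ (f (tp M m)) with hF
    have hFl : F (Fin.last M) = φ (f 1) := by rw [hF]; simp only; rw [tp_last M hM]
    have hgl : ∀ m, gg m (Fin.last L) = if m = Fin.last M then 1 else 0 := by
      intro m
      show hatc M m (((Fin.last L : Fin (L + 1)) : ℕ) / L : ℝ) = _
      rw [Fin.val_last, div_self hLr.ne']
      split_ifs with hm
      · rw [hm, Fin.val_last]; exact hatc_one_self M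
      · exact hatc_one_lt M m (lt_of_le_of_ne (Nat.lt_succ_iff.mp m.2) fun h => hm (Fin.ext h))
    have hCP : ∀ m, C m * C m * P = if m = Fin.last M then P else 0 := by
      intro m
      have h8 : C m * P = ((gg m (Fin.last L) : ℝ) : ℂ) • P := dcomb_mul_E h2 h3 (gg m) _
      rw [mul_assoc, h8, mul_smul_comm, h8, hgl]
      split_ifs <;> simp
    have hterm : ∀ m, ntr (C m * F m * C m) =
        ntr ((if m = Fin.last M then P else 0) * F m) + ntr (Q * (F m * (C m * C m))) := by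
      intro m
      have h8 : ntr (C m * F m * C m) = ntr (C m * C m * F m) := by
        rw [ntr_mul_comm (C m * F m) (C m), mul_assoc]
      have h9 : C m * C m * F m = C m * C m * P * F m + C m * C m * (Q * F m) := by
        rw [hQ]; noncomm_ring
      have h10 : ntr (C m * C m * (Q * F m)) = ntr (Q * (F m * (C m * C m))) := by
        rw [ntr_mul_comm (C m * C m) (Q * F m), mul_assoc]
      rw [h8, h9, ntr_add, h10, hCP]
    have hntr_sum : ∀ (s : Finset (Fin (M + 1))) (Z : Fin (M + 1) → Matrix (Fin k) (Fin k) ℂ),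
        ntr (∑ m ∈ s, Z m) = ∑ m ∈ s, ntr (Z m) := by
      intro s Z
      unfold ntr
      rw [Matrix.trace_sum, Finset.sum_div]
    rw [hntr_sum, Finset.sum_congr rfl fun m _ => hterm m, Finset.sum_add_distrib]
    have h11 : ∑ m, ntr ((if m = Fin.last M then P else 0) * F m) = ntr (P * φ (f 1)) := by
      rw [Finset.sum_eq_single (Fin.last M)]
      · rw [if_pos rfl, hFl]
      · intro m _ hm
        rw [if_neg hm, zero_mul]
        unfold ntr
        simp
      · intro h; exact absurd (Finset.mem_univ _) h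
    have h12 : ntr (φ (f 1)) = ntr (P * φ (f 1)) + ntr (Q * φ (f 1)) := by
      rw [← ntr_add, ← add_mul, hQ, add_sub_cancel, one_mul]
    rw [h11, h12, add_sub_add_left_eq_sub]
    have h13 : ∀ m, ‖ntr (Q * (F m * (C m * C m)))‖ ≤ K * (ntr Q).re := by
      intro m
      refine (ntr_proj_mul Q _ hQ1 hQ2).trans (mul_le_mul_of_nonneg_right ?_ hκ)
      have h14 : ‖C m * C m‖ ≤ 1 := (norm_mul_le _ _).trans (by
        have := hCn m
        nlinarith [norm_nonneg (C m)])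
      calc ‖F m * (C m * C m)‖ ≤ ‖F m‖ * ‖C m * C m‖ := norm_mul_le _ _
        _ ≤ K * 1 := mul_le_mul (hev f hf _) h14 (norm_nonneg _) (by linarith)
        _ = K := mul_one K
    have h15 : ‖ntr (Q * φ (f 1))‖ ≤ K * (ntr Q).re :=
      (ntr_proj_mul Q _ hQ1 hQ2).trans (mul_le_mul_of_nonneg_right (hev f hf _) hκ)
    calc ‖∑ m, ntr (Q * (F m * (C m * C m))) - ntr (Q * φ (f 1))‖
        ≤ ‖∑ m, ntr (Q * (F m * (C m * C m)))‖ + ‖ntr (Q * φ (f 1))‖ := norm_sub_le _ _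
      _ ≤ ∑ m : Fin (M + 1), K * (ntr Q).re + K * (ntr Q).re :=
          add_le_add ((norm_sum_le _ _).trans (Finset.sum_le_sum fun m _ => h13 m)) h15
      _ = (M + 2) * K * (ntr Q).re := by
          rw [Finset.sum_const, Finset.card_univ, Fintype.card_fin, nsmul_eq_mul]
          push_cast
          ring
      _ ≤ _ := mul_le_mul_of_nonneg_left hκ' (by positivity)

end ConeAux

open ConeAux in
theorem cone_local {B : Type u} [CStarAlgebra B] (τ : TracialState B) (h : τ.IsAmenable)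
    (G : Finset C(unitInterval, B)) (hG : ∀ f ∈ G, ∃ z : ℂ, f 0 = algebraMap ℂ B z) (ε : ℝ)
    (hε : 0 < ε) :
    ∃ (k : ℕ) (Φ : C(unitInterval, B) →ₗ[ℂ] Matrix (Fin k) (Fin k) ℂ), 0 < k ∧ IsCP Φ ∧ Φ 1 = 1 ∧
      (∀ f ∈ G, ∀ g ∈ G, ‖Φ (f * g) - Φ f * Φ g‖ ≤ ε) ∧
      ∀ f ∈ G, ‖ntr (Φ f) - τ.toFun (f 1)‖ ≤ ε := by
  classical
  obtain ⟨k, φ, hk, hφ, hφ1, hmul, htr⟩ := h
  -- the bound `K`
  obtain ⟨K, hK, hGK⟩ : ∃ K : ℝ, 1 ≤ K ∧ ∀ f ∈ G, ‖f‖ ≤ K := by
    refine ⟨1 + ∑ f ∈ G, ‖f‖, by linarith [Finset.sum_nonneg fun f (_ : f ∈ G) => norm_nonneg f],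
      fun f hf => ?_⟩
    have := Finset.single_le_sum (f := fun f => ‖f‖) (fun f _ => norm_nonneg f) hf
    linarith
  have hK0 : 0 < K := by linarith
  -- `M`
  set ω : ℝ := ε / (6 * K) with hωdef
  have hω0 : 0 < ω := by positivity
  obtain ⟨d, hd, hdG⟩ : ∃ d > 0, ∀ f ∈ G, ∀ s t : unitInterval, |(s : ℝ) - t| ≤ d →
      ‖f s - f t‖ ≤ ω := by
    clear htr hmul hGK hG
    induction G using Finset.induction_on with
    | empty => exact ⟨1, one_pos, fun f hf => absurd hf (Finset.notMem_empty f)⟩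
    | insert a s ha ih =>
      obtain ⟨d₁, hd₁, h₁⟩ := ih
      have huc : UniformContinuous a := CompactSpace.uniformContinuous_of_continuous a.continuous
      obtain ⟨d₂, hd₂, h₂⟩ := Metric.uniformContinuous_iff.mp huc ω hω0
      refine ⟨min d₁ (d₂ / 2), lt_min hd₁ (by linarith), fun f hf s t hst => ?_⟩
      rcases Finset.mem_insert.mp hf with rfl | hf
      · have h3 : dist s t < d₂ := by
          rw [Subtype.dist_eq, Real.dist_eq]
          exact lt_of_le_of_lt (hst.trans (min_le_right _ _)) (by linarith)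
        have h4 := h₂ h3
        rw [dist_eq_norm] at h4
        exact h4.le
      · exact h₁ f hf s t (hst.trans (min_le_left _ _))
  obtain ⟨M, hM⟩ := exists_nat_gt (1 / d)
  have hM0 : 0 < M := by
    have : (0 : ℝ) < M := lt_trans (by positivity) hM
    exact_mod_cast this
  have hMr : (0 : ℝ) < M := by exact_mod_cast hM0
  have hMd : (1 : ℝ) / M ≤ d := by
    rw [div_le_iff₀ hMr]
    rw [div_lt_iff₀ hd] at hM
    linarith
  -- `L`
  set e₀ : ℝ := ε / (72 * (M + 1) * K ^ 2) with he₀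
  have he0 : 0 < e₀ := by positivity
  obtain ⟨L, hL⟩ := exists_nat_gt (M / e₀ ^ 2)
  have hL0 : 0 < L := by
    have : (0 : ℝ) < L := lt_trans (by positivity) hL
    exact_mod_cast this
  have hLr : (0 : ℝ) < L := by exact_mod_cast hL0
  have hLe : Real.sqrt (M * (1 / L)) ≤ e₀ := by
    rw [Real.sqrt_le_left he0.le]
    rw [div_lt_iff₀ (by positivity)] at hL
    rw [mul_one_div, div_le_iff₀ hLr]
    linarith
  set δ : ℝ := ε / (3 * (M + 1)) with hδdef
  have hδ0 : 0 < δ := by positivity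
  set nT : ℝ := (Fintype.card (G × Fin (M + 1) × Bool) : ℝ) with hnT
  set nX : ℝ := (Fintype.card (G × G × Fin (M + 1)) : ℝ) with hnX
  have hnT0 : 0 ≤ nT := Nat.cast_nonneg _
  have hnX0 : 0 ≤ nX := Nat.cast_nonneg _
  set η : ℝ := δ ^ 2 * ε / (2 * (M + 2) * K * (nX + 1) * (1 + nT) ^ L) with hηdef
  have hη0 : 0 < η := by positivity
  -- the stage `n`
  have hev1 : ∀ᶠ n in atTop, ∀ f ∈ G, ∀ g ∈ G, ∀ m : Fin (M + 1),
      norm2 (φ n (star (g (tp M m)) * star (f (tp M m))) -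
        φ n (star (g (tp M m))) * φ n (star (f (tp M m)))) ^ 2 ≤ η := by
    rw [Filter.eventually_all_finset]
    intro f _
    rw [Filter.eventually_all_finset]
    intro g _
    rw [Filter.eventually_all]
    intro m
    have h1 := hmul (star (g (tp M m))) (star (f (tp M m)))
    have h2 : Tendsto (fun n => norm2 (φ n (star (g (tp M m)) * star (f (tp M m))) -
        φ n (star (g (tp M m))) * φ n (star (f (tp M m)))) ^ 2) atTop (𝓝 (0 ^ 2)) := h1.pow 2
    rw [zero_pow two_ne_zero] at h2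
    exact (h2.eventually (gt_mem_nhds hη0)).mono fun n hn => le_of_lt hn
  have hev2 : ∀ᶠ n in atTop, ∀ f ∈ G, ‖ntr (φ n (f 1)) - τ.toFun (f 1)‖ ≤ ε / 2 := by
    rw [Filter.eventually_all_finset]
    intro f _
    have h1 := htr (f 1)
    rw [tendsto_iff_norm_sub_tendsto_zero] at h1
    exact (h1.eventually (gt_mem_nhds (half_pos hε))).mono fun n hn => le_of_lt hn
  obtain ⟨n, hn1, hn2⟩ := (hev1.and hev2).exists
  obtain ⟨Φ, hΦ, hΦ1, hΦm, hΦt⟩ := cone_core (φ n) (hφ n) (hφ1 n) G hG K hK hGK M hM0 ω hω0.le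
    (fun f hf s t hst => hdG f hf s t (hst.trans hMd)) L hL0 e₀ hLe δ η hδ0 hn1
  refine ⟨k n, Φ, hk n, hΦ, hΦ1, fun f hf g hg => (hΦm f hf g hg).trans (le_of_eq ?_),
    fun f hf => ?_⟩
  · rw [hωdef, he₀, hδdef]
    field_simp
    ring
  · have h1 := hΦt f hf
    have h2 := hn2 f hf
    have h3 : ((M : ℝ) + 2) * K * ((1 + nT) ^ L * (nX * η / δ ^ 2)) ≤ ε / 2 := by
      have h4 : ((M : ℝ) + 2) * K * ((1 + nT) ^ L * (nX * η / δ ^ 2)) =
          ε / 2 * (nX / (nX + 1)) := by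
        rw [hηdef]
        field_simp
      rw [h4]
      have h5 : nX / (nX + 1) ≤ 1 := by
        rw [div_le_one (by linarith)]
        linarith
      nlinarith
    calc ‖ntr (Φ f) - τ.toFun (f 1)‖ =
        ‖(ntr (Φ f) - ntr (φ n (f 1))) + (ntr (φ n (f 1)) - τ.toFun (f 1))‖ := by
          rw [sub_add_sub_cancel]
      _ ≤ ‖ntr (Φ f) - ntr (φ n (f 1))‖ + ‖ntr (φ n (f 1)) - τ.toFun (f 1)‖ := norm_add_le _ _
      _ ≤ ε / 2 + ε / 2 := add_le_add (h1.trans h3) h2
      _ = ε := by ring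

end QT
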