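import Mathlib
import Pool.Agent.Helper58.QT.Defs

/-!
# QT-05 SepD: `D(A)` is separable if `A` is
`M_2(A)` is separable (`uniformEmbedding_ofMatrix` / homeomorphic to `Fin 2 → Fin 2 → A`), `C([0,1], M_2(A))` is
separable (Mathlib has second countability of `C(X, Y)` for compact (locally compact second countable) `X` and second
countable `Y`), and subspaces of separable metric spaces are separable.
-/

open scoped Matrix Kronecker ComplexOrder Matrix.Norms.L2Operator
open Filter Topology

namespace QT

universe u


private theorem m2_second (A : Type u) [CStarAlgebra A] [PartialOrder A] [StarOrderedRing A]
    [TopologicalSpace.SeparableSpace A] : SecondCountableTopology (M2 A) := by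
  have : SecondCountableTopology A := UniformSpace.secondCountable_of_separable A
  exact inferInstanceAs (SecondCountableTopology (Fin 2 → Fin 2 → A))

theorem sepD (A : Type u) [CStarAlgebra A] [PartialOrder A] [StarOrderedRing A]
    [TopologicalSpace.SeparableSpace A] : TopologicalSpace.SeparableSpace (D A) := by
  have := m2_second A
  have : SecondCountableTopology C(unitInterval, M2 A) := inferInstance
  have : SecondCountableTopology (D A) :=
    inferInstanceAs (SecondCountableTopology ((D A : Set C(unitInterval, M2 A)) : Type _))
  infer_instance

end QT
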