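import Mathlib
import Pool.Agent.Helper58.QT.Defs
import Pool.Agent.Helper58.QT.CPBasics
import Pool.Agent.Helper58.QT.MatBasics
import Pool.Agent.Helper58.QT.AmenM2
import Pool.Agent.Helper58.QT.ConeLocal
import Pool.Agent.Helper58.QT.LocalSeq
import Pool.Agent.Helper58.QT.SepD

/-!
# QT-25 MixQD: the average of the two traces on `D(A)` is quasidiagonal
`qd_of_local` for `D(A)` (separable by `sepD`). Given `F ⊆ D(A)` finite and `ε`: `cone_local` for `B = M2 A`, `τ₂` from `amen_M2`,
`G = ` image of `F` in `C([0,1], M_2(A))`; restrict `Φ` to `D(A)` (`isCP_comp` with the inclusion, `isCP_hom`). The trace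
`τ₂(f(1)) = (τ(f(1)_00) + τ(f(1)_11))/2` is the value of the mixture.
-/

open scoped Matrix Kronecker ComplexOrder Matrix.Norms.L2Operator
open Filter Topology

namespace QT

universe u


/-- The inclusion of `D(A)` in `C([0,1], M_2(A))`. -/
def inclD (A : Type u) [CStarAlgebra A] [PartialOrder A] [StarOrderedRing A] :
    D A →ₗ[ℂ] C(unitInterval, M2 A) where
  toFun f := f
  map_add' _ _ := rfl
  map_smul' _ _ := rfl

theorem isCP_inclD (A : Type u) [CStarAlgebra A] [PartialOrder A] [StarOrderedRing A] :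
    IsCP (inclD A) := by
  intro m M
  refine ⟨M.map fun f => (f : C(unitInterval, M2 A)), ?_⟩
  ext1 i j
  change (((Mᴴ * M) i j : D A) : C(unitInterval, M2 A)) = _
  rw [Matrix.mul_apply, Matrix.mul_apply, AddSubmonoidClass.coe_finsetSum]
  rfl

theorem mix_qd {A : Type u} [CStarAlgebra A] [PartialOrder A] [StarOrderedRing A]
    [TopologicalSpace.SeparableSpace A] (τ : TracialState A) (h : τ.IsAmenable) :
    ((sig τ 0).mix (sig τ 1) (1 / 2) (by norm_num) (by norm_num)).IsQD := by
  classical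
  have : TopologicalSpace.SeparableSpace (D A) := sepD A
  obtain ⟨τ₂, h₂, hA₂⟩ := amen_M2 τ h
  refine qd_of_local _ fun F ε hε => ?_
  obtain ⟨k, Φ, hk, hcp, h1, hmul, htr⟩ := cone_local τ₂ hA₂
    (F.image fun f : D A => (f : C(unitInterval, M2 A))) (by
      intro f hf
      obtain ⟨g, -, rfl⟩ := Finset.mem_image.1 hf
      exact g.2.1) ε hε
  refine ⟨k, Φ ∘ₗ inclD A, hk, isCP_comp (isCP_inclD A) hcp, ?_, ?_, ?_⟩
  · have e : inclD A 1 = 1 := rfl
    rw [LinearMap.comp_apply, e, h1]
  · intro a ha b hb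
    exact hmul _ (Finset.mem_image_of_mem _ ha) _ (Finset.mem_image_of_mem _ hb)
  · intro a ha
    have h3 := htr _ (Finset.mem_image_of_mem _ ha)
    have e : ((sig τ 0).mix (sig τ 1) (1 / 2) (by norm_num) (by norm_num)).toFun a =
        τ₂.toFun ((a : C(unitInterval, M2 A)) 1) := by
      rw [h₂]
      change ((1 / 2 : ℝ) : ℂ) * τ.toFun ((a : C(unitInterval, M2 A)) 1 0 0) +
        ((1 - 1 / 2 : ℝ) : ℂ) * τ.toFun ((a : C(unitInterval, M2 A)) 1 1 1) = _
      push_cast
      ring
    rw [e]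
    exact h3

end QT
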