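import Mathlib
import Pool.Agent.Helper58.QT.Defs
import Pool.Agent.Helper58.QT.CPBasics
import Pool.Agent.Helper58.QT.MatBasics

/-!
# QT-17 Compress: compression to almost central projections gives a quasidiagonal trace
`ntr(p_j Φ_j 1) → τ 1 = 1` and `‖p_j Φ_j 1 - p_j‖ → 0`, so `ntr p_j → 1`; drop finitely many `j` (shift the index) so that
`p_j ≠ 0`. `m_j = rank p_j > 0`; choose `W_j : Matrix (I j) (Fin m_j)` with `W W ᴴ = p_j`, `Wᴴ W = 1`.
`φ_j(x) = Wᴴ Φ_j(x) W + τ(x) • (1 - Wᴴ Φ_j(1) W)`: CP (`isCP_conj`, `isCP_rankone` with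
`1 - Wᴴ Φ_j(1) W = Wᴴ (1 - Φ_j 1) W ≥ 0`, `isCP_add`), unital. `‖1 - Wᴴ Φ_j(1) W‖ = ‖Wᴴ (p - p Φ_j(1)) W‖ → 0`.
Multiplicative: `Wᴴ Φ(x) W Wᴴ Φ(y) W = Wᴴ Φ(x) p Φ(y) W ≈ Wᴴ p Φ(x) Φ(y) W ≈ Wᴴ Φ(xy) W` (norms of `Φ_j x` are bounded:
`‖Φ_j 1‖ ≤ 1` from `0 ≤ Φ_j 1 ≤ 1`, `isCP_norm_le`). Trace: `tr(Wᴴ Φ(x) W)/m_j = ntr(p Φ(x)) · card(I j)/m_j` and
`m_j / card (I j) = ntr p_j → 1`.
-/

open scoped Matrix Kronecker ComplexOrder Matrix.Norms.L2Operator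
open Filter Topology

namespace QT

universe u


private theorem proj_factor {ι : Type*} [Fintype ι] [DecidableEq ι] (p : Matrix ι ι ℂ)
    (hps : pᴴ = p) (hpp : p * p = p) :
    ∃ (m : ℕ) (W : Matrix ι (Fin m) ℂ), W * Wᴴ = p ∧ Wᴴ * W = 1 := by
  classical
  have hA : p.IsHermitian := hps
  have h1 : star (hA.eigenvectorUnitary : Matrix ι ι ℂ) * (hA.eigenvectorUnitary : Matrix ι ι ℂ) =
    1 := Unitary.coe_star_mul_self _
  have h2 : p = (hA.eigenvectorUnitary : Matrix ι ι ℂ) *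
      Matrix.diagonal (fun i => ((hA.eigenvalues i : ℝ) : ℂ)) *
      star (hA.eigenvectorUnitary : Matrix ι ι ℂ) := by
    have h := hA.spectral_theorem
    rw [Unitary.conjStarAlgAut_apply] at h
    exact h
  set U : Matrix ι ι ℂ := (hA.eigenvectorUnitary : Matrix ι ι ℂ) with hU
  set D : Matrix ι ι ℂ := Matrix.diagonal (fun i => ((hA.eigenvalues i : ℝ) : ℂ)) with hD
  have h3 : star U * p * U = D := by
    rw [h2]
    calc star U * (U * D * star U) * U = (star U * U) * D * (star U * U) := by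
          simp only [Matrix.mul_assoc]
      _ = D := by rw [h1, Matrix.one_mul, Matrix.mul_one]
  have h1' : U * star U = 1 := Unitary.coe_mul_star_self _
  have h4 : D * D = D := by
    calc D * D = star U * p * U * (star U * p * U) := by rw [h3]
      _ = star U * p * (U * star U) * p * U := by simp only [Matrix.mul_assoc]
      _ = star U * (p * p) * U := by rw [h1']; simp only [Matrix.mul_assoc, Matrix.mul_one,
          Matrix.one_mul]
      _ = D := by rw [hpp, h3]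
  have h5 : ∀ i, hA.eigenvalues i = 0 ∨ hA.eigenvalues i = 1 := by
    intro i
    have h := congrFun (congrFun h4 i) i
    rw [hD, Matrix.diagonal_mul_diagonal, Matrix.diagonal_apply_eq, Matrix.diagonal_apply_eq] at h
    have h' : hA.eigenvalues i * hA.eigenvalues i = hA.eigenvalues i := by exact_mod_cast h
    rcases eq_or_ne (hA.eigenvalues i) 0 with h0 | h0
    · exact Or.inl h0
    · exact Or.inr (mul_left_cancel₀ h0 (by rw [h', mul_one]))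
  let e : {i // hA.eigenvalues i = 1} ≃ Fin (Fintype.card {i // hA.eigenvalues i = 1}) :=
    Fintype.equivFin _
  refine ⟨_, Matrix.of fun i l => U i (e.symm l).1, ?_, ?_⟩
  · ext a b
    rw [Matrix.mul_apply]
    simp only [Matrix.of_apply, Matrix.conjTranspose_apply]
    rw [Equiv.sum_comp e.symm (fun l : {i // hA.eigenvalues i = 1} => U a l.1 * star (U b l.1))]
    have h6 : p a b = ∑ i, U a i * ((hA.eigenvalues i : ℝ) : ℂ) * star (U b i) := by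
      have h7 := congrFun (congrFun h2 a) b
      rw [h7, Matrix.mul_apply]
      simp only [hD, Matrix.mul_diagonal, Matrix.star_apply]
    rw [h6]
    rw [← Finset.sum_subtype (Finset.univ.filter fun i => hA.eigenvalues i = 1) (by simp)
      (fun l => U a l * star (U b l)), Finset.sum_filter]
    refine Finset.sum_congr rfl fun i _ => ?_
    rcases h5 i with h | h
    · rw [if_neg (by rw [h]; norm_num), h]
      simp
    · rw [if_pos h, h]
      simp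
  · ext l l'
    have h := congrFun (congrFun h1 (e.symm l).1) (e.symm l').1
    rw [Matrix.mul_apply] at h ⊢
    simp only [Matrix.of_apply, Matrix.conjTranspose_apply]
    simp only [Matrix.star_apply] at h
    rw [h, Matrix.one_apply, Matrix.one_apply]
    congr 1
    rw [Subtype.val_inj, EmbeddingLike.apply_eq_iff_eq]


open scoped MatrixOrder in
private theorem norm_le_one_of {ι : Type*} [Fintype ι] [DecidableEq ι] (x : Matrix ι ι ℂ)
    (h0 : x.PosSemidef) (h1 : (1 - x).PosSemidef) : ‖x‖ ≤ 1 := by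
  rw [CStarAlgebra.norm_le_one_iff_of_nonneg x (Matrix.nonneg_iff_posSemidef.2 h0)]
  exact Matrix.le_iff.2 h1

private theorem norm_one_le' {ι : Type*} [Fintype ι] [DecidableEq ι] :
    ‖(1 : Matrix ι ι ℂ)‖ ≤ 1 := by
  refine norm_le_one_of _ Matrix.PosSemidef.one ?_
  rw [sub_self]
  exact Matrix.PosSemidef.zero

private theorem iso_norm {ι κ : Type*} [Fintype ι] [DecidableEq ι] [Fintype κ] [DecidableEq κ]
    (W : Matrix ι κ ℂ) (h : Wᴴ * W = 1) : ‖W‖ ≤ 1 := by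
  have h1 := Matrix.l2_opNorm_conjTranspose_mul_self W
  rw [h] at h1
  have h2 := norm_one_le' (ι := κ)
  rw [h1] at h2
  nlinarith [norm_nonneg W]

private theorem sandwich {ι κ : Type*} [Fintype ι] [DecidableEq ι] [Fintype κ] [DecidableEq κ]
    (W : Matrix ι κ ℂ) (h : Wᴴ * W = 1) (x : Matrix ι ι ℂ) : ‖Wᴴ * x * W‖ ≤ ‖x‖ := by
  have h1 := iso_norm W h
  have h2 : ‖Wᴴ‖ ≤ 1 := by rw [Matrix.l2_opNorm_conjTranspose]; exact h1
  calc ‖Wᴴ * x * W‖ ≤ ‖Wᴴ * x‖ * ‖W‖ := Matrix.l2_opNorm_mul _ _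
    _ ≤ (‖Wᴴ‖ * ‖x‖) * ‖W‖ := mul_le_mul_of_nonneg_right (Matrix.l2_opNorm_mul _ _) (norm_nonneg _)
    _ ≤ (1 * ‖x‖) * 1 := by
        refine mul_le_mul (mul_le_mul_of_nonneg_right h2 (norm_nonneg _)) h1 (norm_nonneg _) ?_
        rw [one_mul]
        exact norm_nonneg _
    _ = ‖x‖ := by ring

/-- the unital compression -/
private noncomputable def cmap {A : Type u} [CStarAlgebra A] (τ : TracialState A) {ι : Type*}
    [Fintype ι] [DecidableEq ι] (Φ : A →ₗ[ℂ] Matrix ι ι ℂ) {m : ℕ} (W : Matrix ι (Fin m) ℂ) :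
    A →ₗ[ℂ] Matrix (Fin m) (Fin m) ℂ where
  toFun x := Wᴴ * Φ x * W + τ.toFun x • (1 - Wᴴ * Φ 1 * W)
  map_add' x y := by
    rw [map_add, map_add, Matrix.mul_add, Matrix.add_mul, add_smul]
    abel
  map_smul' c x := by
    rw [map_smul, map_smul, Matrix.mul_smul, Matrix.smul_mul, smul_add, smul_eq_mul, mul_smul]
    rfl

private theorem cmap_apply {A : Type u} [CStarAlgebra A] (τ : TracialState A) {ι : Type*}
    [Fintype ι] [DecidableEq ι] (Φ : A →ₗ[ℂ] Matrix ι ι ℂ) {m : ℕ} (W : Matrix ι (Fin m) ℂ) (x : A) :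
    cmap τ Φ W x = Wᴴ * Φ x * W + τ.toFun x • (1 - Wᴴ * Φ 1 * W) := rfl

private theorem cmap_cp {A : Type u} [CStarAlgebra A] (τ : TracialState A) {ι : Type*}
    [Fintype ι] [DecidableEq ι] (Φ : A →ₗ[ℂ] Matrix ι ι ℂ) (hΦ : IsCP Φ)
    (h1 : (1 - Φ 1).PosSemidef) {m : ℕ} (W : Matrix ι (Fin m) ℂ) (hW : Wᴴ * W = 1) :
    IsCP (cmap τ Φ W) := by
  let ψ₁ : A →ₗ[ℂ] Matrix (Fin m) (Fin m) ℂ :=
    { toFun := fun x => Wᴴ * Φ x * W
      map_add' := fun x y => by rw [map_add, Matrix.mul_add, Matrix.add_mul]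
      map_smul' := fun c x => by rw [map_smul, Matrix.mul_smul, Matrix.smul_mul]; rfl }
  let ψ₂ : A →ₗ[ℂ] Matrix (Fin m) (Fin m) ℂ :=
    { toFun := fun x => τ.toFun x • (1 - Wᴴ * Φ 1 * W)
      map_add' := fun x y => by rw [map_add, add_smul]
      map_smul' := fun c x => by rw [map_smul, smul_eq_mul, mul_smul]; rfl }
  have hsum : cmap τ Φ W = ψ₁ + ψ₂ := rfl
  rw [hsum]
  refine isCP_add (isCP_conj hΦ W ψ₁ fun a => rfl) (isCP_rankone τ.toFun τ.pos ?_ ψ₂ fun a => rfl)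
  have h2 := h1.conjTranspose_mul_mul_same W
  have h3 : Wᴴ * (1 - Φ 1) * W = 1 - Wᴴ * Φ 1 * W := by
    rw [Matrix.mul_sub, Matrix.sub_mul, Matrix.mul_one, hW]
  rwa [h3] at h2

private theorem cmap_one {A : Type u} [CStarAlgebra A] (τ : TracialState A) {ι : Type*}
    [Fintype ι] [DecidableEq ι] (Φ : A →ₗ[ℂ] Matrix ι ι ℂ) {m : ℕ} (W : Matrix ι (Fin m) ℂ) :
    cmap τ Φ W 1 = 1 := by
  rw [cmap_apply, τ.map_one, one_smul]
  abel

/-- the defect -/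
private theorem defect_le {A : Type u} [CStarAlgebra A] {ι : Type*}
    [Fintype ι] [DecidableEq ι] (Φ : A →ₗ[ℂ] Matrix ι ι ℂ) (p : Matrix ι ι ℂ) {m : ℕ}
    (W : Matrix ι (Fin m) ℂ) (hWp : W * Wᴴ = p) (hW : Wᴴ * W = 1) :
    ‖1 - Wᴴ * Φ 1 * W‖ ≤ ‖p * Φ 1 - p‖ := by
  have h1 : Wᴴ * p = Wᴴ := by rw [← hWp, ← Matrix.mul_assoc, hW, Matrix.one_mul]
  have h2 : 1 - Wᴴ * Φ 1 * W = Wᴴ * (p - p * Φ 1) * W := by
    rw [Matrix.mul_sub, Matrix.sub_mul, h1, hW, ← Matrix.mul_assoc, h1]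
  rw [h2, norm_sub_rev]
  exact sandwich W hW _

private theorem mul_le {A : Type u} [CStarAlgebra A] {ι : Type*}
    [Fintype ι] [DecidableEq ι] (Φ : A →ₗ[ℂ] Matrix ι ι ℂ) (p : Matrix ι ι ℂ) {m : ℕ}
    (W : Matrix ι (Fin m) ℂ) (hWp : W * Wᴴ = p) (hW : Wᴴ * W = 1) (a b : A) :
    ‖Wᴴ * Φ (a * b) * W - Wᴴ * Φ a * W * (Wᴴ * Φ b * W)‖ ≤
      ‖p * (Φ a * Φ b - Φ (a * b))‖ + ‖p * Φ a - Φ a * p‖ * ‖Φ b‖ := by
  have h1 : Wᴴ * p = Wᴴ := by rw [← hWp, ← Matrix.mul_assoc, hW, Matrix.one_mul]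
  have h2 : Wᴴ * Φ (a * b) * W - Wᴴ * Φ a * W * (Wᴴ * Φ b * W) =
      Wᴴ * ((p * Φ a - Φ a * p) * Φ b - p * (Φ a * Φ b - Φ (a * b))) * W := by
    have h3 : Wᴴ * Φ a * W * (Wᴴ * Φ b * W) = Wᴴ * (Φ a * p * Φ b) * W := by
      rw [← hWp]
      simp only [Matrix.mul_assoc]
    have h4 : Wᴴ * Φ (a * b) * W = Wᴴ * (p * Φ (a * b)) * W := by
      rw [← Matrix.mul_assoc, h1]
    rw [h3, h4, ← Matrix.sub_mul, ← Matrix.mul_sub]
    congr 2
    rw [Matrix.sub_mul, Matrix.mul_sub, Matrix.mul_assoc p (Φ a) (Φ b)]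
    abel
  rw [h2]
  refine (sandwich W hW _).trans ((norm_sub_le _ _).trans ?_)
  rw [add_comm]
  exact add_le_add le_rfl (Matrix.l2_opNorm_mul _ _)

private theorem trace_eq {A : Type u} [CStarAlgebra A] {ι : Type*}
    [Fintype ι] [DecidableEq ι] (Φ : A →ₗ[ℂ] Matrix ι ι ℂ) (p : Matrix ι ι ℂ) {m : ℕ}
    (W : Matrix ι (Fin m) ℂ) (hWp : W * Wᴴ = p) (hW : Wᴴ * W = 1) (x : A) :
    ntr (Wᴴ * Φ x * W) = ntr (p * Φ x) / ntr p := by
  have h1 : (Wᴴ * Φ x * W).trace = (p * Φ x).trace := by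
    rw [Matrix.mul_assoc, Matrix.trace_mul_comm, Matrix.mul_assoc, hWp, Matrix.trace_mul_comm]
  have h2 : p.trace = m := by
    rw [← hWp, Matrix.trace_mul_comm, hW, Matrix.trace_one, Fintype.card_fin]
  unfold ntr
  rw [h1, h2, Fintype.card_fin]
  by_cases hι : Nonempty ι
  · have h3 : (Fintype.card ι : ℂ) ≠ 0 := by exact_mod_cast Fintype.card_ne_zero
    rw [div_div_div_cancel_right₀ h3]
  · rw [not_nonempty_iff] at hι
    have h4 : (p * Φ x).trace = 0 := by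
      simp [Matrix.trace]
    rw [h4]
    simp

theorem compress {A : Type u} [CStarAlgebra A] (τ : TracialState A) (I : ℕ → Type)
    [∀ j, Fintype (I j)] [∀ j, DecidableEq (I j)]
    (Φ : ∀ j, A →ₗ[ℂ] Matrix (I j) (I j) ℂ) (hcp : ∀ j, IsCP (Φ j))
    (hone : ∀ j, (1 - Φ j 1).PosSemidef) (p : ∀ j, Matrix (I j) (I j) ℂ)
    (hps : ∀ j, (p j)ᴴ = p j) (hpp : ∀ j, p j * p j = p j)
    (hcomm : ∀ x, Tendsto (fun j => ‖p j * Φ j x - Φ j x * p j‖) atTop (𝓝 0))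
    (hmul : ∀ x y, Tendsto (fun j => ‖p j * (Φ j x * Φ j y - Φ j (x * y))‖) atTop (𝓝 0))
    (hunit : Tendsto (fun j => ‖p j * Φ j 1 - p j‖) atTop (𝓝 0))
    (htr : ∀ x, Tendsto (fun j => ntr (p j * Φ j x)) atTop (𝓝 (τ.toFun x))) : τ.IsQD := by
  choose m W hWp hW using fun j => proj_factor (p j) (hps j) (hpp j)
  have hΦ1 : ∀ j, ‖Φ j 1‖ ≤ 1 := by
    intro j
    refine norm_le_one_of _ ?_ (hone j)
    have := isCP_posSemidef (hcp j) 1
    rwa [star_one, one_mul] at this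
  have hΦn : ∀ j x, ‖Φ j x‖ ≤ ‖x‖ := by
    intro j x
    refine (isCP_norm_le (hcp j) x).trans ?_
    calc ‖Φ j 1‖ * ‖x‖ ≤ 1 * ‖x‖ := mul_le_mul_of_nonneg_right (hΦ1 j) (norm_nonneg _)
      _ = ‖x‖ := one_mul _
  have hSn : ∀ j x, ‖(W j)ᴴ * Φ j x * W j‖ ≤ ‖x‖ := fun j x =>
    (sandwich (W j) (hW j) _).trans (hΦn j x)
  have hdef : Tendsto (fun j => ‖1 - (W j)ᴴ * Φ j 1 * W j‖) atTop (𝓝 0) :=
    squeeze_zero (fun j => norm_nonneg _) (fun j => defect_le (Φ j) (p j) (W j) (hWp j) (hW j))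
      hunit
  have hdefn : Tendsto (fun j => ntr (1 - (W j)ᴴ * Φ j 1 * W j)) atTop (𝓝 0) :=
    squeeze_zero_norm (fun j => ntr_norm_le _) hdef
  -- the trace of `p`
  have hp1 : Tendsto (fun j => ntr (p j)) atTop (𝓝 1) := by
    have h1 : Tendsto (fun j => ntr (p j * Φ j 1 - p j)) atTop (𝓝 0) :=
      squeeze_zero_norm (fun j => ntr_norm_le _) hunit
    have h2 := (htr 1).sub h1
    rw [τ.map_one, sub_zero] at h2
    refine h2.congr fun j => ?_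
    rw [ntr_sub]
    ring
  have hne : ∀ᶠ j in atTop, ntr (p j) ≠ 0 := hp1.eventually_ne one_ne_zero
  obtain ⟨j0, hj0⟩ := eventually_atTop.1 hne
  have hm : ∀ j, j0 ≤ j → 0 < m j := by
    intro j hj
    refine Nat.pos_of_ne_zero fun h0 => hj0 j hj ?_
    have h2 : (p j).trace = m j := by
      rw [← hWp, Matrix.trace_mul_comm, hW, Matrix.trace_one, Fintype.card_fin]
    unfold ntr
    rw [h2, h0]
    simp
  have hmult : ∀ a b, Tendsto (fun j => ‖cmap τ (Φ j) (W j) (a * b) -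
      cmap τ (Φ j) (W j) a * cmap τ (Φ j) (W j) b‖) atTop (𝓝 0) := by
    intro a b
    have hb : ∀ j, ‖cmap τ (Φ j) (W j) (a * b) -
        cmap τ (Φ j) (W j) a * cmap τ (Φ j) (W j) b‖ ≤
        ‖p j * (Φ j a * Φ j b - Φ j (a * b))‖ + ‖p j * Φ j a - Φ j a * p j‖ * ‖b‖ +
        (‖τ.toFun (a * b)‖ + ‖a‖ * ‖τ.toFun b‖ + ‖τ.toFun a‖ * ‖b‖) *
          ‖1 - (W j)ᴴ * Φ j 1 * W j‖ +
        ‖τ.toFun a‖ * ‖τ.toFun b‖ *
          (‖1 - (W j)ᴴ * Φ j 1 * W j‖ * ‖1 - (W j)ᴴ * Φ j 1 * W j‖) := by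
      intro j
      set e : Matrix (Fin (m j)) (Fin (m j)) ℂ := 1 - (W j)ᴴ * Φ j 1 * W j with he
      have hexp : cmap τ (Φ j) (W j) (a * b) -
          cmap τ (Φ j) (W j) a * cmap τ (Φ j) (W j) b =
          ((W j)ᴴ * Φ j (a * b) * W j - (W j)ᴴ * Φ j a * W j * ((W j)ᴴ * Φ j b * W j)) +
          τ.toFun (a * b) • e - τ.toFun b • ((W j)ᴴ * Φ j a * W j * e) -
          τ.toFun a • (e * ((W j)ᴴ * Φ j b * W j)) -
          (τ.toFun a * τ.toFun b) • (e * e) := by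
        rw [cmap_apply, cmap_apply, cmap_apply, ← he]
        rw [Matrix.add_mul, Matrix.mul_add, Matrix.mul_add, Matrix.mul_smul, Matrix.smul_mul,
          Matrix.smul_mul, Matrix.mul_smul, smul_smul]
        abel
      rw [hexp]
      have n1 : ‖τ.toFun (a * b) • e‖ ≤ ‖τ.toFun (a * b)‖ * ‖e‖ := norm_smul_le _ _
      have n2 : ‖τ.toFun b • ((W j)ᴴ * Φ j a * W j * e)‖ ≤ ‖a‖ * ‖τ.toFun b‖ * ‖e‖ := by
        refine (norm_smul_le _ _).trans ?_
        calc ‖τ.toFun b‖ * ‖(W j)ᴴ * Φ j a * W j * e‖ ≤ ‖τ.toFun b‖ * (‖a‖ * ‖e‖) :=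
              mul_le_mul_of_nonneg_left ((Matrix.l2_opNorm_mul _ _).trans
                (mul_le_mul_of_nonneg_right (hSn j a) (norm_nonneg _))) (norm_nonneg _)
          _ = ‖a‖ * ‖τ.toFun b‖ * ‖e‖ := by ring
      have n3 : ‖τ.toFun a • (e * ((W j)ᴴ * Φ j b * W j))‖ ≤ ‖τ.toFun a‖ * ‖b‖ * ‖e‖ := by
        refine (norm_smul_le _ _).trans ?_
        calc ‖τ.toFun a‖ * ‖e * ((W j)ᴴ * Φ j b * W j)‖ ≤ ‖τ.toFun a‖ * (‖e‖ * ‖b‖) :=
              mul_le_mul_of_nonneg_left ((Matrix.l2_opNorm_mul _ _).trans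
                (mul_le_mul_of_nonneg_left (hSn j b) (norm_nonneg _))) (norm_nonneg _)
          _ = ‖τ.toFun a‖ * ‖b‖ * ‖e‖ := by ring
      have n4 : ‖(τ.toFun a * τ.toFun b) • (e * e)‖ ≤
          ‖τ.toFun a‖ * ‖τ.toFun b‖ * (‖e‖ * ‖e‖) := by
        refine (norm_smul_le _ _).trans ?_
        rw [norm_mul]
        exact mul_le_mul_of_nonneg_left (Matrix.l2_opNorm_mul _ _) (by positivity)
      have n5 := mul_le (Φ j) (p j) (W j) (hWp j) (hW j) a b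
      have n6 : ‖p j * Φ j a - Φ j a * p j‖ * ‖Φ j b‖ ≤ ‖p j * Φ j a - Φ j a * p j‖ * ‖b‖ :=
        mul_le_mul_of_nonneg_left (hΦn j b) (norm_nonneg _)
      have t1 := norm_sub_le (((W j)ᴴ * Φ j (a * b) * W j -
          (W j)ᴴ * Φ j a * W j * ((W j)ᴴ * Φ j b * W j)) +
          τ.toFun (a * b) • e - τ.toFun b • ((W j)ᴴ * Φ j a * W j * e) -
          τ.toFun a • (e * ((W j)ᴴ * Φ j b * W j))) ((τ.toFun a * τ.toFun b) • (e * e))
      have t2 := norm_sub_le (((W j)ᴴ * Φ j (a * b) * W j -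
          (W j)ᴴ * Φ j a * W j * ((W j)ᴴ * Φ j b * W j)) +
          τ.toFun (a * b) • e - τ.toFun b • ((W j)ᴴ * Φ j a * W j * e))
          (τ.toFun a • (e * ((W j)ᴴ * Φ j b * W j)))
      have t3 := norm_sub_le (((W j)ᴴ * Φ j (a * b) * W j -
          (W j)ᴴ * Φ j a * W j * ((W j)ᴴ * Φ j b * W j)) +
          τ.toFun (a * b) • e) (τ.toFun b • ((W j)ᴴ * Φ j a * W j * e))
      have t4 := norm_add_le ((W j)ᴴ * Φ j (a * b) * W j -
          (W j)ᴴ * Φ j a * W j * ((W j)ᴴ * Φ j b * W j)) (τ.toFun (a * b) • e)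
      linarith
    refine squeeze_zero (fun j => norm_nonneg _) hb ?_
    have l1 := ((hmul a b).add ((hcomm a).mul_const ‖b‖)).add
      (hdef.const_mul (‖τ.toFun (a * b)‖ + ‖a‖ * ‖τ.toFun b‖ + ‖τ.toFun a‖ * ‖b‖))
    have l2 := l1.add ((hdef.mul hdef).const_mul (‖τ.toFun a‖ * ‖τ.toFun b‖))
    simpa using l2
  have htrace : ∀ x, Tendsto (fun j => ntr (cmap τ (Φ j) (W j) x)) atTop (𝓝 (τ.toFun x)) := by
    intro x
    have h1 : Tendsto (fun j => ntr (p j * Φ j x) / ntr (p j)) atTop (𝓝 (τ.toFun x / 1)) :=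
      (htr x).div hp1 one_ne_zero
    have h2 := h1.add (hdefn.const_mul (τ.toFun x))
    rw [div_one, mul_zero, add_zero] at h2
    refine h2.congr fun j => ?_
    rw [cmap_apply, ntr_add, ntr_smul, trace_eq (Φ j) (p j) (W j) (hWp j) (hW j) x]
  refine ⟨fun n => m (n + j0), fun n => cmap τ (Φ (n + j0)) (W (n + j0)),
    fun n => hm _ (Nat.le_add_left _ _), fun n => cmap_cp τ _ (hcp _) (hone _) _ (hW _),
    fun n => cmap_one τ _ _, fun a b => ?_, fun a => ?_⟩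
  · exact (tendsto_add_atTop_iff_nat (f := fun j => ‖cmap τ (Φ j) (W j) (a * b) -
      cmap τ (Φ j) (W j) a * cmap τ (Φ j) (W j) b‖) j0).2 (hmult a b)
  · exact (tendsto_add_atTop_iff_nat (f := fun j => ntr (cmap τ (Φ j) (W j) a)) j0).2 (htrace a)

end QT
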