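import Mathlib
import Pool.Agent.Helper58.QT.Defs
import Pool.Agent.Helper58.QT.Fn

/-!
# QT-01 FnRel: relations between the functions (elementary)
All are pointwise: `Subtype.ext (ContinuousMap.ext fun t => ...)`, with `0 <= t <= 1`; split at
`t = 1/8, 1/4, 1/2, 3/4` (max/min by `le_total`). For `kaF * kaF + chF * chF = kaF` use
`Real.mul_self_sqrt` with `0 <= s (1 - s)` for `s = max 0 (min 1 _)` in `[0,1]`.
-/

open scoped Matrix Kronecker ComplexOrder Matrix.Norms.L2Operator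
open Filter Topology

namespace QT

universe u


private theorem th1 {t : ℝ} (h : 1 / 8 ≤ t) : min 1 (8 * t) = 1 := min_eq_left (by linarith)

private theorem ka0 {t : ℝ} (h : t ≤ 1 / 4) : max 0 (min 1 (4 * t - 1)) = 0 :=
  max_eq_left ((min_le_right _ _).trans (by linarith))

private theorem ka1 {t : ℝ} (h : 1 / 2 ≤ t) : max 0 (min 1 (4 * t - 1)) = 1 := by
  rw [min_eq_left (by linarith)]
  exact max_eq_right zero_le_one

private theorem k10 {t : ℝ} (h : t ≤ 1 / 8) : max 0 (min 1 (8 * t - 1)) = 0 :=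
  max_eq_left ((min_le_right _ _).trans (by linarith))

private theorem k11 {t : ℝ} (h : 1 / 4 ≤ t) : max 0 (min 1 (8 * t - 1)) = 1 := by
  rw [min_eq_left (by linarith)]
  exact max_eq_right zero_le_one

private theorem rh0 {t : ℝ} (h : t ≤ 3 / 4) : max 0 (4 * t - 3) = 0 := max_eq_left (by linarith)

theorem fn_sqth : sqthF * sqthF = thF := by
  refine Subtype.ext (ContinuousMap.ext fun t => ?_)
  change Real.sqrt (min 1 (8 * (t : ℝ))) * Real.sqrt (min 1 (8 * (t : ℝ))) = min 1 (8 * (t : ℝ))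
  have h0 := t.2.1
  exact Real.mul_self_sqrt (le_min zero_le_one (by linarith))

theorem fn_th_ka : thF * kaF = kaF := by
  refine Subtype.ext (ContinuousMap.ext fun t => ?_)
  change min 1 (8 * (t : ℝ)) * max 0 (min 1 (4 * (t : ℝ) - 1)) = max 0 (min 1 (4 * (t : ℝ) - 1))
  rcases le_total (t : ℝ) (1 / 4) with h | h
  · rw [ka0 h, mul_zero]
  · rw [th1 (by linarith), one_mul]

theorem fn_th_k1 : thF * k1F = k1F := by
  refine Subtype.ext (ContinuousMap.ext fun t => ?_)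
  change min 1 (8 * (t : ℝ)) * max 0 (min 1 (8 * (t : ℝ) - 1)) = max 0 (min 1 (8 * (t : ℝ) - 1))
  rcases le_total (t : ℝ) (1 / 8) with h | h
  · rw [k10 h, mul_zero]
  · rw [th1 h, one_mul]

theorem fn_k1_ka : k1F * kaF = kaF := by
  refine Subtype.ext (ContinuousMap.ext fun t => ?_)
  change max 0 (min 1 (8 * (t : ℝ) - 1)) * max 0 (min 1 (4 * (t : ℝ) - 1)) =
    max 0 (min 1 (4 * (t : ℝ) - 1))
  rcases le_total (t : ℝ) (1 / 4) with h | h
  · rw [ka0 h, mul_zero]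
  · rw [k11 h, one_mul]

private theorem ch0 {t : ℝ} (h : t ≤ 1 / 4) :
    Real.sqrt (max 0 (min 1 (4 * t - 1)) * (1 - max 0 (min 1 (4 * t - 1)))) = 0 := by
  rw [ka0 h, zero_mul, Real.sqrt_zero]

private theorem ch1 {t : ℝ} (h : 1 / 2 ≤ t) :
    Real.sqrt (max 0 (min 1 (4 * t - 1)) * (1 - max 0 (min 1 (4 * t - 1)))) = 0 := by
  rw [ka1 h, sub_self, mul_zero, Real.sqrt_zero]

theorem fn_k1_ch : k1F * chF = chF := by
  refine Subtype.ext (ContinuousMap.ext fun t => ?_)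
  change max 0 (min 1 (8 * (t : ℝ) - 1)) *
    Real.sqrt (max 0 (min 1 (4 * (t : ℝ) - 1)) * (1 - max 0 (min 1 (4 * (t : ℝ) - 1)))) =
    Real.sqrt (max 0 (min 1 (4 * (t : ℝ) - 1)) * (1 - max 0 (min 1 (4 * (t : ℝ) - 1))))
  rcases le_total (t : ℝ) (1 / 4) with h | h
  · rw [ch0 h, mul_zero]
  · rw [k11 h, one_mul]

theorem fn_th_ch : thF * chF = chF := by
  refine Subtype.ext (ContinuousMap.ext fun t => ?_)
  change min 1 (8 * (t : ℝ)) *
    Real.sqrt (max 0 (min 1 (4 * (t : ℝ) - 1)) * (1 - max 0 (min 1 (4 * (t : ℝ) - 1)))) =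
    Real.sqrt (max 0 (min 1 (4 * (t : ℝ) - 1)) * (1 - max 0 (min 1 (4 * (t : ℝ) - 1))))
  rcases le_total (t : ℝ) (1 / 4) with h | h
  · rw [ch0 h, mul_zero]
  · rw [th1 (by linarith), one_mul]

theorem fn_th_rh : thF * rhF = rhF := by
  refine Subtype.ext (ContinuousMap.ext fun t => ?_)
  change min 1 (8 * (t : ℝ)) * max 0 (4 * (t : ℝ) - 3) = max 0 (4 * (t : ℝ) - 3)
  rcases le_total (t : ℝ) (3 / 4) with h | h
  · rw [rh0 h, mul_zero]
  · rw [th1 (by linarith), one_mul]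

theorem fn_ka_rh : kaF * rhF = rhF := by
  refine Subtype.ext (ContinuousMap.ext fun t => ?_)
  change max 0 (min 1 (4 * (t : ℝ) - 1)) * max 0 (4 * (t : ℝ) - 3) = max 0 (4 * (t : ℝ) - 3)
  rcases le_total (t : ℝ) (3 / 4) with h | h
  · rw [rh0 h, mul_zero]
  · rw [ka1 (by linarith), one_mul]

theorem fn_ch_rh : chF * rhF = 0 := by
  refine Subtype.ext (ContinuousMap.ext fun t => ?_)
  change Real.sqrt (max 0 (min 1 (4 * (t : ℝ) - 1)) * (1 - max 0 (min 1 (4 * (t : ℝ) - 1)))) *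
    max 0 (4 * (t : ℝ) - 3) = 0
  rcases le_total (t : ℝ) (3 / 4) with h | h
  · rw [rh0 h, mul_zero]
  · rw [ch1 (by linarith), zero_mul]

theorem fn_ka_ch : kaF * kaF + chF * chF = kaF := by
  refine Subtype.ext (ContinuousMap.ext fun t => ?_)
  change max 0 (min 1 (4 * (t : ℝ) - 1)) * max 0 (min 1 (4 * (t : ℝ) - 1)) +
    Real.sqrt (max 0 (min 1 (4 * (t : ℝ) - 1)) * (1 - max 0 (min 1 (4 * (t : ℝ) - 1)))) *
    Real.sqrt (max 0 (min 1 (4 * (t : ℝ) - 1)) * (1 - max 0 (min 1 (4 * (t : ℝ) - 1)))) =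
    max 0 (min 1 (4 * (t : ℝ) - 1))
  have h0 : 0 ≤ max 0 (min 1 (4 * (t : ℝ) - 1)) := le_max_left _ _
  have h1 : max 0 (min 1 (4 * (t : ℝ) - 1)) ≤ 1 := max_le zero_le_one (min_le_left _ _)
  rw [Real.mul_self_sqrt (mul_nonneg h0 (by linarith))]
  ring

theorem fn_ch_zero (t : unitInterval) (ht : (3 / 4 : ℝ) ≤ t) :
    (chF : C(unitInterval, ℝ)) t = 0 := by
  change Real.sqrt (max 0 (min 1 (4 * (t : ℝ) - 1)) * (1 - max 0 (min 1 (4 * (t : ℝ) - 1)))) = 0
  exact ch1 (by linarith)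

theorem fn_one : ((thF : C(unitInterval, ℝ)) 1 = 1) ∧ ((kaF : C(unitInterval, ℝ)) 1 = 1) ∧
    ((rhF : C(unitInterval, ℝ)) 1 = 1) := by
  refine ⟨?_, ?_, ?_⟩
  · change min 1 (8 * ((1 : unitInterval) : ℝ)) = 1
    exact th1 (by norm_num)
  · change max 0 (min 1 (4 * ((1 : unitInterval) : ℝ) - 1)) = 1
    exact ka1 (by norm_num)
  · change max 0 (4 * ((1 : unitInterval) : ℝ) - 3) = 1
    norm_num

end QT
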