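import Mathlib
import Pool.Agent.Helper58.QT.Defs
import Pool.Agent.Helper58.QT.Fn
import Pool.Agent.Helper58.QT.FnRel

/-!
# QT-07 ProjAlg: the projection that closes the open end (pure *-algebra, no analysis)
Write `a_f = E.al f`, `b_f = E.be f`, `th, ka, k1, ch` for the functions, `W = V`. Facts used: `a_f 0 = 0`,
`a_{f} = a_g` if `f = g`, `a_0 x = 0` and `a_{f-g} x = a_f x - a_g x` (from `al_add`), `a_ch x = b_ch x`
(`al_eq_be`, `fn_ch_zero`), all relations of FnRel. `(th - th²) ka = 0`, `(th - th²) k1 = 0`, `(th - th²) ch = 0`.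
(0) `star V * V = star V * a_th 1 * V = b_th 1` (w1, h1). Stars of w1..w4: `star V * a_th 1 = star V`,
    `star V * a_ka 1 = star V`, `star V * a_ch 1 = 0`, `star V * a_{th-th²} x = 0`.
(1) `p * p = p`: with `P = a_ka 1`, `Q = V b_ka 1 V*`, `X = V a_ch 1`: `P P = a_{ka²} 1`, `P Q = Q P = Q`,
    `Q Q = V b_ka b_th b_ka V* = V b_{ka²} 1 V*`, `P X = X`, `X P = V a_{ch ka}`, `X* P = X*`, `P X* = a_{ka ch} V*`,
    `Q X = V b_ka b_th a_ch = V a_{ka ch}`, `X Q = 0`, `Q X* = 0`, `X* Q = a_{ch ka} V*`, `X X = 0`, `X* X* = 0`,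
    `X X* = V b_{ch²} V*`, `X* X = a_ch b_th a_ch = a_{ch²}`. Sum: `a_{ka²+ch²} + V b_{ka²+ch²} V* - 2 Q + X + X* = p`
    by `fn_ka_ch`.
(2) CLAIM `a_th x * V * b_k1 1 = V * b_k1 x`. Put `Y = ` difference; `star Y * Y = b_{k1²}(x* x) (1 - 1 - 1 + 1) = 0`: use
    `a_th(x*) a_th(x) = a_{th²}(x* x) = a_th(x* x) - a_{th-th²}(x* x)`, w4, h1 and `th k1 = k1`. So `Y = 0` by `hprop`.
(3) commutation: `a_th x Q = a_th x V b_k1 1 b_ka 1 V* = V b_ka x V*`; `Q a_th x = star (a_th (x*) Q) = V b_ka x V*`;
    `a_th x X = a_th x V b_k1 1 b_ch 1 = V b_ch x = V a_ch x = X a_th x`; `P` commutes; `X*` by taking stars.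
(4) `p (a_th x a_th y - a_th (x y)) = - p a_{th-th²}(x y) = 0`: `P a_{th-th²} = a_0 = 0`, `Q`: `V* a_{th-th²} = 0`,
    `X a_{th-th²} = V a_{ch (th-th²)} = 0`, `X*`: `V* a_{th-th²} = 0`.
(5) `p a_th 1 = p`: `ka th = ka`, `V* a_th 1 = V*`, `ch th = ch`.
-/

open scoped Matrix Kronecker ComplexOrder Matrix.Norms.L2Operator
open Filter Topology

namespace QT

universe u


theorem proj_algebra {A Q : Type*} [Ring A] [StarRing A] [Algebra ℂ A] [Ring Q] [StarRing Q]
    [Algebra ℂ Q] (E : Ends A Q) (hprop : ∀ y : Q, star y * y = 0 → y = 0) (V : Q)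
    (h1 : ∀ x, star V * E.al thF x * V = E.be thF x)
    (w1 : E.al thF 1 * V = V) (w2 : E.al kaF 1 * V = V) (w3 : E.al chF 1 * V = 0)
    (w4 : ∀ x, E.al (thF - thF * thF) x * V = 0) (p : Q)
    (hp : p = E.al kaF 1 - V * E.be kaF 1 * star V + V * E.al chF 1 + E.al chF 1 * star V) :
    star p = p ∧ p * p = p ∧ (∀ x, p * E.al thF x = E.al thF x * p) ∧
      (∀ x y, p * (E.al thF x * E.al thF y - E.al thF (x * y)) = 0) ∧ p * E.al thF 1 = p := by
  have al_zero : ∀ x, E.al 0 x = 0 := by
    intro x
    have h := E.al_add 0 0 x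
    rw [add_zero] at h
    exact left_eq_add.1 h
  have al_sub : ∀ f g x, E.al (f - g) x = E.al f x - E.al g x := by
    intro f g x
    have h := E.al_add (f - g) g x
    rw [sub_add_cancel] at h
    rw [h, add_sub_cancel_right]
  have kath : kaF * thF = kaF := by rw [mul_comm, fn_th_ka]
  have chth : chF * thF = chF := by rw [mul_comm, fn_th_ch]
  have k1th : k1F * thF = k1F := by rw [mul_comm, fn_th_k1]
  have chbe : ∀ x, E.al chF x = E.be chF x := fun x => E.al_eq_be chF fn_ch_zero x
  have chkabe : ∀ x, E.al (chF * kaF) x = E.be (chF * kaF) x := by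
    refine fun x => E.al_eq_be _ (fun t ht => ?_) x
    have : ((chF * kaF : Fn) : C(unitInterval, ℝ)) t =
        (chF : C(unitInterval, ℝ)) t * (kaF : C(unitInterval, ℝ)) t := rfl
    rw [this, fn_ch_zero t ht, zero_mul]
  -- stars
  have s1 : star V * E.al thF 1 = star V := by
    have h := congrArg star w1
    rwa [star_mul, E.al_star, star_one] at h
  have s2 : star V * E.al kaF 1 = star V := by
    have h := congrArg star w2
    rwa [star_mul, E.al_star, star_one] at h
  have s3 : star V * E.al chF 1 = 0 := by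
    have h := congrArg star w3
    rwa [star_mul, E.al_star, star_one, star_zero] at h
  have s4 : ∀ x, star V * E.al (thF - thF * thF) x = 0 := by
    intro x
    have h := congrArg star (w4 (star x))
    rwa [star_mul, E.al_star, star_star, star_zero] at h
  have hVV : star V * V = E.be thF 1 := by
    rw [← h1 1, s1]
  -- abbreviations
  set P : Q := E.al kaF 1 with hP
  set c : Q := E.al chF 1 with hc
  set k : Q := E.be kaF 1 with hk
  set t : Q := E.be thF 1 with ht
  set W : Q := star V with hW
  have hcb : c = E.be chF 1 := chbe 1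
  have hWs : star W = V := by rw [hW, star_star]
  have hVs : star V = W := hW.symm
  have hks : star k = k := by rw [hk, E.be_star, star_one]
  have hcs : star c = c := by rw [hc, E.al_star, star_one]
  have tk : t * k = k := by rw [ht, hk, E.be_mul, fn_th_ka, mul_one]
  have tc : t * c = c := by rw [ht, hcb, E.be_mul, fn_th_ch, mul_one]
  have PP : P * P = P - c * c := by
    rw [eq_sub_iff_add_eq, hP, hc, E.al_mul, E.al_mul, ← E.al_add, fn_ka_ch, mul_one]
  have kk : k * k = k - c * c := by
    rw [eq_sub_iff_add_eq, hk, hcb, E.be_mul, E.be_mul, ← E.be_add, fn_ka_ch, mul_one]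
  have ck : c * k = k * c := by
    rw [hcb, hk, E.be_mul, E.be_mul, mul_comm chF kaF]
  have cP : c * P = k * c := by
    calc c * P = E.al (chF * kaF) (1 * 1) := by rw [hc, hP, E.al_mul]
      _ = E.be (chF * kaF) (1 * 1) := chkabe _
      _ = c * k := by rw [hcb, hk, E.be_mul]
      _ = k * c := ck
  have Pc : P * c = k * c := by
    rw [← cP, hc, hP, E.al_mul, E.al_mul, mul_comm chF kaF]
  have hstar : star p = p := by
    rw [hp, star_add, star_add, star_sub, star_mul, star_mul, star_mul, star_mul, hW, star_star,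
      ← hW, hP, hk, hc, E.al_star, E.be_star, E.al_star, star_one, ← mul_assoc]
    abel
  have e1 : P * (V * k * W) = V * k * W := by rw [← mul_assoc, ← mul_assoc, w2]
  have e2 : V * k * W * P = V * k * W := by rw [mul_assoc, s2]
  have e3 : P * (V * c) = V * c := by rw [← mul_assoc, w2]
  have e4 : V * c * P = V * (k * c) := by rw [mul_assoc, cP]
  have e5 : P * (c * W) = k * c * W := by rw [← mul_assoc, Pc]
  have e6 : c * W * P = c * W := by rw [mul_assoc, s2]
  have e7 : V * k * W * (V * k * W) = V * k * W - V * (c * c) * W := by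
    have : V * k * W * (V * k * W) = V * (k * ((W * V) * k)) * W := by noncomm_ring
    rw [this, hVV, tk, kk]
    noncomm_ring
  have e8 : V * k * W * (V * c) = V * (k * c) := by
    have : V * k * W * (V * c) = V * (k * ((W * V) * c)) := by noncomm_ring
    rw [this, hVV, tc]
  have e9 : V * c * (V * k * W) = 0 := by
    have : V * c * (V * k * W) = V * ((c * V) * (k * W)) := by noncomm_ring
    rw [this, w3, zero_mul, mul_zero]
  have e10 : V * k * W * (c * W) = 0 := by
    have : V * k * W * (c * W) = V * k * ((W * c) * W) := by noncomm_ring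
    rw [this, s3, zero_mul, mul_zero]
  have e11 : c * W * (V * k * W) = k * c * W := by
    have : c * W * (V * k * W) = c * ((W * V) * k) * W := by noncomm_ring
    rw [this, hVV, tk, ck]
  have e12 : V * c * (V * c) = 0 := by
    have : V * c * (V * c) = V * ((c * V) * c) := by noncomm_ring
    rw [this, w3, zero_mul, mul_zero]
  have e13 : c * W * (c * W) = 0 := by
    have : c * W * (c * W) = c * ((W * c) * W) := by noncomm_ring
    rw [this, s3, zero_mul, mul_zero]
  have e14 : V * c * (c * W) = V * (c * c) * W := by noncomm_ring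
  have e15 : c * W * (V * c) = c * c := by
    have : c * W * (V * c) = c * ((W * V) * c) := by noncomm_ring
    rw [this, hVV, tc]
  have hidem : p * p = p := by
    have hx : p * p = P * P - P * (V * k * W) + P * (V * c) + P * (c * W) - V * k * W * P +
        V * k * W * (V * k * W) - V * k * W * (V * c) - V * k * W * (c * W) + V * c * P -
        V * c * (V * k * W) + V * c * (V * c) + V * c * (c * W) + c * W * P -
        c * W * (V * k * W) + c * W * (V * c) + c * W * (c * W) := by
      rw [hp]
      noncomm_ring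
    rw [hx, PP, e1, e2, e3, e4, e5, e6, e7, e8, e9, e10, e11, e12, e13, e14, e15, hp]
    abel
  -- the claim
  have key : ∀ x, E.al thF x * V * E.be k1F 1 = V * E.be k1F x := by
    intro x
    have hth2 : E.al thF (star x) * E.al thF x =
        E.al thF (star x * x) - E.al (thF - thF * thF) (star x * x) := by
      rw [E.al_mul, al_sub]
      abel
    have t1 : E.be k1F 1 * W * (E.al thF (star x) * E.al thF x) * V * E.be k1F 1 =
        E.be (k1F * k1F) (star x * x) := by
      have a1 : W * (E.al thF (star x) * E.al thF x) * V = E.be thF (star x * x) := by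
        rw [hth2, mul_sub, sub_mul, h1, mul_assoc W (E.al (thF - thF * thF) (star x * x)) V, w4,
          mul_zero, sub_zero]
      have a2 : E.be k1F 1 * W * (E.al thF (star x) * E.al thF x) * V * E.be k1F 1 =
          E.be k1F 1 * (W * (E.al thF (star x) * E.al thF x) * V) * E.be k1F 1 := by noncomm_ring
      rw [a2, a1, E.be_mul, E.be_mul, k1th, one_mul, mul_one]
    have t2 : E.be k1F 1 * W * E.al thF (star x) * V * E.be k1F x =
        E.be (k1F * k1F) (star x * x) := by
      have a2 : E.be k1F 1 * W * E.al thF (star x) * V * E.be k1F x =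
          E.be k1F 1 * (W * E.al thF (star x) * V) * E.be k1F x := by noncomm_ring
      rw [a2, h1, E.be_mul, E.be_mul, k1th, one_mul]
    have t3 : E.be k1F (star x) * W * E.al thF x * V * E.be k1F 1 =
        E.be (k1F * k1F) (star x * x) := by
      have a2 : E.be k1F (star x) * W * E.al thF x * V * E.be k1F 1 =
          E.be k1F (star x) * (W * E.al thF x * V) * E.be k1F 1 := by noncomm_ring
      rw [a2, h1, E.be_mul, E.be_mul, k1th, mul_one]
    have t4 : E.be k1F (star x) * W * V * E.be k1F x = E.be (k1F * k1F) (star x * x) := by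
      rw [mul_assoc (E.be k1F (star x)) W V, hVV, ht, E.be_mul, E.be_mul, k1th, mul_one]
    have hy : star (E.al thF x * V * E.be k1F 1 - V * E.be k1F x) *
        (E.al thF x * V * E.be k1F 1 - V * E.be k1F x) = 0 := by
      have a1 : star (E.al thF x * V * E.be k1F 1 - V * E.be k1F x) =
          E.be k1F 1 * W * E.al thF (star x) - E.be k1F (star x) * W := by
        rw [star_sub, star_mul, star_mul, star_mul, E.al_star, E.be_star, E.be_star, star_one, ← hW]
        noncomm_ring
      have a2 : (E.be k1F 1 * W * E.al thF (star x) - E.be k1F (star x) * W) *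
          (E.al thF x * V * E.be k1F 1 - V * E.be k1F x) =
          E.be k1F 1 * W * (E.al thF (star x) * E.al thF x) * V * E.be k1F 1 -
          E.be k1F 1 * W * E.al thF (star x) * V * E.be k1F x -
          E.be k1F (star x) * W * E.al thF x * V * E.be k1F 1 +
          E.be k1F (star x) * W * V * E.be k1F x := by noncomm_ring
      rw [a1, a2, t1, t2, t3, t4]
      abel
    exact sub_eq_zero.1 (hprop _ hy)
  have AQ : ∀ x, E.al thF x * (V * k * W) = V * E.be kaF x * W := by
    intro x
    have a1 : k = E.be k1F 1 * k := by rw [hk, E.be_mul, fn_k1_ka, mul_one]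
    have a2 : E.al thF x * (V * (E.be k1F 1 * k) * W) =
        (E.al thF x * V * E.be k1F 1) * k * W := by noncomm_ring
    rw [a1, a2, key, hk, mul_assoc V, E.be_mul, fn_k1_ka, mul_one]
  have QA : ∀ x, V * k * W * E.al thF x = V * E.be kaF x * W := by
    intro x
    have h := congrArg star (AQ (star x))
    simp only [star_mul, E.al_star, E.be_star, star_star, hWs, hVs, hks] at h
    calc V * k * W * E.al thF x = V * (k * W) * E.al thF x := by noncomm_ring
      _ = V * (E.be kaF x * W) := h
      _ = V * E.be kaF x * W := by noncomm_ring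
  have AX : ∀ x, E.al thF x * (V * c) = V * E.al chF x := by
    intro x
    have a1 : c = E.be k1F 1 * c := by rw [hcb, E.be_mul, fn_k1_ch, mul_one]
    have a2 : E.al thF x * (V * (E.be k1F 1 * c)) = (E.al thF x * V * E.be k1F 1) * c := by
      noncomm_ring
    rw [a1, a2, key, hcb, mul_assoc V, E.be_mul, fn_k1_ch, mul_one, chbe]
  have XA : ∀ x, V * c * E.al thF x = V * E.al chF x := by
    intro x
    rw [mul_assoc, hc, E.al_mul, chth, one_mul]
  have AXs : ∀ x, E.al thF x * (c * W) = E.al chF x * W := by
    intro x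
    rw [← mul_assoc, hc, E.al_mul, fn_th_ch, mul_one]
  have XsA : ∀ x, c * W * E.al thF x = E.al chF x * W := by
    intro x
    have h := congrArg star (AX (star x))
    simp only [star_mul, E.al_star, star_star, hVs, hcs] at h
    exact h
  have PA : ∀ x, P * E.al thF x = E.al kaF x := by
    intro x
    rw [hP, E.al_mul, kath, one_mul]
  have AP : ∀ x, E.al thF x * P = E.al kaF x := by
    intro x
    rw [hP, E.al_mul, fn_th_ka, mul_one]
  have hpD : ∀ z, p * E.al (thF - thF * thF) z = 0 := by
    intro z
    have b1 : P * E.al (thF - thF * thF) z = 0 := by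
      rw [hP, E.al_mul, mul_sub, ← mul_assoc, kath, kath, sub_self, al_zero]
    have b2 : V * k * W * E.al (thF - thF * thF) z = 0 := by
      rw [mul_assoc, s4, mul_zero]
    have b3 : V * c * E.al (thF - thF * thF) z = 0 := by
      rw [mul_assoc, hc, E.al_mul, mul_sub, ← mul_assoc, chth, chth, sub_self, al_zero, mul_zero]
    have b4 : c * W * E.al (thF - thF * thF) z = 0 := by
      rw [mul_assoc, s4, mul_zero]
    rw [hp, add_mul, add_mul, sub_mul, b1, b2, b3, b4]
    simp
  refine ⟨hstar, hidem, fun x => ?_, fun x y => ?_, ?_⟩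
  · rw [hp, add_mul, add_mul, sub_mul, PA, QA, XA, XsA, mul_add, mul_add, mul_sub, AP, AQ, AX, AXs]
  · have h2 : E.al thF x * E.al thF y - E.al thF (x * y) = -E.al (thF - thF * thF) (x * y) := by
      rw [E.al_mul, al_sub]
      abel
    rw [h2, mul_neg, hpD, neg_zero]
  · have b2 : V * k * W * E.al thF 1 = V * k * W := by rw [mul_assoc, s1]
    have b4 : c * W * E.al thF 1 = c * W := by rw [mul_assoc, s1]
    have b3 : V * c * E.al thF 1 = V * c := by
      rw [XA]
    rw [hp, add_mul, add_mul, sub_mul, PA, b2, b3, b4]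

end QT
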