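import Mathlib
import Pool.Agent.Helper58.QT.Defs

/-!
# QT-08 ProjLift: almost projections are close to projections
Spectrum of `h` (self-adjoint): `|λ² - λ| ≤ δ < 1/4` (spectral mapping), so `λ ≠ 1/2`; `p = cfc g h` with
`g = 1` on `(1/2, ∞)`, `0` on `(-∞, 1/2)`, continuous on the spectrum. `|g(λ) - λ| ≤ 2 |λ² - λ|`.
-/

open scoped Matrix Kronecker ComplexOrder Matrix.Norms.L2Operator
open Filter Topology

namespace QT

universe u

open Classical in
/-- the jump function -/
private noncomputable def jump (x : ℝ) : ℝ := if 1 / 2 < x then 1 else 0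

private lemma jump_one {x : ℝ} (hx : 1 / 2 < x) : jump x = 1 := by
  unfold jump
  rw [if_pos hx]

private lemma jump_zero {x : ℝ} (hx : x < 1 / 2) : jump x = 0 := by
  unfold jump
  rw [if_neg (not_lt.2 hx.le)]

private lemma jump_cont (s : Set ℝ) (hs : ∀ x ∈ s, x ≠ 1 / 2) : ContinuousOn jump s := by
  intro x hx
  refine ContinuousAt.continuousWithinAt ?_
  rcases lt_or_gt_of_ne (hs x hx) with h | h
  · have h1 : jump =ᶠ[𝓝 x] fun _ => 0 := by
      filter_upwards [Iio_mem_nhds h] with y hy
      exact jump_zero hy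
    exact (continuousAt_congr h1).2 continuousAt_const
  · have h1 : jump =ᶠ[𝓝 x] fun _ => 1 := by
      filter_upwards [Ioi_mem_nhds h] with y hy
      exact jump_one hy
    exact (continuousAt_congr h1).2 continuousAt_const

theorem exists_proj {E : Type*} [CStarAlgebra E] (h : E) (hs : IsSelfAdjoint h)
    (hh : ‖h * h - h‖ < 1 / 4) :
    ∃ p : E, star p = p ∧ p * p = p ∧ ‖p - h‖ ≤ 2 * ‖h * h - h‖ := by
  have hq : cfc (fun x : ℝ => x * x - x) h = h * h - h := by
    rw [cfc_sub (fun x : ℝ => x * x) (fun x : ℝ => x) h, cfc_mul (fun x : ℝ => x) (fun x : ℝ => x) h,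
      cfc_id' ℝ h]
  have hsp : ∀ x ∈ spectrum ℝ h, |x * x - x| ≤ ‖h * h - h‖ := by
    intro x hx
    have h1 := norm_apply_le_norm_cfc (fun x : ℝ => x * x - x) h hx
    rw [hq, Real.norm_eq_abs] at h1
    exact h1
  have hne : ∀ x ∈ spectrum ℝ h, x ≠ 1 / 2 := by
    intro x hx he
    have h1 := hsp x hx
    rw [he] at h1
    norm_num at h1
    norm_num at hh
    linarith
  have hcont : ContinuousOn jump (spectrum ℝ h) := jump_cont _ hne
  refine ⟨cfc jump h, ?_, ?_, ?_⟩
  · exact (cfc_predicate jump h : IsSelfAdjoint (cfc jump h)).star_eq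
  · rw [← cfc_mul jump jump h hcont hcont]
    refine cfc_congr fun x hx => ?_
    rcases lt_or_gt_of_ne (hne x hx) with h1 | h1
    · simp only [jump_zero h1, mul_zero]
    · simp only [jump_one h1, mul_one]
  · have h1 : cfc jump h - h = cfc (fun x => jump x - x) h := by
      rw [cfc_sub jump (fun x : ℝ => x) h hcont (by fun_prop), cfc_id' ℝ h]
    rw [h1]
    refine norm_cfc_le (by positivity) fun x hx => ?_
    refine le_trans ?_ (mul_le_mul_of_nonneg_left (hsp x hx) (by norm_num : (0 : ℝ) ≤ 2))
    rw [Real.norm_eq_abs]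
    have h2 : |x * x - x| = |x| * |x - 1| := by
      rw [← abs_mul]
      congr 1
      ring
    rw [h2]
    rcases lt_or_gt_of_ne (hne x hx) with h3 | h3
    · rw [jump_zero h3]
      have h4 : 1 / 2 ≤ |x - 1| := by
        rw [abs_sub_comm, le_abs]
        left
        linarith
      have h5 : |0 - x| = |x| := by rw [zero_sub, abs_neg]
      rw [h5]
      nlinarith [abs_nonneg x]
    · rw [jump_one h3]
      have h4 : 1 / 2 ≤ |x| := by
        rw [le_abs]
        left
        linarith
      rw [abs_sub_comm]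
      nlinarith [abs_nonneg (x - 1)]

end QT
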