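import Mathlib
import Pool.Agent.Helper58.QT.Defs

/-!
# QT-06 Quot: bounded sequences modulo null sequences
`Bd E` = bounded sequences in a product of C*-algebras. The null sequences form a two-sided, *-closed ideal `N`
(`‖x j y j‖ ≤ ‖x j‖ C`). `R := Bd E / N` with the induced ring, star and algebra structure (for instance by `RingCon`
and `Quotient.map`, or `Submodule.Quotient` with multiplication by `Quotient.map₂`). Last property:
`‖x j‖² = ‖star (x j) * x j‖ → 0` implies `‖x j‖ → 0`.
-/

open scoped Matrix Kronecker ComplexOrder Matrix.Norms.L2Operator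
open Filter Topology

namespace QT

universe u


/-- bounded sequences in a product of C*-algebras -/
def Bd (E : ℕ → Type) [∀ j, CStarAlgebra (E j)] : StarSubalgebra ℂ (∀ j, E j) where
  carrier := {x | ∃ C : ℝ, ∀ j, ‖x j‖ ≤ C}
  mul_mem' := by
    rintro x y ⟨C, hC⟩ ⟨C', hC'⟩
    refine ⟨C * C', fun j => (norm_mul_le _ _).trans ?_⟩
    exact mul_le_mul (hC j) (hC' j) (norm_nonneg _) ((norm_nonneg _).trans (hC j))
  add_mem' := by
    rintro x y ⟨C, hC⟩ ⟨C', hC'⟩
    exact ⟨C + C', fun j => (norm_add_le _ _).trans (add_le_add (hC j) (hC' j))⟩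
  algebraMap_mem' := by
    intro z
    refine ⟨‖z‖ * 1, fun j => ?_⟩
    rw [Pi.algebraMap_apply, Algebra.algebraMap_eq_smul_one, norm_smul]
    refine mul_le_mul_of_nonneg_left ?_ (norm_nonneg _)
    rcases subsingleton_or_nontrivial (E j) with h | h
    · rw [Subsingleton.elim (1 : E j) 0]; simp
    · simp
  star_mem' := by
    rintro x ⟨C, hC⟩
    exact ⟨C, fun j => by rw [Pi.star_apply, norm_star]; exact hC j⟩

section

variable (E : ℕ → Type) [∀ j, CStarAlgebra (E j)]

private theorem qt_bdd (x : Bd E) : ∃ C : ℝ, 0 ≤ C ∧ ∀ j, ‖(x : ∀ j, E j) j‖ ≤ C := by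
  obtain ⟨C, hC⟩ := x.2
  exact ⟨C, (norm_nonneg _).trans (hC 0), hC⟩

/-- congruence modulo null sequences -/
private def qtCon : RingCon (Bd E) where
  r x y := Tendsto (fun j => ‖(x : ∀ j, E j) j - (y : ∀ j, E j) j‖) atTop (𝓝 0)
  iseqv := by
    refine ⟨fun x => ?_, fun {x y} h => ?_, fun {x y z} h1 h2 => ?_⟩
    · simp
    · have h2 : (fun j => ‖(y : ∀ j, E j) j - (x : ∀ j, E j) j‖) =
          fun j => ‖(x : ∀ j, E j) j - (y : ∀ j, E j) j‖ := funext fun j => norm_sub_rev _ _
      rw [h2]
      exact h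
    · have h3 := h1.add h2
      rw [add_zero] at h3
      refine squeeze_zero (fun j => norm_nonneg _) (fun j => ?_) h3
      exact norm_sub_le_norm_sub_add_norm_sub _ _ _
  add' := by
    intro w x y z h1 h2
    have h3 := h1.add h2
    rw [add_zero] at h3
    refine squeeze_zero (fun j => norm_nonneg _) (fun j => ?_) h3
    change ‖(w : ∀ j, E j) j + (y : ∀ j, E j) j - ((x : ∀ j, E j) j + (z : ∀ j, E j) j)‖ ≤ _
    rw [add_sub_add_comm]
    exact norm_add_le _ _
  mul' := by
    intro w x y z h1 h2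
    obtain ⟨C, _, hC⟩ := qt_bdd E y
    obtain ⟨C', _, hC'⟩ := qt_bdd E x
    have h3 := (h1.mul_const C).add (h2.const_mul C')
    rw [zero_mul, mul_zero, add_zero] at h3
    refine squeeze_zero (fun j => norm_nonneg _) (fun j => ?_) h3
    change ‖(w : ∀ j, E j) j * (y : ∀ j, E j) j - (x : ∀ j, E j) j * (z : ∀ j, E j) j‖ ≤ _
    have h4 : (w : ∀ j, E j) j * (y : ∀ j, E j) j - (x : ∀ j, E j) j * (z : ∀ j, E j) j =
        ((w : ∀ j, E j) j - (x : ∀ j, E j) j) * (y : ∀ j, E j) j +
          (x : ∀ j, E j) j * ((y : ∀ j, E j) j - (z : ∀ j, E j) j) := by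
      rw [sub_mul, mul_sub]
      abel
    rw [h4]
    refine (norm_add_le _ _).trans (add_le_add ?_ ?_)
    · exact (norm_mul_le _ _).trans (mul_le_mul_of_nonneg_left (hC j) (norm_nonneg _))
    · exact (norm_mul_le _ _).trans (mul_le_mul_of_nonneg_right (hC' j) (norm_nonneg _))

private theorem qt_rel (x y : Bd E) : ((x : (qtCon E).Quotient) = (y : (qtCon E).Quotient)) ↔
    Tendsto (fun j => ‖(x : ∀ j, E j) j - (y : ∀ j, E j) j‖) atTop (𝓝 0) :=
  RingCon.eq _

private theorem qt_star {x y : Bd E} (h : qtCon E x y) : qtCon E (star x) (star y) := by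
  have h1 : Tendsto (fun j => ‖(x : ∀ j, E j) j - (y : ∀ j, E j) j‖) atTop (𝓝 0) := h
  have h2 : (fun j => ‖((star x : Bd E) : ∀ j, E j) j - ((star y : Bd E) : ∀ j, E j) j‖) =
      fun j => ‖(x : ∀ j, E j) j - (y : ∀ j, E j) j‖ := by
    funext j
    change ‖star ((x : ∀ j, E j) j) - star ((y : ∀ j, E j) j)‖ = _
    rw [← star_sub, norm_star]
  change Tendsto (fun j => ‖((star x : Bd E) : ∀ j, E j) j -
    ((star y : Bd E) : ∀ j, E j) j‖) atTop (𝓝 0)
  rw [h2]
  exact h1

@[instance_reducible] private noncomputable def qtStarRing : StarRing (qtCon E).Quotient where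
  star := Quotient.map' star fun _ _ h => qt_star E h
  star_involutive := by
    intro x
    induction x using Quotient.inductionOn' with
    | h x => exact congrArg _ (star_star x)
  star_mul := by
    intro x y
    induction x using Quotient.inductionOn' with
    | h x =>
      induction y using Quotient.inductionOn' with
      | h y => exact congrArg _ (star_mul x y)
  star_add := by
    intro x y
    induction x using Quotient.inductionOn' with
    | h x =>
      induction y using Quotient.inductionOn' with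
      | h y => exact congrArg _ (star_add x y)

end

theorem exists_quotient (E : ℕ → Type) [∀ j, CStarAlgebra (E j)] :
    ∃ (R : Type) (_ : Ring R) (_ : StarRing R) (_ : Algebra ℂ R) (π : Bd E →⋆ₐ[ℂ] R),
      Function.Surjective π ∧
      (∀ x : Bd E, π x = 0 ↔ Tendsto (fun j => ‖(x : ∀ j, E j) j‖) atTop (𝓝 0)) ∧
      (∀ y : R, star y * y = 0 → y = 0) := by
  let _ : StarRing (qtCon E).Quotient := qtStarRing E
  let π : Bd E →⋆ₐ[ℂ] (qtCon E).Quotient :=
    { toFun := fun x => (x : (qtCon E).Quotient)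
      map_one' := rfl
      map_mul' := fun _ _ => rfl
      map_zero' := rfl
      map_add' := fun _ _ => rfl
      commutes' := fun _ => rfl
      map_star' := fun _ => rfl }
  have hπ : ∀ x : Bd E, π x = 0 ↔ Tendsto (fun j => ‖(x : ∀ j, E j) j‖) atTop (𝓝 0) := by
    intro x
    have h1 := qt_rel E x 0
    have h2 : (fun j => ‖(x : ∀ j, E j) j - ((0 : Bd E) : ∀ j, E j) j‖) =
        fun j => ‖(x : ∀ j, E j) j‖ := by
      funext j
      change ‖(x : ∀ j, E j) j - 0‖ = _
      rw [sub_zero]
    rw [h2] at h1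
    exact h1
  have hs : Function.Surjective π := fun y => by
    induction y using Quotient.inductionOn' with
    | h x => exact ⟨x, rfl⟩
  refine ⟨(qtCon E).Quotient, inferInstance, inferInstance, inferInstance, π, hs, hπ, ?_⟩
  intro y hy
  obtain ⟨x, rfl⟩ := hs y
  rw [← map_star, ← map_mul, hπ] at hy
  rw [hπ]
  have h1 : (fun j => ‖((star x * x : Bd E) : ∀ j, E j) j‖) =
      fun j => ‖(x : ∀ j, E j) j‖ * ‖(x : ∀ j, E j) j‖ := by
    funext j
    change ‖star ((x : ∀ j, E j) j) * (x : ∀ j, E j) j‖ = _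
    exact CStarRing.norm_star_mul_self
  rw [h1] at hy
  have h2 := (Real.continuous_sqrt.tendsto 0).comp hy
  rw [Real.sqrt_zero] at h2
  refine h2.congr fun j => ?_
  exact Real.sqrt_mul_self (norm_nonneg _)

end QT
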