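import Mathlib
import Pool.Agent.Helper58.QT.Defs
import Pool.Agent.Helper58.QT.Fn
import Pool.Agent.Helper58.QT.FnRel
import Pool.Agent.Helper58.QT.CPBasics
import Pool.Agent.Helper58.QT.MatBasics
import Pool.Agent.Helper58.QT.Quot
import Pool.Agent.Helper58.QT.ProjAlg
import Pool.Agent.Helper58.QT.ProjLift
import Pool.Agent.Helper58.QT.Compress

/-!
# QT-18 QDOfStage: from the absorbing operators to quasidiagonality of `τ`
1. `A` is separable: finite sets `F_j` increasing with dense union, containing `1`. `hstage` for `F_j`, `ε = 1/(j+1)`, `n0 = j` gives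
   `n_j ≥ j`, `N_j`, `V_j`. `I j = Fin (k n_j) × Fin N_j`, `E' j = Matrix (I j) (I j) ℂ`.
   `Ψ_j(y) = ψ_{n_j}(y) ⊗ 1` is CP, `‖Ψ_j y‖ ≤ ‖y‖`. The sequence `V_j` is bounded: `‖V_jᴴ Ψ_j(al th 1) V_j‖ ≤ 1 + ‖be th 1‖` and
   `‖V_jᴴ V_j‖ ≤ ‖V_jᴴ Ψ_j(al th 1) V_j‖ + ‖V_j‖ /(j+1)`.
2. `exists_quotient E'`: ring `R`, `π`. For `y : Dt` let `Ψ y = π(Ψ_j y)_j`; it is linear, *-preserving (`isCP_star`) and
   multiplicative (`hmul`), so `EE = Ψ ∘ E` is an `Ends A R`. `V = π (V_j)`. The hypotheses `h1, w1..w4` of `proj_algebra`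
   hold: for `x` in the dense union by construction, for all `x` by continuity (everything is bounded and
   `‖E.al f (x - x')‖ ≤ C_f ‖x - x'‖`: for `f = thF = sqthF²` the map `y ↦ ψ_n (E.al thF y)` is CP and so bounded by
   `‖ψ_n (E.al thF 1)‖ ‖y‖`; for `E.be thF` the same; for `thF - thF * thF` it is a difference of two such maps,
   `thF * thF = thF²`).
3. `h_j := Ψ_j(al ka 1) - V_j Ψ_j(be ka 1) V_jᴴ + V_j Ψ_j(al ch 1) + Ψ_j(al ch 1) V_jᴴ` is self-adjoint, `π(h) = p` of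
   `proj_algebra`, so `‖h_j² - h_j‖ → 0`; `exists_proj` for `j` large (shift the index) gives projections `p_j`, `‖p_j - h_j‖ → 0`.
4. `compress` with `Φ_j x = Ψ_j(E.al thF x)` (CP as in 2; `1 - Φ_j 1 = Ψ_j(star b * b) ≥ 0` by `hone`): `hcomm, hmul, hunit` are the
   conclusions of `proj_algebra` read through `π` (`π x = 0 ↔ norms → 0`). `htr`: `ntr(p_j Φ_j x) - ntr(h_j Φ_j x) → 0`; the terms
   of `h_j Φ_j x` containing `V_j` have rank `≤ rank V_j ≤ card(I j)/(j+1)` and bounded norm, so `ntr → 0` (`ntr_rank`);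
   `ntr(Ψ_j(al ka 1) Ψ_j(al th x)) = ntr(ψ(al ka 1) ψ(al th x)) (ntr_kron_one) ≈ ntr ψ_{n_j}(al (ka th) x) → ka(1) τ(x) = τ(x)`.
-/

open scoped Matrix Kronecker ComplexOrder Matrix.Norms.L2Operator
open Filter Topology

namespace QT

universe u

namespace Stage

theorem isCP_al {A Q : Type*} [Ring A] [StarRing A] [Algebra ℂ A] [Ring Q] [StarRing Q]
    [Algebra ℂ Q] (E : Ends A Q) (g : Fn) : IsCP (E.al (g * g)) := by
  intro m M
  refine ⟨M.map (E.al g), ?_⟩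
  ext i j
  simp only [Matrix.map_apply, Matrix.mul_apply, Matrix.conjTranspose_apply, map_sum]
  refine Finset.sum_congr rfl fun k _ => ?_
  rw [E.al_star, E.al_mul]

theorem isCP_be {A Q : Type*} [Ring A] [StarRing A] [Algebra ℂ A] [Ring Q] [StarRing Q]
    [Algebra ℂ Q] (E : Ends A Q) (g : Fn) : IsCP (E.be (g * g)) := by
  intro m M
  refine ⟨M.map (E.be g), ?_⟩
  ext i j
  simp only [Matrix.map_apply, Matrix.mul_apply, Matrix.conjTranspose_apply, map_sum]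
  refine Finset.sum_congr rfl fun k _ => ?_
  rw [E.be_star, E.be_mul]

theorem al_sub {A Q : Type*} [Ring A] [StarRing A] [Algebra ℂ A] [Ring Q] [StarRing Q]
    [Algebra ℂ Q] (E : Ends A Q) (f g : Fn) (x : A) : E.al (f - g) x = E.al f x - E.al g x := by
  rw [eq_sub_iff_add_eq, ← E.al_add, sub_add_cancel]

theorem tendsto_dense {A : Type*} [NormedAddCommGroup A] (S : Set A) (hS : Dense S)
    (T : ℕ → A → ℝ) (C : ℝ) (h0 : ∀ j x, 0 ≤ T j x)
    (hT : ∀ j x y, T j x ≤ T j y + C * ‖x - y‖)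
    (h : ∀ x ∈ S, Tendsto (fun j => T j x) atTop (𝓝 0)) (x : A) :
    Tendsto (fun j => T j x) atTop (𝓝 0) := by
  rw [Metric.tendsto_atTop]
  intro ε hε
  have hC : 0 < |C| + 1 := by positivity
  obtain ⟨y, hy, hxy⟩ := hS.exists_dist_lt x (ε := ε / (2 * (|C| + 1))) (by positivity)
  obtain ⟨N, hN⟩ := (Metric.tendsto_atTop.1 (h y hy)) (ε / 2) (by positivity)
  refine ⟨N, fun j hj => ?_⟩
  have h1 := hN j hj
  rw [Real.dist_eq, sub_zero, abs_of_nonneg (h0 _ _)] at h1 ⊢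
  have h2 := hT j x y
  rw [dist_eq_norm] at hxy
  have h3 : C * ‖x - y‖ ≤ ε / 2 := by
    calc C * ‖x - y‖ ≤ (|C| + 1) * ‖x - y‖ :=
          mul_le_mul_of_nonneg_right (by linarith [le_abs_self C]) (norm_nonneg _)
      _ ≤ (|C| + 1) * (ε / (2 * (|C| + 1))) := mul_le_mul_of_nonneg_left hxy.le hC.le
      _ = ε / 2 := by field_simp
  linarith

theorem isCP_bd {Dt : Type u} [CStarAlgebra Dt] {ι : Type*} [Fintype ι] [DecidableEq ι] [Nonempty ι]
    {Ψ : Dt →ₗ[ℂ] Matrix ι ι ℂ} (h : IsCP Ψ) (h1 : Ψ 1 = 1) (y : Dt) : ‖Ψ y‖ ≤ ‖y‖ := by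
  have := isCP_norm_le h y
  rwa [h1, norm_one, one_mul] at this

/-- the bounded sequence of the values -/
noncomputable def bs {Dt : Type u} [CStarAlgebra Dt] (I : ℕ → Type) [∀ j, Fintype (I j)]
    [∀ j, DecidableEq (I j)] [∀ j, Nonempty (I j)] (Ψ : ∀ j, Dt →ₗ[ℂ] Matrix (I j) (I j) ℂ)
    (hcp : ∀ j, IsCP (Ψ j)) (h1 : ∀ j, Ψ j 1 = 1) :
    Dt →ₗ[ℂ] Bd (fun j => Matrix (I j) (I j) ℂ) where
  toFun y := ⟨fun j => Ψ j y, ‖y‖, fun j => isCP_bd (hcp j) (h1 j) y⟩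
  map_add' _ _ := Subtype.ext (funext fun _ => map_add _ _ _)
  map_smul' _ _ := Subtype.ext (funext fun _ => map_smul _ _ _)

theorem proj_norm_le {E : Type*} [CStarAlgebra E] (p : E) (h1 : star p = p) (h2 : p * p = p) :
    ‖p‖ ≤ 1 := by
  have h := CStarRing.norm_star_mul_self (x := p)
  rw [h1, h2] at h
  by_contra hc
  push Not at hc
  nlinarith [norm_nonneg p]


theorem core {A : Type u} [CStarAlgebra A] (τ : TracialState A)
    {Dt : Type u} [CStarAlgebra Dt] (E : Ends A Dt) (σ : TracialState Dt)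
    (hσa : ∀ (f : Fn) (a : A),
      σ.toFun (E.al f a) = (((f : C(unitInterval, ℝ)) 1 : ℝ) : ℂ) * τ.toFun a)
    (hone : ∃ b : Dt, 1 - E.al thF 1 = star b * b)
    (I : ℕ → Type) [∀ j, Fintype (I j)] [∀ j, DecidableEq (I j)] [∀ j, Nonempty (I j)]
    (Ψ : ∀ j, Dt →ₗ[ℂ] Matrix (I j) (I j) ℂ) (hcp : ∀ j, IsCP (Ψ j)) (h1 : ∀ j, Ψ j 1 = 1)
    (hmul : ∀ a b, Tendsto (fun j => ‖Ψ j (a * b) - Ψ j a * Ψ j b‖) atTop (𝓝 0))
    (htr : ∀ a, Tendsto (fun j => ntr (Ψ j a)) atTop (𝓝 (σ.toFun a)))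
    (V : ∀ j, Matrix (I j) (I j) ℂ) (c : ℝ) (hV : ∀ j, ‖V j‖ ≤ c)
    (e : ℕ → ℝ) (he : Tendsto e atTop (𝓝 0))
    (hrank : ∀ j, ((V j).rank : ℝ) ≤ e j * (Fintype.card (I j) : ℝ))
    (S : Set A) (hS : Dense S)
    (v0 : ∀ x ∈ S, Tendsto
      (fun j => ‖(V j)ᴴ * Ψ j (E.al thF x) * V j - Ψ j (E.be thF x)‖) atTop (𝓝 0))
    (v1 : Tendsto (fun j => ‖Ψ j (E.al thF 1) * V j - V j‖) atTop (𝓝 0))
    (v2 : Tendsto (fun j => ‖Ψ j (E.al kaF 1) * V j - V j‖) atTop (𝓝 0))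
    (v3 : Tendsto (fun j => ‖Ψ j (E.al chF 1) * V j‖) atTop (𝓝 0))
    (v4 : ∀ x ∈ S, Tendsto (fun j => ‖Ψ j (E.al (thF - thF * thF) x) * V j‖) atTop (𝓝 0)) :
    τ.IsQD := by
  have hc0 : 0 ≤ c := (norm_nonneg _).trans (hV 0)
  -- bounds for the CP maps
  have hbd : ∀ j (y : Dt), ‖Ψ j y‖ ≤ ‖y‖ := fun j y => isCP_bd (hcp j) (h1 j) y
  have hcpa : ∀ (g : Fn) j, IsCP (Ψ j ∘ₗ E.al (g * g)) := fun g j => isCP_comp (isCP_al E g) (hcp j)
  have hcpb : ∀ (g : Fn) j, IsCP (Ψ j ∘ₗ E.be (g * g)) := fun g j => isCP_comp (isCP_be E g) (hcp j)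
  have hba : ∀ (g : Fn) j (x : A), ‖Ψ j (E.al (g * g) x)‖ ≤ ‖E.al (g * g) 1‖ * ‖x‖ := by
    intro g j x
    have h := isCP_norm_le (hcpa g j) x
    exact h.trans (mul_le_mul_of_nonneg_right (hbd j _) (norm_nonneg _))
  have hbb : ∀ (g : Fn) j (x : A), ‖Ψ j (E.be (g * g) x)‖ ≤ ‖E.be (g * g) 1‖ * ‖x‖ := by
    intro g j x
    have h := isCP_norm_le (hcpb g j) x
    exact h.trans (mul_le_mul_of_nonneg_right (hbd j _) (norm_nonneg _))
  have hVs : ∀ j, ‖(V j)ᴴ‖ ≤ c := fun j => by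
    rw [Matrix.l2_opNorm_conjTranspose]; exact hV j
  -- all x
  have v0' : ∀ x, Tendsto
      (fun j => ‖(V j)ᴴ * Ψ j (E.al thF x) * V j - Ψ j (E.be thF x)‖) atTop (𝓝 0) := by
    refine tendsto_dense S hS
      (fun j x => ‖(V j)ᴴ * Ψ j (E.al thF x) * V j - Ψ j (E.be thF x)‖)
      (c * ‖E.al thF 1‖ * c + ‖E.be thF 1‖) (fun _ _ => norm_nonneg _) ?_ v0
    intro j x y
    have e1 : (V j)ᴴ * Ψ j (E.al thF x) * V j - Ψ j (E.be thF x) =
        ((V j)ᴴ * Ψ j (E.al thF y) * V j - Ψ j (E.be thF y)) +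
          ((V j)ᴴ * Ψ j (E.al thF (x - y)) * V j - Ψ j (E.be thF (x - y))) := by
      rw [map_sub, map_sub, map_sub, map_sub, mul_sub, sub_mul]
      abel
    have e2 : ‖Ψ j (E.al thF (x - y))‖ ≤ ‖E.al thF 1‖ * ‖x - y‖ := by
      have := hba sqthF j (x - y)
      rwa [fn_sqth] at this
    have e3 : ‖Ψ j (E.be thF (x - y))‖ ≤ ‖E.be thF 1‖ * ‖x - y‖ := by
      have := hbb sqthF j (x - y)
      rwa [fn_sqth] at this
    have e4 : ‖(V j)ᴴ * Ψ j (E.al thF (x - y)) * V j‖ ≤ c * (‖E.al thF 1‖ * ‖x - y‖) * c :=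
      (norm_mul_le _ _).trans (mul_le_mul ((norm_mul_le _ _).trans
        (mul_le_mul (hVs j) e2 (norm_nonneg _) hc0)) (hV j) (norm_nonneg _) (by positivity))
    show ‖(V j)ᴴ * Ψ j (E.al thF x) * V j - Ψ j (E.be thF x)‖ ≤ _
    rw [e1]
    refine (norm_add_le _ _).trans (add_le_add le_rfl ((norm_sub_le _ _).trans ?_))
    refine (add_le_add e4 e3).trans (le_of_eq ?_)
    ring
  have v4' : ∀ x, Tendsto (fun j => ‖Ψ j (E.al (thF - thF * thF) x) * V j‖) atTop (𝓝 0) := by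
    refine tendsto_dense S hS (fun j x => ‖Ψ j (E.al (thF - thF * thF) x) * V j‖)
      ((‖E.al thF 1‖ + ‖E.al (thF * thF) 1‖) * c) (fun _ _ => norm_nonneg _) ?_ v4
    intro j x y
    have e1 : Ψ j (E.al (thF - thF * thF) x) * V j = Ψ j (E.al (thF - thF * thF) y) * V j +
        (Ψ j (E.al thF (x - y)) - Ψ j (E.al (thF * thF) (x - y))) * V j := by
      rw [← add_mul]
      congr 1
      rw [al_sub, al_sub]
      simp only [map_sub]
      abel
    have e2 : ‖Ψ j (E.al thF (x - y))‖ ≤ ‖E.al thF 1‖ * ‖x - y‖ := by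
      have := hba sqthF j (x - y)
      rwa [fn_sqth] at this
    have e3 := hba thF j (x - y)
    show ‖Ψ j (E.al (thF - thF * thF) x) * V j‖ ≤ _
    rw [e1]
    refine (norm_add_le _ _).trans (add_le_add le_rfl ((norm_mul_le _ _).trans ?_))
    refine (mul_le_mul ((norm_sub_le _ _).trans (add_le_add e2 e3)) (hV j) (norm_nonneg _)
      (by positivity)).trans (le_of_eq ?_)
    ring
  -- the quotient
  obtain ⟨R, i1, i2, i3, π, hπs, hπ0, hprop⟩ := exists_quotient (fun j => Matrix (I j) (I j) ℂ)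
  have hπeq : ∀ x y : Bd (fun j => Matrix (I j) (I j) ℂ), (π x = π y ↔ Tendsto
      (fun j => ‖(x : ∀ j, Matrix (I j) (I j) ℂ) j - (y : ∀ j, Matrix (I j) (I j) ℂ) j‖)
      atTop (𝓝 0)) := by
    intro x y
    rw [← sub_eq_zero, ← map_sub, hπ0]
    rfl
  let B := bs I Ψ hcp h1
  have hBj : ∀ y j, (B y : ∀ j, Matrix (I j) (I j) ℂ) j = Ψ j y := fun _ _ => rfl
  let P : Dt →ₗ[ℂ] R :=
    { toFun := fun y => π (B y)
      map_add' := fun y z => by rw [map_add, map_add]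
      map_smul' := fun a y => by rw [map_smul, map_smul]; rfl }
  have hPm : ∀ y z, P (y * z) = P y * P z := by
    intro y z
    show π (B (y * z)) = π (B y) * π (B z)
    rw [← map_mul, hπeq]
    exact hmul y z
  have hPs : ∀ y, P (star y) = star (P y) := by
    intro y
    show π (B (star y)) = star (π (B y))
    rw [← map_star]
    congr 1
    refine Subtype.ext (funext fun j => ?_)
    exact isCP_star (hcp j) y
  let EE : Ends A R :=
    { al := fun f => P ∘ₗ E.al f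
      be := fun f => P ∘ₗ E.be f
      al_mul := fun f g a b => by
        show P _ * P _ = P _
        rw [← hPm, E.al_mul]
      be_mul := fun f g a b => by
        show P _ * P _ = P _
        rw [← hPm, E.be_mul]
      al_star := fun f a => by
        show star (P _) = P _
        rw [← hPs, E.al_star]
      be_star := fun f a => by
        show star (P _) = P _
        rw [← hPs, E.be_star]
      al_add := fun f g a => by
        show P _ = P _ + P _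
        rw [E.al_add, map_add]
      be_add := fun f g a => by
        show P _ = P _ + P _
        rw [E.be_add, map_add]
      al_eq_be := fun f hf a => by
        show P _ = P _
        rw [E.al_eq_be f hf] }
  let Vb : Bd (fun j => Matrix (I j) (I j) ℂ) := ⟨V, c, hV⟩
  let hb : Bd (fun j => Matrix (I j) (I j) ℂ) := B (E.al kaF 1) - Vb * B (E.be kaF 1) * star Vb +
    Vb * B (E.al chF 1) + B (E.al chF 1) * star Vb
  obtain ⟨q1, q2, q3, q4, q5⟩ := proj_algebra EE hprop (π Vb)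
    (by
      intro x
      show star (π Vb) * π (B (E.al thF x)) * π Vb = π (B (E.be thF x))
      rw [← map_star, ← map_mul, ← map_mul, hπeq]
      exact v0' x)
    (by
      show π (B (E.al thF 1)) * π Vb = π Vb
      rw [← map_mul, hπeq]
      exact v1)
    (by
      show π (B (E.al kaF 1)) * π Vb = π Vb
      rw [← map_mul, hπeq]
      exact v2)
    (by
      show π (B (E.al chF 1)) * π Vb = 0
      rw [← map_mul, hπ0]
      exact v3)
    (by
      intro x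
      show π (B (E.al (thF - thF * thF) x)) * π Vb = 0
      rw [← map_mul, hπ0]
      exact v4' x)
    (π hb)
    (by
      show π hb = π (B (E.al kaF 1)) - π Vb * π (B (E.be kaF 1)) * star (π Vb) +
        π Vb * π (B (E.al chF 1)) + π (B (E.al chF 1)) * star (π Vb)
      rw [← map_star]
      simp only [hb, map_add, map_sub, map_mul])
  -- the almost projections
  let h : ∀ j, Matrix (I j) (I j) ℂ := (hb : ∀ j, Matrix (I j) (I j) ℂ)
  have hhj : ∀ j, h j = Ψ j (E.al kaF 1) - V j * Ψ j (E.be kaF 1) * (V j)ᴴ +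
      V j * Ψ j (E.al chF 1) + Ψ j (E.al chF 1) * (V j)ᴴ := fun j => rfl
  have hsa1 : ∀ j, (Ψ j (E.al kaF 1))ᴴ = Ψ j (E.al kaF 1) := fun j => by
    rw [← isCP_star (hcp j), E.al_star, star_one]
  have hsa2 : ∀ j, (Ψ j (E.be kaF 1))ᴴ = Ψ j (E.be kaF 1) := fun j => by
    rw [← isCP_star (hcp j), E.be_star, star_one]
  have hsa3 : ∀ j, (Ψ j (E.al chF 1))ᴴ = Ψ j (E.al chF 1) := fun j => by
    rw [← isCP_star (hcp j), E.al_star, star_one]
  have hsa : ∀ j, IsSelfAdjoint (h j) := by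
    intro j
    show star (h j) = h j
    rw [hhj, Matrix.star_eq_conjTranspose]
    simp only [Matrix.conjTranspose_add, Matrix.conjTranspose_sub, Matrix.conjTranspose_mul,
      Matrix.conjTranspose_conjTranspose, hsa1, hsa2, hsa3, Matrix.mul_assoc]
    abel
  have hlim : Tendsto (fun j => ‖h j * h j - h j‖) atTop (𝓝 0) := by
    have := (hπeq (hb * hb) hb).1 (by rw [map_mul]; exact q2)
    exact this
  have hex : ∀ j, ∃ p : Matrix (I j) (I j) ℂ, star p = p ∧ p * p = p ∧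
      (‖h j * h j - h j‖ < 1 / 4 → ‖p - h j‖ ≤ 2 * ‖h j * h j - h j‖) := by
    intro j
    by_cases hx : ‖h j * h j - h j‖ < 1 / 4
    · obtain ⟨p, a1, a2, a3⟩ := exists_proj (h j) (hsa j) hx
      exact ⟨p, a1, a2, fun _ => a3⟩
    · exact ⟨0, star_zero _, zero_mul _, fun h' => absurd h' hx⟩
  choose p p1 p2 p3 using hex
  have hlim2 : Tendsto (fun j => ‖p j - h j‖) atTop (𝓝 0) := by
    have h2 : Tendsto (fun j => 2 * ‖h j * h j - h j‖) atTop (𝓝 0) := by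
      have := hlim.const_mul 2
      rwa [mul_zero] at this
    refine squeeze_zero' (Eventually.of_forall fun _ => norm_nonneg _) ?_ h2
    have h4 : ∀ᶠ j in atTop, ‖h j * h j - h j‖ < 1 / 4 :=
      hlim.eventually (gt_mem_nhds (by norm_num))
    exact h4.mono fun j hj => p3 j hj
  let pb : Bd (fun j => Matrix (I j) (I j) ℂ) := ⟨p, 1, fun j => proj_norm_le _ (p1 j) (p2 j)⟩
  have hpb : π pb = π hb := (hπeq pb hb).2 hlim2
  have hpn : ∀ j, ‖p j‖ ≤ 1 := fun j => proj_norm_le _ (p1 j) (p2 j)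
  refine compress τ I (fun j => Ψ j ∘ₗ E.al thF)
    (fun j => by have := hcpa sqthF j; rwa [fn_sqth] at this) ?_ p p1 p2 ?_ ?_ ?_ ?_
  · intro j
    obtain ⟨b, hb'⟩ := hone
    have := isCP_posSemidef (hcp j) b
    rw [← hb', map_sub, h1 j] at this
    exact this
  · intro x
    refine (hπeq (pb * B (E.al thF x)) (B (E.al thF x) * pb)).1 ?_
    rw [map_mul, map_mul, hpb]
    exact q3 x
  · intro x y
    refine (hπ0 (pb * (B (E.al thF x) * B (E.al thF y) - B (E.al thF (x * y))))).1 ?_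
    rw [map_mul, map_sub, map_mul, hpb]
    exact q4 x y
  · refine (hπeq (pb * B (E.al thF 1)) pb).1 ?_
    rw [map_mul, hpb]
    exact q5
  · intro x
    have hΦ : ∀ j, ‖Ψ j (E.al thF x)‖ ≤ ‖E.al thF x‖ := fun j => hbd j _
    -- small rank terms
    have hsmall : ∀ (M : ∀ j, Matrix (I j) (I j) ℂ) (C : ℝ), (∀ j, ‖M j‖ ≤ C) →
        (∀ j, (M j).rank ≤ (V j).rank) → Tendsto (fun j => ntr (M j)) atTop (𝓝 0) := by
      intro M C hC hr
      have h2 : Tendsto (fun j => C * e j) atTop (𝓝 0) := by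
        have := he.const_mul C
        rwa [mul_zero] at this
      refine squeeze_zero_norm (fun j => ?_) h2
      have hcard : (0 : ℝ) < (Fintype.card (I j) : ℝ) := by
        exact_mod_cast Fintype.card_pos
      have hC0 : 0 ≤ C := (norm_nonneg _).trans (hC j)
      have h3 := ntr_rank (M j)
      have h4 : ((M j).rank : ℝ) ≤ e j * (Fintype.card (I j) : ℝ) :=
        le_trans (by exact_mod_cast hr j) (hrank j)
      have h5 : ‖M j‖ * ((M j).rank : ℝ) ≤ C * (e j * (Fintype.card (I j) : ℝ)) :=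
        mul_le_mul (hC j) h4 (Nat.cast_nonneg _) hC0
      have h6 : ‖ntr (M j)‖ * (Fintype.card (I j) : ℝ) ≤ (C * e j) * (Fintype.card (I j) : ℝ) := by
        linarith
      exact le_of_mul_le_mul_right h6 hcard
    have t1 : Tendsto (fun j => ntr (V j * Ψ j (E.be kaF 1) * (V j)ᴴ * Ψ j (E.al thF x))) atTop
        (𝓝 0) := by
      refine hsmall _ (c * ‖E.be kaF 1‖ * c * ‖E.al thF x‖) ?_ ?_
      · intro j
        refine (norm_mul_le _ _).trans (mul_le_mul ((norm_mul_le _ _).trans (mul_le_mul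
          ((norm_mul_le _ _).trans (mul_le_mul (hV j) (hbd j _) (norm_nonneg _) hc0)) (hVs j)
          (norm_nonneg _) (by positivity))) (hΦ j) (norm_nonneg _) (by positivity))
      · intro j
        rw [Matrix.mul_assoc, Matrix.mul_assoc]
        exact Matrix.rank_mul_le_left _ _
    have t2 : Tendsto (fun j => ntr (V j * Ψ j (E.al chF 1) * Ψ j (E.al thF x))) atTop (𝓝 0) := by
      refine hsmall _ (c * ‖E.al chF 1‖ * ‖E.al thF x‖) ?_ ?_
      · intro j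
        refine (norm_mul_le _ _).trans (mul_le_mul ((norm_mul_le _ _).trans
          (mul_le_mul (hV j) (hbd j _) (norm_nonneg _) hc0)) (hΦ j) (norm_nonneg _) (by positivity))
      · intro j
        rw [Matrix.mul_assoc]
        exact Matrix.rank_mul_le_left _ _
    have t3 : Tendsto (fun j => ntr (Ψ j (E.al chF 1) * (V j)ᴴ * Ψ j (E.al thF x))) atTop
        (𝓝 0) := by
      refine hsmall _ (‖E.al chF 1‖ * c * ‖E.al thF x‖) ?_ ?_
      · intro j
        refine (norm_mul_le _ _).trans (mul_le_mul ((norm_mul_le _ _).trans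
          (mul_le_mul (hbd j _) (hVs j) (norm_nonneg _) (norm_nonneg _))) (hΦ j) (norm_nonneg _)
          (by positivity))
      · intro j
        refine (Matrix.rank_mul_le_left _ _).trans ((Matrix.rank_mul_le_right _ _).trans ?_)
        rw [Matrix.rank_conjTranspose]
    have t4 : Tendsto (fun j => ntr ((p j - h j) * Ψ j (E.al thF x))) atTop (𝓝 0) := by
      have h2 : Tendsto (fun j => ‖p j - h j‖ * ‖E.al thF x‖) atTop (𝓝 0) := by
        have := hlim2.mul_const ‖E.al thF x‖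
        rwa [zero_mul] at this
      refine squeeze_zero_norm (fun j => ?_) h2
      exact (ntr_norm_le _).trans ((norm_mul_le _ _).trans
        (mul_le_mul_of_nonneg_left (hΦ j) (norm_nonneg _)))
    have t5 : Tendsto (fun j => ntr (Ψ j (E.al kaF 1 * E.al thF x) -
        Ψ j (E.al kaF 1) * Ψ j (E.al thF x))) atTop (𝓝 0) :=
      squeeze_zero_norm (fun j => ntr_norm_le _) (hmul (E.al kaF 1) (E.al thF x))
    have t6 : Tendsto (fun j => ntr (Ψ j (E.al kaF 1 * E.al thF x))) atTop (𝓝 (τ.toFun x)) := by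
      have h2 := htr (E.al kaF 1 * E.al thF x)
      rw [E.al_mul, one_mul, hσa, mul_comm kaF thF, fn_th_ka, fn_one.2.1] at h2
      rw [E.al_mul, one_mul, mul_comm kaF thF, fn_th_ka]
      simpa using h2
    have t7 := ((((t6.sub t5).sub t1).add t2).add t3).add t4
    simp only [sub_zero, add_zero] at t7
    refine t7.congr fun j => ?_
    show _ = ntr (p j * Ψ j (E.al thF x))
    have e1 : p j * Ψ j (E.al thF x) = Ψ j (E.al kaF 1 * E.al thF x) -
        (Ψ j (E.al kaF 1 * E.al thF x) - Ψ j (E.al kaF 1) * Ψ j (E.al thF x)) -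
        V j * Ψ j (E.be kaF 1) * (V j)ᴴ * Ψ j (E.al thF x) +
        V j * Ψ j (E.al chF 1) * Ψ j (E.al thF x) +
        Ψ j (E.al chF 1) * (V j)ᴴ * Ψ j (E.al thF x) + (p j - h j) * Ψ j (E.al thF x) := by
      rw [sub_mul (p j), hhj]
      simp only [add_mul, sub_mul]
      abel
    rw [e1]
    simp only [ntr_add, ntr_sub]

end Stage

theorem qd_of_stage
    {A : Type u} [CStarAlgebra A] (τ : TracialState A)
    {Dt : Type u} [CStarAlgebra Dt] (E : Ends A Dt) (σ : TracialState Dt)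
    (hσa : ∀ (f : Fn) (a : A),
      σ.toFun (E.al f a) = (((f : C(unitInterval, ℝ)) 1 : ℝ) : ℂ) * τ.toFun a)
    (hσb : ∀ (f : Fn) (a : A), σ.toFun (E.be f a) = 0)
    (k : ℕ → ℕ) (ψ : ∀ n, Dt →ₗ[ℂ] Matrix (Fin (k n)) (Fin (k n)) ℂ)
    (hk : ∀ n, 0 < k n) (hcp : ∀ n, IsCP (ψ n)) (h1 : ∀ n, ψ n 1 = 1)
    (hmul : ∀ a b, Tendsto (fun n => ‖ψ n (a * b) - ψ n a * ψ n b‖) atTop (𝓝 0))
    (htr : ∀ a, Tendsto (fun n => ntr (ψ n a)) atTop (𝓝 (σ.toFun a)))
    [TopologicalSpace.SeparableSpace A] (hone : ∃ b : Dt, 1 - E.al thF 1 = star b * b)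
    (hstage : ∀ (F : Finset A) (ε : ℝ), 0 < ε → ∀ n0 : ℕ,
      ∃ n, n0 ≤ n ∧ ∃ N : ℕ, 0 < N ∧ ∃ V : Matrix (Fin (k n) × Fin N) (Fin (k n) × Fin N) ℂ,
      (∀ x ∈ F, ‖Vᴴ * (ψ n (E.al thF x) ⊗ₖ (1 : Matrix (Fin N) (Fin N) ℂ)) * V
        - ψ n (E.be thF x) ⊗ₖ (1 : Matrix (Fin N) (Fin N) ℂ)‖ ≤ ε) ∧
      (V.rank : ℝ) ≤ ε * ((k n : ℝ) * N) ∧
      ‖(ψ n (E.al thF 1) ⊗ₖ (1 : Matrix (Fin N) (Fin N) ℂ)) * V - V‖ ≤ ε ∧
      ‖(ψ n (E.al kaF 1) ⊗ₖ (1 : Matrix (Fin N) (Fin N) ℂ)) * V - V‖ ≤ ε ∧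
      ‖(ψ n (E.al chF 1) ⊗ₖ (1 : Matrix (Fin N) (Fin N) ℂ)) * V‖ ≤ ε ∧
      ∀ x ∈ F, ‖(ψ n (E.al (thF - thF * thF) x) ⊗ₖ (1 : Matrix (Fin N) (Fin N) ℂ)) * V‖ ≤ ε) :
    τ.IsQD := by
  classical
  haveI : Nonempty A := ⟨0⟩
  let d : ℕ → A := TopologicalSpace.denseSeq A
  let F : ℕ → Finset A := fun j => insert 1 ((Finset.range (j + 1)).image d)
  have hchoose := fun j : ℕ => hstage (F j) (1 / ((j : ℝ) + 1)) (by positivity) j
  choose n hn N hN V s1 s2 s3 s4 s5 s6 using hchoose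
  have hnt : Tendsto n atTop atTop := tendsto_atTop_mono hn tendsto_id
  have hI : ∀ j, Nonempty (Fin (k (n j)) × Fin (N j)) := fun j =>
    ⟨(⟨0, hk (n j)⟩, ⟨0, hN j⟩)⟩
  have hIN : ∀ j, Nonempty (Fin (N j)) := fun j => ⟨⟨0, hN j⟩⟩
  let Ψ : ∀ j, Dt →ₗ[ℂ] Matrix (Fin (k (n j)) × Fin (N j)) (Fin (k (n j)) × Fin (N j)) ℂ :=
    fun j =>
      { toFun := fun y => ψ (n j) y ⊗ₖ (1 : Matrix (Fin (N j)) (Fin (N j)) ℂ)
        map_add' := fun y z => by rw [map_add, Matrix.add_kronecker]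
        map_smul' := fun a y => by rw [map_smul, Matrix.smul_kronecker]; rfl }
  have hcpΨ : ∀ j, IsCP (Ψ j) := fun j => isCP_kron (hcp (n j)) (Ψ j) fun _ => rfl
  have h1Ψ : ∀ j, Ψ j 1 = 1 := by
    intro j
    show ψ (n j) 1 ⊗ₖ (1 : Matrix (Fin (N j)) (Fin (N j)) ℂ) = 1
    rw [h1, Matrix.one_kronecker_one]
  have hone' : Tendsto (fun j : ℕ => 1 / ((j : ℝ) + 1)) atTop (𝓝 0) :=
    tendsto_one_div_add_atTop_nhds_zero_nat
  have hle1 : ∀ j : ℕ, 1 / ((j : ℝ) + 1) ≤ 1 := by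
    intro j
    rw [div_le_one (by positivity)]
    have := Nat.cast_nonneg (α := ℝ) j
    linarith
  have h1F : ∀ j, (1 : A) ∈ F j := fun j => Finset.mem_insert_self _ _
  have hdF : ∀ i j, i ≤ j → d i ∈ F j := fun i j hij =>
    Finset.mem_insert_of_mem (Finset.mem_image_of_mem _ (Finset.mem_range.2 (by omega)))
  have hsq : ∀ (T : ℕ → ℝ) (i : ℕ), (∀ j, 0 ≤ T j) → (∀ j, i ≤ j → T j ≤ 1 / ((j : ℝ) + 1)) →
      Tendsto T atTop (𝓝 0) := by
    intro T i h0 hT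
    refine squeeze_zero' (Eventually.of_forall h0) ?_ hone'
    exact (eventually_ge_atTop i).mono hT
  -- the bound for V
  have hV : ∀ j, ‖V j‖ ≤ ‖E.be thF 1‖ + 2 := by
    intro j
    have a1 := s1 j 1 (h1F j)
    have a2 := s3 j
    have a3 : ‖ψ (n j) (E.be thF 1) ⊗ₖ (1 : Matrix (Fin (N j)) (Fin (N j)) ℂ)‖ ≤ ‖E.be thF 1‖ :=
      @Stage.isCP_bd Dt _ (Fin (k (n j)) × Fin (N j)) _ _ (hI j) (Ψ j) (hcpΨ j) (h1Ψ j) _
    have a4 := hle1 j
    set X := ψ (n j) (E.al thF 1) ⊗ₖ (1 : Matrix (Fin (N j)) (Fin (N j)) ℂ) with hX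
    set Y := ψ (n j) (E.be thF 1) ⊗ₖ (1 : Matrix (Fin (N j)) (Fin (N j)) ℂ) with hY
    have e1 : (V j)ᴴ * V j = ((V j)ᴴ * X * V j - Y) + Y - (V j)ᴴ * (X * V j - V j) := by
      rw [mul_sub, Matrix.mul_assoc]
      abel
    have e2 : ‖V j‖ * ‖V j‖ ≤ 1 + ‖E.be thF 1‖ + ‖V j‖ := by
      rw [← Matrix.l2_opNorm_conjTranspose_mul_self, e1]
      refine (norm_sub_le _ _).trans (add_le_add ((norm_add_le _ _).trans
        (add_le_add (a1.trans a4) a3)) ((norm_mul_le _ _).trans ?_))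
      rw [Matrix.l2_opNorm_conjTranspose]
      calc ‖V j‖ * ‖X * V j - V j‖ ≤ ‖V j‖ * 1 :=
            mul_le_mul_of_nonneg_left (a2.trans a4) (norm_nonneg _)
        _ = ‖V j‖ := mul_one _
    by_contra hc
    push Not at hc
    have e3 : 0 ≤ ‖E.be thF 1‖ := norm_nonneg _
    nlinarith
  refine @Stage.core A _ τ Dt _ E σ hσa hone (fun j => Fin (k (n j)) × Fin (N j)) _ _ hI Ψ hcpΨ h1Ψ
    ?_ ?_ V (‖E.be thF 1‖ + 2) hV (fun j => 1 / ((j : ℝ) + 1)) hone' ?_ (Set.range d)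
    (TopologicalSpace.denseRange_denseSeq A) ?_ ?_ ?_ ?_ ?_
  · intro a b
    refine squeeze_zero (fun _ => norm_nonneg _) (fun j => ?_) ((hmul a b).comp hnt)
    show ‖ψ (n j) (a * b) ⊗ₖ (1 : Matrix (Fin (N j)) (Fin (N j)) ℂ) -
      (ψ (n j) a ⊗ₖ (1 : Matrix (Fin (N j)) (Fin (N j)) ℂ)) *
        (ψ (n j) b ⊗ₖ (1 : Matrix (Fin (N j)) (Fin (N j)) ℂ))‖ ≤ _
    have e1 : ψ (n j) (a * b) ⊗ₖ (1 : Matrix (Fin (N j)) (Fin (N j)) ℂ) -
      (ψ (n j) a ⊗ₖ (1 : Matrix (Fin (N j)) (Fin (N j)) ℂ)) *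
        (ψ (n j) b ⊗ₖ (1 : Matrix (Fin (N j)) (Fin (N j)) ℂ)) =
        (ψ (n j) (a * b) - ψ (n j) a * ψ (n j) b) ⊗ₖ (1 : Matrix (Fin (N j)) (Fin (N j)) ℂ) := by
      rw [← kron_one_mul, sub_eq_iff_eq_add, ← Matrix.add_kronecker, sub_add_cancel]
    rw [e1]
    exact kron_one_norm _
  · intro a
    refine ((htr a).comp hnt).congr fun j => ?_
    haveI := hIN j
    exact (ntr_kron_one (κ := Fin (N j)) (ψ (n j) a)).symm
  · intro j
    rw [Fintype.card_prod, Fintype.card_fin, Fintype.card_fin, Nat.cast_mul]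
    exact s2 j
  · rintro _ ⟨i, rfl⟩
    exact hsq _ i (fun _ => norm_nonneg _) fun j hj => s1 j _ (hdF i j hj)
  · exact hsq _ 0 (fun _ => norm_nonneg _) fun j _ => s3 j
  · exact hsq _ 0 (fun _ => norm_nonneg _) fun j _ => s4 j
  · exact hsq _ 0 (fun _ => norm_nonneg _) fun j _ => s5 j
  · rintro _ ⟨i, rfl⟩
    exact hsq _ i (fun _ => norm_nonneg _) fun j hj => s6 j _ (hdF i j hj)

end QT
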