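import Mathlib
import Pool.Agent.Helper58.QT.Defs
import Pool.Agent.Helper58.QT.MatBasics

/-!
# QT-09 DixOne: averaging one self-adjoint matrix with few unitaries (N independent of the size)
Let `n = card ι`, `T = u diag(μ) uᴴ` (`Matrix.IsHermitian.spectral_theorem`), `μ` sorted decreasingly along an enumeration
`ι ≃ Fin n` (`eigenvalues₀` is antitone). `T ⊗ 1_N` is diagonal in the basis `u ⊗ 1`; enumerate `ι × Fin N` by
`s = i N + j` (`i < n`, `j < N`), so the eigenvalue `ν_s := μ_{s / N}` is decreasing in `s < n N`. For `m < N` let `P_m` be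
the permutation `s ↦ s + n m mod n N` and `U_m = (u ⊗ 1) P_m (u ⊗ 1)ᴴ`. Then `N⁻¹ ∑_m U_mᴴ (T ⊗ 1) U_m` is
`(u ⊗ 1) diag(avg) (u ⊗ 1)ᴴ`, `avg_s = N⁻¹ ∑_m ν_{s + n m mod nN}`, which only depends on `r = s mod n`:
`avg_r = N⁻¹ ∑_{m<N} ν_{r + n m}`. For `r < r' < n`: `0 ≤ avg_r - avg_{r'} ≤ N⁻¹ (ν_0 - ν_{nN-1}) ≤ 2/N` because
`ν_{r' + n m} ≥ ν_{r + n (m+1)}`. The mean of the `avg_r` over `r < n` is `ntr T`. So all `|avg_r - ntr T| ≤ 2/N`.
-/

open scoped Matrix Kronecker ComplexOrder Matrix.Norms.L2Operator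
open Filter Topology

namespace QT

universe u


open Matrix in
private noncomputable def Pm {J : Type} [DecidableEq J] (σ : Equiv.Perm J) : Matrix J J ℂ :=
  Matrix.of fun a b => if a = σ b then 1 else 0

open Matrix in
private theorem pm_diag {J : Type} [Fintype J] [DecidableEq J] (σ : Equiv.Perm J) (d : J → ℂ) :
    (Pm σ)ᴴ * diagonal d * Pm σ = diagonal (fun a => d (σ a)) := by
  ext a b
  rw [Matrix.mul_apply, Finset.sum_eq_single (σ a)]
  · rw [Matrix.mul_diagonal, conjTranspose_apply, Matrix.diagonal_apply]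
    show star (if σ a = σ a then (1 : ℂ) else 0) * d (σ a) * (if σ a = σ b then (1 : ℂ) else 0) = _
    rw [if_pos rfl, star_one, one_mul]
    by_cases h : a = b
    · rw [if_pos h, if_pos (congrArg σ h), mul_one]
    · rw [if_neg h, if_neg (fun h' => h (σ.injective h')), mul_zero]
  · intro c _ hc
    rw [Matrix.mul_diagonal, conjTranspose_apply]
    show star (if c = σ a then (1 : ℂ) else 0) * d c * _ = 0
    rw [if_neg hc, star_zero, zero_mul, zero_mul]
  · intro h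
    exact absurd (Finset.mem_univ _) h

private theorem pm_unit {J : Type} [Fintype J] [DecidableEq J] (σ : Equiv.Perm J) :
    (Pm σ)ᴴ * Pm σ = 1 := by
  have h := pm_diag σ (fun _ => 1)
  rw [Matrix.diagonal_one, mul_one] at h
  exact h

private theorem one_norm {J : Type} [Fintype J] [DecidableEq J] :
    ‖(1 : Matrix J J ℂ)‖ ≤ 1 := by
  rw [← Matrix.diagonal_one, Matrix.l2_opNorm_diagonal]
  refine (pi_norm_le_iff_of_nonneg zero_le_one).2 fun i => ?_
  simp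

private theorem unit_norm {J : Type} [Fintype J] [DecidableEq J] {V : Matrix J J ℂ}
    (h : Vᴴ * V = 1) : ‖V‖ ≤ 1 ∧ ‖Vᴴ‖ ≤ 1 := by
  have h1 : ‖V‖ * ‖V‖ ≤ 1 := by
    have h2 := Matrix.l2_opNorm_conjTranspose_mul_self V
    rw [h] at h2
    rw [← h2]
    exact one_norm
  have h3 : ‖V‖ ≤ 1 := by
    by_contra hcon
    rw [not_le] at hcon
    nlinarith
  refine ⟨h3, ?_⟩
  rw [Matrix.l2_opNorm_conjTranspose]
  exact h3

private theorem avg_pair {n N : ℕ} (F : ℕ → ℝ) (hF : Antitone F) (hb : ∀ s, |F s| ≤ 1)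
    {r r' : ℕ} (hr' : r' < n) (hrr : r ≤ r') :
    0 ≤ ∑ q : Fin N, F (r + n * q) - ∑ q : Fin N, F (r' + n * q) ∧
      ∑ q : Fin N, F (r + n * q) - ∑ q : Fin N, F (r' + n * q) ≤ 2 := by
  rw [Fin.sum_univ_eq_sum_range (fun q => F (r + n * q)) N,
    Fin.sum_univ_eq_sum_range (fun q => F (r' + n * q)) N]
  constructor
  · rw [sub_nonneg]
    exact Finset.sum_le_sum fun q _ => hF (by omega)
  · have h1 : ∑ q ∈ Finset.range N, F (r + n * (q + 1)) ≤
        ∑ q ∈ Finset.range N, F (r' + n * q) := by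
      refine Finset.sum_le_sum fun q _ => hF ?_
      have : n * (q + 1) = n * q + n := by ring
      omega
    have h2 := Finset.sum_range_succ' (fun q => F (r + n * q)) N
    have h3 := Finset.sum_range_succ (fun q => F (r + n * q)) N
    have h4 := abs_le.1 (hb (r + n * 0))
    have h5 := abs_le.1 (hb (r + n * N))
    linarith

private theorem avg_bd {n N : ℕ} (hn : 0 < n) (hN : 0 < N) (F : ℕ → ℝ) (hF : Antitone F)
    (hb : ∀ s, |F s| ≤ 1) (r : Fin n) :
    |(N : ℝ)⁻¹ * ∑ q : Fin N, F (r + n * q) -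
      (∑ r' : Fin n, ∑ q : Fin N, F (r' + n * q)) / (n * N)| ≤ 2 / N := by
  have hn' : (0 : ℝ) < n := by exact_mod_cast hn
  have hN' : (0 : ℝ) < N := by exact_mod_cast hN
  have h1 : ∀ r' : Fin n, |∑ q : Fin N, F (r + n * q) - ∑ q : Fin N, F (r' + n * q)| ≤ 2 := by
    intro r'
    rcases le_total (r : ℕ) r' with h | h
    · have h2 := avg_pair (N := N) F hF hb r'.2 h
      rw [abs_le]
      constructor <;> linarith
    · have h2 := avg_pair (N := N) F hF hb r.2 h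
      rw [abs_le]
      constructor <;> linarith
  have h2 : (N : ℝ)⁻¹ * ∑ q : Fin N, F (r + n * q) -
      (∑ r' : Fin n, ∑ q : Fin N, F (r' + n * q)) / (n * N) =
      (∑ r' : Fin n, (∑ q : Fin N, F (r + n * q) - ∑ q : Fin N, F (r' + n * q))) / (n * N) := by
    rw [Finset.sum_sub_distrib, Finset.sum_const, Finset.card_univ, Fintype.card_fin, nsmul_eq_mul]
    field_simp
  rw [h2, abs_div, abs_of_pos (mul_pos hn' hN'), div_le_div_iff₀ (mul_pos hn' hN') hN']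
  have h3 : |∑ r' : Fin n, (∑ q : Fin N, F (r + n * q) - ∑ q : Fin N, F (r' + n * q))| ≤ n * 2 := by
    refine (Finset.abs_sum_le_sum_abs _ _).trans ?_
    refine (Finset.sum_le_sum fun r' _ => h1 r').trans ?_
    rw [Finset.sum_const, Finset.card_univ, Fintype.card_fin, nsmul_eq_mul]
  nlinarith

/-- the abstract statement: diagonalised form -/
private theorem dix_abs {J : Type} [Fintype J] [DecidableEq J] {n N : ℕ} (hn : 0 < n)
    (hN : 0 < N) (V : Matrix J J ℂ) (hV : Vᴴ * V = 1) (hV' : V * Vᴴ = 1)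
    (Φ : J ≃ Fin N × Fin n) (F : ℕ → ℝ) (hF : Antitone F) (hb : ∀ s, |F s| ≤ 1) (t : ℝ)
    (ht : t = (∑ r' : Fin n, ∑ q : Fin N, F (r' + n * q)) / (n * N)) :
    ∃ U : Fin N → Matrix J J ℂ, (∀ m, (U m)ᴴ * U m = 1) ∧
      ‖(N : ℂ)⁻¹ • ∑ m, (U m)ᴴ * (V * Matrix.diagonal (fun x =>
        ((F ((Φ x).2 + n * (Φ x).1) : ℝ) : ℂ)) * Vᴴ) * U m - (t : ℂ) • 1‖ ≤ 2 / N := by
  have : NeZero N := ⟨hN.ne'⟩
  let σ : Fin N → Equiv.Perm J := fun m =>
    Φ.trans ((Equiv.prodCongr (Equiv.addRight m) (Equiv.refl _)).trans Φ.symm)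
  have hσ : ∀ m x, Φ (σ m x) = ((Φ x).1 + m, (Φ x).2) := by
    intro m x
    show Φ (Φ.symm _) = _
    rw [Equiv.apply_symm_apply]
    rfl
  let d : J → ℂ := fun x => ((F ((Φ x).2 + n * (Φ x).1) : ℝ) : ℂ)
  refine ⟨fun m => V * Pm (σ m) * Vᴴ, fun m => ?_, ?_⟩
  · rw [Matrix.conjTranspose_mul, Matrix.conjTranspose_mul, Matrix.conjTranspose_conjTranspose]
    calc V * ((Pm (σ m))ᴴ * Vᴴ) * (V * Pm (σ m) * Vᴴ) =
        V * ((Pm (σ m))ᴴ * (Vᴴ * V) * Pm (σ m)) * Vᴴ := by simp only [Matrix.mul_assoc]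
      _ = 1 := by rw [hV, mul_one, pm_unit, mul_one, hV']
  · have h1 : ∀ m, (V * Pm (σ m) * Vᴴ)ᴴ * (V * Matrix.diagonal d * Vᴴ) * (V * Pm (σ m) * Vᴴ) =
        V * Matrix.diagonal (fun x => d (σ m x)) * Vᴴ := by
      intro m
      rw [Matrix.conjTranspose_mul, Matrix.conjTranspose_mul, Matrix.conjTranspose_conjTranspose]
      calc V * ((Pm (σ m))ᴴ * Vᴴ) * (V * Matrix.diagonal d * Vᴴ) * (V * Pm (σ m) * Vᴴ) =
          V * ((Pm (σ m))ᴴ * (Vᴴ * V) * Matrix.diagonal d * (Vᴴ * V) * Pm (σ m)) * Vᴴ := by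
            simp only [Matrix.mul_assoc]
        _ = _ := by rw [hV, mul_one, mul_one, pm_diag]
    have h2 : (N : ℂ)⁻¹ • ∑ m, (V * Pm (σ m) * Vᴴ)ᴴ * (V * Matrix.diagonal d * Vᴴ) *
        (V * Pm (σ m) * Vᴴ) - (t : ℂ) • 1 =
        V * Matrix.diagonal (fun x => (N : ℂ)⁻¹ * ∑ m, d (σ m x) - t) * Vᴴ := by
      simp only [h1]
      have h3 : Matrix.diagonal (fun x => (N : ℂ)⁻¹ * ∑ m, d (σ m x) - t) =
          (N : ℂ)⁻¹ • ∑ m, Matrix.diagonal (fun x => d (σ m x)) - (t : ℂ) • 1 := by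
        ext a b
        simp only [Matrix.sub_apply, Matrix.smul_apply, Matrix.sum_apply, Matrix.diagonal_apply,
          Matrix.one_apply, smul_eq_mul]
        by_cases hab : a = b
        · simp only [hab, if_true, mul_one]
        · simp only [hab, if_false, Finset.sum_const_zero, mul_zero, sub_zero]
      rw [h3, Matrix.mul_sub, Matrix.sub_mul, Matrix.mul_smul, Matrix.smul_mul, Matrix.mul_sum,
        Matrix.sum_mul, Matrix.mul_smul, Matrix.smul_mul, mul_one, hV']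
    show ‖(N : ℂ)⁻¹ • ∑ m, (V * Pm (σ m) * Vᴴ)ᴴ * (V * Matrix.diagonal d * Vᴴ) *
        (V * Pm (σ m) * Vᴴ) - (t : ℂ) • 1‖ ≤ 2 / N
    rw [h2]
    have hu := unit_norm hV
    have h4 : ‖Matrix.diagonal (fun x => (N : ℂ)⁻¹ * ∑ m, d (σ m x) - t)‖ ≤ 2 / N := by
      rw [Matrix.l2_opNorm_diagonal]
      refine (pi_norm_le_iff_of_nonneg (by positivity)).2 fun x => ?_
      have h5 : (N : ℂ)⁻¹ * ∑ m, d (σ m x) - t =
          (((N : ℝ)⁻¹ * ∑ q : Fin N, F ((Φ x).2 + n * q) -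
            (∑ r' : Fin n, ∑ q : Fin N, F (r' + n * q)) / (n * N) : ℝ) : ℂ) := by
        rw [ht]
        have h6 : ∑ m, d (σ m x) = ((∑ q : Fin N, F ((Φ x).2 + n * q) : ℝ) : ℂ) := by
          rw [Complex.ofReal_sum, ← Equiv.sum_comp (Equiv.addLeft (Φ x).1)
            (fun q : Fin N => ((F ((Φ x).2 + n * q) : ℝ) : ℂ))]
          refine Finset.sum_congr rfl fun m _ => ?_
          show ((F ((Φ (σ m x)).2 + n * (Φ (σ m x)).1) : ℝ) : ℂ) = _
          rw [hσ]
          rfl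
        rw [h6]
        push_cast
        rfl
      rw [h5, Complex.norm_real, Real.norm_eq_abs]
      exact avg_bd hn hN F hF hb (Φ x).2
    calc ‖V * Matrix.diagonal (fun x => (N : ℂ)⁻¹ * ∑ m, d (σ m x) - t) * Vᴴ‖
        ≤ ‖V * Matrix.diagonal (fun x => (N : ℂ)⁻¹ * ∑ m, d (σ m x) - t)‖ * ‖Vᴴ‖ :=
          Matrix.l2_opNorm_mul _ _
      _ ≤ (‖V‖ * ‖Matrix.diagonal (fun x => (N : ℂ)⁻¹ * ∑ m, d (σ m x) - t)‖) * ‖Vᴴ‖ :=
          mul_le_mul_of_nonneg_right (Matrix.l2_opNorm_mul _ _) (norm_nonneg _)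
      _ ≤ (1 * (2 / N)) * 1 := by
          refine mul_le_mul ?_ hu.2 (norm_nonneg _) (by positivity)
          exact mul_le_mul hu.1 h4 (norm_nonneg _) zero_le_one
      _ = 2 / N := by ring

theorem dix_one {ι : Type} [Fintype ι] [DecidableEq ι] (N : ℕ) (hN : 0 < N) (T : Matrix ι ι ℂ)
    (hT : Tᴴ = T) (h1 : ‖T‖ ≤ 1) :
    ∃ U : Fin N → Matrix (ι × Fin N) (ι × Fin N) ℂ, (∀ m, (U m)ᴴ * U m = 1) ∧
      ‖(N : ℂ)⁻¹ • ∑ m, (U m)ᴴ * (T ⊗ₖ (1 : Matrix (Fin N) (Fin N) ℂ)) * U m - ntr T • 1‖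
        ≤ 2 / N := by
  rcases Nat.eq_zero_or_pos (Fintype.card ι) with hc | hc
  · have : IsEmpty ι := Fintype.card_eq_zero_iff.1 hc
    refine ⟨fun _ => 1, fun m => by rw [Matrix.conjTranspose_one, mul_one], ?_⟩
    rw [Subsingleton.elim ((N : ℂ)⁻¹ • ∑ m, ((fun _ => 1 : Fin N → Matrix (ι × Fin N) (ι × Fin N) ℂ)
      m)ᴴ * (T ⊗ₖ (1 : Matrix (Fin N) (Fin N) ℂ)) * (fun _ => 1 : Fin N →
        Matrix (ι × Fin N) (ι × Fin N) ℂ) m - ntr T • 1) 0, norm_zero]
    positivity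
  set n := Fintype.card ι with hn
  have hA : T.IsHermitian := hT
  obtain ⟨e, he⟩ : ∃ e : ι ≃ Fin n, ∀ i, hA.eigenvalues i = hA.eigenvalues₀ (e i) :=
    ⟨(Fintype.equivOfCardEq (Fintype.card_fin _)).symm, fun i => rfl⟩
  set u : Matrix ι ι ℂ := (hA.eigenvectorUnitary : Matrix ι ι ℂ) with hu
  have huu : uᴴ * u = 1 := by
    have := Unitary.coe_star_mul_self hA.eigenvectorUnitary
    exact this
  have huu' : u * uᴴ = 1 := by
    have := Unitary.coe_mul_star_self hA.eigenvectorUnitary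
    exact this
  have hsp : T = u * Matrix.diagonal (fun i => ((hA.eigenvalues i : ℝ) : ℂ)) * uᴴ := by
    have h := hA.spectral_theorem
    rw [Unitary.conjStarAlgAut_apply] at h
    exact h
  have hev : ∀ i, |hA.eigenvalues i| ≤ 1 := by
    intro i
    have h2 : Matrix.diagonal (fun i => ((hA.eigenvalues i : ℝ) : ℂ)) = uᴴ * T * u := by
      calc Matrix.diagonal (fun i => ((hA.eigenvalues i : ℝ) : ℂ)) =
          (uᴴ * u) * Matrix.diagonal (fun i => ((hA.eigenvalues i : ℝ) : ℂ)) * (uᴴ * u) := by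
            rw [huu, one_mul, mul_one]
        _ = uᴴ * (u * Matrix.diagonal (fun i => ((hA.eigenvalues i : ℝ) : ℂ)) * uᴴ) * u := by
            simp only [Matrix.mul_assoc]
        _ = uᴴ * T * u := by rw [← hsp]
    have h3 : ‖Matrix.diagonal (fun i => ((hA.eigenvalues i : ℝ) : ℂ))‖ ≤ 1 := by
      rw [h2]
      have hn1 := unit_norm huu
      calc ‖uᴴ * T * u‖ ≤ ‖uᴴ * T‖ * ‖u‖ := Matrix.l2_opNorm_mul _ _
        _ ≤ (‖uᴴ‖ * ‖T‖) * ‖u‖ :=
            mul_le_mul_of_nonneg_right (Matrix.l2_opNorm_mul _ _) (norm_nonneg _)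
        _ ≤ (1 * 1) * 1 := by
            refine mul_le_mul ?_ hn1.1 (norm_nonneg _) (by norm_num)
            exact mul_le_mul hn1.2 h1 (norm_nonneg _) zero_le_one
        _ = 1 := by norm_num
    rw [Matrix.l2_opNorm_diagonal] at h3
    have h4 := (norm_le_pi_norm (fun i => ((hA.eigenvalues i : ℝ) : ℂ)) i).trans h3
    rwa [Complex.norm_real, Real.norm_eq_abs] at h4
  let F : ℕ → ℝ := fun s => hA.eigenvalues₀ ⟨min (s / N) (n - 1), by omega⟩
  have hF : Antitone F := by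
    intro s s' hss
    apply hA.eigenvalues₀_antitone
    show min (s / N) (n - 1) ≤ min (s' / N) (n - 1)
    exact min_le_min_right _ (Nat.div_le_div_right hss)
  have hb : ∀ s, |F s| ≤ 1 := by
    intro s
    have h2 := hev (e.symm ⟨min (s / N) (n - 1), by omega⟩)
    rw [he, Equiv.apply_symm_apply] at h2
    exact h2
  let Φ : ι × Fin N ≃ Fin N × Fin n := (Equiv.prodCongr e (Equiv.refl (Fin N))).trans
    (finProdFinEquiv.trans ((finCongr (mul_comm n N)).trans finProdFinEquiv.symm))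
  have hΦ : ∀ x : ι × Fin N, F ((Φ x).2 + n * (Φ x).1) = hA.eigenvalues x.1 := by
    intro x
    have h2 : finProdFinEquiv (Φ x) = finCongr (mul_comm n N) (finProdFinEquiv (e x.1, x.2)) := by
      show finProdFinEquiv (finProdFinEquiv.symm _) = _
      rw [Equiv.apply_symm_apply]
      rfl
    have h3 : ((Φ x).2 : ℕ) + n * (Φ x).1 = x.2 + N * (e x.1) := by
      have := congrArg Fin.val h2
      simpa [finProdFinEquiv] using this
    have h4 : ((x.2 : ℕ) + N * (e x.1)) / N = e x.1 := by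
      rw [Nat.add_mul_div_left _ _ hN, Nat.div_eq_of_lt x.2.2, zero_add]
    rw [h3, he]
    show hA.eigenvalues₀ ⟨min (((x.2 : ℕ) + N * (e x.1)) / N) (n - 1), _⟩ = _
    congr 1
    apply Fin.ext
    show min (((x.2 : ℕ) + N * (e x.1)) / N) (n - 1) = e x.1
    rw [h4]
    have := (e x.1).2
    omega
  have hsum : ∑ r' : Fin n, ∑ q : Fin N, F (r' + n * q) = N * ∑ i, hA.eigenvalues i := by
    calc ∑ r' : Fin n, ∑ q : Fin N, F (r' + n * q) = ∑ q : Fin N, ∑ r' : Fin n, F (r' + n * q) :=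
          Finset.sum_comm
      _ = ∑ p : Fin N × Fin n, F (p.2 + n * p.1) :=
          (Fintype.sum_prod_type (fun p : Fin N × Fin n => F (p.2 + n * p.1))).symm
      _ = ∑ x : ι × Fin N, F ((Φ x).2 + n * (Φ x).1) := (Equiv.sum_comp Φ _).symm
      _ = ∑ x : ι × Fin N, hA.eigenvalues x.1 := Finset.sum_congr rfl fun x _ => hΦ x
      _ = N * ∑ i, hA.eigenvalues i := by
          rw [Fintype.sum_prod_type]
          simp only [Finset.sum_const, Finset.card_univ, Fintype.card_fin, nsmul_eq_mul,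
            Finset.mul_sum]
  set V : Matrix (ι × Fin N) (ι × Fin N) ℂ := u ⊗ₖ (1 : Matrix (Fin N) (Fin N) ℂ) with hVdef
  have hVs : Vᴴ = uᴴ ⊗ₖ (1 : Matrix (Fin N) (Fin N) ℂ) := by
    rw [hVdef, Matrix.conjTranspose_kronecker, Matrix.conjTranspose_one]
  have hV : Vᴴ * V = 1 := by
    rw [hVs, hVdef, ← Matrix.mul_kronecker_mul, huu, one_mul, Matrix.one_kronecker_one]
  have hV' : V * Vᴴ = 1 := by
    rw [hVs, hVdef, ← Matrix.mul_kronecker_mul, huu', one_mul, Matrix.one_kronecker_one]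
  have hTk : T ⊗ₖ (1 : Matrix (Fin N) (Fin N) ℂ) =
      V * Matrix.diagonal (fun x => ((F ((Φ x).2 + n * (Φ x).1) : ℝ) : ℂ)) * Vᴴ := by
    have h2 : Matrix.diagonal (fun x => ((F ((Φ x).2 + n * (Φ x).1) : ℝ) : ℂ)) =
        Matrix.diagonal (fun i => ((hA.eigenvalues i : ℝ) : ℂ)) ⊗ₖ
          (1 : Matrix (Fin N) (Fin N) ℂ) := by
      rw [← Matrix.diagonal_one, Matrix.diagonal_kronecker_diagonal]
      congr 1
      funext x
      rw [hΦ, mul_one]
    rw [h2, hVs, hVdef, ← Matrix.mul_kronecker_mul, ← Matrix.mul_kronecker_mul, ← hsp, one_mul,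
      one_mul]
  have hn' : (0 : ℝ) < n := by exact_mod_cast hc
  have hN' : (0 : ℝ) < N := by exact_mod_cast hN
  obtain ⟨U, hU1, hU2⟩ := dix_abs hc hN V hV hV' Φ F hF hb
    ((∑ i, hA.eigenvalues i) / n) (by rw [hsum]; field_simp)
  refine ⟨U, hU1, ?_⟩
  have hntr : ntr T = (((∑ i, hA.eigenvalues i) / n : ℝ) : ℂ) := by
    unfold ntr
    rw [hA.trace_eq_sum_eigenvalues]
    push_cast
    rfl
  rw [hntr, hTk]
  exact hU2

end QT
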