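import Mathlib
import Pool.Agent.Helper58.QT.Defs
import Pool.Agent.Helper58.QT.MatBasics
import Pool.Agent.Helper58.QT.DixOne

/-!
# QT-10 Dix: uniform Dixmier averaging for finitely many matrices
Induction on the number of SELF-ADJOINT matrices `Y_1..Y_s` (then split `Y = Re + i Im`, error doubles).
Step: unitaries `u_m`, `m < L`, on `ι × Fin L` good for `Y_1..Y_s` up to `ε`. `T' := L⁻¹ ∑ u_mᴴ (Y_{s+1} ⊗ 1) u_m` is
self-adjoint, `‖T'‖ ≤ 1`, `ntr T' = ntr Y_{s+1}`. Apply `dix_one` to `T'` (index type `ι × Fin L`) with `N ≥ 2/ε`: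
unitaries `U_{m'}` on `(ι × Fin L) × Fin N`. New family `u'_{(m,m')} = (u_m ⊗ 1_N) U_{m'}`: it has `L N` members and acts
on `ι × (Fin L × Fin N) ≃ ι × Fin (L N)`. `(L N)⁻¹ ∑ u'ᴴ (Y_i ⊗ 1) u' = N⁻¹ ∑_{m'} U_{m'}ᴴ ((L⁻¹ ∑_m u_mᴴ (Y_i ⊗ 1) u_m) ⊗ 1) U_{m'}`
is within `ε` of `ntr Y_i` for `i ≤ s` (unital contractive map) and within `2/N` for `i = s+1`. `finProdFinEquiv` for the
reindexing. `s = 0`: `L = 1`, `u = 1`.
-/

open scoped Matrix Kronecker ComplexOrder Matrix.Norms.L2Operator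
open Filter Topology

namespace QT

universe u

/-- the average of the conjugates of `X ⊗ 1` -/
noncomputable def dixAvg {ι : Type} [Fintype ι] [DecidableEq ι] {L : ℕ}
    (u : Fin L → Matrix (ι × Fin L) (ι × Fin L) ℂ) (X : Matrix ι ι ℂ) :
    Matrix (ι × Fin L) (ι × Fin L) ℂ :=
  (L : ℂ)⁻¹ • ∑ m, (u m)ᴴ * (X ⊗ₖ (1 : Matrix (Fin L) (Fin L) ℂ)) * u m

section
variable {ι : Type} [Fintype ι] [DecidableEq ι] {L : ℕ}

theorem dixAvg_add (u : Fin L → Matrix (ι × Fin L) (ι × Fin L) ℂ) (X Y : Matrix ι ι ℂ) :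
    dixAvg u (X + Y) = dixAvg u X + dixAvg u Y := by
  unfold dixAvg
  rw [← smul_add, ← Finset.sum_add_distrib]
  congr 1
  refine Finset.sum_congr rfl fun m _ => ?_
  rw [Matrix.add_kronecker, Matrix.mul_add, Matrix.add_mul]

theorem dixAvg_smul (u : Fin L → Matrix (ι × Fin L) (ι × Fin L) ℂ) (c : ℂ) (X : Matrix ι ι ℂ) :
    dixAvg u (c • X) = c • dixAvg u X := by
  unfold dixAvg
  have h : ∑ m, (u m)ᴴ * ((c • X) ⊗ₖ (1 : Matrix (Fin L) (Fin L) ℂ)) * u m =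
      c • ∑ m, (u m)ᴴ * (X ⊗ₖ (1 : Matrix (Fin L) (Fin L) ℂ)) * u m := by
    rw [Finset.smul_sum]
    refine Finset.sum_congr rfl fun m _ => ?_
    rw [Matrix.smul_kronecker, Matrix.mul_smul, Matrix.smul_mul]
  rw [h, smul_comm]

theorem dix_norm_one_le {κ : Type} [Fintype κ] [DecidableEq κ] : ‖(1 : Matrix κ κ ℂ)‖ ≤ 1 := by
  have h := Matrix.l2_opNorm_conjTranspose_mul_self (1 : Matrix κ κ ℂ)
  rw [Matrix.conjTranspose_one, Matrix.one_mul] at h
  nlinarith [norm_nonneg (1 : Matrix κ κ ℂ)]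

theorem dix_norm_isom_le {κ : Type} [Fintype κ] [DecidableEq κ] {U : Matrix κ κ ℂ} (hU : Uᴴ * U = 1) :
    ‖U‖ ≤ 1 := by
  have h := Matrix.l2_opNorm_conjTranspose_mul_self U
  rw [hU] at h
  have h1 : ‖(1 : Matrix κ κ ℂ)‖ ≤ 1 := dix_norm_one_le
  nlinarith [norm_nonneg U]

theorem dix_norm_avg_le {κ : Type} [Fintype κ] [DecidableEq κ] {N : ℕ} (hN : 0 < N)
    (U : Fin N → Matrix κ κ ℂ) (hU : ∀ m, (U m)ᴴ * U m = 1) (Z : Matrix κ κ ℂ) :
    ‖(N : ℂ)⁻¹ • ∑ m, (U m)ᴴ * Z * U m‖ ≤ ‖Z‖ := by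
  have hN' : (0 : ℝ) < N := by exact_mod_cast hN
  rw [norm_smul, norm_inv, Complex.norm_natCast]
  have h1 : ‖∑ m, (U m)ᴴ * Z * U m‖ ≤ N * ‖Z‖ := by
    refine (norm_sum_le _ _).trans ?_
    calc ∑ m, ‖(U m)ᴴ * Z * U m‖ ≤ ∑ _m : Fin N, ‖Z‖ := by
          refine Finset.sum_le_sum fun m _ => ?_
          have h2 : ‖U m‖ ≤ 1 := dix_norm_isom_le (hU m)
          have h3 : ‖(U m)ᴴ‖ ≤ 1 := by rw [Matrix.l2_opNorm_conjTranspose]; exact h2
          calc ‖(U m)ᴴ * Z * U m‖ ≤ ‖(U m)ᴴ * Z‖ * ‖U m‖ := Matrix.l2_opNorm_mul _ _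
            _ ≤ (‖(U m)ᴴ‖ * ‖Z‖) * ‖U m‖ :=
              mul_le_mul_of_nonneg_right (Matrix.l2_opNorm_mul _ _) (norm_nonneg _)
            _ ≤ (1 * ‖Z‖) * 1 := by gcongr
            _ = ‖Z‖ := by ring
      _ = N * ‖Z‖ := by simp
  calc (N : ℝ)⁻¹ * ‖∑ m, (U m)ᴴ * Z * U m‖ ≤ (N : ℝ)⁻¹ * (N * ‖Z‖) := by gcongr
    _ = ‖Z‖ := by field_simp

theorem dix_avg_one {κ : Type} [Fintype κ] [DecidableEq κ] {N : ℕ} (hN : 0 < N)
    (U : Fin N → Matrix κ κ ℂ) (hU : ∀ m, (U m)ᴴ * U m = 1) (c : ℂ) :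
    (N : ℂ)⁻¹ • ∑ m, (U m)ᴴ * (c • (1 : Matrix κ κ ℂ)) * U m = c • 1 := by
  have hN' : (N : ℂ) ≠ 0 := by exact_mod_cast hN.ne'
  have h : ∀ m, (U m)ᴴ * (c • (1 : Matrix κ κ ℂ)) * U m = c • 1 := by
    intro m
    rw [Matrix.mul_smul, Matrix.mul_one, Matrix.smul_mul, hU m]
  rw [Finset.sum_congr rfl fun m _ => h m, Finset.sum_const, Finset.card_univ, Fintype.card_fin,
    ← Nat.cast_smul_eq_nsmul ℂ, smul_smul, inv_mul_cancel₀ hN', one_smul]

end

/-- the equivalence used for the reindexing -/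
def dixEquiv (ι : Type) (L N : ℕ) : (ι × Fin L) × Fin N ≃ ι × Fin (L * N) :=
  (Equiv.prodAssoc ι (Fin L) (Fin N)).trans (Equiv.prodCongr (Equiv.refl ι) finProdFinEquiv)

theorem kron_dixEquiv {ι : Type} {L N : ℕ} (X : Matrix ι ι ℂ) :
    X ⊗ₖ (1 : Matrix (Fin (L * N)) (Fin (L * N)) ℂ) =
      ((X ⊗ₖ (1 : Matrix (Fin L) (Fin L) ℂ)) ⊗ₖ (1 : Matrix (Fin N) (Fin N) ℂ)).submatrix
        (dixEquiv ι L N).symm (dixEquiv ι L N).symm := by
  ext ⟨a, k⟩ ⟨b, l⟩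
  obtain ⟨⟨k1, k2⟩, rfl⟩ := finProdFinEquiv.surjective k
  obtain ⟨⟨l1, l2⟩, rfl⟩ := finProdFinEquiv.surjective l
  have ha : (dixEquiv ι L N).symm (a, finProdFinEquiv (k1, k2)) = ((a, k1), k2) := by
    rw [Equiv.symm_apply_eq]; rfl
  have hb : (dixEquiv ι L N).symm (b, finProdFinEquiv (l1, l2)) = ((b, l1), l2) := by
    rw [Equiv.symm_apply_eq]; rfl
  rw [Matrix.submatrix_apply, ha, hb]
  simp only [Matrix.kroneckerMap_apply, Matrix.one_apply, EmbeddingLike.apply_eq_iff_eq,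
    Prod.mk.injEq]
  by_cases h1 : k1 = l1 <;> by_cases h2 : k2 = l2 <;> simp [h1, h2]

theorem dix_step {ι : Type} [Fintype ι] [DecidableEq ι] {L N : ℕ} (hL : 0 < L) (hN : 0 < N)
    (u : Fin L → Matrix (ι × Fin L) (ι × Fin L) ℂ) (hu : ∀ m, (u m)ᴴ * u m = 1)
    (U : Fin N → Matrix ((ι × Fin L) × Fin N) ((ι × Fin L) × Fin N) ℂ)
    (hU : ∀ m, (U m)ᴴ * U m = 1) :
    ∃ u' : Fin (L * N) → Matrix (ι × Fin (L * N)) (ι × Fin (L * N)) ℂ,
      (∀ m, (u' m)ᴴ * u' m = 1) ∧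
      ∀ X : Matrix ι ι ℂ, dixAvg u' X =
        ((N : ℂ)⁻¹ • ∑ m, (U m)ᴴ * (dixAvg u X ⊗ₖ (1 : Matrix (Fin N) (Fin N) ℂ)) *
          U m).submatrix (dixEquiv ι L N).symm (dixEquiv ι L N).symm := by
  set e := dixEquiv ι L N with he
  set v : Fin L × Fin N → Matrix ((ι × Fin L) × Fin N) ((ι × Fin L) × Fin N) ℂ :=
    fun p => (u p.1 ⊗ₖ (1 : Matrix (Fin N) (Fin N) ℂ)) * U p.2 with hv
  have hvH : ∀ p : Fin L × Fin N, (v p)ᴴ = (U p.2)ᴴ * ((u p.1)ᴴ ⊗ₖ (1 : Matrix (Fin N) (Fin N) ℂ)) := by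
    intro p
    simp only [hv]
    rw [Matrix.conjTranspose_mul, Matrix.conjTranspose_kronecker, Matrix.conjTranspose_one]
  have hconj : ∀ (p : Fin L × Fin N) (X : Matrix (ι × Fin L) (ι × Fin L) ℂ),
      (v p)ᴴ * (X ⊗ₖ (1 : Matrix (Fin N) (Fin N) ℂ)) * v p =
        (U p.2)ᴴ * (((u p.1)ᴴ * X * u p.1) ⊗ₖ (1 : Matrix (Fin N) (Fin N) ℂ)) * U p.2 := by
    intro p X
    rw [hvH, kron_one_mul, kron_one_mul]
    simp only [hv, Matrix.mul_assoc]
  refine ⟨fun k => (v (finProdFinEquiv.symm k)).submatrix e.symm e.symm, ?_, ?_⟩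
  · intro k
    set p := finProdFinEquiv.symm k with hp
    have h1 : (v p)ᴴ * v p = 1 := by
      have h2 := hconj p 1
      rw [Matrix.one_kronecker_one, Matrix.mul_one, Matrix.mul_one, hu, Matrix.one_kronecker_one,
        Matrix.mul_one, hU] at h2
      exact h2
    simp only [Matrix.conjTranspose_submatrix]
    rw [Matrix.submatrix_mul_equiv, h1, Matrix.submatrix_one_equiv]
  · intro X
    unfold dixAvg
    rw [kron_dixEquiv (L := L) (N := N) X, ← he]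
    have h1 : ∀ k : Fin (L * N),
        ((v (finProdFinEquiv.symm k)).submatrix e.symm e.symm)ᴴ *
          ((X ⊗ₖ (1 : Matrix (Fin L) (Fin L) ℂ)) ⊗ₖ (1 : Matrix (Fin N) (Fin N) ℂ)).submatrix
            e.symm e.symm * (v (finProdFinEquiv.symm k)).submatrix e.symm e.symm =
        ((U (finProdFinEquiv.symm k).2)ᴴ *
          (((u (finProdFinEquiv.symm k).1)ᴴ * (X ⊗ₖ (1 : Matrix (Fin L) (Fin L) ℂ)) *
            u (finProdFinEquiv.symm k).1) ⊗ₖ (1 : Matrix (Fin N) (Fin N) ℂ)) *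
          U (finProdFinEquiv.symm k).2).submatrix e.symm e.symm := by
      intro k
      rw [Matrix.conjTranspose_submatrix, Matrix.submatrix_mul_equiv, Matrix.submatrix_mul_equiv,
        hconj]
    rw [Finset.sum_congr rfl fun k _ => h1 k]
    set g : Fin L × Fin N → Matrix ((ι × Fin L) × Fin N) ((ι × Fin L) × Fin N) ℂ := fun p =>
      (U p.2)ᴴ * (((u p.1)ᴴ * (X ⊗ₖ (1 : Matrix (Fin L) (Fin L) ℂ)) * u p.1) ⊗ₖ
        (1 : Matrix (Fin N) (Fin N) ℂ)) * U p.2 with hg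
    have h2 : ∑ k : Fin (L * N), (g (finProdFinEquiv.symm k)).submatrix e.symm e.symm =
        (∑ m' : Fin N, ∑ m : Fin L, g (m, m')).submatrix e.symm e.symm := by
      rw [← Finset.sum_product_right', ← Finset.univ_product_univ.symm]
      rw [Equiv.sum_comp finProdFinEquiv.symm fun p => (g p).submatrix e.symm e.symm]
      ext a b
      simp [Matrix.sum_apply]
    rw [h2]
    have h3 : ∀ m' : Fin N, ∑ m : Fin L, g (m, m') = (L : ℂ) • ((U m')ᴴ *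
        (((L : ℂ)⁻¹ • ∑ m, (u m)ᴴ * (X ⊗ₖ (1 : Matrix (Fin L) (Fin L) ℂ)) * u m) ⊗ₖ
          (1 : Matrix (Fin N) (Fin N) ℂ)) * U m') := by
      intro m'
      have hL' : (L : ℂ) ≠ 0 := by exact_mod_cast hL.ne'
      rw [Matrix.smul_kronecker, Matrix.mul_smul, Matrix.smul_mul, smul_smul, mul_inv_cancel₀ hL',
        one_smul]
      simp only [hg]
      rw [← Finset.sum_mul, ← Finset.mul_sum]
      congr 2
      ext a b
      simp [Matrix.kroneckerMap_apply, Matrix.sum_apply, Finset.sum_mul]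
    rw [Finset.sum_congr rfl fun m' _ => h3 m', ← Finset.smul_sum]
    have hN' : (N : ℂ) ≠ 0 := by exact_mod_cast hN.ne'
    have hL' : (L : ℂ) ≠ 0 := by exact_mod_cast hL.ne'
    simp only [Matrix.submatrix_smul, Pi.smul_apply, smul_smul]
    congr 1
    push_cast
    field_simp

theorem dix_selfadj (s : ℕ) (ε : ℝ) (hε : 0 < ε) :
    ∃ L : ℕ, 0 < L ∧ ∀ (ι : Type) [Fintype ι] [DecidableEq ι] (Y : Fin s → Matrix ι ι ℂ),
      (∀ i, (Y i)ᴴ = Y i) → (∀ i, ‖Y i‖ ≤ 1) →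
      ∃ u : Fin L → Matrix (ι × Fin L) (ι × Fin L) ℂ, (∀ m, (u m)ᴴ * u m = 1) ∧
        ∀ i, ‖dixAvg u (Y i) - ntr (Y i) • 1‖ ≤ ε := by
  induction s with
  | zero =>
    refine ⟨1, one_pos, fun ι _ _ Y _ _ => ⟨fun _ => 1, fun _ => by simp, fun i => i.elim0⟩⟩
  | succ s ih =>
    obtain ⟨L, hL, H⟩ := ih
    obtain ⟨N, hN⟩ := exists_nat_gt (2 / ε)
    have hN0 : (0 : ℝ) < N := lt_trans (by positivity) hN
    have hNpos : 0 < N := by exact_mod_cast hN0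
    refine ⟨L * N, Nat.mul_pos hL hNpos, fun ι _ _ Y hY h1 => ?_⟩
    obtain ⟨u, hu, hA⟩ := H ι (fun i => Y i.castSucc) (fun i => hY _) (fun i => h1 _)
    have : Nonempty (Fin L) := ⟨⟨0, hL⟩⟩
    set T := dixAvg u (Y (Fin.last s)) with hT
    have hTs : Tᴴ = T := by
      rw [hT]
      unfold dixAvg
      rw [Matrix.conjTranspose_smul, Matrix.conjTranspose_sum]
      congr 1
      · simp
      · refine Finset.sum_congr rfl fun m _ => ?_
        rw [Matrix.conjTranspose_mul, Matrix.conjTranspose_mul, Matrix.conjTranspose_conjTranspose,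
          Matrix.conjTranspose_kronecker, Matrix.conjTranspose_one, hY, Matrix.mul_assoc]
    have hT1 : ‖T‖ ≤ 1 := by
      refine (dix_norm_avg_le hL u hu _).trans ((kron_one_norm _).trans (h1 _))
    have hTn : ntr T = ntr (Y (Fin.last s)) := by
      have hL' : (L : ℂ) ≠ 0 := by exact_mod_cast hL.ne'
      have hm : ∀ m, ntr ((u m)ᴴ * (Y (Fin.last s) ⊗ₖ (1 : Matrix (Fin L) (Fin L) ℂ)) * u m) =
          ntr (Y (Fin.last s)) := by
        intro m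
        have hu' : u m * (u m)ᴴ = 1 := mul_eq_one_comm.1 (hu m)
        rw [Matrix.mul_assoc, ntr_mul_comm, Matrix.mul_assoc, hu', Matrix.mul_one, ntr_kron_one]
      have hsum : ∀ (S : Finset (Fin L)) (f : Fin L → Matrix (ι × Fin L) (ι × Fin L) ℂ),
          ntr (∑ m ∈ S, f m) = ∑ m ∈ S, ntr (f m) := by
        intro S f
        unfold ntr
        rw [Matrix.trace_sum, Finset.sum_div]
      rw [hT]
      unfold dixAvg
      rw [ntr_smul, hsum, Finset.sum_congr rfl fun m _ => hm m, Finset.sum_const,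
        Finset.card_univ, Fintype.card_fin, nsmul_eq_mul, ← mul_assoc, inv_mul_cancel₀ hL', one_mul]
    obtain ⟨U, hU, hB⟩ := dix_one N hNpos T hTs hT1
    obtain ⟨u', hu', hC⟩ := dix_step hL hNpos u hu U hU
    refine ⟨u', hu', fun i => ?_⟩
    have hnorm : ∀ (Z : Matrix ((ι × Fin L) × Fin N) ((ι × Fin L) × Fin N) ℂ) (c : ℂ),
        ‖Z.submatrix (dixEquiv ι L N).symm (dixEquiv ι L N).symm - c • 1‖ = ‖Z - c • 1‖ := by
      intro Z c
      rw [← reindex_norm (dixEquiv ι L N) (Z - c • 1)]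
      congr 1
      ext p q
      simp only [Matrix.sub_apply, Matrix.submatrix_apply, Matrix.smul_apply, Matrix.one_apply,
        EmbeddingLike.apply_eq_iff_eq]
    rw [hC, hnorm]
    refine Fin.lastCases ?_ (fun j => ?_) i
    · rw [← hT, ← hTn]
      refine hB.trans ?_
      rw [div_le_iff₀ hN0]
      rw [div_lt_iff₀ hε] at hN
      linarith
    · have hE := hA j
      set A := dixAvg u (Y j.castSucc) with hAdef
      set c := ntr (Y j.castSucc) with hc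
      have h3 : (N : ℂ)⁻¹ • ∑ m, (U m)ᴴ * (A ⊗ₖ (1 : Matrix (Fin N) (Fin N) ℂ)) * U m - c • 1 =
          (N : ℂ)⁻¹ • ∑ m, (U m)ᴴ * ((A - c • 1) ⊗ₖ (1 : Matrix (Fin N) (Fin N) ℂ)) * U m := by
        rw [← dix_avg_one hNpos U hU c, ← smul_sub, ← Finset.sum_sub_distrib]
        congr 1
        refine Finset.sum_congr rfl fun m _ => ?_
        rw [← Matrix.sub_mul, ← Matrix.mul_sub]
        congr 2
        ext ⟨a, b⟩ ⟨a', b'⟩
        simp only [Matrix.sub_apply, Matrix.kroneckerMap_apply, Matrix.smul_apply, smul_eq_mul,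
          Matrix.one_apply, Prod.mk.injEq]
        by_cases h4 : a = a' <;> by_cases h5 : b = b' <;> simp [h4, h5]
      rw [h3]
      exact (dix_norm_avg_le hNpos U hU _).trans ((kron_one_norm _).trans hE)

theorem dix (s : ℕ) (ε : ℝ) (hε : 0 < ε) :
    ∃ L : ℕ, 0 < L ∧ ∀ (ι : Type) [Fintype ι] [DecidableEq ι] (Y : Fin s → Matrix ι ι ℂ),
      (∀ i, ‖Y i‖ ≤ 1) →
      ∃ u : Fin L → Matrix (ι × Fin L) (ι × Fin L) ℂ, (∀ m, (u m)ᴴ * u m = 1) ∧
        ∀ i, ‖(L : ℂ)⁻¹ • ∑ m, (u m)ᴴ * (Y i ⊗ₖ (1 : Matrix (Fin L) (Fin L) ℂ)) * u m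
          - ntr (Y i) • 1‖ ≤ ε := by
  obtain ⟨L, hL, H⟩ := dix_selfadj (s + s) (ε / 2) (half_pos hε)
  refine ⟨L, hL, fun ι _ _ Y hY => ?_⟩
  set R : Fin s → Matrix ι ι ℂ := fun i => (1 / 2 : ℂ) • (Y i + (Y i)ᴴ) with hR
  set J : Fin s → Matrix ι ι ℂ := fun i => (-Complex.I / 2 : ℂ) • (Y i - (Y i)ᴴ) with hJ
  have hY' : ∀ i, ‖(Y i)ᴴ‖ ≤ 1 := fun i => by rw [Matrix.l2_opNorm_conjTranspose]; exact hY i
  have hRs : ∀ i, (R i)ᴴ = R i := by
    intro i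
    simp only [hR]
    rw [Matrix.conjTranspose_smul, Matrix.conjTranspose_add, Matrix.conjTranspose_conjTranspose,
      add_comm]
    congr 1
    simp
  have hJs : ∀ i, (J i)ᴴ = J i := by
    intro i
    simp only [hJ]
    rw [Matrix.conjTranspose_smul, Matrix.conjTranspose_sub, Matrix.conjTranspose_conjTranspose]
    have h1 : star (-Complex.I / 2 : ℂ) = -(-Complex.I / 2) := by
      simp [Complex.ext_iff]
      norm_num
    rw [h1, neg_smul, ← smul_neg, neg_sub]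
  have hRn : ∀ i, ‖R i‖ ≤ 1 := by
    intro i
    simp only [hR]
    rw [norm_smul]
    have h1 : ‖(1 / 2 : ℂ)‖ = 1 / 2 := by simp
    have h2 := norm_add_le (Y i) (Y i)ᴴ
    rw [h1]
    linarith [hY i, hY' i]
  have hJn : ∀ i, ‖J i‖ ≤ 1 := by
    intro i
    simp only [hJ]
    rw [norm_smul]
    have h1 : ‖(-Complex.I / 2 : ℂ)‖ = 1 / 2 := by simp
    have h2 := norm_sub_le (Y i) (Y i)ᴴ
    rw [h1]
    linarith [hY i, hY' i]
  have hsplit : ∀ i, Y i = R i + Complex.I • J i := by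
    intro i
    simp only [hR, hJ]
    rw [smul_smul]
    have h1 : Complex.I * (-Complex.I / 2) = 1 / 2 := by
      rw [mul_div_assoc', mul_neg, Complex.I_mul_I]; norm_num
    rw [h1, ← smul_add, add_add_sub_cancel, ← two_smul ℂ (Y i), smul_smul]
    norm_num
  obtain ⟨u, hu, hA⟩ := H ι (Fin.append R J)
    (fun i => by
      refine Fin.addCases (fun j => ?_) (fun j => ?_) i
      · rw [Fin.append_left]; exact hRs j
      · rw [Fin.append_right]; exact hJs j)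
    (fun i => by
      refine Fin.addCases (fun j => ?_) (fun j => ?_) i
      · rw [Fin.append_left]; exact hRn j
      · rw [Fin.append_right]; exact hJn j)
  refine ⟨u, hu, fun i => ?_⟩
  have h1 := hA (Fin.castAdd s i)
  have h2 := hA (Fin.natAdd s i)
  rw [Fin.append_left] at h1
  rw [Fin.append_right] at h2
  change ‖dixAvg u (Y i) - ntr (Y i) • 1‖ ≤ ε
  have h3 : ∀ A B : Matrix ι ι ℂ, dixAvg u (A + Complex.I • B) - ntr (A + Complex.I • B) • 1 =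
      (dixAvg u A - ntr A • 1) + Complex.I • (dixAvg u B - ntr B • 1) := by
    intro A B
    rw [dixAvg_add, dixAvg_smul, ntr_add, ntr_smul, add_smul, smul_sub, smul_smul]
    abel
  rw [hsplit i, h3]
  refine (norm_add_le _ _).trans ?_
  rw [norm_smul, Complex.norm_I, one_mul]
  linarith

end QT
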