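import Mathlib
import Pool.Agent.Helper58.QT.Defs
import Pool.Agent.Helper58.QT.CPBasics

/-!
# QT-11 TauVec: completely positive maps into matrices are limits of `a ↦ [∑_l τ(x_il* a x_jl)]` (Hahn-Banach)
Finite-dimensional REAL vector space `W` of functions `F × Fin d × Fin d → ℂ`. `K` = set of all
`(a,i,j) ↦ ∑_{l<m} τ(x_il* a x_jl)` (all `m`, `x`): a convex cone (concatenate the lists, multiply `x` by `sqrt t`).
If `v(a,i,j) = R a i j` is not in the closure of `K`, then (`geometric_hahn_banach_point_closed` or similar, cone) there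
are `w_{a,i,j} ∈ ℂ` with `Re ∑ w v < 0` and `Re ∑ w k ≥ 0` for all `k ∈ K`. Put `c_ij = ∑_a w_{a,i,j} a ∈ A`,
`b_ij = (c_ij + star c_ji)/2`: a self-adjoint matrix `b` over `A`. Then `Re ∑_ij τ(x_i* c_ij x_j) = ∑_ij τ(x_i* b_ij x_j) ≥ 0`
for all `x : Fin d → A`, hence `∑_k ∑_ij τ(z_ik* b_ij z_jk) ≥ 0` for every `z ∈ M_d(A)` (apply it to the columns), i.e.
`T(z* b z) ≥ 0`, `T(y) = ∑_i τ(y_ii)`. In the C*-algebra `CStarMatrix (Fin d) (Fin d) A` (order by
`letI := CStarAlgebra.spectralOrder A`, `spectralOrderedRing`) let `z = b⁻` (negative part): `z b z = - z³`, so `T(z³) ≤ 0`; but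
`z³ = (z sqrt z)* (z sqrt z)` and `T(y* y) = ∑_{i,k} τ(y_ki* y_ki) ≥ 0` with equality only for `y = 0` (faithful). So
`z sqrt z = 0`, `z = 0`, `b ≥ 0`, `b = y* y`. Finally `Re ∑ w v = Re ∑_ij R(c_ij)_ij = ∑_ij R(b_ij)_ij` (`isCP_star`)
`= ⟨(R(b_ij))_ij ξ, ξ⟩ ≥ 0` with `ξ = ⊕ e_i` (`isCP_iff` for `b = yᴴ y`). Contradiction.
-/

open scoped Matrix Kronecker ComplexOrder Matrix.Norms.L2Operator
open Filter Topology

namespace QT

universe u


private theorem tau_star {A : Type u} [CStarAlgebra A] (τ : TracialState A) (a : A) :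
    τ.toFun (star a) = star (τ.toFun a) := by
  have h0 := (Complex.nonneg_iff.1 (τ.pos a)).2
  have h1 := (Complex.nonneg_iff.1 (τ.pos (1 + a))).2
  have h2 := (Complex.nonneg_iff.1 (τ.pos (1 + Complex.I • a))).2
  have e1 : star (1 + a) * (1 + a) = 1 + a + star a + star a * a := by
    rw [star_add, star_one]
    noncomm_ring
  have e2 : star (1 + Complex.I • a) * (1 + Complex.I • a) =
      1 + Complex.I • a - Complex.I • star a + star a * a := by
    rw [star_add, star_one, star_smul]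
    have : star Complex.I = -Complex.I := Complex.conj_I
    rw [this, add_mul, one_mul, mul_add, mul_one, smul_mul_smul_comm, neg_mul, Complex.I_mul_I,
      neg_neg, one_smul, neg_smul]
    abel
  rw [e1, map_add, map_add, map_add, τ.map_one] at h1
  rw [e2, map_add, map_sub, map_add, map_smul, map_smul, τ.map_one] at h2
  simp only [Complex.add_im, Complex.sub_im, Complex.one_im, smul_eq_mul, Complex.I_mul_im]
    at h1 h2
  apply Complex.ext
  · show _ = ((starRingEnd ℂ) (τ.toFun a)).re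
    rw [Complex.conj_re]
    linarith
  · show _ = ((starRingEnd ℂ) (τ.toFun a)).im
    rw [Complex.conj_im]
    linarith

private theorem cs_neg {M : Type u} [CStarAlgebra M] (b : M) (hb : IsSelfAdjoint b) :
    ∃ z y : M, star z * b * z = -(star y * y) ∧ (y = 0 → ∃ w : M, b = star w * w) := by
  let _ := CStarAlgebra.spectralOrder M
  have _ := CStarAlgebra.spectralOrderedRing M
  set z : M := b⁻ with hz
  have hz0 : 0 ≤ z := CFC.negPart_nonneg b
  have hzs : star z = z := (IsSelfAdjoint.of_nonneg hz0).star_eq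
  have hbz : b⁺ - z = b := CFC.posPart_sub_negPart b hb
  have hpz : b⁺ * z = 0 := CFC.posPart_mul_negPart b
  have hzbz : star z * b * z = -(z * z * z) := by
    rw [hzs]
    nth_rewrite 1 [← hbz]
    rw [mul_sub, sub_mul, mul_assoc z b⁺ z, hpz, mul_zero, zero_sub]
  set q := CFC.sqrt z with hq
  have hqq : q * q = z := CFC.sqrt_mul_sqrt_self z hz0
  have hqs : star q = q := (IsSelfAdjoint.of_nonneg (CFC.sqrt_nonneg z)).star_eq
  have hyy : star (q * z) * (q * z) = z * z * z := by
    rw [star_mul, hzs, hqs, mul_assoc z q, ← mul_assoc q q z, hqq, mul_assoc]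
  refine ⟨z, q * z, by rw [hzbz, hyy], fun hy0 => ?_⟩
  have hz1 : z = 0 := by
    have h1 : star z * z = 0 := by
      rw [hzs]
      nth_rewrite 1 [← hqq]
      rw [mul_assoc, hy0, mul_zero]
    exact (CStarRing.star_mul_self_eq_zero_iff z).1 h1
  have hbp : 0 ≤ b := by
    rw [← hbz, hz1, sub_zero]
    exact CFC.posPart_nonneg b
  have hw1 : CFC.sqrt b * CFC.sqrt b = b := CFC.sqrt_mul_sqrt_self b hbp
  have hw2 : star (CFC.sqrt b) = CFC.sqrt b :=
    (IsSelfAdjoint.of_nonneg (CFC.sqrt_nonneg b)).star_eq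
  exact ⟨CFC.sqrt b, by rw [hw2, hw1]⟩

private theorem sa_factor {A : Type u} [CStarAlgebra A] (τ : TracialState A) (hτ : τ.Faithful)
    {d : ℕ} (b : Matrix (Fin d) (Fin d) A) (hb : bᴴ = b)
    (hpos : ∀ x : Fin d → A, 0 ≤ (∑ i, ∑ j, τ.toFun (star (x i) * b i j * x j)).re) :
    ∃ w : Matrix (Fin d) (Fin d) A, b = wᴴ * w := by
  let _ := CStarAlgebra.spectralOrder A
  have _ := CStarAlgebra.spectralOrderedRing A
  let b' : CStarMatrix (Fin d) (Fin d) A := b
  obtain ⟨z, y, hzy, hy⟩ := cs_neg b' hb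
  have hT1 : ∀ k, (star z * b' * z) k k = ∑ j, ∑ i, star (z i k) * b i j * z j k := by
    intro k
    rw [CStarMatrix.mul_apply]
    refine Finset.sum_congr rfl fun j _ => ?_
    rw [CStarMatrix.mul_apply, Finset.sum_mul]
    refine Finset.sum_congr rfl fun i _ => ?_
    rw [CStarMatrix.star_apply]
  have hT2 : ∀ k, (star y * y) k k = ∑ i, star (y i k) * y i k := by
    intro k
    rw [CStarMatrix.mul_apply]
    refine Finset.sum_congr rfl fun i _ => ?_
    rw [CStarMatrix.star_apply]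
  have hT3 : ∀ k, 0 ≤ -(∑ i, (τ.toFun (star (y i k) * y i k)).re) := by
    intro k
    have h1 := hpos (fun i => z i k)
    have h2 : ∑ i, ∑ j, τ.toFun (star (z i k) * b i j * z j k) =
        τ.toFun ((star z * b' * z) k k) := by
      rw [hT1, map_sum, Finset.sum_comm]
      refine Finset.sum_congr rfl fun j _ => ?_
      rw [map_sum]
    have h3 : (star z * b' * z) k k = -((star y * y) k k) := by
      rw [hzy]
      rfl
    rw [h2, h3, hT2, map_neg, map_sum, Complex.neg_re, Complex.re_sum] at h1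
    exact h1
  have hy0 : y = 0 := by
    ext i k
    have h1 : ∀ i, 0 ≤ (τ.toFun (star (y i k) * y i k)).re := fun i =>
      (Complex.nonneg_iff.1 (τ.pos _)).1
    have h2 := hT3 k
    have h3 : ∑ i, (τ.toFun (star (y i k) * y i k)).re = 0 :=
      le_antisymm (by linarith) (Finset.sum_nonneg fun i _ => h1 i)
    have h4 := (Finset.sum_eq_zero_iff_of_nonneg fun i _ => h1 i).1 h3 i (Finset.mem_univ _)
    have h5 : τ.toFun (star (y i k) * y i k) = 0 :=
      Complex.ext h4 (Complex.nonneg_iff.1 (τ.pos _)).2.symm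
    exact hτ _ h5
  obtain ⟨w, hw⟩ := hy hy0
  refine ⟨w, ?_⟩
  apply Matrix.ext
  intro i j
  have h2 : b' i j = (star w * w) i j := by rw [← hw]
  rw [CStarMatrix.mul_apply] at h2
  exact h2

/-- the dual statement: positivity of the functional on all `[τ(x_i* a x_j)]` gives positivity on `R` -/
private theorem dual_pos {A : Type u} [CStarAlgebra A] (τ : TracialState A) (hτ : τ.Faithful)
    {d : ℕ} (R : A →ₗ[ℂ] Matrix (Fin d) (Fin d) ℂ) (hR : IsCP R) (c : Fin d → Fin d → A)
    (hpos : ∀ x : Fin d → A, 0 ≤ (∑ i, ∑ j, τ.toFun (star (x i) * c i j * x j)).re) :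
    0 ≤ (∑ i, ∑ j, R (c i j) i j).re := by
  let b : Matrix (Fin d) (Fin d) A := Matrix.of fun i j => (1 / 2 : ℂ) • (c i j + star (c j i))
  have h12 : star (1 / 2 : ℂ) = 1 / 2 := by
    rw [star_div₀, star_one]
    congr 1
    exact Complex.conj_ofNat 2
  have hb : bᴴ = b := by
    ext i j
    show star ((1 / 2 : ℂ) • (c j i + star (c i j))) = (1 / 2 : ℂ) • (c i j + star (c j i))
    rw [star_smul, h12, star_add, star_star, add_comm]
  have hpos' : ∀ x : Fin d → A, 0 ≤ (∑ i, ∑ j, τ.toFun (star (x i) * b i j * x j)).re := by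
    intro x
    have h1 : ∑ i, ∑ j, τ.toFun (star (x i) * b i j * x j) =
        (1 / 2 : ℂ) * (∑ i, ∑ j, τ.toFun (star (x i) * c i j * x j) +
          star (∑ i, ∑ j, τ.toFun (star (x i) * c i j * x j))) := by
      have h2 : star (∑ i, ∑ j, τ.toFun (star (x i) * c i j * x j)) =
          ∑ i, ∑ j, τ.toFun (star (x i) * star (c j i) * x j) := by
        rw [star_sum, Finset.sum_comm' (t' := Finset.univ) (s' := fun _ => Finset.univ) (by simp)]
        refine Finset.sum_congr rfl fun i _ => ?_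
        rw [star_sum]
        refine Finset.sum_congr rfl fun j _ => ?_
        rw [← tau_star, star_mul, star_mul, star_star, mul_assoc]
      rw [h2, ← Finset.sum_add_distrib, Finset.mul_sum]
      refine Finset.sum_congr rfl fun i _ => ?_
      rw [← Finset.sum_add_distrib, Finset.mul_sum]
      refine Finset.sum_congr rfl fun j _ => ?_
      show τ.toFun (star (x i) * ((1 / 2 : ℂ) • (c i j + star (c j i))) * x j) = _
      rw [mul_smul_comm, smul_mul_assoc, map_smul, smul_eq_mul, mul_add, add_mul, map_add]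
    rw [h1]
    have h3 := hpos x
    set S := ∑ i, ∑ j, τ.toFun (star (x i) * c i j * x j)
    have h4 : (1 / 2 : ℂ) * (S + star S) = ((S.re : ℝ) : ℂ) := by
      have : S + star S = ((2 * S.re : ℝ) : ℂ) := Complex.add_conj S
      rw [this]
      push_cast
      ring
    rw [h4, Complex.ofReal_re]
    exact h3
  obtain ⟨w, hw⟩ := sa_factor τ hτ b hb hpos'
  have hps := ((isCP_iff R).1 hR d w).dotProduct_mulVec_nonneg
    (fun p : Fin d × Fin d => if p.1 = p.2 then (1 : ℂ) else 0)
  have h1 : star (fun p : Fin d × Fin d => if p.1 = p.2 then (1 : ℂ) else 0) ⬝ᵥ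
      (Matrix.of fun p q : Fin d × Fin d => R ((wᴴ * w) p.1 q.1) p.2 q.2).mulVec
        (fun p : Fin d × Fin d => if p.1 = p.2 then (1 : ℂ) else 0) =
      ∑ i, ∑ j, R (b i j) i j := by
    rw [← hw]
    simp only [dotProduct, Matrix.mulVec, Fintype.sum_prod_type, Pi.star_apply, Matrix.of_apply]
    refine Finset.sum_congr rfl fun i _ => ?_
    rw [Finset.sum_eq_single i]
    · rw [if_pos rfl, star_one, one_mul]
      refine Finset.sum_congr rfl fun j _ => ?_
      rw [Finset.sum_eq_single j]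
      · rw [if_pos rfl, mul_one]
      · intro k _ hk
        rw [if_neg (Ne.symm hk), mul_zero]
      · intro h
        exact absurd (Finset.mem_univ _) h
    · intro k _ hk
      rw [if_neg (Ne.symm hk), star_zero, zero_mul]
    · intro h
      exact absurd (Finset.mem_univ _) h
  rw [h1] at hps
  have h2 : ∑ i, ∑ j, R (b i j) i j = (((∑ i, ∑ j, R (c i j) i j).re : ℝ) : ℂ) := by
    have h3 : star (∑ i, ∑ j, R (c i j) i j) = ∑ i, ∑ j, R (star (c j i)) i j := by
      rw [star_sum, Finset.sum_comm' (t' := Finset.univ) (s' := fun _ => Finset.univ) (by simp)]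
      refine Finset.sum_congr rfl fun i _ => ?_
      rw [star_sum]
      refine Finset.sum_congr rfl fun j _ => ?_
      rw [isCP_star hR]
      rfl
    have h4 : ∑ i, ∑ j, R (b i j) i j = (1 / 2 : ℂ) * (∑ i, ∑ j, R (c i j) i j +
        star (∑ i, ∑ j, R (c i j) i j)) := by
      rw [h3, ← Finset.sum_add_distrib, Finset.mul_sum]
      refine Finset.sum_congr rfl fun i _ => ?_
      rw [← Finset.sum_add_distrib, Finset.mul_sum]
      refine Finset.sum_congr rfl fun j _ => ?_
      show R ((1 / 2 : ℂ) • (c i j + star (c j i))) i j = _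
      rw [map_smul, map_add]
      rfl
    rw [h4]
    set S := ∑ i, ∑ j, R (c i j) i j
    have : S + star S = ((2 * S.re : ℝ) : ℂ) := Complex.add_conj S
    rw [this]
    push_cast
    ring
  rw [h2] at hps
  exact_mod_cast hps

/-- the cone of the functions `(a, i, j) ↦ ∑ l, τ (x_il* a x_jl)` -/
private def cone {A : Type u} [CStarAlgebra A] (τ : TracialState A) (F : Finset A) (d : ℕ) :
    Set (↥F × Fin d × Fin d → ℂ) :=
  {k | ∃ (m : ℕ) (x : Fin d → Fin m → A), ∀ p : ↥F × Fin d × Fin d,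
    k p = ∑ l, τ.toFun (star (x p.2.1 l) * p.1.1 * x p.2.2 l)}

private theorem cone_add {A : Type u} [CStarAlgebra A] (τ : TracialState A) (F : Finset A) {d : ℕ}
    {k k' : ↥F × Fin d × Fin d → ℂ} (h : k ∈ cone τ F d) (h' : k' ∈ cone τ F d) :
    k + k' ∈ cone τ F d := by
  obtain ⟨m, x, hx⟩ := h
  obtain ⟨m', x', hx'⟩ := h'
  refine ⟨m + m', fun i => Fin.append (x i) (x' i), fun p => ?_⟩
  rw [Pi.add_apply, hx, hx', Fin.sum_univ_add]
  congr 1
  · refine Finset.sum_congr rfl fun l _ => ?_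
    show _ = τ.toFun (star (Fin.append (x p.2.1) (x' p.2.1) (Fin.castAdd m' l)) * p.1.1 *
      Fin.append (x p.2.2) (x' p.2.2) (Fin.castAdd m' l))
    rw [Fin.append_left, Fin.append_left]
  · refine Finset.sum_congr rfl fun l _ => ?_
    show _ = τ.toFun (star (Fin.append (x p.2.1) (x' p.2.1) (Fin.natAdd m l)) * p.1.1 *
      Fin.append (x p.2.2) (x' p.2.2) (Fin.natAdd m l))
    rw [Fin.append_right, Fin.append_right]

private theorem cone_smul {A : Type u} [CStarAlgebra A] (τ : TracialState A) (F : Finset A) {d : ℕ}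
    {k : ↥F × Fin d × Fin d → ℂ} (h : k ∈ cone τ F d) {t : ℝ} (ht : 0 ≤ t) :
    t • k ∈ cone τ F d := by
  obtain ⟨m, x, hx⟩ := h
  refine ⟨m, fun i l => ((Real.sqrt t : ℝ) : ℂ) • x i l, fun p => ?_⟩
  rw [Pi.smul_apply, hx, Finset.smul_sum]
  refine Finset.sum_congr rfl fun l _ => ?_
  have h1 : star (((Real.sqrt t : ℝ) : ℂ)) = ((Real.sqrt t : ℝ) : ℂ) := Complex.conj_ofReal _
  rw [star_smul, h1, smul_mul_assoc, smul_mul_assoc, mul_smul_comm, smul_smul, map_smul,
    ← Complex.ofReal_mul, Real.mul_self_sqrt ht]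
  rfl

theorem tau_vectors {A : Type u} [CStarAlgebra A] (τ : TracialState A) (hτ : τ.Faithful) {d : ℕ}
    (R : A →ₗ[ℂ] Matrix (Fin d) (Fin d) ℂ) (hR : IsCP R) (F : Finset A) (ε : ℝ) (hε : 0 < ε) :
    ∃ (m : ℕ) (x : Fin d → Fin m → A), ∀ a ∈ F, ∀ i j,
      ‖R a i j - ∑ l, τ.toFun (star (x i l) * a * x j l)‖ ≤ ε := by
  classical
  by_contra hcon
  let v : ↥F × Fin d × Fin d → ℂ := fun p => R p.1.1 p.2.1 p.2.2
  have hv : v ∉ closure (cone τ F d) := by
    intro hmem
    rw [Metric.mem_closure_iff] at hmem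
    obtain ⟨k, ⟨m, x, hx⟩, hk⟩ := hmem ε hε
    refine hcon ⟨m, x, fun a ha i j => ?_⟩
    have h1 := (dist_le_pi_dist v k (⟨a, ha⟩, i, j)).trans hk.le
    rw [dist_eq_norm, hx] at h1
    exact h1
  have hconv : Convex ℝ (closure (cone τ F d)) := by
    apply Convex.closure
    intro k hk k' hk' s t hs ht _
    exact cone_add τ F (cone_smul τ F hk hs) (cone_smul τ F hk' ht)
  obtain ⟨f, u, hfu, hfk⟩ := geometric_hahn_banach_point_closed hconv isClosed_closure hv
  have hfk' : ∀ k ∈ cone τ F d, u < f k := fun k hk => hfk k (subset_closure hk)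
  have h0 : (0 : ↥F × Fin d × Fin d → ℂ) ∈ cone τ F d := ⟨0, fun _ l => l.elim0, fun p => by simp⟩
  have hu : u < 0 := by
    have := hfk' 0 h0
    rwa [map_zero] at this
  have hf0 : ∀ k ∈ cone τ F d, 0 ≤ f k := by
    intro k hk
    by_contra hneg
    rw [not_le] at hneg
    have h1 := hfk' _ (cone_smul τ F hk (t := u / f k) (div_nonneg_of_nonpos hu.le hneg.le))
    rw [map_smul, smul_eq_mul, div_mul_cancel₀ _ hneg.ne] at h1
    exact lt_irrefl _ h1
  -- the coefficients of `f`
  let w : ↥F × Fin d × Fin d → ℂ := fun p =>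
    ((f (Pi.single p 1) : ℝ) : ℂ) - Complex.I * ((f (Pi.single p Complex.I) : ℝ) : ℂ)
  have hw : ∀ g : ↥F × Fin d × Fin d → ℂ, f g = (∑ p, w p * g p).re := by
    intro g
    have h1 : g = ∑ p, Pi.single p (g p) := (Finset.univ_sum_single g).symm
    conv_lhs => rw [h1]
    rw [map_sum, Complex.re_sum]
    refine Finset.sum_congr rfl fun p _ => ?_
    have h2 : Pi.single p (g p) = (g p).re • (Pi.single p (1 : ℂ) : ↥F × Fin d × Fin d → ℂ) +
        (g p).im • (Pi.single p Complex.I : ↥F × Fin d × Fin d → ℂ) := by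
      rw [← Pi.single_smul, ← Pi.single_smul, ← Pi.single_add]
      congr 1
      rw [Complex.real_smul, Complex.real_smul, mul_one, mul_comm]
      rw [mul_comm Complex.I]
      exact (Complex.re_add_im (g p)).symm
    rw [h2, map_add, map_smul, map_smul, smul_eq_mul, smul_eq_mul]
    show _ = ((((f (Pi.single p 1) : ℝ) : ℂ) -
      Complex.I * ((f (Pi.single p Complex.I) : ℝ) : ℂ)) * g p).re
    rw [Complex.mul_re, Complex.sub_re, Complex.sub_im, Complex.I_mul_re, Complex.I_mul_im,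
      Complex.ofReal_re, Complex.ofReal_im, Complex.ofReal_re, Complex.ofReal_im]
    ring
  let c : Fin d → Fin d → A := fun i j => ∑ a : ↥F, w (a, i, j) • a.1
  have hc : ∀ (φ : A →ₗ[ℂ] ℂ) (i j : Fin d), φ (c i j) = ∑ a : ↥F, w (a, i, j) * φ a.1 := by
    intro φ i j
    show φ (∑ a : ↥F, w (a, i, j) • a.1) = _
    rw [map_sum]
    refine Finset.sum_congr rfl fun a _ => ?_
    rw [map_smul, smul_eq_mul]
  have hsum : ∀ g : ↥F × Fin d × Fin d → ℂ, ∑ p, w p * g p =
      ∑ i, ∑ j, ∑ a : ↥F, w (a, i, j) * g (a, i, j) := by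
    intro g
    rw [Fintype.sum_prod_type, Finset.sum_comm, Fintype.sum_prod_type]
  have hpos := dual_pos τ hτ R hR c (by
    intro x
    have h1 : (fun p : ↥F × Fin d × Fin d =>
        τ.toFun (star (x p.2.1) * p.1.1 * x p.2.2)) ∈ cone τ F d :=
      ⟨1, fun i _ => x i, fun p => by simp⟩
    have h2 := hf0 _ h1
    rw [hw, hsum] at h2
    have h3 : ∑ i, ∑ j, τ.toFun (star (x i) * c i j * x j) =
        ∑ i, ∑ j, ∑ a : ↥F, w (a, i, j) * τ.toFun (star (x i) * a.1 * x j) := by
      refine Finset.sum_congr rfl fun i _ => Finset.sum_congr rfl fun j _ => ?_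
      exact hc (τ.toFun ∘ₗ (LinearMap.mulRight ℂ (x j) ∘ₗ LinearMap.mulLeft ℂ (star (x i)))) i j
    rw [h3]
    exact h2)
  have h4 : ∑ i, ∑ j, R (c i j) i j = ∑ p, w p * v p := by
    rw [hsum]
    refine Finset.sum_congr rfl fun i _ => Finset.sum_congr rfl fun j _ => ?_
    exact hc ((Matrix.entryLinearMap ℂ ℂ i j) ∘ₗ R) i j
  rw [h4, ← hw] at hpos
  linarith

end QT
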