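import Mathlib
import Pool.Agent.Helper58.QT.Defs
import Pool.Agent.Helper58.QT.CPBasics
import Pool.Agent.Helper58.QT.TauVec
import Pool.Agent.Helper58.QT.Arveson

/-!
# QT-13 Gram: uniform Gram representation of all contractive CP maps into matrices
Let `B, ι` be as in NuclearlyEmbeddable and choose `d, R, S` for `F`, `ε/2`. By `tau_vectors` choose `m, x` with error
`ε/(2 (d+1)²)`. Given `Ξ`: `Ξ' : B → M` from `extend_cp`; `‖Ξ' b‖ ≤ ‖Ξ' 1‖ ‖b‖ = ‖Ξ 1‖ ‖b‖ ≤ ‖b‖` (`isCP_norm_le`, `ι 1 = 1`).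
`Θ = Ξ' ∘ S : M_d → M` is CP with `‖Θ 1‖ ≤ 1`. The matrix `(e_ij)_ij` over `M_d` is `Mᴴ * M` with first row
`M_{0 j} = e_{0j}` and other rows `0` (`(Mᴴ M)_ij = e_{i0} e_{0j} = e_ij`; `d = 0` trivial), so `(Θ(e_ij))_ij = Nᴴ N` with
`N : Matrix (Fin d) (Fin d) (Matrix ι ι ℂ)`. Let `Z_j : Matrix (Fin d × ι) ι ℂ`, `Z_j (k, p) q = N k j p q`: then
`Z_iᴴ Z_j = ∑_k N_kiᴴ N_kj = Θ(e_ij)`. `‖Z_i‖² = ‖Θ(e_ii)‖ ≤ ‖e_ii‖ ≤ 1`. Finally
`‖Ξ a - Θ(R a)‖ = ‖Ξ'(ι a - S(R a))‖ ≤ ε/2`, `Θ(R a) = ∑_ij (R a)_ij Z_iᴴ Z_j`, `‖Z_iᴴ Z_j‖ ≤ 1`.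
-/

open scoped Matrix Kronecker ComplexOrder Matrix.Norms.L2Operator
open Filter Topology

namespace QT

universe u

theorem gram_exists_Z {d : ℕ} {ι : Type} [Fintype ι] [DecidableEq ι]
    (Θ : Matrix (Fin d) (Fin d) ℂ →ₗ[ℂ] Matrix ι ι ℂ) (hΘ : IsCP Θ) :
    ∃ Z : Fin d → Matrix (Fin d × ι) ι ℂ, ∀ i j, (Z i)ᴴ * Z j = Θ (Matrix.single i j 1) := by
  rcases Nat.eq_zero_or_pos d with hd | hd
  · subst hd
    exact ⟨fun i => i.elim0, fun i => i.elim0⟩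
  · obtain ⟨N, hN⟩ := hΘ d (Matrix.of fun i j => if i = (⟨0, hd⟩ : Fin d) then
      Matrix.single (⟨0, hd⟩ : Fin d) j (1 : ℂ) else 0)
    refine ⟨fun j => Matrix.of fun kp q => N kp.1 j kp.2 q, fun i j => ?_⟩
    have h1 := congrFun (congrFun hN i) j
    have h2 : ((Matrix.of fun i j : Fin d => if i = (⟨0, hd⟩ : Fin d) then
      Matrix.single (⟨0, hd⟩ : Fin d) j (1 : ℂ) else 0)ᴴ * (Matrix.of fun i j : Fin d => if i = (⟨0, hd⟩ : Fin d) then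
      Matrix.single (⟨0, hd⟩ : Fin d) j (1 : ℂ) else 0)) i j = Matrix.single i j 1 := by
      rw [Matrix.mul_apply]
      rw [Finset.sum_eq_single (⟨0, hd⟩ : Fin d)]
      · simp [Matrix.conjTranspose_apply, Matrix.star_eq_conjTranspose, Matrix.conjTranspose_single]
      · intro b _ hb
        simp [hb]
      · intro h
        exact absurd (Finset.mem_univ _) h
    rw [Matrix.map_apply, h2] at h1
    rw [h1]
    ext p q
    rw [Matrix.mul_apply, Matrix.mul_apply, Matrix.sum_apply, Fintype.sum_prod_type]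
    refine Finset.sum_congr rfl fun k _ => ?_
    rw [Matrix.conjTranspose_apply, Matrix.star_eq_conjTranspose, Matrix.mul_apply]
    rfl

theorem gram {A : Type u} [CStarAlgebra A] (hA : NuclearlyEmbeddable A) (τ : TracialState A)
    (hτ : τ.Faithful) (F : Finset A) (ε : ℝ) (hε : 0 < ε) :
    ∃ (d m : ℕ) (x : Fin d → Fin m → A), ∀ (ι : Type) [Fintype ι] [DecidableEq ι]
      (Ξ : A →ₗ[ℂ] Matrix ι ι ℂ), IsCP Ξ → ‖Ξ 1‖ ≤ 1 →
      ∃ Z : Fin d → Matrix (Fin d × ι) ι ℂ, (∀ i, ‖Z i‖ ≤ 1) ∧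
        ∀ a ∈ F, ‖Ξ a - ∑ i, ∑ j, (∑ l, τ.toFun (star (x i l) * a * x j l)) • ((Z i)ᴴ * Z j)‖ ≤ ε := by
  obtain ⟨B, hB, e, he, H⟩ := hA
  obtain ⟨d, R, S, hR, hS, hR1, hS1, hRS⟩ := H F (ε / 2) (half_pos hε)
  have hd : (0 : ℝ) < 2 * ((d : ℝ) + 1) ^ 2 := by positivity
  obtain ⟨m, x, hx⟩ := tau_vectors τ hτ R hR F (ε / (2 * ((d : ℝ) + 1) ^ 2)) (div_pos hε hd)
  refine ⟨d, m, x, ?_⟩
  intro ι _ _ Ξ hΞ hΞ1
  obtain ⟨Ξ', hΞ', hext⟩ := extend_cp e he Ξ hΞ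
  have hΞ'1 : ‖Ξ' 1‖ ≤ 1 := by
    have h := hext 1
    rw [map_one] at h
    rw [h]
    exact hΞ1
  have hΘ : IsCP (Ξ' ∘ₗ S) := by
    intro n M
    obtain ⟨N, hN⟩ := hS n M
    obtain ⟨N', hN'⟩ := hΞ' n N
    refine ⟨N', ?_⟩
    rw [← hN', ← hN, Matrix.map_map]
    rfl
  obtain ⟨Z, hZ⟩ := gram_exists_Z _ hΘ
  have hΘ1 : ‖(Ξ' ∘ₗ S) 1‖ ≤ 1 := by
    rw [LinearMap.comp_apply, hS1]
    exact hΞ'1
  have hZn : ∀ i, ‖Z i‖ ≤ 1 := by
    intro i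
    have h1 : ‖Z i‖ * ‖Z i‖ ≤ 1 := by
      rw [← Matrix.l2_opNorm_conjTranspose_mul_self, hZ]
      have h2 := isCP_norm_le hΘ (Matrix.single i i (1 : ℂ))
      have h3 : ‖(Matrix.single i i (1 : ℂ) : Matrix (Fin d) (Fin d) ℂ)‖ ≤ 1 := by
        rw [← Matrix.diagonal_single, Matrix.l2_opNorm_diagonal]
        rw [pi_norm_le_iff_of_nonneg zero_le_one]
        intro k
        rcases eq_or_ne k i with h | h
        · subst h; simp
        · simp [h]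
      calc _ ≤ _ := h2
        _ ≤ 1 * 1 := mul_le_mul hΘ1 h3 (norm_nonneg _) zero_le_one
        _ = 1 := one_mul 1
    nlinarith [norm_nonneg (Z i)]
  refine ⟨Z, hZn, ?_⟩
  intro a ha
  have hsum : (Ξ' ∘ₗ S) (R a) = ∑ i, ∑ j, R a i j • ((Z i)ᴴ * Z j) := by
    conv_lhs => rw [Matrix.matrix_eq_sum_single (R a)]
    rw [map_sum]
    refine Finset.sum_congr rfl fun i _ => ?_
    rw [map_sum]
    refine Finset.sum_congr rfl fun j _ => ?_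
    rw [hZ, ← map_smul]
    congr 1
    rw [Matrix.smul_single, smul_eq_mul, mul_one]
  have h1 : ‖Ξ a - (Ξ' ∘ₗ S) (R a)‖ ≤ ε / 2 := by
    rw [LinearMap.comp_apply, ← hext a, ← map_sub]
    calc _ ≤ ‖Ξ' 1‖ * ‖e a - S (R a)‖ := isCP_norm_le hΞ' _
      _ ≤ 1 * (ε / 2) := by
        refine mul_le_mul hΞ'1 ?_ (norm_nonneg _) zero_le_one
        rw [norm_sub_rev]
        exact hRS a ha
      _ = ε / 2 := one_mul _
  have h2 : ‖(Ξ' ∘ₗ S) (R a) - ∑ i, ∑ j, (∑ l, τ.toFun (star (x i l) * a * x j l)) • ((Z i)ᴴ * Z j)‖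
      ≤ ε / 2 := by
    rw [hsum, ← Finset.sum_sub_distrib]
    simp_rw [← Finset.sum_sub_distrib, ← sub_smul]
    calc _ ≤ ∑ i : Fin d, ∑ j : Fin d, ε / (2 * ((d : ℝ) + 1) ^ 2) := by
          refine (norm_sum_le _ _).trans (Finset.sum_le_sum fun i _ => ?_)
          refine (norm_sum_le _ _).trans (Finset.sum_le_sum fun j _ => ?_)
          rw [norm_smul]
          have h4 : ‖(Z i)ᴴ * Z j‖ ≤ 1 := by
            calc _ ≤ ‖(Z i)ᴴ‖ * ‖Z j‖ := Matrix.l2_opNorm_mul _ _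
              _ ≤ 1 * 1 := by
                rw [Matrix.l2_opNorm_conjTranspose]
                exact mul_le_mul (hZn i) (hZn j) (norm_nonneg _) zero_le_one
              _ = 1 := one_mul 1
          calc _ ≤ ε / (2 * ((d : ℝ) + 1) ^ 2) * 1 :=
                mul_le_mul (hx a ha i j) h4 (norm_nonneg _) (div_pos hε hd).le
            _ = _ := mul_one _
      _ = (d : ℝ) * d * (ε / (2 * ((d : ℝ) + 1) ^ 2)) := by
          simp only [Finset.sum_const, Finset.card_univ, Fintype.card_fin, nsmul_eq_mul]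
          ring
      _ ≤ ε / 2 := by
          rw [mul_div_assoc', div_le_div_iff₀ hd two_pos]
          have : (d : ℝ) * d ≤ ((d : ℝ) + 1) ^ 2 := by nlinarith [Nat.cast_nonneg (α := ℝ) d]
          nlinarith
  calc _ = ‖(Ξ a - (Ξ' ∘ₗ S) (R a)) + ((Ξ' ∘ₗ S) (R a) -
        ∑ i, ∑ j, (∑ l, τ.toFun (star (x i l) * a * x j l)) • ((Z i)ᴴ * Z j))‖ := by
        rw [sub_add_sub_cancel]
    _ ≤ _ := norm_add_le _ _
    _ ≤ ε / 2 + ε / 2 := add_le_add h1 h2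
    _ = ε := add_halves ε

end QT
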