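import Mathlib
import Pool.Agent.Helper58.QT.Defs
import Pool.Agent.Helper58.QT.CPBasics
import Pool.Agent.Helper58.QT.MatBasics

/-!
# QT-15 SmallSupp: a CP map of small trace is almost supported on a small subspace
`H = Ξ 1 ≥ 0`, `‖H‖ ≤ 1`. Let `Q` have as columns orthonormal eigenvectors of `H` for the eigenvalues `≥ δ`; their number
`r` satisfies `δ r ≤ tr H`. With `q = Q Qᴴ`: `‖(1-q) H (1-q)‖ ≤ δ`. Kadison-Schwarz (`isCP_iff` with `!![1, a; 0, 0]`, or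
`Ξ(a) Ξ(a)ᴴ ≤ ‖Ξ 1‖ Ξ(a a*) ≤ ‖a‖² Ξ 1`): `‖(1-q) Ξ a‖² = ‖(1-q) Ξ a (Ξ a)ᴴ (1-q)‖ ≤ ‖a‖² ‖(1-q) H (1-q)‖ ≤ δ ‖a‖²`, the same for
`Ξ a (1-q)` (`isCP_star`). So `‖Ξ a - q Ξ a q‖ ≤ ‖(1-q) Ξ a‖ + ‖q Ξ a (1-q)‖ ≤ 2 sqrt δ ‖a‖`.
-/

open scoped Matrix Kronecker ComplexOrder Matrix.Norms.L2Operator
open Filter Topology

namespace QT

universe u

private theorem cp_factor {A : Type u} [CStarAlgebra A] {ι : Type} [Fintype ι] [DecidableEq ι]
    (Ξ : A →ₗ[ℂ] Matrix ι ι ℂ) (hΞ : IsCP Ξ) (a : A) :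
    ∃ X Y : Matrix (Fin 2 × ι) ι ℂ, Ξ 1 = Xᴴ * X ∧ Ξ a = Xᴴ * Y ∧ Ξ (star a * a) = Yᴴ * Y := by
  obtain ⟨N, hN⟩ := hΞ 2 !![1, a; 0, 0]
  refine ⟨Matrix.of fun kl j => N kl.1 0 kl.2 j, Matrix.of fun kl j => N kl.1 1 kl.2 j, ?_, ?_, ?_⟩
  · have h := congrFun (congrFun hN 0) 0
    rw [Matrix.map_apply, Matrix.mul_apply, Matrix.mul_apply] at h
    simp only [Fin.sum_univ_two, Matrix.conjTranspose_apply] at h
    simp only [Matrix.of_apply, Matrix.cons_val', Matrix.cons_val_zero, Matrix.cons_val_one,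
      Matrix.cons_val_fin_one, star_one, star_zero, mul_one, mul_zero, add_zero, zero_mul] at h
    rw [h]
    ext i j
    rw [Matrix.mul_apply, Fintype.sum_prod_type, Fin.sum_univ_two, Matrix.add_apply]
    simp only [Matrix.star_eq_conjTranspose, Matrix.mul_apply, Matrix.conjTranspose_apply,
      Matrix.of_apply]
  · have h := congrFun (congrFun hN 0) 1
    rw [Matrix.map_apply, Matrix.mul_apply, Matrix.mul_apply] at h
    simp only [Fin.sum_univ_two, Matrix.conjTranspose_apply] at h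
    simp only [Matrix.of_apply, Matrix.cons_val', Matrix.cons_val_zero, Matrix.cons_val_one,
      Matrix.cons_val_fin_one, star_one, star_zero, mul_one, one_mul, mul_zero, add_zero, zero_mul] at h
    rw [h]
    ext i j
    rw [Matrix.mul_apply, Fintype.sum_prod_type, Fin.sum_univ_two, Matrix.add_apply]
    simp only [Matrix.star_eq_conjTranspose, Matrix.mul_apply, Matrix.conjTranspose_apply,
      Matrix.of_apply]
  · have h := congrFun (congrFun hN 1) 1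
    rw [Matrix.map_apply, Matrix.mul_apply, Matrix.mul_apply] at h
    simp only [Fin.sum_univ_two, Matrix.conjTranspose_apply] at h
    simp only [Matrix.of_apply, Matrix.cons_val', Matrix.cons_val_zero, Matrix.cons_val_one,
      Matrix.cons_val_fin_one, star_one, star_zero, mul_one, mul_zero, add_zero, zero_mul] at h
    rw [h]
    ext i j
    rw [Matrix.mul_apply, Fintype.sum_prod_type, Fin.sum_univ_two, Matrix.add_apply]
    simp only [Matrix.star_eq_conjTranspose, Matrix.mul_apply, Matrix.conjTranspose_apply,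
      Matrix.of_apply]

private theorem spec_cut {ι : Type} [Fintype ι] [DecidableEq ι] (H : Matrix ι ι ℂ)
    (hH : H.PosSemidef) (δ : ℝ) (hδ : 0 < δ) :
    ∃ (r : ℕ) (Q : Matrix ι (Fin r) ℂ), Qᴴ * Q = 1 ∧ (r : ℝ) * δ ≤ H.trace.re ∧
      ‖Q * Qᴴ‖ ≤ 1 ∧ ‖(1 - Q * Qᴴ) * H * (1 - Q * Qᴴ)‖ ≤ δ := by
  classical
  set U : Matrix ι ι ℂ := (hH.1.eigenvectorUnitary : Matrix ι ι ℂ) with hU
  have hUU : Uᴴ * U = 1 := by
    have := (Matrix.mem_unitaryGroup_iff').1 hH.1.eigenvectorUnitary.2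
    simpa [Matrix.star_eq_conjTranspose] using this
  have hUU' : U * Uᴴ = 1 := by
    have := (Matrix.mem_unitaryGroup_iff).1 hH.1.eigenvectorUnitary.2
    simpa [Matrix.star_eq_conjTranspose] using this
  have hspec : H = U * Matrix.diagonal (fun i => (hH.1.eigenvalues i : ℂ)) * Uᴴ := by
    have := hH.1.spectral_theorem
    rw [Unitary.conjStarAlgAut_apply] at this
    exact this
  set lam := hH.1.eigenvalues with hlam
  have hnn : ∀ i, 0 ≤ lam i := fun i => hH.eigenvalues_nonneg i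
  set S : Finset ι := Finset.univ.filter fun i => δ ≤ lam i with hS
  have hUn : ∀ D : ι → ℂ, ∀ c : ℝ, 0 ≤ c → (∀ i, ‖D i‖ ≤ c) →
      ‖U * Matrix.diagonal D * Uᴴ‖ ≤ c := by
    intro D c hc hD
    have hU1 : ‖U‖ ≤ 1 := by
      have h := Matrix.l2_opNorm_conjTranspose_mul_self U
      rw [hUU] at h
      have h1 : ‖(1 : Matrix ι ι ℂ)‖ ≤ 1 := by
        rw [← Matrix.diagonal_one, Matrix.l2_opNorm_diagonal]
        exact (pi_norm_le_iff_of_nonneg zero_le_one).2 fun i => by simp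
      nlinarith [norm_nonneg U]
    have hU2 : ‖Uᴴ‖ ≤ 1 := by rw [Matrix.l2_opNorm_conjTranspose]; exact hU1
    have hD' : ‖Matrix.diagonal D‖ ≤ c := by
      rw [Matrix.l2_opNorm_diagonal]
      exact (pi_norm_le_iff_of_nonneg hc).2 hD
    calc ‖U * Matrix.diagonal D * Uᴴ‖ ≤ ‖U * Matrix.diagonal D‖ * ‖Uᴴ‖ := Matrix.l2_opNorm_mul _ _
      _ ≤ (‖U‖ * ‖Matrix.diagonal D‖) * ‖Uᴴ‖ := by gcongr; exact Matrix.l2_opNorm_mul _ _
      _ ≤ (1 * c) * 1 := by gcongr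
      _ = c := by ring
  let e : Fin S.card ≃ S := S.equivFin.symm
  let Q : Matrix ι (Fin S.card) ℂ := Matrix.of fun x j => U x (e j)
  have hQQ : Q * Qᴴ = U * Matrix.diagonal (fun i => if i ∈ S then (1 : ℂ) else 0) * Uᴴ := by
    ext x y
    rw [Matrix.mul_apply, Matrix.mul_apply]
    simp only [Matrix.mul_diagonal, Matrix.conjTranspose_apply, Q, Matrix.of_apply]
    rw [Equiv.sum_comp e (fun i : S => U x i * star (U y i)),
      Finset.sum_coe_sort S (fun i => U x i * star (U y i))]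
    have h0 : ∀ i, U x i * (if i ∈ S then (1 : ℂ) else 0) * star (U y i) =
        if i ∈ S then U x i * star (U y i) else 0 := by
      intro i
      by_cases h : i ∈ S <;> simp [h]
    rw [Finset.sum_congr rfl fun i _ => h0 i, Finset.sum_ite_mem, Finset.univ_inter]
  have hp : 1 - Q * Qᴴ = U * Matrix.diagonal (fun i => if i ∈ S then (0 : ℂ) else 1) * Uᴴ := by
    have h1 : (Matrix.diagonal (fun i => if i ∈ S then (0 : ℂ) else 1) : Matrix ι ι ℂ) =
        1 - Matrix.diagonal (fun i => if i ∈ S then (1 : ℂ) else 0) := by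
      ext i j
      rw [Matrix.sub_apply, Matrix.one_apply, Matrix.diagonal_apply, Matrix.diagonal_apply]
      by_cases hij : i = j
      · by_cases h : i ∈ S <;> simp [hij, h] <;> simp [← hij, h]
      · simp [hij]
    rw [h1, Matrix.mul_sub, Matrix.sub_mul, Matrix.mul_one, hUU', hQQ]
  refine ⟨S.card, Q, ?_, ?_, ?_, ?_⟩
  · ext j k
    have h := congrFun (congrFun hUU (e j)) (e k)
    rw [Matrix.mul_apply] at h ⊢
    simp only [Matrix.conjTranspose_apply] at h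
    simp only [Matrix.conjTranspose_apply, Q, Matrix.of_apply]
    rw [h, Matrix.one_apply, Matrix.one_apply]
    by_cases hjk : j = k
    · simp [hjk]
    · have : ((e j : S) : ι) ≠ ((e k : S) : ι) := fun h => hjk (e.injective (Subtype.ext h))
      rw [if_neg this, if_neg hjk]
  · have h := hH.1.trace_eq_sum_eigenvalues
    rw [h]
    have h2 : (∑ i, ((hH.1.eigenvalues i : ℝ) : ℂ)).re = ∑ i, lam i := by
      rw [Complex.re_sum]
      simp [hlam]
    have h3 : (S.card : ℝ) * δ ≤ ∑ i, lam i := by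
      calc (S.card : ℝ) * δ = ∑ i ∈ S, δ := by rw [Finset.sum_const, nsmul_eq_mul]
        _ ≤ ∑ i ∈ S, lam i := Finset.sum_le_sum fun i hi => (Finset.mem_filter.1 hi).2
        _ ≤ ∑ i, lam i := Finset.sum_le_sum_of_subset_of_nonneg (Finset.subset_univ S)
            fun i _ _ => hnn i
    calc (S.card : ℝ) * δ ≤ ∑ i, lam i := h3
      _ = _ := h2.symm
  · rw [hQQ]
    refine hUn _ 1 zero_le_one fun i => ?_
    by_cases h : i ∈ S <;> simp [h]
  · have hE : (1 - Q * Qᴴ) * H * (1 - Q * Qᴴ) =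
        U * Matrix.diagonal (fun i => if i ∈ S then (0 : ℂ) else (lam i : ℂ)) * Uᴴ := by
      rw [hp]
      conv_lhs => rw [hspec]
      set P : Matrix ι ι ℂ := Matrix.diagonal (fun i => if i ∈ S then (0 : ℂ) else 1) with hP
      set L : Matrix ι ι ℂ := Matrix.diagonal (fun i => (lam i : ℂ)) with hL
      have h1 : U * P * Uᴴ * (U * L * Uᴴ) * (U * P * Uᴴ) =
          U * (P * (Uᴴ * U) * L * (Uᴴ * U) * P) * Uᴴ := by
        simp only [Matrix.mul_assoc]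
      rw [h1, hUU, Matrix.mul_one, Matrix.mul_one, hP, hL, Matrix.diagonal_mul_diagonal,
        Matrix.diagonal_mul_diagonal]
      congr 2
      congr 1
      ext i
      by_cases h : i ∈ S <;> simp [h]
    rw [hE]
    refine hUn _ δ hδ.le fun i => ?_
    by_cases h : i ∈ S
    · simp [h, hδ.le]
    · have h' : lam i < δ := by
        by_contra hc
        exact h (Finset.mem_filter.2 ⟨Finset.mem_univ i, not_lt.1 hc⟩)
      simp only [h, if_false]
      rw [Complex.norm_real, Real.norm_eq_abs, abs_of_nonneg (hnn i)]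
      exact h'.le

private theorem cut_left {A : Type u} [CStarAlgebra A] {ι : Type} [Fintype ι] [DecidableEq ι]
    (Ξ : A →ₗ[ℂ] Matrix ι ι ℂ) (hΞ : IsCP Ξ) (h1 : ‖Ξ 1‖ ≤ 1) (δ : ℝ) (hδ : 0 < δ)
    (p : Matrix ι ι ℂ) (hp : pᴴ = p) (hpH : ‖p * Ξ 1 * p‖ ≤ δ) (a : A) :
    ‖p * Ξ a‖ ≤ Real.sqrt δ * ‖a‖ := by
  obtain ⟨X, Y, hX, hXY, hY⟩ := cp_factor Ξ hΞ a
  have hXp : ‖p * Xᴴ‖ ≤ Real.sqrt δ := by
    have e1 : p * Xᴴ = (X * p)ᴴ := by rw [Matrix.conjTranspose_mul, hp]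
    rw [e1, Matrix.l2_opNorm_conjTranspose]
    have e2 := Matrix.l2_opNorm_conjTranspose_mul_self (X * p)
    rw [Matrix.conjTranspose_mul, hp] at e2
    have e3 : p * Xᴴ * (X * p) = p * Ξ 1 * p := by
      rw [hX]; simp only [Matrix.mul_assoc]
    rw [e3] at e2
    refine Real.le_sqrt_of_sq_le ?_
    rw [sq, ← e2]
    exact hpH
  have hYn : ‖Y‖ ≤ ‖a‖ := by
    have e2 := Matrix.l2_opNorm_conjTranspose_mul_self Y
    rw [← hY] at e2
    have e3 : ‖Ξ (star a * a)‖ ≤ ‖a‖ * ‖a‖ := by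
      have h2 := isCP_norm_le hΞ (star a * a)
      rw [CStarRing.norm_star_mul_self] at h2
      calc ‖Ξ (star a * a)‖ ≤ ‖Ξ 1‖ * (‖a‖ * ‖a‖) := h2
        _ ≤ 1 * (‖a‖ * ‖a‖) := by gcongr
        _ = ‖a‖ * ‖a‖ := one_mul _
    rw [e2] at e3
    exact le_of_sq_le_sq (by rw [sq, sq]; exact e3) (norm_nonneg a)
  calc ‖p * Ξ a‖ = ‖(p * Xᴴ) * Y‖ := by rw [hXY, Matrix.mul_assoc]
    _ ≤ ‖p * Xᴴ‖ * ‖Y‖ := Matrix.l2_opNorm_mul _ _
    _ ≤ Real.sqrt δ * ‖a‖ := by gcongr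

theorem small_support {A : Type u} [CStarAlgebra A] {ι : Type} [Fintype ι] [DecidableEq ι]
    (Ξ : A →ₗ[ℂ] Matrix ι ι ℂ) (hΞ : IsCP Ξ) (h1 : ‖Ξ 1‖ ≤ 1) (δ : ℝ) (hδ : 0 < δ) :
    ∃ (r : ℕ) (Q : Matrix ι (Fin r) ℂ), Qᴴ * Q = 1 ∧ (r : ℝ) ≤ (Ξ 1).trace.re / δ ∧
      ∀ a, ‖Ξ a - Q * Qᴴ * Ξ a * (Q * Qᴴ)‖ ≤ 2 * Real.sqrt δ * ‖a‖ := by
  have hpos : (Ξ 1).PosSemidef := by
    have h := isCP_posSemidef hΞ (1 : A)
    rwa [star_one, mul_one] at h
  obtain ⟨r, Q, hQ, hr, hq, hp⟩ := spec_cut (Ξ 1) hpos δ hδ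
  refine ⟨r, Q, hQ, by rwa [le_div_iff₀ hδ], fun a => ?_⟩
  set q := Q * Qᴴ with hqdef
  have hpH : (1 - q)ᴴ = 1 - q := by
    rw [Matrix.conjTranspose_sub, Matrix.conjTranspose_one, hqdef, Matrix.conjTranspose_mul,
      Matrix.conjTranspose_conjTranspose]
  have hL := cut_left Ξ hΞ h1 δ hδ (1 - q) hpH hp
  have e1 : Ξ a - q * Ξ a * q = (1 - q) * Ξ a + q * (Ξ a * (1 - q)) := by
    rw [Matrix.sub_mul, Matrix.one_mul, Matrix.mul_sub, Matrix.mul_one, Matrix.mul_sub,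
      Matrix.mul_assoc]
    abel
  have hR : ‖Ξ a * (1 - q)‖ ≤ Real.sqrt δ * ‖a‖ := by
    have e2 : Ξ a * (1 - q) = ((1 - q) * Ξ (star a))ᴴ := by
      rw [Matrix.conjTranspose_mul, hpH, isCP_star hΞ, Matrix.conjTranspose_conjTranspose]
    rw [e2, Matrix.l2_opNorm_conjTranspose]
    have := hL (star a)
    rwa [norm_star] at this
  rw [e1]
  calc ‖(1 - q) * Ξ a + q * (Ξ a * (1 - q))‖ ≤ ‖(1 - q) * Ξ a‖ + ‖q * (Ξ a * (1 - q))‖ :=
        norm_add_le _ _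
    _ ≤ Real.sqrt δ * ‖a‖ + ‖q‖ * ‖Ξ a * (1 - q)‖ := by
        gcongr
        · exact hL a
        · exact Matrix.l2_opNorm_mul _ _
    _ ≤ Real.sqrt δ * ‖a‖ + 1 * (Real.sqrt δ * ‖a‖) := by gcongr
    _ = 2 * Real.sqrt δ * ‖a‖ := by ring

end QT
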