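import Mathlib
import Pool.Agent.Helper58.QT.Defs
import Pool.Agent.Helper58.QT.MatBasics

/-!
# QT-14 VMat: the absorbing operator (pure matrices)
Let `N = L * L`. (a) `w : Matrix (ι × Fin (L*L)) (ι × Fin L)`, `w ξ = L^(-1/2) ∑_s (u_s ξ) ⊗ e_s` (with
`Fin (L*L) ≃ Fin L × Fin L`): `wᴴ w = L⁻¹ ∑ u_sᴴ u_s = 1` and `wᴴ (M ⊗ 1_N) w = L⁻¹ ∑_s u_sᴴ (M ⊗ 1_L) u_s`.
(b) `J : Matrix (ι × Fin L) ((Fin m × κ) × Fin N)` with `Jᴴ J = 1`: the matrix of an injection of index sets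
(`hcard`, `Function.Embedding`). (c) `B_il : Matrix ((Fin m × κ) × Fin N) (ι × Fin N)`,
`B_il = e_l ⊗ (Z_i Qᴴ) ⊗ 1_N`; `B_ilᴴ B_jl' = δ_ll' (Q Z_iᴴ Z_j Qᴴ) ⊗ 1_N`, `‖B_il‖ ≤ ‖Z_i‖ ‖Q‖ ≤ 1`.
`Y_il = w J B_il`, `V = ∑_il (X_il ⊗ 1) Y_il`. Then
`Vᴴ (T_a ⊗ 1) V = ∑ B_ilᴴ Jᴴ wᴴ ((X_ilᴴ T_a X_jl') ⊗ 1) w J B_jl'` and each middle factor is `c • 1` up to `η`: main term
`∑_{i,j,l,l'} c a i l j l' B_ilᴴ B_jl' = (∑_ij (∑_l c a i l j l) • Q Z_iᴴ Z_j Qᴴ) ⊗ 1`, error `≤ d² m² η`.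
(d) `V = V' (Qᴴ ⊗ 1_N)` has rank `≤ r N`.
-/

open scoped Matrix Kronecker ComplexOrder Matrix.Norms.L2Operator
open Filter Topology

namespace QT

universe u

theorem vm_norm_one {n : Type*} [Fintype n] [DecidableEq n] : ‖(1 : Matrix n n ℂ)‖ ≤ 1 := by
  rcases isEmpty_or_nonempty n with h | h
  · have : (1 : Matrix n n ℂ) = 0 := Subsingleton.elim _ _
    rw [this, norm_zero]; exact zero_le_one
  · exact (norm_one (α := Matrix n n ℂ)).le

theorem vm_isom {n m : Type*} [Fintype n] [DecidableEq n] [Fintype m] [DecidableEq m]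
    (W : Matrix m n ℂ) (hW : Wᴴ * W = 1) : ‖W‖ ≤ 1 := by
  have h := Matrix.l2_opNorm_conjTranspose_mul_self W
  rw [hW] at h
  have h1 := vm_norm_one (n := n)
  nlinarith [norm_nonneg W]

theorem vm_absorb {ι : Type*} [Fintype ι] [DecidableEq ι] {L : ℕ} (hL : 0 < L)
    (u : Fin L → Matrix (ι × Fin L) (ι × Fin L) ℂ) (hu : ∀ s, (u s)ᴴ * u s = 1) :
    ∃ w : Matrix (ι × Fin (L * L)) (ι × Fin L) ℂ, wᴴ * w = 1 ∧
      ∀ M : Matrix ι ι ℂ, wᴴ * (M ⊗ₖ (1 : Matrix (Fin (L * L)) (Fin (L * L)) ℂ)) * w =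
        (L : ℂ)⁻¹ • ∑ s, (u s)ᴴ * (M ⊗ₖ (1 : Matrix (Fin L) (Fin L) ℂ)) * u s := by
  classical
  let e : Fin L × Fin L ≃ Fin (L * L) := finProdFinEquiv
  let g : Fin L → Matrix (Fin (L * L)) (Fin L) ℂ := fun s => Matrix.of fun n t =>
    if n = e (t, s) then 1 else 0
  have hg : ∀ s s', (g s)ᴴ * g s' = if s = s' then 1 else 0 := by
    intro s s'
    ext t t'
    rw [Matrix.mul_apply]
    simp only [Matrix.conjTranspose_apply, g, Matrix.of_apply]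
    have : ∀ x, star (if x = e (t, s) then (1 : ℂ) else 0) * (if x = e (t', s') then 1 else 0) =
        if x = e (t, s) then (if e (t, s) = e (t', s') then 1 else 0) else 0 := by
      intro x
      by_cases hx : x = e (t, s)
      · subst hx; simp
      · simp [hx]
    rw [Finset.sum_congr rfl (fun x _ => this x)]
    rw [Finset.sum_ite_eq' Finset.univ (e (t, s))]
    simp only [Finset.mem_univ, if_true, e.injective.eq_iff, Prod.mk.injEq]
    by_cases h : s = s'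
    · subst h
      by_cases h2 : t = t'
      · subst h2; simp
      · simp [h2]
    · simp [h]
  have hLc : (L : ℂ) ≠ 0 := by exact_mod_cast hL.ne'
  have hLr : (0 : ℝ) ≤ (L : ℝ) := Nat.cast_nonneg L
  have hsq : star (((Real.sqrt L)⁻¹ : ℝ) : ℂ) * (((Real.sqrt L)⁻¹ : ℝ) : ℂ) = (L : ℂ)⁻¹ := by
    rw [Complex.star_def, Complex.conj_ofReal, ← Complex.ofReal_mul, ← mul_inv,
      Real.mul_self_sqrt hLr]
    push_cast; rfl
  have key : ∀ M : Matrix ι ι ℂ,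
      ((((Real.sqrt L)⁻¹ : ℝ) : ℂ) • ∑ s, ((1 : Matrix ι ι ℂ) ⊗ₖ g s) * u s)ᴴ *
        (M ⊗ₖ (1 : Matrix (Fin (L * L)) (Fin (L * L)) ℂ)) *
        ((((Real.sqrt L)⁻¹ : ℝ) : ℂ) • ∑ s, ((1 : Matrix ι ι ℂ) ⊗ₖ g s) * u s) =
        (L : ℂ)⁻¹ • ∑ s, (u s)ᴴ * (M ⊗ₖ (1 : Matrix (Fin L) (Fin L) ℂ)) * u s := by
    intro M
    rw [Matrix.conjTranspose_smul, Matrix.smul_mul, Matrix.smul_mul, Matrix.mul_smul, smul_smul,
      hsq]
    congr 1
    rw [Matrix.conjTranspose_sum, Matrix.sum_mul, Matrix.sum_mul]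
    refine Finset.sum_congr rfl fun s _ => ?_
    rw [Matrix.mul_sum]
    have : ∀ s' ∈ (Finset.univ : Finset (Fin L)), (((1 : Matrix ι ι ℂ) ⊗ₖ g s) * u s)ᴴ *
        (M ⊗ₖ (1 : Matrix (Fin (L * L)) (Fin (L * L)) ℂ)) *
        (((1 : Matrix ι ι ℂ) ⊗ₖ g s') * u s') =
        if s = s' then (u s)ᴴ * (M ⊗ₖ (1 : Matrix (Fin L) (Fin L) ℂ)) * u s' else 0 := by
      intro s' _
      rw [Matrix.conjTranspose_mul, Matrix.conjTranspose_kronecker, Matrix.conjTranspose_one]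
      have h1 : (u s)ᴴ * ((1 : Matrix ι ι ℂ) ⊗ₖ (g s)ᴴ) *
          (M ⊗ₖ (1 : Matrix (Fin (L * L)) (Fin (L * L)) ℂ)) *
          (((1 : Matrix ι ι ℂ) ⊗ₖ g s') * u s') =
          (u s)ᴴ * ((((1 : Matrix ι ι ℂ) ⊗ₖ (g s)ᴴ) *
          (M ⊗ₖ (1 : Matrix (Fin (L * L)) (Fin (L * L)) ℂ))) *
          ((1 : Matrix ι ι ℂ) ⊗ₖ g s')) * u s' := by
        simp only [Matrix.mul_assoc]
      rw [h1, ← Matrix.mul_kronecker_mul, ← Matrix.mul_kronecker_mul, Matrix.one_mul,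
        Matrix.mul_one, Matrix.mul_one, hg s s']
      by_cases h : s = s'
      · rw [if_pos h, if_pos h]
      · rw [if_neg h, if_neg h, Matrix.kronecker_zero, Matrix.mul_zero, Matrix.zero_mul]
    rw [Finset.sum_congr rfl this]
    simp
  refine ⟨(((Real.sqrt L)⁻¹ : ℝ) : ℂ) • ∑ s, ((1 : Matrix ι ι ℂ) ⊗ₖ g s) * u s, ?_, key⟩
  have h := key 1
  rw [Matrix.one_kronecker_one, Matrix.one_kronecker_one, Matrix.mul_one] at h
  rw [h]
  simp only [Matrix.mul_one, hu]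
  rw [Finset.sum_const, Finset.card_univ, Fintype.card_fin, ← Nat.cast_smul_eq_nsmul ℂ, smul_smul,
    inv_mul_cancel₀ hLc, one_smul]

theorem V_matrix {ι κ : Type} [Fintype ι] [DecidableEq ι] [Fintype κ] [DecidableEq κ]
    {L d m r : ℕ} (hL : 0 < L) (u : Fin L → Matrix (ι × Fin L) (ι × Fin L) ℂ)
    (hu : ∀ s, (u s)ᴴ * u s = 1) {J : Type u} (F : Finset J) (T : J → Matrix ι ι ℂ)
    (X : Fin d → Fin m → Matrix ι ι ℂ) (c : J → Fin d → Fin m → Fin d → Fin m → ℂ) (η : ℝ)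
    (hc : ∀ a ∈ F, ∀ i l j l', ‖(L : ℂ)⁻¹ • ∑ s, (u s)ᴴ *
      (((X i l)ᴴ * T a * X j l') ⊗ₖ (1 : Matrix (Fin L) (Fin L) ℂ)) * u s - c a i l j l' • 1‖ ≤ η)
    (Q : Matrix ι (Fin r) ℂ) (hQ : Qᴴ * Q = 1) (Z : Fin d → Matrix κ (Fin r) ℂ)
    (hZ : ∀ i, ‖Z i‖ ≤ 1)
    (hcard : m * Fintype.card κ * (L * L) ≤ Fintype.card ι * L) :
    ∃ (V : Matrix (ι × Fin (L * L)) (ι × Fin (L * L)) ℂ)
      (Y : Fin d → Fin m → Matrix (ι × Fin (L * L)) (ι × Fin (L * L)) ℂ),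
      V = ∑ i, ∑ l, (X i l ⊗ₖ (1 : Matrix (Fin (L * L)) (Fin (L * L)) ℂ)) * Y i l ∧
      (∀ i l, ‖Y i l‖ ≤ 1) ∧ V.rank ≤ r * (L * L) ∧
      ∀ a ∈ F, ‖Vᴴ * (T a ⊗ₖ (1 : Matrix (Fin (L * L)) (Fin (L * L)) ℂ)) * V
        - (∑ i, ∑ j, (∑ l, c a i l j l) • (Q * ((Z i)ᴴ * Z j) * Qᴴ)) ⊗ₖ
            (1 : Matrix (Fin (L * L)) (Fin (L * L)) ℂ)‖ ≤ (d : ℝ) ^ 2 * (m : ℝ) ^ 2 * η := by
  classical
  obtain ⟨w, hw1, hw⟩ := vm_absorb hL u hu
  -- the isometry J₀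
  have hc2 : Fintype.card ((Fin m × κ) × Fin (L * L)) ≤ Fintype.card (ι × Fin L) := by
    simpa [Fintype.card_prod] using hcard
  obtain ⟨f⟩ := Function.Embedding.nonempty_of_card_le hc2
  let J₀ : Matrix (ι × Fin L) ((Fin m × κ) × Fin (L * L)) ℂ := Matrix.of fun p q =>
    if p = f q then 1 else 0
  have hJ : J₀ᴴ * J₀ = 1 := by
    ext q q'
    rw [Matrix.mul_apply]
    simp only [Matrix.conjTranspose_apply, J₀, Matrix.of_apply]
    have : ∀ x, star (if x = f q then (1 : ℂ) else 0) * (if x = f q' then 1 else 0) =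
        if x = f q then (if f q = f q' then 1 else 0) else 0 := by
      intro x
      by_cases hx : x = f q
      · subst hx; simp
      · simp [hx]
    rw [Finset.sum_congr rfl (fun x _ => this x), Finset.sum_ite_eq' Finset.univ (f q)]
    simp only [Finset.mem_univ, if_true, f.injective.eq_iff]
    by_cases h : q = q'
    · subst h; simp
    · simp [h]
  -- the columns
  let z : Fin d → Fin m → Matrix (Fin m × κ) (Fin r) ℂ := fun i l => Matrix.of fun p t =>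
    if p.1 = l then Z i p.2 t else 0
  have hz : ∀ i l j l', (z i l)ᴴ * z j l' = if l = l' then (Z i)ᴴ * Z j else 0 := by
    intro i l j l'
    ext t t'
    rw [Matrix.mul_apply, Fintype.sum_prod_type]
    simp only [Matrix.conjTranspose_apply, z, Matrix.of_apply]
    have : ∀ x : Fin m, ∑ y : κ, star (if x = l then Z i y t else 0) *
        (if x = l' then Z j y t' else 0) =
        if x = l then (if l = l' then ∑ y : κ, star (Z i y t) * Z j y t' else 0) else 0 := by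
      intro x
      by_cases hx : x = l
      · subst hx
        by_cases h2 : x = l'
        · simp [h2]
        · simp [h2]
      · simp [hx]
    rw [Finset.sum_congr rfl (fun x _ => this x), Finset.sum_ite_eq' Finset.univ l]
    simp only [Finset.mem_univ, if_true]
    by_cases h : l = l'
    · rw [if_pos h, if_pos h, Matrix.mul_apply]
      simp [Matrix.conjTranspose_apply]
    · simp [h]
  let b : Fin d → Fin m → Matrix (Fin m × κ) ι ℂ := fun i l => z i l * Qᴴ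
  have hb : ∀ i l j l', (b i l)ᴴ * b j l' =
      if l = l' then Q * ((Z i)ᴴ * Z j) * Qᴴ else 0 := by
    intro i l j l'
    have : (b i l)ᴴ * b j l' = Q * ((z i l)ᴴ * z j l') * Qᴴ := by
      simp only [b, Matrix.conjTranspose_mul, Matrix.conjTranspose_conjTranspose,
        Matrix.mul_assoc]
    rw [this, hz]
    by_cases h : l = l'
    · rw [if_pos h, if_pos h]
    · rw [if_neg h, if_neg h, Matrix.mul_zero, Matrix.zero_mul]
  let B : Fin d → Fin m → Matrix ((Fin m × κ) × Fin (L * L)) (ι × Fin (L * L)) ℂ := fun i l =>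
    b i l ⊗ₖ (1 : Matrix (Fin (L * L)) (Fin (L * L)) ℂ)
  have hB : ∀ i l j l', (B i l)ᴴ * B j l' = (if l = l' then Q * ((Z i)ᴴ * Z j) * Qᴴ else 0) ⊗ₖ
      (1 : Matrix (Fin (L * L)) (Fin (L * L)) ℂ) := by
    intro i l j l'
    simp only [B]
    rw [Matrix.conjTranspose_kronecker, Matrix.conjTranspose_one, ← Matrix.mul_kronecker_mul,
      Matrix.one_mul, hb]
  have hQn : ‖Q‖ ≤ 1 := vm_isom Q hQ
  have hzn : ∀ i l, ‖z i l‖ ≤ 1 := by
    intro i l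
    have h := Matrix.l2_opNorm_conjTranspose_mul_self (z i l)
    rw [hz i l i l, if_pos rfl, Matrix.l2_opNorm_conjTranspose_mul_self] at h
    have h0 := norm_nonneg (z i l)
    have h1 := norm_nonneg (Z i)
    have h2 := hZ i
    nlinarith
  have hbn : ∀ i l, ‖b i l‖ ≤ 1 := by
    intro i l
    refine (Matrix.l2_opNorm_mul _ _).trans ?_
    rw [Matrix.l2_opNorm_conjTranspose]
    exact mul_le_one₀ (hzn i l) (norm_nonneg _) hQn
  have hBn : ∀ i l, ‖B i l‖ ≤ 1 := fun i l => (kron_one_norm (b i l)).trans (hbn i l)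
  let G : Fin d → Fin m → Matrix (ι × Fin L) (ι × Fin (L * L)) ℂ := fun i l => J₀ * B i l
  have hGn : ∀ i l, ‖G i l‖ ≤ 1 := fun i l =>
    (Matrix.l2_opNorm_mul _ _).trans (mul_le_one₀ (vm_isom J₀ hJ) (norm_nonneg _) (hBn i l))
  have hG : ∀ i l j l', (G i l)ᴴ * G j l' = (if l = l' then Q * ((Z i)ᴴ * Z j) * Qᴴ else 0) ⊗ₖ
      (1 : Matrix (Fin (L * L)) (Fin (L * L)) ℂ) := by
    intro i l j l'
    have : (G i l)ᴴ * G j l' = (B i l)ᴴ * (J₀ᴴ * J₀) * B j l' := by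
      simp only [G, Matrix.conjTranspose_mul, Matrix.mul_assoc]
    rw [this, hJ, Matrix.mul_one, hB]
  have hYn : ∀ i l, ‖w * G i l‖ ≤ 1 := fun i l =>
    (Matrix.l2_opNorm_mul _ _).trans (mul_le_one₀ (vm_isom w hw1) (norm_nonneg _) (hGn i l))
  refine ⟨∑ i, ∑ l, (X i l ⊗ₖ (1 : Matrix (Fin (L * L)) (Fin (L * L)) ℂ)) * (w * G i l),
    fun i l => w * G i l, rfl, hYn, ?_, ?_⟩
  · -- rank
    have : ∑ i, ∑ l, (X i l ⊗ₖ (1 : Matrix (Fin (L * L)) (Fin (L * L)) ℂ)) * (w * G i l) =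
        (∑ i, ∑ l, (X i l ⊗ₖ (1 : Matrix (Fin (L * L)) (Fin (L * L)) ℂ)) *
          (w * (J₀ * (z i l ⊗ₖ (1 : Matrix (Fin (L * L)) (Fin (L * L)) ℂ))))) *
          (Qᴴ ⊗ₖ (1 : Matrix (Fin (L * L)) (Fin (L * L)) ℂ)) := by
      rw [Matrix.sum_mul]
      refine Finset.sum_congr rfl fun i _ => ?_
      rw [Matrix.sum_mul]
      refine Finset.sum_congr rfl fun l _ => ?_
      have h2 : B i l = (z i l ⊗ₖ (1 : Matrix (Fin (L * L)) (Fin (L * L)) ℂ)) *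
          (Qᴴ ⊗ₖ (1 : Matrix (Fin (L * L)) (Fin (L * L)) ℂ)) := by
        rw [← Matrix.mul_kronecker_mul, Matrix.one_mul]
      simp only [G]
      rw [h2]
      simp only [Matrix.mul_assoc]
    rw [this]
    refine (Matrix.rank_mul_le_right _ _).trans ((Matrix.rank_le_card_height _).trans ?_)
    simp
  · intro a ha
    -- expansion
    have hM : ∀ i l j l', (w * G i l)ᴴ * ((((X i l)ᴴ * T a * X j l')) ⊗ₖ
        (1 : Matrix (Fin (L * L)) (Fin (L * L)) ℂ)) * (w * G j l') =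
        (G i l)ᴴ * ((L : ℂ)⁻¹ • ∑ s, (u s)ᴴ *
      (((X i l)ᴴ * T a * X j l') ⊗ₖ (1 : Matrix (Fin L) (Fin L) ℂ)) * u s) * G j l' := by
      intro i l j l'
      rw [← hw, Matrix.conjTranspose_mul]
      simp only [Matrix.mul_assoc]
    have hexp : (∑ i, ∑ l, (X i l ⊗ₖ (1 : Matrix (Fin (L * L)) (Fin (L * L)) ℂ)) *
        (w * G i l))ᴴ * (T a ⊗ₖ (1 : Matrix (Fin (L * L)) (Fin (L * L)) ℂ)) *
        (∑ i, ∑ l, (X i l ⊗ₖ (1 : Matrix (Fin (L * L)) (Fin (L * L)) ℂ)) * (w * G i l)) =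
        ∑ i, ∑ l, ∑ j, ∑ l', (w * G i l)ᴴ * ((((X i l)ᴴ * T a * X j l')) ⊗ₖ
        (1 : Matrix (Fin (L * L)) (Fin (L * L)) ℂ)) * (w * G j l') := by
      rw [Matrix.conjTranspose_sum, Matrix.sum_mul, Matrix.sum_mul]
      refine Finset.sum_congr rfl fun i _ => ?_
      rw [Matrix.conjTranspose_sum, Matrix.sum_mul, Matrix.sum_mul]
      refine Finset.sum_congr rfl fun l _ => ?_
      rw [Matrix.mul_sum]
      refine Finset.sum_congr rfl fun j _ => ?_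
      rw [Matrix.mul_sum]
      refine Finset.sum_congr rfl fun l' _ => ?_
      have h3 : ((((X i l)ᴴ * T a * X j l')) ⊗ₖ
        (1 : Matrix (Fin (L * L)) (Fin (L * L)) ℂ)) =
        ((X i l)ᴴ ⊗ₖ (1 : Matrix (Fin (L * L)) (Fin (L * L)) ℂ)) *
        (T a ⊗ₖ (1 : Matrix (Fin (L * L)) (Fin (L * L)) ℂ)) *
        (X j l' ⊗ₖ (1 : Matrix (Fin (L * L)) (Fin (L * L)) ℂ)) := by
        rw [← Matrix.mul_kronecker_mul, ← Matrix.mul_kronecker_mul, Matrix.one_mul,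
          Matrix.one_mul]
      rw [h3, Matrix.conjTranspose_mul, Matrix.conjTranspose_kronecker, Matrix.conjTranspose_one]
      simp only [Matrix.mul_assoc]
    have hmain : (∑ i, ∑ j, (∑ l, c a i l j l) • (Q * ((Z i)ᴴ * Z j) * Qᴴ)) ⊗ₖ
            (1 : Matrix (Fin (L * L)) (Fin (L * L)) ℂ) =
        ∑ i, ∑ l, ∑ j, ∑ l', (G i l)ᴴ * (c a i l j l' •
          (1 : Matrix (ι × Fin L) (ι × Fin L) ℂ)) * G j l' := by
      have h4 : ∀ i l j l', (G i l)ᴴ * (c a i l j l' • (1 : Matrix (ι × Fin L) (ι × Fin L) ℂ)) *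
          G j l' = if l = l' then c a i l j l • ((Q * ((Z i)ᴴ * Z j) * Qᴴ) ⊗ₖ
            (1 : Matrix (Fin (L * L)) (Fin (L * L)) ℂ)) else 0 := by
        intro i l j l'
        rw [Matrix.mul_smul, Matrix.smul_mul, Matrix.mul_one, hG]
        by_cases h : l = l'
        · rw [if_pos h, if_pos h, h]
        · rw [if_neg h, if_neg h, Matrix.zero_kronecker, smul_zero]
      simp only [h4, Finset.sum_ite_eq, Finset.mem_univ, if_true]
      have hadd : ∀ (s : Finset (Fin d)) (g : Fin d → Matrix ι ι ℂ), (∑ i ∈ s, g i) ⊗ₖ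
            (1 : Matrix (Fin (L * L)) (Fin (L * L)) ℂ) = ∑ i ∈ s, (g i) ⊗ₖ
            (1 : Matrix (Fin (L * L)) (Fin (L * L)) ℂ) := by
        intro s g
        induction s using Finset.induction_on with
        | empty => simp
        | insert i s hi ih => rw [Finset.sum_insert hi, Finset.sum_insert hi,
            Matrix.add_kronecker, ih]
      rw [hadd]
      refine Finset.sum_congr rfl fun i _ => ?_
      rw [hadd, Finset.sum_comm]
      refine Finset.sum_congr rfl fun j _ => ?_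
      rw [Matrix.smul_kronecker, Finset.sum_smul]
    rw [hexp, hmain]
    simp only [hM]
    simp only [← Finset.sum_sub_distrib]
    have hterm : ∀ i l j l', ‖(G i l)ᴴ * ((L : ℂ)⁻¹ • ∑ s, (u s)ᴴ *
      (((X i l)ᴴ * T a * X j l') ⊗ₖ (1 : Matrix (Fin L) (Fin L) ℂ)) * u s) * G j l' -
        (G i l)ᴴ * (c a i l j l' • (1 : Matrix (ι × Fin L) (ι × Fin L) ℂ)) * G j l'‖ ≤ η := by
      intro i l j l'
      have h5 := hc a ha i l j l'
      rw [← Matrix.sub_mul, ← Matrix.mul_sub]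
      have hη : 0 ≤ η := (norm_nonneg _).trans h5
      calc _ ≤ ‖(G i l)ᴴ * ((L : ℂ)⁻¹ • ∑ s, (u s)ᴴ *
            (((X i l)ᴴ * T a * X j l') ⊗ₖ (1 : Matrix (Fin L) (Fin L) ℂ)) * u s -
              c a i l j l' • 1)‖ * ‖G j l'‖ := Matrix.l2_opNorm_mul _ _
        _ ≤ (‖(G i l)ᴴ‖ * ‖((L : ℂ)⁻¹ • ∑ s, (u s)ᴴ *
            (((X i l)ᴴ * T a * X j l') ⊗ₖ (1 : Matrix (Fin L) (Fin L) ℂ)) * u s -
              c a i l j l' • 1)‖) * ‖G j l'‖ :=
            mul_le_mul_of_nonneg_right (Matrix.l2_opNorm_mul _ _) (norm_nonneg _)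
        _ ≤ (1 * η) * 1 := by
            refine mul_le_mul (mul_le_mul ?_ h5 (norm_nonneg _) zero_le_one) (hGn j l')
              (norm_nonneg _) (by linarith)
            rw [Matrix.l2_opNorm_conjTranspose]; exact hGn i l
        _ = η := by ring
    refine (norm_sum_le _ _).trans ?_
    have h6 : ∀ i ∈ (Finset.univ : Finset (Fin d)), ‖∑ l, ∑ j, ∑ l',
        ((G i l)ᴴ * ((L : ℂ)⁻¹ • ∑ s, (u s)ᴴ *
      (((X i l)ᴴ * T a * X j l') ⊗ₖ (1 : Matrix (Fin L) (Fin L) ℂ)) * u s) * G j l' -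
        (G i l)ᴴ * (c a i l j l' • (1 : Matrix (ι × Fin L) (ι × Fin L) ℂ)) * G j l')‖ ≤ m * (d * (m * η)) := by
      intro i _
      refine (norm_sum_le_of_le _ (fun l _ => (norm_sum_le_of_le _ (fun j _ =>
        (norm_sum_le_of_le _ (fun l' _ => hterm i l j l')))))).trans ?_
      simp
    refine (Finset.sum_le_sum h6).trans ?_
    simp only [Finset.sum_const, Finset.card_univ, Fintype.card_fin, nsmul_eq_mul]
    exact le_of_eq (by ring)

end QT
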