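import Mathlib
import Pool.Agent.Helper58.QT.Defs
import Pool.Agent.Helper58.QT.Fn
import Pool.Agent.Helper58.QT.FnRel
import Pool.Agent.Helper58.QT.CPBasics
import Pool.Agent.Helper58.QT.MatBasics
import Pool.Agent.Helper58.QT.Dix
import Pool.Agent.Helper58.QT.Gram
import Pool.Agent.Helper58.QT.VMat
import Pool.Agent.Helper58.QT.SmallSupp

/-!
# QT-16 StageV: the absorbing operator in a quasidiagonal representation of the interface
Write `a_f = E.al f`, `b_f = E.be f`. `ψ n` is a unital CP map, so `‖ψ n y‖ ≤ ‖y‖` (`isCP_norm_le`).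
1. `gram` for `F ∪ {1}`... and `ε/4` gives `d, m, x` (independent of `n`). Let `X_il = ψ n (a_rh (x i l))`,
   `T_a = ψ n (a_th a)`. Let `K ≥ 1` bound all `‖X_ilᴴ T_a X_jl'‖` (uniformly in `n`), `s` = number of quintuples
   `(a,i,l,j,l')`, `a ∈ F`. `dix s (ε/(16 K (d m + 1)²))` gives `L`. All independent of `n`.
2. `X_ilᴴ T_a X_jl' - ψ n (a_{rh rh}(x_il* a x_jl')) → 0` (`hmul` twice, `isCP_star`, `th rh = rh`), and
   `ntr(ψ n (a_{rh rh} y)) → rh(1)² τ(y) = τ(y)` (`hσa`, `fn_one`). So for `n` large, with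
   `c a i l j l' = τ(x_il* a x_jl')`, hypothesis `hc` of `V_matrix` holds with `η = ε/(4 (d m + 1)²)` (apply `dix` to the matrices
   divided by `K`).
3. `Ξ = ψ n ∘ b_th` is CP: `thF = sqthF * sqthF` (`fn_sqth`), so `b_th (Mᴴ M) = Nᴴ N` entrywise with `N = M.map (b_sqth)`;
   `‖Ξ 1‖ ≤ ‖b_th 1‖ ≤ 1` by `hb`. `ntr(Ξ 1) → σ(b_th 1) = 0`. `small_support` with `δ = (ε/16)²/(1 + max ‖a‖)²` gives `r, Q` with
   `r/(k n) → 0` as `n → ∞`.
4. `Ξ_Q(a) = Qᴴ Ξ(a) Q` is CP contractive (`isCP_conj`); Gram vectors `Z_i : Matrix (Fin d × Fin r) (Fin r)`.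
   `hcard`: `m d r L² ≤ k(n) L` for `n` large (`r / k(n) → 0`). `V_matrix` gives `V`, `N = L²`. The main term is
   `Q (∑ ..Z_iᴴ Z_j) Qᴴ ≈ Q Qᴴ Ξ(a) Q Qᴴ ≈ Ξ(a)`. rank: `r N ≤ ε k(n) N`.
5. `(ψ n (a_g 1) ⊗ 1) V = ∑ (ψ n(a_g 1) ψ n(a_rh x_il) ⊗ 1) Y_il ≈ ∑ (ψ n(a_{g rh} x_il) ⊗ 1) Y_il`: `th rh = rh`, `ka rh = rh`,
   `ch rh = 0`, `(th - th²) rh = 0` (the last one with `x` in place of `1`); the number of terms and `‖Y_il‖ ≤ 1` do not depend on `n`.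
   (`al_add` gives `a_0 = 0` and `a_{f-g} = a_f - a_g`.)
-/

open scoped Matrix Kronecker ComplexOrder Matrix.Norms.L2Operator
open Filter Topology

namespace QT

universe u


private theorem sv_one_le {ι : Type*} [Fintype ι] [DecidableEq ι] : ‖(1 : Matrix ι ι ℂ)‖ ≤ 1 := by
  have h := Matrix.l2_opNorm_conjTranspose_mul_self (1 : Matrix ι ι ℂ)
  rw [Matrix.conjTranspose_one, Matrix.mul_one] at h
  nlinarith [norm_nonneg (1 : Matrix ι ι ℂ), sq_nonneg (‖(1 : Matrix ι ι ℂ)‖ - 1)]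

private theorem sv_iso {ι κ : Type*} [Fintype ι] [DecidableEq ι] [Fintype κ] [DecidableEq κ]
    (W : Matrix ι κ ℂ) (h : Wᴴ * W = 1) : ‖W‖ ≤ 1 := by
  have h1 := Matrix.l2_opNorm_conjTranspose_mul_self W
  rw [h] at h1
  have h2 := sv_one_le (ι := κ)
  rw [h1] at h2
  nlinarith [norm_nonneg W]

private theorem sv_sand {ι κ : Type*} [Fintype ι] [DecidableEq ι] [Fintype κ] [DecidableEq κ]
    (W : Matrix ι κ ℂ) (h : Wᴴ * W = 1) (x : Matrix ι ι ℂ) : ‖Wᴴ * x * W‖ ≤ ‖x‖ := by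
  have h1 := sv_iso W h
  have h2 : ‖Wᴴ‖ ≤ 1 := by rw [Matrix.l2_opNorm_conjTranspose]; exact h1
  calc ‖Wᴴ * x * W‖ ≤ ‖Wᴴ * x‖ * ‖W‖ := Matrix.l2_opNorm_mul _ _
    _ ≤ (‖Wᴴ‖ * ‖x‖) * ‖W‖ := mul_le_mul_of_nonneg_right (Matrix.l2_opNorm_mul _ _) (norm_nonneg _)
    _ ≤ (1 * ‖x‖) * 1 := by
        refine mul_le_mul (mul_le_mul_of_nonneg_right h2 (norm_nonneg _)) h1 (norm_nonneg _) ?_
        rw [one_mul]
        exact norm_nonneg _
    _ = ‖x‖ := by ring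

private theorem sv_sand' {ι κ : Type*} [Fintype ι] [DecidableEq ι] [Fintype κ] [DecidableEq κ]
    (W : Matrix ι κ ℂ) (h : Wᴴ * W = 1) (x : Matrix κ κ ℂ) : ‖W * x * Wᴴ‖ ≤ ‖x‖ := by
  have h1 := sv_iso W h
  have h2 : ‖Wᴴ‖ ≤ 1 := by rw [Matrix.l2_opNorm_conjTranspose]; exact h1
  calc ‖W * x * Wᴴ‖ ≤ ‖W * x‖ * ‖Wᴴ‖ := Matrix.l2_opNorm_mul _ _
    _ ≤ (‖W‖ * ‖x‖) * ‖Wᴴ‖ := mul_le_mul_of_nonneg_right (Matrix.l2_opNorm_mul _ _) (norm_nonneg _)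
    _ ≤ (1 * ‖x‖) * 1 := by
        refine mul_le_mul (mul_le_mul_of_nonneg_right h1 (norm_nonneg _)) h2 (norm_nonneg _) ?_
        rw [one_mul]
        exact norm_nonneg _
    _ = ‖x‖ := by ring

private theorem sv_kron_sub {ι κ : Type*} [DecidableEq κ] (x y : Matrix ι ι ℂ) :
    (x - y) ⊗ₖ (1 : Matrix κ κ ℂ) = x ⊗ₖ (1 : Matrix κ κ ℂ) - y ⊗ₖ (1 : Matrix κ κ ℂ) := by
  ext p q
  simp only [Matrix.kroneckerMap_apply, Matrix.sub_apply, sub_mul]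

/-- multiplication of `V` from the left -/
private theorem sv_left {ι κ : Type*} [Fintype ι] [DecidableEq ι] [Fintype κ] [DecidableEq κ]
    {d m : ℕ} (X X' : Fin d → Fin m → Matrix ι ι ℂ)
    (Y : Fin d → Fin m → Matrix (ι × κ) (ι × κ) ℂ) (hY : ∀ i l, ‖Y i l‖ ≤ 1) (G : Matrix ι ι ℂ)
    (e : ℝ) (he : ∀ i l, ‖G * X i l - X' i l‖ ≤ e) :
    ‖(G ⊗ₖ (1 : Matrix κ κ ℂ)) * (∑ i, ∑ l, (X i l ⊗ₖ (1 : Matrix κ κ ℂ)) * Y i l) -
      ∑ i, ∑ l, (X' i l ⊗ₖ (1 : Matrix κ κ ℂ)) * Y i l‖ ≤ (d : ℝ) * m * e := by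
  have h1 : (G ⊗ₖ (1 : Matrix κ κ ℂ)) * (∑ i, ∑ l, (X i l ⊗ₖ (1 : Matrix κ κ ℂ)) * Y i l) -
      ∑ i, ∑ l, (X' i l ⊗ₖ (1 : Matrix κ κ ℂ)) * Y i l =
      ∑ i, ∑ l, ((G * X i l - X' i l) ⊗ₖ (1 : Matrix κ κ ℂ)) * Y i l := by
    simp only [Matrix.mul_sum, ← Finset.sum_sub_distrib]
    refine Finset.sum_congr rfl fun i _ => Finset.sum_congr rfl fun l _ => ?_
    rw [sv_kron_sub, kron_one_mul, Matrix.sub_mul, Matrix.mul_assoc]
  rw [h1]
  refine (norm_sum_le _ _).trans ?_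
  calc ∑ i, ‖∑ l, ((G * X i l - X' i l) ⊗ₖ (1 : Matrix κ κ ℂ)) * Y i l‖
      ≤ ∑ _i : Fin d, ∑ _l : Fin m, e := by
        refine Finset.sum_le_sum fun i _ => (norm_sum_le _ _).trans
          (Finset.sum_le_sum fun l _ => ?_)
        calc ‖((G * X i l - X' i l) ⊗ₖ (1 : Matrix κ κ ℂ)) * Y i l‖
            ≤ ‖(G * X i l - X' i l) ⊗ₖ (1 : Matrix κ κ ℂ)‖ * ‖Y i l‖ := Matrix.l2_opNorm_mul _ _
          _ ≤ ‖G * X i l - X' i l‖ * 1 := mul_le_mul (kron_one_norm _) (hY i l) (norm_nonneg _)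
              (norm_nonneg _)
          _ ≤ e := by rw [mul_one]; exact he i l
    _ = (d : ℝ) * m * e := by
        simp only [Finset.sum_const, Finset.card_univ, Fintype.card_fin, nsmul_eq_mul]
        ring

/-- the averaging defect is homogeneous -/
private theorem sv_theta {ι : Type*} [Fintype ι] [DecidableEq ι] {L : ℕ}
    (u : Fin L → Matrix (ι × Fin L) (ι × Fin L) ℂ) (c : ℂ) (M : Matrix ι ι ℂ) :
    (L : ℂ)⁻¹ • ∑ s, (u s)ᴴ * ((c • M) ⊗ₖ (1 : Matrix (Fin L) (Fin L) ℂ)) * u s -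
      ntr (c • M) • 1 =
    c • ((L : ℂ)⁻¹ • ∑ s, (u s)ᴴ * (M ⊗ₖ (1 : Matrix (Fin L) (Fin L) ℂ)) * u s -
      ntr M • 1) := by
  have h1 : ∑ s, (u s)ᴴ * ((c • M) ⊗ₖ (1 : Matrix (Fin L) (Fin L) ℂ)) * u s =
      c • ∑ s, (u s)ᴴ * (M ⊗ₖ (1 : Matrix (Fin L) (Fin L) ℂ)) * u s := by
    rw [Finset.smul_sum]
    refine Finset.sum_congr rfl fun s _ => ?_
    rw [Matrix.smul_kronecker, Matrix.mul_smul, Matrix.smul_mul]
  rw [h1, ntr_smul, smul_sub, smul_comm, mul_smul]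

private theorem sv_al_zero {A Q : Type*} [Ring A] [StarRing A] [Algebra ℂ A] [Ring Q] [StarRing Q]
    [Algebra ℂ Q] (E : Ends A Q) (a : A) : E.al 0 a = 0 := by
  have h := E.al_add 0 0 a
  rw [add_zero] at h
  exact left_eq_add.1 h

private theorem sv_be_cp {A : Type u} [CStarAlgebra A] {Dt : Type u} [CStarAlgebra Dt]
    (E : Ends A Dt) : IsCP (E.be thF) := by
  intro m M
  refine ⟨M.map (E.be sqthF), ?_⟩
  ext p q
  rw [Matrix.map_apply, Matrix.mul_apply, Matrix.mul_apply, map_sum]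
  refine Finset.sum_congr rfl fun r _ => ?_
  rw [Matrix.conjTranspose_apply, Matrix.conjTranspose_apply, Matrix.map_apply, Matrix.map_apply,
    E.be_star, E.be_mul, fn_sqth]

theorem stageV
    {A : Type u} [CStarAlgebra A] (τ : TracialState A)
    {Dt : Type u} [CStarAlgebra Dt] (E : Ends A Dt) (σ : TracialState Dt)
    (hσa : ∀ (f : Fn) (a : A),
      σ.toFun (E.al f a) = (((f : C(unitInterval, ℝ)) 1 : ℝ) : ℂ) * τ.toFun a)
    (hσb : ∀ (f : Fn) (a : A), σ.toFun (E.be f a) = 0)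
    (k : ℕ → ℕ) (ψ : ∀ n, Dt →ₗ[ℂ] Matrix (Fin (k n)) (Fin (k n)) ℂ)
    (hk : ∀ n, 0 < k n) (hcp : ∀ n, IsCP (ψ n)) (h1 : ∀ n, ψ n 1 = 1)
    (hmul : ∀ a b, Tendsto (fun n => ‖ψ n (a * b) - ψ n a * ψ n b‖) atTop (𝓝 0))
    (htr : ∀ a, Tendsto (fun n => ntr (ψ n a)) atTop (𝓝 (σ.toFun a)))
    (hA : NuclearlyEmbeddable A) (hτ : τ.Faithful) (hb : ‖E.be thF 1‖ ≤ 1)
    (F : Finset A) (ε : ℝ) (hε : 0 < ε) (n0 : ℕ) :
    ∃ n, n0 ≤ n ∧ ∃ N : ℕ, 0 < N ∧ ∃ V : Matrix (Fin (k n) × Fin N) (Fin (k n) × Fin N) ℂ,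
      (∀ x ∈ F, ‖Vᴴ * (ψ n (E.al thF x) ⊗ₖ (1 : Matrix (Fin N) (Fin N) ℂ)) * V
        - ψ n (E.be thF x) ⊗ₖ (1 : Matrix (Fin N) (Fin N) ℂ)‖ ≤ ε) ∧
      (V.rank : ℝ) ≤ ε * ((k n : ℝ) * N) ∧
      ‖(ψ n (E.al thF 1) ⊗ₖ (1 : Matrix (Fin N) (Fin N) ℂ)) * V - V‖ ≤ ε ∧
      ‖(ψ n (E.al kaF 1) ⊗ₖ (1 : Matrix (Fin N) (Fin N) ℂ)) * V - V‖ ≤ ε ∧
      ‖(ψ n (E.al chF 1) ⊗ₖ (1 : Matrix (Fin N) (Fin N) ℂ)) * V‖ ≤ ε ∧
      ∀ x ∈ F, ‖(ψ n (E.al (thF - thF * thF) x) ⊗ₖ (1 : Matrix (Fin N) (Fin N) ℂ)) * V‖ ≤ ε := by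
  classical
  have hψ : ∀ n y, ‖ψ n y‖ ≤ ‖y‖ := by
    intro n y
    refine (isCP_norm_le (hcp n) y).trans ?_
    rw [h1]
    calc ‖(1 : Matrix (Fin (k n)) (Fin (k n)) ℂ)‖ * ‖y‖ ≤ 1 * ‖y‖ :=
          mul_le_mul_of_nonneg_right sv_one_le (norm_nonneg _)
      _ = ‖y‖ := one_mul _
  -- step 1
  obtain ⟨d, m, x, hgram⟩ := gram hA τ hτ F (ε / 4) (by positivity)
  have hmul3 : ∀ u v w : Dt, Tendsto
      (fun n => ‖ψ n (u * v * w) - ψ n u * ψ n v * ψ n w‖) atTop (𝓝 0) := by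
    intro u v w
    have hle : ∀ n, ‖ψ n (u * v * w) - ψ n u * ψ n v * ψ n w‖ ≤
        ‖ψ n (u * v * w) - ψ n (u * v) * ψ n w‖ + ‖ψ n (u * v) - ψ n u * ψ n v‖ * ‖w‖ := by
      intro n
      have e1 : ψ n (u * v * w) - ψ n u * ψ n v * ψ n w =
          (ψ n (u * v * w) - ψ n (u * v) * ψ n w) + (ψ n (u * v) - ψ n u * ψ n v) * ψ n w := by
        rw [Matrix.sub_mul]
        abel
      rw [e1]
      refine (norm_add_le _ _).trans (add_le_add le_rfl ?_)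
      exact (Matrix.l2_opNorm_mul _ _).trans
        (mul_le_mul_of_nonneg_left (hψ n w) (norm_nonneg _))
    refine squeeze_zero (fun n => norm_nonneg _) hle ?_
    have := (hmul (u * v) w).add ((hmul u v).mul_const ‖w‖)
    simpa using this
  have hstar : ∀ n i l, (ψ n (E.al rhF (x i l)))ᴴ = ψ n (E.al rhF (star (x i l))) := by
    intro n i l
    rw [← isCP_star (hcp n), E.al_star]
  have hone1 := fn_one
  have htr3 : ∀ (a : A) (i : Fin d) (l : Fin m) (j : Fin d) (l' : Fin m),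
      Tendsto (fun n => ntr ((ψ n (E.al rhF (x i l)))ᴴ * ψ n (E.al thF a) *
        ψ n (E.al rhF (x j l')))) atTop (𝓝 (τ.toFun (star (x i l) * a * x j l'))) := by
    intro a i l j l'
    have h2 : Tendsto (fun n => ntr (ψ n (E.al rhF (star (x i l)) * E.al thF a *
        E.al rhF (x j l')) - ψ n (E.al rhF (star (x i l))) * ψ n (E.al thF a) *
        ψ n (E.al rhF (x j l')))) atTop (𝓝 0) :=
      squeeze_zero_norm (fun n => ntr_norm_le _) (hmul3 _ _ _)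
    have h3 := (htr (E.al rhF (star (x i l)) * E.al thF a * E.al rhF (x j l'))).sub h2
    have h4 : σ.toFun (E.al rhF (star (x i l)) * E.al thF a * E.al rhF (x j l')) - 0 =
        τ.toFun (star (x i l) * a * x j l') := by
      rw [E.al_mul, E.al_mul, hσa, sub_zero]
      have h5 : ((rhF * thF * rhF : Fn) : C(unitInterval, ℝ)) 1 = 1 := by
        show ((rhF : C(unitInterval, ℝ)) 1 * (thF : C(unitInterval, ℝ)) 1) *
          (rhF : C(unitInterval, ℝ)) 1 = 1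
        rw [hone1.1, hone1.2.2]
        norm_num
      rw [h5]
      simp
    rw [h4] at h3
    refine h3.congr fun n => ?_
    rw [ntr_sub, hstar]
    ring
  -- constants
  set P := {a // a ∈ F} × ((Fin d × Fin m) × (Fin d × Fin m)) with hP
  set Kb : ℝ := 1 + ∑ t : P, ‖E.al rhF (x t.2.1.1 t.2.1.2)‖ * ‖E.al thF t.1.1‖ *
    ‖E.al rhF (x t.2.2.1 t.2.2.2)‖ with hKb
  have hKb0 : ∀ t : P, ‖E.al rhF (x t.2.1.1 t.2.1.2)‖ * ‖E.al thF t.1.1‖ *
      ‖E.al rhF (x t.2.2.1 t.2.2.2)‖ ≤ Kb := by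
    intro t
    have := Finset.single_le_sum (f := fun t : P => ‖E.al rhF (x t.2.1.1 t.2.1.2)‖ *
      ‖E.al thF t.1.1‖ * ‖E.al rhF (x t.2.2.1 t.2.2.2)‖) (fun t _ => by positivity)
      (Finset.mem_univ t)
    rw [hKb]
    linarith
  have hKb1 : 1 ≤ Kb := by
    rw [hKb]
    have : 0 ≤ ∑ t : P, ‖E.al rhF (x t.2.1.1 t.2.1.2)‖ * ‖E.al thF t.1.1‖ *
      ‖E.al rhF (x t.2.2.1 t.2.2.2)‖ := Finset.sum_nonneg fun t _ => by positivity
    linarith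
  have hKbpos : 0 < Kb := lt_of_lt_of_le one_pos hKb1
  set η : ℝ := ε / (4 * ((d : ℝ) * m + 1) ^ 2) with hη
  have hdm : (0 : ℝ) ≤ (d : ℝ) * m := by positivity
  have hηpos : 0 < η := by positivity
  obtain ⟨L, hL, hdix⟩ := dix (Fintype.card P) (η / (2 * Kb)) (by positivity)
  set Ma : ℝ := ∑ a ∈ F, ‖a‖ with hMa
  have hMa0 : 0 ≤ Ma := Finset.sum_nonneg fun a _ => norm_nonneg a
  have hMa1 : ∀ a ∈ F, ‖a‖ ≤ Ma := fun a ha =>
    Finset.single_le_sum (f := fun a => ‖a‖) (fun a _ => norm_nonneg a) ha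
  set δ : ℝ := (ε / (8 * (1 + Ma))) ^ 2 with hδ
  have hδpos : 0 < δ := by positivity
  set ρ : ℝ := min (ε * δ) (δ / ((m : ℝ) * d * L + 1)) with hρ
  have hρpos : 0 < ρ := by
    rw [hρ]
    refine lt_min (by positivity) ?_
    positivity
  set ε₁ : ℝ := ε / ((d : ℝ) * m + 1) with hε₁
  have hε₁pos : 0 < ε₁ := by positivity
  have hdε₁ : (d : ℝ) * m * ε₁ ≤ ε := by
    rw [hε₁, mul_div_assoc', div_le_iff₀ (by positivity)]
    nlinarith
  -- eventual conditions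
  have ev1 : ∀ᶠ n in atTop, ∀ t : P, ‖ntr ((ψ n (E.al rhF (x t.2.1.1 t.2.1.2)))ᴴ *
      ψ n (E.al thF t.1.1) * ψ n (E.al rhF (x t.2.2.1 t.2.2.2))) -
      τ.toFun (star (x t.2.1.1 t.2.1.2) * t.1.1 * x t.2.2.1 t.2.2.2)‖ ≤ η / 2 := by
    rw [eventually_all]
    intro t
    have h2 := (htr3 t.1.1 t.2.1.1 t.2.1.2 t.2.2.1 t.2.2.2)
    have h3 := tendsto_iff_norm_sub_tendsto_zero.1 h2
    exact (h3.eventually (gt_mem_nhds (by positivity : (0 : ℝ) < η / 2))).mono fun n hn => hn.le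
  have ev2 : ∀ᶠ n in atTop, (ntr (ψ n (E.be thF 1))).re ≤ ρ := by
    have h2 := htr (E.be thF 1)
    rw [hσb] at h2
    have h3 := (Complex.continuous_re.tendsto 0).comp h2
    rw [Complex.zero_re] at h3
    exact (h3.eventually (gt_mem_nhds hρpos)).mono fun n hn => hn.le
  have evg : ∀ (g : Fn) (y : A) (i : Fin d) (l : Fin m), ∀ᶠ n in atTop,
      ‖ψ n (E.al g y) * ψ n (E.al rhF (x i l)) - ψ n (E.al (g * rhF) (y * x i l))‖ ≤ ε₁ := by
    intro g y i l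
    have h2 := hmul (E.al g y) (E.al rhF (x i l))
    refine (h2.eventually (gt_mem_nhds hε₁pos)).mono fun n hn => ?_
    rw [norm_sub_rev, ← E.al_mul]
    exact hn.le
  have ev3 : ∀ᶠ n in atTop, ∀ (i : Fin d) (l : Fin m),
      ‖ψ n (E.al thF 1) * ψ n (E.al rhF (x i l)) - ψ n (E.al rhF (x i l))‖ ≤ ε₁ := by
    rw [eventually_all]
    intro i
    rw [eventually_all]
    intro l
    have h2 := evg thF 1 i l
    rw [fn_th_rh, one_mul] at h2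
    exact h2
  have ev4 : ∀ᶠ n in atTop, ∀ (i : Fin d) (l : Fin m),
      ‖ψ n (E.al kaF 1) * ψ n (E.al rhF (x i l)) - ψ n (E.al rhF (x i l))‖ ≤ ε₁ := by
    rw [eventually_all]
    intro i
    rw [eventually_all]
    intro l
    have h2 := evg kaF 1 i l
    rw [fn_ka_rh, one_mul] at h2
    exact h2
  have ev5 : ∀ᶠ n in atTop, ∀ (i : Fin d) (l : Fin m),
      ‖ψ n (E.al chF 1) * ψ n (E.al rhF (x i l)) - 0‖ ≤ ε₁ := by
    rw [eventually_all]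
    intro i
    rw [eventually_all]
    intro l
    have h2 := evg chF 1 i l
    rw [fn_ch_rh, sv_al_zero] at h2
    simp only [map_zero] at h2
    exact h2
  have ev6 : ∀ᶠ n in atTop, ∀ (a : {a // a ∈ F}) (i : Fin d) (l : Fin m),
      ‖ψ n (E.al (thF - thF * thF) a.1) * ψ n (E.al rhF (x i l)) - 0‖ ≤ ε₁ := by
    rw [eventually_all]
    intro a
    rw [eventually_all]
    intro i
    rw [eventually_all]
    intro l
    have h2 := evg (thF - thF * thF) a.1 i l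
    have h3 : (thF - thF * thF) * rhF = 0 := by
      rw [sub_mul, mul_assoc, fn_th_rh, fn_th_rh, sub_self]
    rw [h3, sv_al_zero] at h2
    simp only [map_zero] at h2
    exact h2
  obtain ⟨n, hn1, hn2, hn3, hn4, hn5, hn6, hn0⟩ := (ev1.and (ev2.and (ev3.and (ev4.and
    (ev5.and (ev6.and (eventually_ge_atTop n0))))))).exists
  refine ⟨n, hn0, L * L, Nat.mul_pos hL hL, ?_⟩
  -- the averaging unitaries
  let e := Fintype.equivFin P
  have hKbC : (Kb : ℂ) ≠ 0 := by exact_mod_cast hKbpos.ne'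
  obtain ⟨u, hu, hY⟩ := hdix (Fin (k n)) (fun t => ((Kb : ℂ)⁻¹) •
    ((ψ n (E.al rhF (x (e.symm t).2.1.1 (e.symm t).2.1.2)))ᴴ * ψ n (E.al thF (e.symm t).1.1) *
      ψ n (E.al rhF (x (e.symm t).2.2.1 (e.symm t).2.2.2)))) (by
    intro t
    rw [norm_smul, norm_inv, Complex.norm_real, Real.norm_eq_abs, abs_of_pos hKbpos,
      inv_mul_le_iff₀ hKbpos, mul_one]
    refine le_trans ?_ (hKb0 (e.symm t))
    refine (Matrix.l2_opNorm_mul _ _).trans ?_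
    refine mul_le_mul ((Matrix.l2_opNorm_mul _ _).trans ?_) (hψ n _) (norm_nonneg _)
      (by positivity)
    rw [Matrix.l2_opNorm_conjTranspose]
    exact mul_le_mul (hψ n _) (hψ n _) (norm_nonneg _) (norm_nonneg _))
  have hc : ∀ a ∈ F, ∀ (i : Fin d) (l : Fin m) (j : Fin d) (l' : Fin m),
      ‖(L : ℂ)⁻¹ • ∑ s, (u s)ᴴ * (((ψ n (E.al rhF (x i l)))ᴴ * ψ n (E.al thF a) *
        ψ n (E.al rhF (x j l'))) ⊗ₖ (1 : Matrix (Fin L) (Fin L) ℂ)) * u s -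
        τ.toFun (star (x i l) * a * x j l') • 1‖ ≤ η := by
    intro a ha i l j l'
    have h2 := hY (e (⟨a, ha⟩, ((i, l), (j, l'))))
    simp only [Equiv.symm_apply_apply] at h2
    rw [sv_theta, norm_smul, norm_inv, Complex.norm_real, Real.norm_eq_abs, abs_of_pos hKbpos,
      inv_mul_le_iff₀ hKbpos] at h2
    have h3 : Kb * (η / (2 * Kb)) = η / 2 := by
      field_simp
    rw [h3] at h2
    have h4 := hn1 (⟨a, ha⟩, ((i, l), (j, l')))
    simp only at h4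
    set R := (ψ n (E.al rhF (x i l)))ᴴ * ψ n (E.al thF a) * ψ n (E.al rhF (x j l')) with hR
    have h5 : (L : ℂ)⁻¹ • ∑ s, (u s)ᴴ * (R ⊗ₖ (1 : Matrix (Fin L) (Fin L) ℂ)) * u s -
        τ.toFun (star (x i l) * a * x j l') • 1 =
        ((L : ℂ)⁻¹ • ∑ s, (u s)ᴴ * (R ⊗ₖ (1 : Matrix (Fin L) (Fin L) ℂ)) * u s - ntr R • 1) +
        (ntr R - τ.toFun (star (x i l) * a * x j l')) • 1 := by
      rw [sub_smul]
      abel
    rw [h5]
    refine (norm_add_le _ _).trans ?_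
    have h6 : ‖(ntr R - τ.toFun (star (x i l) * a * x j l')) •
        (1 : Matrix (Fin (k n) × Fin L) (Fin (k n) × Fin L) ℂ)‖ ≤ η / 2 := by
      refine (norm_smul_le _ _).trans ?_
      calc _ ≤ η / 2 * 1 := mul_le_mul h4 sv_one_le (norm_nonneg _) (by positivity)
        _ = η / 2 := mul_one _
    linarith
  -- the small support
  set Ξ : A →ₗ[ℂ] Matrix (Fin (k n)) (Fin (k n)) ℂ := ψ n ∘ₗ E.be thF with hΞ
  have hΞcp : IsCP Ξ := isCP_comp (sv_be_cp E) (hcp n)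
  have hΞ1 : ‖Ξ 1‖ ≤ 1 := (hψ n _).trans hb
  obtain ⟨r, Q, hQ, hr, hsupp⟩ := small_support Ξ hΞcp hΞ1 δ hδpos
  have hk0 : (0 : ℝ) < k n := by exact_mod_cast hk n
  have hr1 : (r : ℝ) ≤ k n * (ρ / δ) := by
    refine hr.trans ?_
    have h2 : (Ξ 1).trace.re = k n * (ntr (ψ n (E.be thF 1))).re := by
      have h3 : (Ξ 1).trace = (k n : ℂ) * ntr (ψ n (E.be thF 1)) := by
        unfold ntr
        rw [Fintype.card_fin]
        have : (k n : ℂ) ≠ 0 := by exact_mod_cast hk0.ne'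
        field_simp
        rfl
      rw [h3, ← Complex.ofReal_natCast, Complex.re_ofReal_mul]
    rw [h2, mul_div_assoc]
    exact mul_le_mul_of_nonneg_left (div_le_div_of_nonneg_right hn2 hδpos.le) hk0.le
  have hr2 : (r : ℝ) ≤ ε * k n := by
    refine hr1.trans ?_
    have h2 : ρ / δ ≤ ε := by
      rw [div_le_iff₀ hδpos]
      exact min_le_left _ _
    nlinarith
  have hr3 : (m : ℝ) * (d * r) * L ≤ k n := by
    have h2 : ρ / δ ≤ 1 / ((m : ℝ) * d * L + 1) := by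
      rw [div_le_iff₀ hδpos]
      refine (min_le_right _ _).trans ?_
      rw [div_mul_eq_mul_div, one_mul]
    have h3 : (r : ℝ) * ((m : ℝ) * d * L + 1) ≤ k n := by
      have h4 : (r : ℝ) ≤ k n * (1 / ((m : ℝ) * d * L + 1)) :=
        hr1.trans (mul_le_mul_of_nonneg_left h2 hk0.le)
      rw [mul_one_div, le_div_iff₀ (by positivity)] at h4
      exact h4
    have h5 : (0 : ℝ) ≤ r := Nat.cast_nonneg r
    nlinarith
  -- Gram vectors
  let ΞQ : A →ₗ[ℂ] Matrix (Fin r) (Fin r) ℂ :=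
    { toFun := fun a => Qᴴ * Ξ a * Q
      map_add' := fun a b => by rw [map_add, Matrix.mul_add, Matrix.add_mul]
      map_smul' := fun c a => by rw [map_smul, Matrix.mul_smul, Matrix.smul_mul]; rfl }
  have hΞQ : ∀ a, ΞQ a = Qᴴ * Ξ a * Q := fun a => rfl
  obtain ⟨Z, hZ, hZa⟩ := hgram (Fin r) ΞQ (isCP_conj hΞcp Q ΞQ hΞQ)
    ((sv_sand Q hQ (Ξ 1)).trans hΞ1)
  obtain ⟨V, Y, hV, hYn, hVr, hVa⟩ := V_matrix (κ := Fin d × Fin r) hL u hu F
    (fun a => ψ n (E.al thF a)) (fun i l => ψ n (E.al rhF (x i l)))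
    (fun a i l j l' => τ.toFun (star (x i l) * a * x j l')) η hc Q hQ Z hZ (by
      rw [Fintype.card_prod, Fintype.card_fin, Fintype.card_fin, Fintype.card_fin]
      have h2 : m * (d * r) * L ≤ k n := by exact_mod_cast hr3
      calc m * (d * r) * (L * L) = (m * (d * r) * L) * L := by ring
        _ ≤ k n * L := Nat.mul_le_mul_right L h2)
  refine ⟨V, ?_, ?_, ?_, ?_, ?_, ?_⟩
  · intro a ha
    have h2 := hVa a ha
    have h3 := hZa a ha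
    have h4 := hsupp a
    have h5 : (d : ℝ) ^ 2 * (m : ℝ) ^ 2 * η ≤ ε / 4 := by
      rw [hη, mul_div_assoc', div_le_div_iff₀ (by positivity) (by norm_num)]
      have : ((d : ℝ) * m) ^ 2 ≤ ((d : ℝ) * m + 1) ^ 2 := pow_le_pow_left₀ hdm (by linarith) 2
      have h6 : (d : ℝ) ^ 2 * (m : ℝ) ^ 2 = ((d : ℝ) * m) ^ 2 := by ring
      rw [h6]
      nlinarith
    have h6 : 2 * Real.sqrt δ * ‖a‖ ≤ ε / 4 := by
      have h7 : Real.sqrt δ = ε / (8 * (1 + Ma)) := by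
        rw [hδ]
        exact Real.sqrt_sq (by positivity)
      rw [h7]
      have h8 := hMa1 a ha
      have h9 : 2 * (ε / (8 * (1 + Ma))) * ‖a‖ = (ε / 4) * (‖a‖ / (1 + Ma)) := by
        field_simp
        ring
      rw [h9]
      have h10 : ‖a‖ / (1 + Ma) ≤ 1 := by
        rw [div_le_one (by linarith)]
        linarith
      nlinarith
    set C : Matrix (Fin r) (Fin r) ℂ :=
      ∑ i, ∑ j, (∑ l, τ.toFun (star (x i l) * a * x j l)) • ((Z i)ᴴ * Z j) with hC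
    have h7 : ∑ i, ∑ j, (∑ l, τ.toFun (star (x i l) * a * x j l)) • (Q * ((Z i)ᴴ * Z j) * Qᴴ) =
        Q * C * Qᴴ := by
      rw [hC, Matrix.mul_sum, Matrix.sum_mul]
      refine Finset.sum_congr rfl fun i _ => ?_
      rw [Matrix.mul_sum, Matrix.sum_mul]
      refine Finset.sum_congr rfl fun j _ => ?_
      rw [Matrix.mul_smul, Matrix.smul_mul]
    simp only at h2
    rw [h7] at h2
    have h8 : ‖Q * C * Qᴴ - Ξ a‖ ≤ ε / 4 + ε / 4 := by
      have h9 : Q * C * Qᴴ - Ξ a = -(Q * (ΞQ a - C) * Qᴴ) - (Ξ a - Q * Qᴴ * Ξ a * (Q * Qᴴ)) := by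
        rw [hΞQ, Matrix.mul_sub, Matrix.sub_mul]
        have h10 : Q * (Qᴴ * Ξ a * Q) * Qᴴ = Q * Qᴴ * Ξ a * (Q * Qᴴ) := by
          simp only [Matrix.mul_assoc]
        rw [h10]
        abel
      rw [h9]
      refine (norm_sub_le _ _).trans ?_
      rw [norm_neg]
      exact add_le_add ((sv_sand' Q hQ _).trans h3) (h4.trans h6)
    have h9 : Vᴴ * (ψ n (E.al thF a) ⊗ₖ (1 : Matrix (Fin (L * L)) (Fin (L * L)) ℂ)) * V -
        ψ n (E.be thF a) ⊗ₖ (1 : Matrix (Fin (L * L)) (Fin (L * L)) ℂ) =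
        (Vᴴ * (ψ n (E.al thF a) ⊗ₖ (1 : Matrix (Fin (L * L)) (Fin (L * L)) ℂ)) * V -
          (Q * C * Qᴴ) ⊗ₖ (1 : Matrix (Fin (L * L)) (Fin (L * L)) ℂ)) +
        (Q * C * Qᴴ - Ξ a) ⊗ₖ (1 : Matrix (Fin (L * L)) (Fin (L * L)) ℂ) := by
      rw [sv_kron_sub]
      have : Ξ a = ψ n (E.be thF a) := rfl
      rw [this]
      abel
    rw [h9]
    refine (norm_add_le _ _).trans ?_
    have h10 := kron_one_norm (κ := Fin (L * L)) (Q * C * Qᴴ - Ξ a)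
    linarith
  · have h2 : (V.rank : ℝ) ≤ r * (L * L : ℕ) := by exact_mod_cast hVr
    refine h2.trans ?_
    have h3 : (0 : ℝ) ≤ ((L * L : ℕ) : ℝ) := Nat.cast_nonneg _
    calc (r : ℝ) * (L * L : ℕ) ≤ (ε * k n) * (L * L : ℕ) := mul_le_mul_of_nonneg_right hr2 h3
      _ = ε * ((k n : ℝ) * (L * L : ℕ)) := by ring
  · have h2 := sv_left (fun i l => ψ n (E.al rhF (x i l))) (fun i l => ψ n (E.al rhF (x i l))) Y
      hYn (ψ n (E.al thF 1)) ε₁ hn3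
    rw [← hV] at h2
    exact h2.trans hdε₁
  · have h2 := sv_left (fun i l => ψ n (E.al rhF (x i l))) (fun i l => ψ n (E.al rhF (x i l))) Y
      hYn (ψ n (E.al kaF 1)) ε₁ hn4
    rw [← hV] at h2
    exact h2.trans hdε₁
  · have h2 := sv_left (fun i l => ψ n (E.al rhF (x i l))) (fun _ _ => 0) Y
      hYn (ψ n (E.al chF 1)) ε₁ hn5
    rw [← hV] at h2
    simp only [Matrix.zero_kronecker, Matrix.zero_mul, Finset.sum_const_zero, sub_zero] at h2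
    exact h2.trans hdε₁
  · intro a ha
    have h2 := sv_left (fun i l => ψ n (E.al rhF (x i l))) (fun _ _ => 0) Y
      hYn (ψ n (E.al (thF - thF * thF) a)) ε₁ (hn6 ⟨a, ha⟩)
    rw [← hV] at h2
    simp only [Matrix.zero_kronecker, Matrix.zero_mul, Finset.sum_const_zero, sub_zero] at h2
    exact h2.trans hdε₁

end QT
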