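import Mathlib
import Pool.Agent.Helper58.QT.Defs
import Pool.Agent.Helper58.QT.Fn
import Pool.Agent.Helper58.QT.EndsD
import Pool.Agent.Helper58.QT.MixQD
import Pool.Agent.Helper58.QT.StageV
import Pool.Agent.Helper58.QT.QDOfStage

/-!
# Project QT: the main theorem (assembly)
-/

open scoped Matrix Kronecker ComplexOrder Matrix.Norms.L2Operator
open Filter Topology

namespace QT

universe u

theorem main_generic {A : Type u} [CStarAlgebra A] [TopologicalSpace.SeparableSpace A]
    (hA : NuclearlyEmbeddable A) (τ : TracialState A) (hf : τ.Faithful)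
    {Dt : Type u} [CStarAlgebra Dt] (E : EndsC A Dt) (σ : TracialState A → TracialState Dt)
    (hE : EndsSpec E σ) (h : (σ τ).IsQD) : τ.IsQD := by
  obtain ⟨hσa, hσb, hone, hb⟩ := hE
  obtain ⟨k, ψ, hk, hcp, h1, hmul, htr⟩ := h
  exact qd_of_stage τ E (σ τ) (hσa τ) (hσb τ) k ψ hk hcp h1 hmul htr hone
    (fun F ε hε n0 => stageV τ E (σ τ) (hσa τ) (hσb τ) k ψ hk hcp h1 hmul htr hA hf hb F ε hε n0)

theorem main : MainStatement.{u} := by
  intro A _ _ _ _ hA τ hf ham hface
  obtain ⟨E, hE⟩ := exists_endsD A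
  exact main_generic hA τ hf E (fun τ => sig τ 0) hE
    (hface.2 (sig τ 0) (sig τ 1) (1 / 2) (by norm_num) (by norm_num) (mix_qd τ ham)).1

end QT
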