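import Mathlib
import Pool.Agent.Helper58.QT.Defs
import Pool.Agent.Helper58.QT.CPBasics
import Pool.Agent.Helper58.QT.MatBasics

/-!
# QT-27 MixAmen: convex combinations of amenable traces with weights (m+1)/(m+2), 1/(m+2) are amenable
-/

open scoped Matrix Kronecker ComplexOrder Matrix.Norms.L2Operator
open Filter Topology

namespace QT

universe u

theorem isCP_reindex {A : Type u} [CStarAlgebra A] {ι κ : Type*} [Fintype ι] [DecidableEq ι]
    [Fintype κ] [DecidableEq κ] (e : ι ≃ κ) {φ : A →ₗ[ℂ] Matrix ι ι ℂ} (hφ : IsCP φ)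
    (ψ : A →ₗ[ℂ] Matrix κ κ ℂ) (hψ : ∀ a, ψ a = (φ a).submatrix e.symm e.symm) : IsCP ψ := by
  refine isCP_conj hφ ((1 : Matrix ι ι ℂ).submatrix id e.symm) ψ fun a => ?_
  rw [hψ]
  ext p q
  simp [Matrix.mul_apply, Matrix.one_apply]

theorem amen_of_index {A : Type u} [CStarAlgebra A] (τ : TracialState A) (I : ℕ → Type)
    [∀ n, Fintype (I n)] [∀ n, DecidableEq (I n)] [∀ n, Nonempty (I n)]
    (Ψ : ∀ n, A →ₗ[ℂ] Matrix (I n) (I n) ℂ) (hcp : ∀ n, IsCP (Ψ n)) (h1 : ∀ n, Ψ n 1 = 1)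
    (hmul : ∀ a b, Tendsto (fun n => norm2 (Ψ n (a * b) - Ψ n a * Ψ n b)) atTop (𝓝 0))
    (htr : ∀ a, Tendsto (fun n => ntr (Ψ n a)) atTop (𝓝 (τ.toFun a))) : τ.IsAmenable := by
  let e : ∀ n, I n ≃ Fin (Fintype.card (I n)) := fun n => Fintype.equivFin (I n)
  let Φ : ∀ n, A →ₗ[ℂ] Matrix (Fin (Fintype.card (I n))) (Fin (Fintype.card (I n))) ℂ := fun n =>
    { toFun := fun a => (Ψ n a).submatrix (e n).symm (e n).symm
      map_add' := fun a b => by rw [map_add]; rfl
      map_smul' := fun c a => by rw [map_smul]; rfl }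
  refine ⟨fun n => Fintype.card (I n), Φ, fun n => Fintype.card_pos,
    fun n => isCP_reindex (e n) (hcp n) (Φ n) fun a => rfl, fun n => ?_, fun a b => ?_,
    fun a => ?_⟩
  · show (Ψ n 1).submatrix (e n).symm (e n).symm = 1
    rw [h1, Matrix.submatrix_one_equiv]
  · refine (hmul a b).congr fun n => ?_
    show norm2 (Ψ n (a * b) - Ψ n a * Ψ n b) =
      norm2 ((Ψ n (a * b)).submatrix (e n).symm (e n).symm -
        (Ψ n a).submatrix (e n).symm (e n).symm * (Ψ n b).submatrix (e n).symm (e n).symm)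
    rw [Matrix.submatrix_mul_equiv]
    have hs : (Ψ n (a * b)).submatrix (e n).symm (e n).symm -
        (Ψ n a * Ψ n b).submatrix (e n).symm (e n).symm =
        (Ψ n (a * b) - Ψ n a * Ψ n b).submatrix (e n).symm (e n).symm := rfl
    rw [hs, reindex_norm2]
  · refine (htr a).congr fun n => ?_
    show ntr (Ψ n a) = ntr ((Ψ n a).submatrix (e n).symm (e n).symm)
    rw [reindex_ntr]

theorem ntr_blocks {ι κ : Type*} [Fintype ι] [Fintype κ] [Nonempty ι] [Nonempty κ]
    (X : Matrix ι ι ℂ) (Y : Matrix κ κ ℂ) :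
    ntr (Matrix.fromBlocks X 0 0 Y) =
      ((Fintype.card ι : ℂ) * ntr X + (Fintype.card κ : ℂ) * ntr Y) /
        ((Fintype.card ι : ℂ) + (Fintype.card κ : ℂ)) := by
  have h1 : (Fintype.card ι : ℂ) ≠ 0 := by exact_mod_cast Fintype.card_ne_zero
  have h2 : (Fintype.card κ : ℂ) ≠ 0 := by exact_mod_cast Fintype.card_ne_zero
  unfold ntr
  have h3 : (Matrix.fromBlocks X 0 0 Y).trace = X.trace + Y.trace := by
    simp [Matrix.trace, Fintype.sum_sum_type]
  rw [h3, Fintype.card_sum, mul_div_cancel₀ _ h1, mul_div_cancel₀ _ h2]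
  push_cast
  rfl

theorem amen_mix {A : Type u} [CStarAlgebra A] (τ τ₀ : TracialState A) (h : τ.IsAmenable)
    (h₀ : τ₀.IsAmenable) (m : ℕ) (σ : TracialState A)
    (hσ : ∀ a, σ.toFun a = (((m : ℂ) + 1) * τ.toFun a + τ₀.toFun a) / ((m : ℂ) + 2)) :
    σ.IsAmenable := by
  obtain ⟨k, φ, hk, hcp, h1, hmul, htr⟩ := h
  obtain ⟨k', φ', hk', hcp', h1', hmul', htr'⟩ := h₀
  have i1 : ∀ n, Nonempty (Fin (k n)) := fun n => ⟨⟨0, hk n⟩⟩
  have i2 : ∀ n, Nonempty (Fin (k' n)) := fun n => ⟨⟨0, hk' n⟩⟩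
  have key : ∀ n (X : Matrix (Fin (k n)) (Fin (k n)) ℂ) (Y : Matrix (Fin (k' n)) (Fin (k' n)) ℂ),
      ntr (Matrix.fromBlocks (X ⊗ₖ (1 : Matrix (Fin (m + 1) × Fin (k' n)) _ ℂ)) 0 0
        (Y ⊗ₖ (1 : Matrix (Fin (k n)) (Fin (k n)) ℂ))) =
        (((m : ℂ) + 1) * ntr X + ntr Y) / ((m : ℂ) + 2) := by
    intro n X Y
    rw [ntr_blocks, ntr_kron_one, ntr_kron_one]
    simp only [Fintype.card_prod, Fintype.card_fin]
    have h3 : (k n : ℂ) ≠ 0 := by exact_mod_cast (hk n).ne'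
    have h4 : (k' n : ℂ) ≠ 0 := by exact_mod_cast (hk' n).ne'
    have h5 : (m : ℂ) + 2 ≠ 0 := by exact_mod_cast (Nat.succ_ne_zero (m + 1))
    push_cast
    have h6 : (k n : ℂ) * (((m : ℂ) + 1) * (k' n : ℂ)) + (k' n : ℂ) * (k n : ℂ) =
      (k n : ℂ) * (k' n : ℂ) * ((m : ℂ) + 2) := by ring
    rw [h6, div_eq_div_iff (mul_ne_zero (mul_ne_zero h3 h4) h5) h5]
    ring
  let Ψ : ∀ n, A →ₗ[ℂ] Matrix ((Fin (k n) × (Fin (m + 1) × Fin (k' n))) ⊕ (Fin (k' n) × Fin (k n)))
      ((Fin (k n) × (Fin (m + 1) × Fin (k' n))) ⊕ (Fin (k' n) × Fin (k n))) ℂ := fun n =>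
    { toFun := fun a => Matrix.fromBlocks (φ n a ⊗ₖ (1 : Matrix (Fin (m + 1) × Fin (k' n)) _ ℂ)) 0 0
        (φ' n a ⊗ₖ (1 : Matrix (Fin (k n)) (Fin (k n)) ℂ))
      map_add' := fun a b => by
        rw [map_add, map_add, Matrix.add_kronecker, Matrix.add_kronecker, Matrix.fromBlocks_add,
          add_zero, add_zero]
      map_smul' := fun c a => by
        rw [map_smul, map_smul, Matrix.smul_kronecker, Matrix.smul_kronecker, RingHom.id_apply,
          Matrix.fromBlocks_smul, smul_zero, smul_zero] }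
  refine amen_of_index σ _ Ψ (fun n => ?_) (fun n => ?_) (fun a b => ?_) (fun a => ?_)
  · -- CP
    let P : A →ₗ[ℂ] Matrix (Fin (k n) × (Fin (m + 1) × Fin (k' n)))
        (Fin (k n) × (Fin (m + 1) × Fin (k' n))) ℂ :=
      { toFun := fun a => φ n a ⊗ₖ (1 : Matrix (Fin (m + 1) × Fin (k' n)) _ ℂ)
        map_add' := fun a b => by rw [map_add, Matrix.add_kronecker]
        map_smul' := fun c a => by rw [map_smul, Matrix.smul_kronecker, RingHom.id_apply] }
    let P' : A →ₗ[ℂ] Matrix (Fin (k' n) × Fin (k n)) (Fin (k' n) × Fin (k n)) ℂ :=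
      { toFun := fun a => φ' n a ⊗ₖ (1 : Matrix (Fin (k n)) (Fin (k n)) ℂ)
        map_add' := fun a b => by rw [map_add, Matrix.add_kronecker]
        map_smul' := fun c a => by rw [map_smul, Matrix.smul_kronecker, RingHom.id_apply] }
    have hP : IsCP P := isCP_kron (hcp n) P fun a => rfl
    have hP' : IsCP P' := isCP_kron (hcp' n) P' fun a => rfl
    let R : A →ₗ[ℂ] Matrix ((Fin (k n) × (Fin (m + 1) × Fin (k' n))) ⊕ (Fin (k' n) × Fin (k n)))
      ((Fin (k n) × (Fin (m + 1) × Fin (k' n))) ⊕ (Fin (k' n) × Fin (k n))) ℂ :=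
      { toFun := fun a => Matrix.fromBlocks (P a) 0 0 0
        map_add' := fun a b => by rw [map_add, Matrix.fromBlocks_add]; simp
        map_smul' := fun c a => by rw [map_smul, Matrix.fromBlocks_smul]; simp }
    let R' : A →ₗ[ℂ] Matrix ((Fin (k n) × (Fin (m + 1) × Fin (k' n))) ⊕ (Fin (k' n) × Fin (k n)))
      ((Fin (k n) × (Fin (m + 1) × Fin (k' n))) ⊕ (Fin (k' n) × Fin (k n))) ℂ :=
      { toFun := fun a => Matrix.fromBlocks 0 0 0 (P' a)
        map_add' := fun a b => by rw [map_add, Matrix.fromBlocks_add]; simp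
        map_smul' := fun c a => by rw [map_smul, Matrix.fromBlocks_smul]; simp }
    have hR : IsCP R := isCP_conj hP (Matrix.fromCols 1 0) R fun a => by
      show Matrix.fromBlocks (P a) 0 0 0 = _
      rw [Matrix.conjTranspose_fromCols_eq_fromRows_conjTranspose, Matrix.conjTranspose_one,
        Matrix.conjTranspose_zero, Matrix.fromRows_mul, Matrix.one_mul, Matrix.zero_mul,
        Matrix.fromRows_mul_fromCols]
      simp
    have hR' : IsCP R' := isCP_conj hP' (Matrix.fromCols 0 1) R' fun a => by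
      show Matrix.fromBlocks 0 0 0 (P' a) = _
      rw [Matrix.conjTranspose_fromCols_eq_fromRows_conjTranspose, Matrix.conjTranspose_one,
        Matrix.conjTranspose_zero, Matrix.fromRows_mul, Matrix.one_mul, Matrix.zero_mul,
        Matrix.fromRows_mul_fromCols]
      simp
    have : Ψ n = R + R' := by
      ext1 a
      show Matrix.fromBlocks (P a) 0 0 (P' a) = Matrix.fromBlocks (P a) 0 0 0 +
        Matrix.fromBlocks 0 0 0 (P' a)
      rw [Matrix.fromBlocks_add]; simp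
    rw [this]
    exact isCP_add hR hR'
  · show Matrix.fromBlocks _ _ _ _ = _
    rw [h1, h1', Matrix.one_kronecker_one, Matrix.one_kronecker_one, Matrix.fromBlocks_one]
  · -- multiplicativity
    have hd : ∀ n, Ψ n (a * b) - Ψ n a * Ψ n b =
        Matrix.fromBlocks ((φ n (a * b) - φ n a * φ n b) ⊗ₖ
          (1 : Matrix (Fin (m + 1) × Fin (k' n)) _ ℂ)) 0 0
          ((φ' n (a * b) - φ' n a * φ' n b) ⊗ₖ (1 : Matrix (Fin (k n)) (Fin (k n)) ℂ)) := by
      intro n
      show Matrix.fromBlocks _ _ _ _ - Matrix.fromBlocks _ _ _ _ * Matrix.fromBlocks _ _ _ _ = _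
      rw [Matrix.fromBlocks_multiply, sub_eq_add_neg, Matrix.fromBlocks_neg,
        Matrix.fromBlocks_add]
      simp only [Matrix.mul_zero, Matrix.zero_mul, add_zero, zero_add, neg_zero,
        ← sub_eq_add_neg]
      rw [← kron_one_mul, ← kron_one_mul]
      have hs : ∀ {ι' κ' : Type} [DecidableEq κ'] (X Y : Matrix ι' ι' ℂ),
          X ⊗ₖ (1 : Matrix κ' κ' ℂ) - Y ⊗ₖ (1 : Matrix κ' κ' ℂ) =
          (X - Y) ⊗ₖ (1 : Matrix κ' κ' ℂ) := by
        intro ι' κ' _ X Y
        ext p q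
        simp [Matrix.kroneckerMap_apply, sub_mul]
      rw [hs, hs]
    have hn2 : ∀ n, norm2 (Ψ n (a * b) - Ψ n a * Ψ n b) =
        Real.sqrt ((((m : ℝ) + 1) * norm2 (φ n (a * b) - φ n a * φ n b) ^ 2 +
          norm2 (φ' n (a * b) - φ' n a * φ' n b) ^ 2) / ((m : ℝ) + 2)) := by
      intro n
      have hsq : ∀ {ι' : Type} [Fintype ι'] [DecidableEq ι'] (X : Matrix ι' ι' ℂ),
          norm2 X ^ 2 = (ntr (Xᴴ * X)).re := by
        intro ι' _ _ X
        unfold norm2
        rw [Real.sq_sqrt]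
        unfold ntr
        have h7 : 0 ≤ (Xᴴ * X).trace := (Matrix.posSemidef_conjTranspose_mul_self X).trace_nonneg
        have h8 : (Xᴴ * X).trace / (Fintype.card ι' : ℂ) =
          (((Xᴴ * X).trace.re / (Fintype.card ι' : ℝ) : ℝ) : ℂ) := by
          push_cast
          rw [← Complex.eq_re_of_ofReal_le h7]
        rw [h8, Complex.ofReal_re]
        exact div_nonneg (Complex.le_def.1 h7).1 (Nat.cast_nonneg _)
      rw [hd n]
      conv_lhs => unfold norm2
      congr 1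
      rw [Matrix.fromBlocks_conjTranspose, Matrix.fromBlocks_multiply]
      simp only [Matrix.mul_zero, Matrix.zero_mul, add_zero, zero_add,
        Matrix.conjTranspose_zero, Matrix.conjTranspose_kronecker, Matrix.conjTranspose_one]
      rw [← kron_one_mul, ← kron_one_mul, key, hsq, hsq]
      have h9 : ((m : ℂ) + 2) = (((m : ℝ) + 2 : ℝ) : ℂ) := by push_cast; rfl
      have h10 : ((m : ℂ) + 1) = (((m : ℝ) + 1 : ℝ) : ℂ) := by push_cast; rfl
      rw [h9, Complex.div_ofReal_re, Complex.add_re, h10, Complex.re_ofReal_mul]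
    simp only [hn2]
    have h11 : Tendsto (fun n => (((m : ℝ) + 1) * norm2 (φ n (a * b) - φ n a * φ n b) ^ 2 +
          norm2 (φ' n (a * b) - φ' n a * φ' n b) ^ 2) / ((m : ℝ) + 2)) atTop
        (𝓝 ((((m : ℝ) + 1) * 0 ^ 2 + 0 ^ 2) / ((m : ℝ) + 2))) :=
      ((((hmul a b).pow 2).const_mul _).add ((hmul' a b).pow 2)).div_const _
    have h12 := h11.sqrt
    simpa using h12
  · -- trace
    have h13 : ∀ n, ntr (Ψ n a) = (((m : ℂ) + 1) * ntr (φ n a) + ntr (φ' n a)) / ((m : ℂ) + 2) :=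
      fun n => key n _ _
    simp only [h13, hσ]
    exact (((htr a).const_mul _).add (htr' a)).div_const _

end QT
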