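import Mathlib
import Pool.Agent.Helper58.QT.Defs
import Pool.Agent.Helper58.QT.Main
import Pool.Agent.Helper58.QT.MixAmen
import Pool.Agent.Helper58.QT.Closed

/-!
# Project QT: all amenable traces of an algebra with one faithful amenable trace
-/

open scoped Matrix Kronecker ComplexOrder Matrix.Norms.L2Operator
open Filter Topology

namespace QT

universe u

theorem mix_faithful {A : Type u} [CStarAlgebra A] (τ τ₀ : TracialState A) (hf : τ₀.Faithful)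
    (t : ℝ) (h0 : 0 ≤ t) (h1 : t ≤ 1) (h2 : t < 1) : (τ.mix τ₀ t h0 h1).Faithful := by
  intro a ha
  have h3 : (t : ℂ) * τ.toFun (star a * a) + ((1 - t : ℝ) : ℂ) * τ₀.toFun (star a * a) = 0 := ha
  have h4 : (0 : ℂ) ≤ (t : ℂ) * τ.toFun (star a * a) :=
    mul_nonneg (by exact_mod_cast h0) (τ.pos a)
  have h5 : (0 : ℂ) ≤ ((1 - t : ℝ) : ℂ) * τ₀.toFun (star a * a) :=
    mul_nonneg (by exact_mod_cast (sub_nonneg.2 h1)) (τ₀.pos a)
  have h6 : ((1 - t : ℝ) : ℂ) * τ₀.toFun (star a * a) = 0 := ((add_eq_zero_iff_of_nonneg h4 h5).1 h3).2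
  rcases mul_eq_zero.1 h6 with h7 | h7
  · exact absurd (by exact_mod_cast h7 : (1 - t : ℝ) = 0) (by linarith)
  · exact hf a h7

theorem main2 (A : Type u) [CStarAlgebra A] [PartialOrder A] [StarOrderedRing A]
    [TopologicalSpace.SeparableSpace A] (hA : NuclearlyEmbeddable A) (τ₀ : TracialState A)
    (hf : τ₀.Faithful) (ham₀ : τ₀.IsAmenable)
    (hface : IsFace {σ : TracialState (D A) | σ.IsQD}) (τ : TracialState A)
    (ham : τ.IsAmenable) : τ.IsQD := by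
  refine qd_closed τ fun F ε hε => ?_
  obtain ⟨C, hC⟩ : ∃ C : ℝ, ∀ a ∈ F, ‖τ₀.toFun a - τ.toFun a‖ ≤ C := by
    refine ⟨∑ a ∈ F, ‖τ₀.toFun a - τ.toFun a‖, fun a ha => ?_⟩
    exact Finset.single_le_sum (f := fun a => ‖τ₀.toFun a - τ.toFun a‖)
      (fun b _ => norm_nonneg _) ha
  obtain ⟨m, hm⟩ := exists_nat_gt (C / ε)
  have hm2 : (0 : ℝ) < (m : ℝ) + 2 := by positivity
  have ht0 : (0 : ℝ) ≤ ((m : ℝ) + 1) / ((m : ℝ) + 2) := by positivity
  have ht1 : ((m : ℝ) + 1) / ((m : ℝ) + 2) < 1 := by rw [div_lt_one hm2]; linarith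
  have h1t : 1 - ((m : ℝ) + 1) / ((m : ℝ) + 2) = 1 / ((m : ℝ) + 2) := by field_simp; ring
  have hm2c : (m : ℂ) + 2 ≠ 0 := by exact_mod_cast (Nat.succ_ne_zero (m + 1))
  have hval : ∀ a, (τ.mix τ₀ (((m : ℝ) + 1) / ((m : ℝ) + 2)) ht0 ht1.le).toFun a =
      (((m : ℂ) + 1) * τ.toFun a + τ₀.toFun a) / ((m : ℂ) + 2) := by
    intro a
    show ((((m : ℝ) + 1) / ((m : ℝ) + 2) : ℝ) : ℂ) * τ.toFun a +
      ((1 - ((m : ℝ) + 1) / ((m : ℝ) + 2) : ℝ) : ℂ) * τ₀.toFun a = _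
    rw [h1t]
    push_cast
    field_simp
  refine ⟨τ.mix τ₀ (((m : ℝ) + 1) / ((m : ℝ) + 2)) ht0 ht1.le, ?_, fun a ha => ?_⟩
  · exact main A hA _ (mix_faithful τ τ₀ hf _ ht0 ht1.le ht1)
      (amen_mix τ τ₀ ham ham₀ m _ hval) hface
  · rw [hval]
    have h8 : (((m : ℂ) + 1) * τ.toFun a + τ₀.toFun a) / ((m : ℂ) + 2) - τ.toFun a =
        (τ₀.toFun a - τ.toFun a) / ((m : ℂ) + 2) := by
      field_simp; ring
    rw [h8, norm_div]
    have h9 : ‖(m : ℂ) + 2‖ = (m : ℝ) + 2 := by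
      have : (m : ℂ) + 2 = (((m : ℝ) + 2 : ℝ) : ℂ) := by push_cast; rfl
      rw [this, Complex.norm_real, Real.norm_of_nonneg hm2.le]
    rw [h9, div_le_iff₀ hm2]
    have h10 : C < ε * (m : ℝ) := by rwa [div_lt_iff₀ hε, mul_comm] at hm
    have := hC a ha
    nlinarith

end QT
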