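import Mathlib

/-!
# Project QT: the notions used in the final statement (light definitions)
-/

open scoped Matrix.Norms.L2Operator ComplexOrder
open Filter Topology

namespace QTS

universe u v

/-- The C*-algebra of `k x k` complex matrices (with the operator norm). -/
def MC (k : ℕ) : Type := Matrix (Fin k) (Fin k) ℂ

noncomputable instance instMC (k : ℕ) : CStarAlgebra (MC k) :=
  Matrix.instCStarAlgebra

/-- The normalised trace of a complex matrix. -/
noncomputable def ntr {k : ℕ} (x : MC k) : ℂ := Matrix.trace x / (k : ℂ)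

/-- The 2-norm `tr(x* x)^(1/2)` with respect to the normalised trace. -/
noncomputable def norm2 {k : ℕ} (x : MC k) : ℝ := Real.sqrt (ntr (star x * x)).re

/-- Unital completely positive maps between unital C*-algebras: linear maps with `toFun 1 = 1`
such that every matrix amplification maps `M* M` to an element of the form `N* N`. -/
structure UCP (A : Type u) (B : Type v) [CStarAlgebra A] [CStarAlgebra B] where
  toFun : A → B
  map_add : ∀ a b, toFun (a + b) = toFun a + toFun b
  map_smul : ∀ (c : ℂ) (a : A), toFun (c • a) = c • toFun a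
  map_one : toFun 1 = 1
  cp : ∀ (m : ℕ) (M : Fin m → Fin m → A), ∃ N : Fin m → Fin m → B,
    ∀ i j, toFun (∑ k, star (M k i) * M k j) = ∑ k, star (N k i) * N k j

/-- Tracial states. -/
structure Trace (A : Type u) [CStarAlgebra A] where
  toFun : A → ℂ
  map_add : ∀ a b, toFun (a + b) = toFun a + toFun b
  map_smul : ∀ (c : ℂ) (a : A), toFun (c • a) = c * toFun a
  pos : ∀ a, 0 ≤ toFun (star a * a)
  map_one : toFun 1 = 1
  comm : ∀ a b, toFun (a * b) = toFun (b * a)

/-- A trace is faithful if `τ(a* a) = 0` implies `a = 0`. -/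
def Faithful {A : Type u} [CStarAlgebra A] (τ : Trace A) : Prop :=
  ∀ a, τ.toFun (star a * a) = 0 → a = 0

/-- A trace is amenable if there are unital completely positive maps `φ_n : A -> M_{k(n)}` which are
asymptotically multiplicative in 2-norm and with `tr ∘ φ_n -> τ`. -/
def Amenable {A : Type u} [CStarAlgebra A] (τ : Trace A) : Prop :=
  ∃ (k : ℕ → ℕ) (φ : ∀ n, UCP A (MC (k n))), (∀ n, 0 < k n) ∧
    (∀ a b, Tendsto (fun n => norm2 ((φ n).toFun (a * b) - (φ n).toFun a * (φ n).toFun b))
      atTop (𝓝 0)) ∧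
    (∀ a, Tendsto (fun n => ntr ((φ n).toFun a)) atTop (𝓝 (τ.toFun a)))

/-- A trace is quasidiagonal if there are unital completely positive maps `φ_n : A -> M_{k(n)}` which
are asymptotically multiplicative in operator norm and with `tr ∘ φ_n -> τ`. -/
def Quasidiagonal {A : Type u} [CStarAlgebra A] (τ : Trace A) : Prop :=
  ∃ (k : ℕ → ℕ) (φ : ∀ n, UCP A (MC (k n))), (∀ n, 0 < k n) ∧
    (∀ a b, Tendsto (fun n => ‖(φ n).toFun (a * b) - (φ n).toFun a * (φ n).toFun b‖)
      atTop (𝓝 0)) ∧
    (∀ a, Tendsto (fun n => ntr ((φ n).toFun a)) atTop (𝓝 (τ.toFun a)))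

/-- A set `F` of tracial states is a face of the trace space if it is convex and whenever a proper
convex combination of two tracial states is in `F`, so are both of them. -/
def IsFace {A : Type u} [CStarAlgebra A] (F : Set (Trace A)) : Prop :=
  (∀ (τ₁ τ₂ σ : Trace A) (t : ℝ), 0 ≤ t → t ≤ 1 →
    (∀ a, σ.toFun a = t * τ₁.toFun a + (1 - t) * τ₂.toFun a) → τ₁ ∈ F → τ₂ ∈ F → σ ∈ F) ∧
  (∀ (τ₁ τ₂ σ : Trace A) (t : ℝ), 0 < t → t < 1 →
    (∀ a, σ.toFun a = t * τ₁.toFun a + (1 - t) * τ₂.toFun a) → σ ∈ F → τ₁ ∈ F ∧ τ₂ ∈ F)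

/-- `FaceQD A`: the quasidiagonal traces on `A` are a face of the trace space. -/
def FaceQD (A : Type u) [CStarAlgebra A] : Prop := IsFace {τ : Trace A | Quasidiagonal τ}

/-- A nuclear embedding: an injective unital *-homomorphism which is a point-norm limit of maps `S ∘ R`
with `R : A -> M_d` and `S : M_d -> B` unital completely positive. -/
def NuclearEmbedding {A B : Type u} [CStarAlgebra A] [CStarAlgebra B] (ι : A →⋆ₐ[ℂ] B) : Prop :=
  Function.Injective ι ∧ ∀ (F : Finset A) (ε : ℝ), 0 < ε →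
    ∃ (d : ℕ) (R : UCP A (MC d)) (S : UCP (MC d) B), ∀ a ∈ F, ‖S.toFun (R.toFun a) - ι a‖ ≤ ε

/-- Exactness in the form of nuclear embeddability (Kirchberg). -/
def Exact (A : Type u) [CStarAlgebra A] : Prop :=
  ∃ (B : Type u) (_ : CStarAlgebra B) (ι : A →⋆ₐ[ℂ] B), NuclearEmbedding ι

/-- The C*-algebra of `2 x 2` matrices over `A`. -/
def M2 (A : Type u) : Type u := CStarMatrix (Fin 2) (Fin 2) A

noncomputable instance instM2 (A : Type u) [CStarAlgebra A] [PartialOrder A] [StarOrderedRing A] :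
    CStarAlgebra (M2 A) := CStarMatrix.instCStarAlgebra

/-- The entries of a `2 x 2` matrix over `A`. -/
def entry {A : Type u} (x : M2 A) (i j : Fin 2) : A := x i j

/-- The C*-algebra of continuous functions from `[0,1]` to the C*-algebra `B`. -/
def CI (B : Type u) [CStarAlgebra B] : Type u := C(unitInterval, B)

noncomputable instance instCI (B : Type u) [CStarAlgebra B] : CStarAlgebra (CI B) :=
  ContinuousMap.instCStarAlgebra

/-- The value of a function in `C([0,1], B)` at `t`. -/
def ev {B : Type u} [CStarAlgebra B] (f : CI B) (t : unitInterval) : B :=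
  ContinuousMap.toFun f t

section

variable {A : Type u} [CStarAlgebra A] [PartialOrder A] [StarOrderedRing A]

theorem ev_mul {B : Type u} [CStarAlgebra B] (f g : CI B) (t : unitInterval) :
    ev (f * g) t = ev f t * ev g t := rfl

theorem ev_add {B : Type u} [CStarAlgebra B] (f g : CI B) (t : unitInterval) :
    ev (f + g) t = ev f t + ev g t := rfl

theorem ev_star {B : Type u} [CStarAlgebra B] (f : CI B) (t : unitInterval) :
    ev (star f) t = star (ev f t) := rfl

theorem ev_algebraMap {B : Type u} [CStarAlgebra B] (z : ℂ) (t : unitInterval) :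
    ev (algebraMap ℂ (CI B) z) t = z • 1 := by
  rw [← Algebra.algebraMap_eq_smul_one]; rfl

theorem entry_mul (x y : M2 A) (i j : Fin 2) :
    entry (x * y) i j = entry x i 0 * entry y 0 j + entry x i 1 * entry y 1 j := by
  show (_ : CStarMatrix (Fin 2) (Fin 2) A) i j = _
  exact (CStarMatrix.mul_apply (M := (show CStarMatrix (Fin 2) (Fin 2) A from x))
    (N := (show CStarMatrix (Fin 2) (Fin 2) A from y)) (i := i) (k := j)).trans
    (Fin.sum_univ_two _)

theorem entry_add (x y : M2 A) (i j : Fin 2) : entry (x + y) i j = entry x i j + entry y i j := rfl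

theorem entry_star (x : M2 A) (i j : Fin 2) : entry (star x) i j = star (entry x j i) := rfl

theorem entry_smul_one (z : ℂ) (i j : Fin 2) (h : i ≠ j) :
    entry (z • (1 : M2 A)) i j = 0 := by
  show z • ((1 : CStarMatrix (Fin 2) (Fin 2) A) i j) = 0
  rw [CStarMatrix.one_apply_ne h, smul_zero]

end

section

variable (A : Type u) [CStarAlgebra A] [PartialOrder A] [StarOrderedRing A]

/-- The *-subalgebra `D(A)` of `C([0,1], M_2(A))` of all `f` with `f(0)` scalar and `f(1)` diagonal. -/
def D : StarSubalgebra ℂ (CI (M2 A)) where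
  carrier := {f | (∃ z : ℂ, ev f 0 = z • 1) ∧ entry (ev f 1) 0 1 = 0 ∧ entry (ev f 1) 1 0 = 0}
  mul_mem' := by
    rintro f g ⟨⟨z, hz⟩, h1, h2⟩ ⟨⟨w, hw⟩, h3, h4⟩
    refine ⟨⟨z * w, ?_⟩, ?_, ?_⟩
    · rw [ev_mul, hz, hw, smul_mul_smul_comm, one_mul]
    · rw [ev_mul, entry_mul, h1, h3, mul_zero, zero_mul, add_zero]
    · rw [ev_mul, entry_mul, h2, h4, mul_zero, zero_mul, add_zero]
  add_mem' := by
    rintro f g ⟨⟨z, hz⟩, h1, h2⟩ ⟨⟨w, hw⟩, h3, h4⟩
    refine ⟨⟨z + w, ?_⟩, ?_, ?_⟩
    · rw [ev_add, hz, hw, add_smul]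
    · rw [ev_add, entry_add, h1, h3, add_zero]
    · rw [ev_add, entry_add, h2, h4, add_zero]
  algebraMap_mem' := by
    intro z
    refine ⟨⟨z, ev_algebraMap z 0⟩, ?_, ?_⟩
    · rw [ev_algebraMap]; exact entry_smul_one z 0 1 (by decide)
    · rw [ev_algebraMap]; exact entry_smul_one z 1 0 (by decide)
  star_mem' := by
    rintro f ⟨⟨z, hz⟩, h1, h2⟩
    refine ⟨⟨star z, ?_⟩, ?_, ?_⟩
    · rw [ev_star, hz, star_smul, star_one]
    · rw [ev_star, entry_star, h2, star_zero]
    · rw [ev_star, entry_star, h1, star_zero]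

theorem continuous_ev {B : Type u} [CStarAlgebra B] (t : unitInterval) :
    Continuous fun f : CI B => ev f t :=
  (continuous_eval_const t : Continuous fun f : C(unitInterval, B) => f t)

theorem continuous_entry (i j : Fin 2) : Continuous fun x : M2 A => entry x i j := by
  refine Metric.continuous_iff.2 fun b ε hε => ⟨ε, hε, fun a ha => ?_⟩
  rw [dist_eq_norm] at ha ⊢
  have h := CStarMatrix.norm_entry_le_norm
    (M := (show CStarMatrix (Fin 2) (Fin 2) A from a - b)) (i := i) (j := j)
  exact lt_of_le_of_lt h ha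

instance isClosed_D : IsClosed (D A : Set (CI (M2 A))) := by
  have h1 : IsClosed {f : CI (M2 A) | ev f 0 ∈ (Submodule.span ℂ {(1 : M2 A)} : Set (M2 A))} :=
    IsClosed.preimage (continuous_ev 0) (Submodule.closed_of_finiteDimensional _)
  have h2 : IsClosed {f : CI (M2 A) | entry (ev f 1) 0 1 = 0} :=
    isClosed_eq ((continuous_entry A 0 1).comp (continuous_ev 1)) continuous_const
  have h3 : IsClosed {f : CI (M2 A) | entry (ev f 1) 1 0 = 0} :=
    isClosed_eq ((continuous_entry A 1 0).comp (continuous_ev 1)) continuous_const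
  have h := h1.inter (h2.inter h3)
  convert h using 1
  ext f
  constructor
  · rintro ⟨⟨z, hz⟩, h1, h2⟩
    exact ⟨Submodule.mem_span_singleton.2 ⟨z, hz.symm⟩, h1, h2⟩
  · rintro ⟨hz, h1, h2⟩
    obtain ⟨z, hz⟩ := Submodule.mem_span_singleton.1 hz
    exact ⟨⟨z, hz.symm⟩, h1, h2⟩

/-- `D(A)` as a C*-algebra. -/
def DAlg : Type u := D A

noncomputable instance instDAlg : CStarAlgebra (DAlg A) :=
  StarSubalgebra.cstarAlgebra (D A)

end

end QTS
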