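import Mathlib
import Pool.Agent.Helper58.QT.Main2
import Pool.Agent.Helper58.QT.Stmt

/-!
# Project QT: from the working definitions (namespace QT) to the light definitions (namespace QTS)
-/

open scoped Matrix Matrix.Norms.L2Operator ComplexOrder
open Filter Topology

namespace QTS

universe u v

theorem isCP_of {A B : Type*} [Ring A] [StarRing A] [Algebra ℂ A] [Ring B] [StarRing B]
    [Algebra ℂ B] (φ : A →ₗ[ℂ] B)
    (h : ∀ (m : ℕ) (M : Fin m → Fin m → A), ∃ N : Fin m → Fin m → B,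
      ∀ i j, φ (∑ k, star (M k i) * M k j) = ∑ k, star (N k i) * N k j) : QT.IsCP φ := by
  intro m M
  obtain ⟨N, hN⟩ := h m M
  refine ⟨Matrix.of N, ?_⟩
  ext i j
  simp only [Matrix.map_apply, Matrix.mul_apply, Matrix.conjTranspose_apply, Matrix.of_apply]
  exact hN i j

theorem isCP_out {A B : Type*} [Ring A] [StarRing A] [Algebra ℂ A] [Ring B] [StarRing B]
    [Algebra ℂ B] {φ : A →ₗ[ℂ] B} (h : QT.IsCP φ) (m : ℕ) (M : Fin m → Fin m → A) :
    ∃ N : Fin m → Fin m → B,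
      ∀ i j, φ (∑ k, star (M k i) * M k j) = ∑ k, star (N k i) * N k j := by
  obtain ⟨N, hN⟩ := h m (Matrix.of M)
  refine ⟨N, fun i j => ?_⟩
  have := congrFun (congrFun hN i) j
  simp only [Matrix.map_apply, Matrix.mul_apply, Matrix.conjTranspose_apply,
    Matrix.of_apply] at this
  exact this

/-- a unital completely positive map into matrices as a linear map -/
noncomputable def toLin {A : Type u} [CStarAlgebra A] {k : ℕ} (φ : UCP A (MC k)) :
    A →ₗ[ℂ] Matrix (Fin k) (Fin k) ℂ where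
  toFun := φ.toFun
  map_add' := φ.map_add
  map_smul' := φ.map_smul

theorem toLin_cp {A : Type u} [CStarAlgebra A] {k : ℕ} (φ : UCP A (MC k)) :
    QT.IsCP (toLin φ) := isCP_of _ fun m M => φ.cp m M

theorem toLin_one {A : Type u} [CStarAlgebra A] {k : ℕ} (φ : UCP A (MC k)) :
    toLin φ 1 = 1 := φ.map_one

/-- a unital completely positive linear map into matrices as a `UCP` -/
noncomputable def ofLin {A : Type u} [CStarAlgebra A] {k : ℕ} (φ : A →ₗ[ℂ] Matrix (Fin k) (Fin k) ℂ)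
    (hφ : QT.IsCP φ) (h1 : φ 1 = 1) : UCP A (MC k) where
  toFun := φ
  map_add := map_add φ
  map_smul := map_smul φ
  map_one := h1
  cp := isCP_out hφ

theorem ntr_eq {k : ℕ} (x : Matrix (Fin k) (Fin k) ℂ) : ntr (k := k) x = QT.ntr x := by
  unfold ntr QT.ntr
  rw [Fintype.card_fin]

theorem norm2_eq {k : ℕ} (x : Matrix (Fin k) (Fin k) ℂ) : norm2 (k := k) x = QT.norm2 x := by
  unfold norm2 QT.norm2
  rw [← ntr_eq]
  rfl

/-- traces in the two senses -/
noncomputable def toQT {A : Type u} [CStarAlgebra A] (τ : Trace A) : QT.TracialState A where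
  toFun := { toFun := τ.toFun, map_add' := τ.map_add, map_smul' := τ.map_smul }
  pos := τ.pos
  map_one := τ.map_one
  comm := τ.comm

theorem amenable_toQT {A : Type u} [CStarAlgebra A] {τ : Trace A} (h : Amenable τ) :
    (toQT τ).IsAmenable := by
  obtain ⟨k, φ, hk, hm, ht⟩ := h
  refine ⟨k, fun n => toLin (φ n), hk, fun n => toLin_cp _, fun n => toLin_one _,
    fun a b => ?_, fun a => ?_⟩
  · refine (hm a b).congr fun n => ?_
    exact norm2_eq _
  · refine (ht a).congr fun n => ?_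
    exact ntr_eq _

theorem qd_transfer {B' B : Type u} [CStarAlgebra B'] [CStarAlgebra B] (e : B' ≃⋆ₐ[ℂ] B)
    (σ' : QT.TracialState B') (σ : Trace B) (h : ∀ b, σ.toFun (e b) = σ'.toFun b) :
    Quasidiagonal σ ↔ σ'.IsQD := by
  constructor
  · rintro ⟨k, φ, hk, hm, ht⟩
    refine ⟨k, fun n => (toLin (φ n)) ∘ₗ ((e : B' →⋆ₐ[ℂ] B) : B' →ₗ[ℂ] B), hk, fun n => ?_,
      fun n => ?_, fun a b => ?_, fun a => ?_⟩
    · exact QT.isCP_comp (QT.isCP_hom (e : B' →⋆ₐ[ℂ] B)) (toLin_cp _)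
    · show toLin (φ n) (e 1) = 1
      rw [map_one, toLin_one]
    · refine (hm (e a) (e b)).congr fun n => ?_
      show _ = ‖toLin (φ n) (e (a * b)) - toLin (φ n) (e a) * toLin (φ n) (e b)‖
      rw [map_mul]
      rfl
    · have := ht (e a)
      rw [h] at this
      refine this.congr fun n => ?_
      exact ntr_eq _
  · rintro ⟨k, φ, hk, hcp, h1, hm, ht⟩
    have h1' : ∀ n, (φ n ∘ₗ ((e.symm : B →⋆ₐ[ℂ] B') : B →ₗ[ℂ] B')) 1 = 1 := by
      intro n
      show φ n (e.symm 1) = 1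
      rw [map_one, h1]
    refine ⟨k, fun n => ofLin (φ n ∘ₗ ((e.symm : B →⋆ₐ[ℂ] B') : B →ₗ[ℂ] B'))
      (QT.isCP_comp (QT.isCP_hom (e.symm : B →⋆ₐ[ℂ] B')) (hcp n)) (h1' n), hk, fun a b => ?_,
      fun a => ?_⟩
    · refine (hm (e.symm a) (e.symm b)).congr fun n => ?_
      rw [← map_mul]
      rfl
    · have := ht (e.symm a)
      rw [← h, e.apply_symm_apply] at this
      refine this.congr fun n => ?_
      exact (ntr_eq _).symm

/-- the transport of a tracial state along an isomorphism -/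
noncomputable def push {B' B : Type u} [CStarAlgebra B'] [CStarAlgebra B] (e : B' ≃⋆ₐ[ℂ] B)
    (σ' : QT.TracialState B') : Trace B where
  toFun b := σ'.toFun (e.symm b)
  map_add a b := by rw [map_add, map_add]
  map_smul c a := by rw [map_smul, map_smul, smul_eq_mul]
  pos a := by rw [map_mul e.symm, map_star e.symm]; exact σ'.pos _
  map_one := by rw [map_one, σ'.map_one]
  comm a b := by rw [map_mul e.symm, map_mul e.symm, σ'.comm]

theorem push_apply {B' B : Type u} [CStarAlgebra B'] [CStarAlgebra B] (e : B' ≃⋆ₐ[ℂ] B)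
    (σ' : QT.TracialState B') (b : B') : (push e σ').toFun (e b) = σ'.toFun b := by
  show σ'.toFun (e.symm (e b)) = _
  rw [e.symm_apply_apply]

theorem face_transfer {B' B : Type u} [CStarAlgebra B'] [CStarAlgebra B] (e : B' ≃⋆ₐ[ℂ] B)
    (h : FaceQD B) : QT.IsFace {σ : QT.TracialState B' | σ.IsQD} := by
  have hmix : ∀ (σ₁ σ₂ : QT.TracialState B') (t : ℝ) (h0 : 0 ≤ t) (h1 : t ≤ 1) (a : B),
      (push e (σ₁.mix σ₂ t h0 h1)).toFun a =
        t * (push e σ₁).toFun a + (1 - t) * (push e σ₂).toFun a := by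
    intro σ₁ σ₂ t h0 h1 a
    show (t : ℂ) * σ₁.toFun (e.symm a) + ((1 - t : ℝ) : ℂ) * σ₂.toFun (e.symm a) =
      (t : ℂ) * σ₁.toFun (e.symm a) + (1 - (t : ℂ)) * σ₂.toFun (e.symm a)
    push_cast
    ring
  have hq : ∀ σ : QT.TracialState B', Quasidiagonal (push e σ) ↔ σ.IsQD := fun σ =>
    qd_transfer e σ (push e σ) (push_apply e σ)
  refine ⟨fun σ₁ hσ₁ σ₂ hσ₂ t h0 h1 => ?_, fun σ₁ σ₂ t h0 h1 hσ => ?_⟩
  · exact (hq _).1 (h.1 (push e σ₁) (push e σ₂) (push e (σ₁.mix σ₂ t h0 h1)) t h0 h1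
      (hmix σ₁ σ₂ t h0 h1) ((hq _).2 hσ₁) ((hq _).2 hσ₂))
  · have h2 := h.2 (push e σ₁) (push e σ₂) (push e (σ₁.mix σ₂ t h0.le h1.le)) t h0 h1
      (hmix σ₁ σ₂ t h0.le h1.le) ((hq _).2 hσ)
    exact ⟨(hq _).1 h2.1, (hq _).1 h2.2⟩

theorem exact_toQT {A : Type u} [CStarAlgebra A] (h : Exact A) : QT.NuclearlyEmbeddable A := by
  obtain ⟨B, instB, ι, hι, h⟩ := h
  refine ⟨B, instB, ι, hι, fun F ε hε => ?_⟩
  obtain ⟨d, R, S, hRS⟩ := h F ε hε
  refine ⟨d, toLin R, { toFun := S.toFun, map_add' := S.map_add, map_smul' := S.map_smul },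
    toLin_cp R, isCP_of _ fun m M => S.cp m M, toLin_one R, S.map_one, hRS⟩

section

variable (A : Type u) [CStarAlgebra A] [PartialOrder A] [StarOrderedRing A]

theorem mem_D_iff (f : C(unitInterval, QT.M2 A)) :
    f ∈ QT.D A ↔ (show CI (M2 A) from f) ∈ D A := by
  constructor
  · rintro ⟨⟨z, hz⟩, h1, h2⟩
    refine ⟨⟨z, ?_⟩, h1, h2⟩
    rw [← Algebra.algebraMap_eq_smul_one]
    exact hz
  · rintro ⟨⟨z, hz⟩, h1, h2⟩
    refine ⟨⟨z, ?_⟩, h1, h2⟩
    rw [← Algebra.algebraMap_eq_smul_one] at hz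
    exact hz

/-- the identity map as an isomorphism -/
noncomputable def eD : QT.D A ≃⋆ₐ[ℂ] DAlg A where
  toFun f := ⟨f.1, (mem_D_iff A f.1).1 f.2⟩
  invFun f := ⟨f.1, (mem_D_iff A f.1).2 f.2⟩
  left_inv f := rfl
  right_inv f := rfl
  map_mul' f g := rfl
  map_add' f g := rfl
  map_star' f := rfl
  map_smul' c f := rfl

end

theorem final (A : Type u) [CStarAlgebra A] [PartialOrder A] [StarOrderedRing A]
    [TopologicalSpace.SeparableSpace A] (hA : Exact A) (τ₀ : Trace A) (hf : Faithful τ₀)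
    (ham₀ : Amenable τ₀) (hface : FaceQD (DAlg A)) (τ : Trace A) (ham : Amenable τ) :
    Quasidiagonal τ :=
  (qd_transfer (StarAlgEquiv.refl ℂ A) (toQT τ) τ fun _ => rfl).2
    (QT.main2 A (exact_toQT hA) (toQT τ₀) hf (amenable_toQT ham₀) (face_transfer (eD A) hface)
      (toQT τ) (amenable_toQT ham))

end QTS
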